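import Pool.Agent.Lib.MP_ca56d1_nt.CU.U.Cone

/-! Admissibility of wedges, half planes and boxes. -/

namespace Pool.Agent.CU

open Complex Filter Topology MeasureTheory Pool.Agent.RM
open scoped Real Classical

namespace AdmAux

open ConeAux

/-- `f` has a jet of order three at zero. -/
def Jt (f : ℝ → ℝ) : Prop := ∃ a₀ a₁ a₂ a₃, J f a₀ a₁ a₂ a₃

theorem Jt.mul {f g : ℝ → ℝ} (hf : Jt f) (hg : Jt g) : Jt fun t => f t * g t := by
  obtain ⟨_, _, _, _, hf⟩ := hf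
  obtain ⟨_, _, _, _, hg⟩ := hg
  exact ⟨_, _, _, _, hf.mul hg⟩

theorem Jt.add {f g : ℝ → ℝ} (hf : Jt f) (hg : Jt g) : Jt fun t => f t + g t := by
  obtain ⟨a₀, a₁, a₂, a₃, hf⟩ := hf
  obtain ⟨b₀, b₁, b₂, b₃, hg⟩ := hg
  refine ⟨a₀ + b₀, a₁ + b₁, a₂ + b₂, a₃ + b₃, ?_⟩
  unfold J at hf hg ⊢
  refine (hf.add hg).congr fun t => ?_
  ring

theorem Jt.congr {f g : ℝ → ℝ} (hf : Jt f) (h : ∀ t, 0 < t → f t = g t) : Jt g := by
  obtain ⟨a₀, a₁, a₂, a₃, hf⟩ := hf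
  refine ⟨a₀, a₁, a₂, a₃, ?_⟩
  unfold J at hf ⊢
  refine hf.congr' ?_
  filter_upwards [self_mem_nhdsWithin] with t ht
  rw [h t ht]

theorem jt_poly (a b : ℝ) : Jt fun t => a + b * t :=
  Jt.congr ⟨_, _, _, _, J.poly a b 0⟩ fun t _ => by ring

theorem jt_exp (c : ℝ) : Jt fun t => Real.exp (-t * c) := ⟨_, _, _, _, jE c⟩

theorem jt_sum {ι : Type} (s : Finset ι) (f : ι → ℝ → ℝ) (h : ∀ i, Jt (f i)) :
    Jt fun t => ∑ i ∈ s, f i t := by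
  induction s using Finset.induction_on with
  | empty => exact (jt_poly 0 0).congr fun t _ => by simp
  | insert i s hi ih => exact ((h i).add ih).congr fun t _ => by rw [Finset.sum_insert hi]

theorem jt_inv {f : ℝ → ℝ} {a₀ a₁ a₂ a₃ : ℝ} (hf : J f a₀ a₁ a₂ a₃) (h0 : a₀ ≠ 0) :
    Jt fun t => (f t)⁻¹ := by
  have hp := (J.poly (1 / a₀) (-a₁ / a₀ ^ 2) ((a₁ ^ 2 - a₀ * a₂) / a₀ ^ 3)).mul hf
  have hl := hf.lim
  unfold J at hp
  refine ⟨1 / a₀, -a₁ / a₀ ^ 2, (a₁ ^ 2 - a₀ * a₂) / a₀ ^ 3, _, Tendsto.congr' ?_ (hp.neg.div hl h0)⟩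
  filter_upwards [self_mem_nhdsWithin, hl.eventually_ne h0] with t ht h1
  have ht' : t ≠ 0 := ne_of_gt ht
  simp only [Pi.div_apply]
  field_simp
  ring

theorem xp_of {G : ℝ → ℝ} (h : Jt fun t => t ^ 2 * G t) : ∃ c, Xp G c := by
  obtain ⟨a₀, a₁, a₂, a₃, h⟩ := h
  refine ⟨![a₀, a₁, a₂, a₃], ?_⟩
  unfold J at h
  unfold Xp
  simp only [Matrix.cons_val_zero, Matrix.cons_val_one, Matrix.cons_val]
  refine h.congr' ?_
  filter_upwards [self_mem_nhdsWithin] with t ht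
  have ht' : t ≠ 0 := ne_of_gt ht
  field_simp

/-- A set of integers that is a half line or empty up to a finite set. -/
def Tm (I : Set ℤ) : Prop :=
  (∃ m, ∀ i ∈ I, m ≤ i) ∧ ((∃ n, ∀ i, n ≤ i → i ∈ I) ∨ ∃ n, ∀ i ∈ I, i ≤ n)

theorem fin_sum {I : Set ℤ} (hI : I.Finite) (k : ℝ) : ∃ F : ℝ → ℝ,
    (∀ t, HasSum (fun i : I => Real.exp (-t * ((i : ℤ) * k))) (F t)) ∧ Jt F := by
  refine ⟨fun t => ∑ i ∈ hI.toFinset, Real.exp (-t * (i * k)), fun t => ?_,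
    jt_sum _ _ fun i => jt_exp _⟩
  refine (hasSum_subtype_iff_indicator (f := fun i : ℤ => Real.exp (-t * (i * k)))).2 ?_
  have h := hasSum_subtype_iff_indicator.1
    (Finset.hasSum hI.toFinset fun i : ℤ => Real.exp (-t * (i * k)))
  rwa [hI.coe_toFinset] at h

theorem ray_sum (n : ℤ) {k t : ℝ} (hk : 0 < k) (ht : 0 < t) :
    HasSum (fun i : Set.Ici n => Real.exp (-t * ((i : ℤ) * k)))
      (Real.exp (-t * (n * k)) * (1 - Real.exp (-t * k))⁻¹) := by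
  let f : ℕ → Set.Ici n := fun j => ⟨n + j, by simp⟩
  have hf : Function.Bijective f := by
    refine ⟨fun i j h => ?_, fun i => ⟨(i.1 - n).toNat, Subtype.ext ?_⟩⟩
    · have : n + (i : ℤ) = n + j := congrArg Subtype.val h
      omega
    · have : n ≤ i.1 := i.2
      show n + ((i.1 - n).toNat : ℤ) = i.1
      omega
  rw [← (Equiv.ofBijective f hf).hasSum_iff]
  refine ((hasSum_geometric_of_lt_one (Real.exp_pos (-t * k)).le (one_sub_pos ht hk)).mul_left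
    (Real.exp (-t * (n * k)))).congr_fun fun j => ?_
  simp only [Function.comp, Equiv.ofBijective_apply, f]
  rw [← Real.exp_nat_mul, ← Real.exp_add]
  congr 1
  push_cast
  ring

theorem tm_sum {I : Set ℤ} (hI : Tm I) {k : ℝ} (hk : 0 < k) : ∃ F : ℝ → ℝ,
    (∀ t, 0 < t → HasSum (fun i : I => Real.exp (-t * ((i : ℤ) * k))) (F t)) ∧
      Jt fun t => t * F t := by
  obtain ⟨⟨m, hm⟩, ⟨n, hn⟩ | ⟨n, hn⟩⟩ := hI
  · have h1 : (I \ Set.Ici n).Finite :=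
      (Set.finite_Icc m n).subset fun i hi => ⟨hm i hi.1, (not_le.1 hi.2).le⟩
    obtain ⟨F, hF, hJ⟩ := fin_sum h1 k
    refine ⟨fun t => F t + Real.exp (-t * (n * k)) * (1 - Real.exp (-t * k))⁻¹, fun t ht => ?_, ?_⟩
    · have h2 := HasSum.add_disjoint (f := fun i : ℤ => Real.exp (-t * (i * k)))
        Set.disjoint_sdiff_left (hF t) (ray_sum n hk ht)
      have h3 : Set.Ici n ⊆ I := fun i hi => hn i hi
      rw [Set.sdiff_union_of_subset h3] at h2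
      exact h2
    · refine (((jt_poly 0 1).mul hJ).add ((jt_exp (n * k)).mul (jt_inv (jA k) hk.ne'))).congr
        fun t ht => ?_
      rw [inv_div, div_eq_mul_inv]
      ring
  · obtain ⟨F, hF, hJ⟩ := fin_sum ((Set.finite_Icc m n).subset fun i hi => ⟨hm i hi, hn i hi⟩) k
    exact ⟨F, fun t _ => hF t, ((jt_poly 0 1).mul hJ).congr fun t _ => by ring⟩

variable {K : Type} [Field K] [CharZero K] {ρ : K →+* ℝ} {σ : K →+* ℂ}

omit [CharZero K] in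
theorem ht_int (γ x : K) (n : ℤ) : ht σ γ (n * x) = n * ht σ γ x := by
  simp [ht, mul_div_assoc]

theorem prod_adm {γ α β : K} (x₀ : K) (hγ : γ ≠ 0) (hP : 0 < ht σ γ α) (hQ : 0 < ht σ γ β)
    (hi : ∀ i j k : ℤ, (i : K) * α + j * β + k * γ = 0 → i = 0 ∧ j = 0 ∧ k = 0) {I J : Set ℤ}
    (hI : Tm I) (hJ : Tm J) :
    Adm σ γ {x | ∃ i ∈ I, ∃ j ∈ J, ∃ k : ℤ, x = x₀ + i * α + j * β + k * γ} := by
  let f : I × J → lines γ {x | ∃ i ∈ I, ∃ j ∈ J, ∃ k : ℤ, x = x₀ + i * α + j * β + k * γ} :=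
    fun p => ⟨QuotientAddGroup.mk (x₀ + (p.1 : ℤ) * α + (p.2 : ℤ) * β),
      ⟨_, ⟨p.1, p.1.2, p.2, p.2.2, 0, by simp⟩, rfl⟩⟩
  have hf : Function.Bijective f := by
    refine ⟨?_, ?_⟩
    · rintro ⟨⟨i, hi1⟩, ⟨j, hj1⟩⟩ ⟨⟨i', hi2⟩, ⟨j', hj2⟩⟩ h
      have h1 : (QuotientAddGroup.mk (x₀ + i * α + j * β) : Ln γ) =
          QuotientAddGroup.mk (x₀ + i' * α + j' * β) := congrArg Subtype.val h
      obtain ⟨k, hk⟩ := AddSubgroup.mem_zmultiples_iff.1 (QuotientAddGroup.eq.1 h1)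
      rw [zsmul_eq_mul] at hk
      obtain ⟨a, b, -⟩ := hi (i - i') (j - j') k (by
        push_cast
        linear_combination hk)
      exact Prod.ext (Subtype.ext (by show i = i'; omega)) (Subtype.ext (by show j = j'; omega))
    · rintro ⟨d, x, ⟨i, hi1, j, hj1, k, rfl⟩, rfl⟩
      refine ⟨(⟨i, hi1⟩, ⟨j, hj1⟩), Subtype.ext ?_⟩
      refine QuotientAddGroup.eq.2 (AddSubgroup.mem_zmultiples_iff.2 ⟨k, ?_⟩)
      rw [zsmul_eq_mul]
      ring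
  obtain ⟨F, hF, hF'⟩ := tm_sum hI hP
  obtain ⟨G, hG, hG'⟩ := tm_sum hJ hQ
  have hs : ∀ t : ℝ, 0 < t → HasSum
      (fun d : lines γ {x | ∃ i ∈ I, ∃ j ∈ J, ∃ k : ℤ, x = x₀ + i * α + j * β + k * γ} =>
        Real.exp (-t * lv σ γ d.1)) (Real.exp (-t * ht σ γ x₀) * (F t * G t)) := by
    intro t ht0
    rw [← (Equiv.ofBijective f hf).hasSum_iff]
    have g3 := ((hF t ht0).mul (hG t ht0) ((hF t ht0).summable.mul_of_nonneg (hG t ht0).summable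
      (fun n => by positivity) (fun n => by positivity))).mul_left (Real.exp (-t * ht σ γ x₀))
    refine g3.congr_fun fun p => ?_
    simp only [Function.comp, Equiv.ofBijective_apply, f]
    rw [lv_mk σ hγ, ht_add, ht_add, ht_int, ht_int, ← Real.exp_add, ← Real.exp_add]
    congr 1
    ring
  refine ⟨hγ, fun x => ⟨?_, ?_⟩, fun t ht0 => (hs t ht0).summable, xp_of ?_⟩
  · rintro ⟨i, hi1, j, hj1, k, h⟩
    refine ⟨i, hi1, j, hj1, k - 1, ?_⟩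
    push_cast
    linear_combination h
  · rintro ⟨i, hi1, j, hj1, k, h⟩
    refine ⟨i, hi1, j, hj1, k + 1, ?_⟩
    push_cast
    linear_combination h
  · refine ((jt_exp (ht σ γ x₀)).mul (hF'.mul hG')).congr fun t ht0 => ?_
    rw [gf, (hs t ht0).tsum_eq]
    ring

/-- A set of rationals that is a half line or empty up to a bounded set. -/
def Tq (U : Set ℚ) : Prop :=
  (∃ m, ∀ r ∈ U, m ≤ r) ∧ ((∃ n, ∀ r, n ≤ r → r ∈ U) ∨ ∃ n, ∀ r ∈ U, r ≤ n)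

theorem Tq.tm {U : Set ℚ} (h : Tq U) (c : ℚ) {P : ℚ} (hP : 0 < P) :
    Tm {i : ℤ | c + i * P ∈ U} := by
  obtain ⟨⟨m, hm⟩, h⟩ := h
  refine ⟨⟨⌈(m - c) / P⌉, fun i hi => Int.ceil_le.2 ?_⟩, ?_⟩
  · rw [div_le_iff₀ hP]
    linarith [hm _ hi]
  · rcases h with ⟨n, hn⟩ | ⟨n, hn⟩
    · refine Or.inl ⟨⌈(n - c) / P⌉, fun i hi => hn _ ?_⟩
      have := Int.ceil_le.1 hi
      rw [div_le_iff₀ hP] at this
      linarith
    · refine Or.inr ⟨⌊(n - c) / P⌋, fun i hi => Int.le_floor.2 ?_⟩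
      rw [le_div_iff₀ hP]
      linarith [hn _ hi]

omit [CharZero K] in
theorem union (hB : LpB σ) {γ : K} (hγ : γ ≠ 0) (S : K → Set K) (t : Finset K)
    (h1 : ∀ z, Adm σ γ (S z)) (h2 : ∀ z ∈ t, ∀ z' ∈ t, ∀ x, x ∈ S z → x ∈ S z' → z = z') :
    Adm σ γ (⋃ z ∈ t, S z) := by
  induction t using Finset.induction_on with
  | empty => simpa using (hB.empty γ hγ).1
  | insert z t hz ih =>
    rw [Finset.set_biUnion_insert]
    refine (hB.union γ _ _ (h1 z) (ih fun a ha b hb => h2 a (Finset.mem_insert_of_mem ha) b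
      (Finset.mem_insert_of_mem hb)) (Set.disjoint_left.2 fun x hx hx' => ?_)).1
    obtain ⟨z', h3, h4⟩ := Set.mem_iUnion₂.1 hx'
    exact hz (h2 z (Finset.mem_insert_self _ _) z' (Finset.mem_insert_of_mem h3) x hx h4 ▸ h3)

theorem lin3 (a : K →ₗ[ℚ] ℚ) (g α β γ : K) (i j k : ℤ) :
    a (g + i * α + j * β + k * γ) = a g + i * a α + j * a β + k * a γ := by
  simp only [map_add, ← zsmul_eq_mul, map_zsmul]

theorem main (h2 : Bas2 ρ σ) (hB : LpB σ) {L : Submodule ℤ K} (y : K) {γ : K}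
    {a b : K →ₗ[ℚ] ℚ} (hL : Lt L) (hγ : γ ∈ L) (ho : Ori σ γ a b) {U V : Set ℚ} (hU : Tq U)
    (hV : Tq V) : Adm σ γ {x | x ∈ coset L y ∧ a x ∈ U ∧ -b x ∈ V} := by
  obtain ⟨α₀, a1, b1⟩ := h2.surj γ a b ho 1 0
  obtain ⟨β₀, a2, b2⟩ := h2.surj γ a b ho 0 (-1)
  obtain ⟨P, hP, hα⟩ := hL.full α₀
  obtain ⟨Q, hQ, hβ⟩ := hL.full β₀
  have hP' : (0 : ℚ) < P := Nat.cast_pos.2 (Nat.pos_of_ne_zero hP)
  have hQ' : (0 : ℚ) < Q := Nat.cast_pos.2 (Nat.pos_of_ne_zero hQ)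
  have a3 : a (P * α₀) = P := by rw [← nsmul_eq_mul, map_nsmul, a1]; simp
  have b3 : b (P * α₀) = 0 := by rw [← nsmul_eq_mul, map_nsmul, b1]; simp
  have a4 : a (Q * β₀) = 0 := by rw [← nsmul_eq_mul, map_nsmul, a2]; simp
  have b4 : b (Q * β₀) = -Q := by rw [← nsmul_eq_mul, map_nsmul, b2]; simp
  generalize (P : K) * α₀ = α at hα a3 b3
  generalize (Q : K) * β₀ = β at hβ a4 b4
  have hi : ∀ i j k : ℤ, (i : K) * α + j * β + k * γ = 0 → i = 0 ∧ j = 0 ∧ k = 0 := by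
    intro i j k h
    have e1 := lin3 a 0 α β γ i j k
    have e2 := lin3 b 0 α β γ i j k
    rw [zero_add, h, map_zero] at e1 e2
    rw [a3, a4, ho.ka] at e1
    rw [b3, b4, ho.kb] at e2
    have i0 : (i : ℚ) = 0 := by
      have : (i : ℚ) * P = 0 := by linarith
      exact (mul_eq_zero.1 this).resolve_right hP'.ne'
    have j0 : (j : ℚ) = 0 := by
      have : (j : ℚ) * Q = 0 := by linarith
      exact (mul_eq_zero.1 this).resolve_right hQ'.ne'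
    have i1 : i = 0 := by exact_mod_cast i0
    have j1 : j = 0 := by exact_mod_cast j0
    subst i1 j1
    refine ⟨rfl, rfl, ?_⟩
    simpa [ho.ne] using h
  obtain ⟨L', hL', hm⟩ := h2.lt_span α β γ hi
  have hle : L' ≤ L := by
    intro x hx
    obtain ⟨i, j, k, rfl⟩ := (hm x).1 hx
    simp only [← zsmul_eq_mul]
    exact L.add_mem (L.add_mem (L.smul_mem i hα) (L.smul_mem j hβ)) (L.smul_mem k hγ)
  obtain ⟨s, hs1, hs2⟩ := h2.dec L L' y hL hL' hle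
  obtain ⟨c₁, c₂, hc₁, hc₂, hc⟩ := ho.im
  have hα' : 0 < ht σ γ α := by
    rw [ht, hc, a3, b3]
    have : (0 : ℝ) < ((P : ℚ) : ℝ) := by exact_mod_cast hP'
    simpa using mul_pos hc₁ this
  have hβ' : 0 < ht σ γ β := by
    rw [ht, hc, a4, b4]
    have : (0 : ℝ) < ((Q : ℚ) : ℝ) := by exact_mod_cast hQ'
    have := mul_pos (neg_pos.2 hc₂) this
    push_cast at this ⊢
    linarith
  have key := union hB ho.ne (fun g => {x | ∃ i ∈ {i : ℤ | a g + i * (P : ℚ) ∈ U},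
      ∃ j ∈ {j : ℤ | -b g + j * (Q : ℚ) ∈ V}, ∃ k : ℤ, x = g + i * α + j * β + k * γ}) s
    (fun g => prod_adm g ho.ne hα' hβ' hi (hU.tm _ hP') (hV.tm _ hQ')) (by
      rintro g hg g' hg' x ⟨i, -, j, -, k, e⟩ ⟨i', -, j', -, k', e'⟩
      have m1 : x - g ∈ L' := (hm _).2 ⟨i, j, k, by rw [e]; ring⟩
      have m2 : x - g' ∈ L' := (hm _).2 ⟨i', j', k', by rw [e']; ring⟩
      have m3 : x - y ∈ L := by
        have := L.add_mem (hle m1) (hs1 g hg)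
        rwa [sub_add_sub_cancel] at this
      exact (hs2 x m3).unique ⟨hg, m1⟩ ⟨hg', m2⟩)
  have e1 : ∀ (g : K) (i j k : ℤ), a (g + i * α + j * β + k * γ) = a g + i * (P : ℚ) := by
    intro g i j k
    rw [lin3, a3, a4, ho.ka]
    ring
  have e2 : ∀ (g : K) (i j k : ℤ), -b (g + i * α + j * β + k * γ) = -b g + j * (Q : ℚ) := by
    intro g i j k
    rw [lin3, b3, b4, ho.kb]
    ring
  refine Eq.mp (congrArg (Adm σ γ) (Set.ext fun x => ?_)) key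
  simp only [Set.mem_iUnion₂, Set.mem_ofPred_eq]
  constructor
  · rintro ⟨g, hg, i, hi1, j, hj1, k, e⟩
    refine ⟨?_, by rw [e, e1]; exact hi1, by rw [e, e2]; exact hj1⟩
    have := L.add_mem (hle ((hm (x - g)).2 ⟨i, j, k, by rw [e]; ring⟩)) (hs1 g hg)
    rwa [sub_add_sub_cancel] at this
  · rintro ⟨m3, hx1, hx2⟩
    obtain ⟨g, ⟨hg, m1⟩, -⟩ := hs2 x m3
    obtain ⟨i, j, k, e⟩ := (hm _).1 m1
    have e' : x = g + i * α + j * β + k * γ := by linear_combination e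
    exact ⟨g, hg, i, by rw [← e1 g i j k, ← e']; exact hx1, j,
      by rw [← e2 g i j k, ← e']; exact hx2, k, e'⟩

theorem tq_in {a : K →ₗ[ℚ] ℚ} {X : Set K} (hX : HS a X) (hs : ∀ r, ∃ x, a x = r) :
    Tq (a '' X) ∧ ∀ x, a x ∈ a '' X ↔ x ∈ X := by
  obtain ⟨A₀, A₁, h0, h1⟩ := hX.bd
  refine ⟨⟨⟨A₀, ?_⟩, Or.inl ⟨A₁ + 1, fun r hr => ?_⟩⟩, fun x => ⟨?_, fun h => ⟨x, h, rfl⟩⟩⟩
  · rintro r ⟨x, hx, rfl⟩
    exact (h0 x hx).le
  · obtain ⟨x, rfl⟩ := hs r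
    exact ⟨x, h1 x (by linarith), rfl⟩
  · rintro ⟨z, hz, e⟩
    exact hX.sat z x e hz

theorem tq_out {b : K →ₗ[ℚ] ℚ} {Y : Set K} (hY : HS b Y) (hs : ∀ r, ∃ x, b x = r) :
    Tq {r | -r ∉ b '' Y} ∧ ∀ x, -b x ∈ {r | -r ∉ b '' Y} ↔ x ∉ Y := by
  obtain ⟨A₀, A₁, h0, h1⟩ := hY.bd
  refine ⟨⟨⟨-A₁, fun r hr => ?_⟩, Or.inl ⟨-A₀, fun r hr => ?_⟩⟩, fun x => ?_⟩
  · by_contra h
    obtain ⟨x, hx⟩ := hs (-r)
    exact hr ⟨x, h1 x (by linarith [not_le.1 h]), hx⟩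
  · rintro ⟨x, hx, e⟩
    linarith [h0 x hx]
  · rw [Set.mem_ofPred_eq, neg_neg, (tq_in hY hs).2]

theorem tq_Icc (A B : ℚ) : Tq (Set.Icc A B) :=
  ⟨⟨A, fun _ h => h.1⟩, Or.inr ⟨B, fun _ h => h.2⟩⟩

theorem wedge (h2 : Bas2 ρ σ) (hB : LpB σ) {L : Submodule ℤ K} (y : K) {γ : K}
    {a b : K →ₗ[ℚ] ℚ} {X Y : Set K} (hL : Lt L) (hγ : γ ∈ L) (ho : Ori σ γ a b) (hX : HS a X)
    (hY : HS b Y) : Adm σ γ (coset L y ∩ (X \ Y)) := by
  have s1 := tq_in hX fun r => (h2.surj γ a b ho r 0).imp fun _ h => h.1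
  have s2 := tq_out hY fun r => (h2.surj γ a b ho 0 r).imp fun _ h => h.2
  refine Eq.mp (congrArg (Adm σ γ) (Set.ext fun x => ?_)) (main h2 hB y hL hγ ho s1.1 s2.1)
  rw [Set.mem_ofPred_eq, s1.2, s2.2]
  rfl

end AdmAux

variable {K : Type} [Field K] [CharZero K] {ρ : K →+* ℝ} {σ : K →+* ℂ}

open AdmAux in
theorem admS (h2 : Bas2 ρ σ) (hB : LpB σ) : AdmSt σ := by
  refine ⟨fun L y γ a b X Y hL hγ ho hX hY => ⟨wedge h2 hB y hL hγ ho hX hY,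
    wedge h2 hB y hL (L.neg_mem hγ) (h2.neg γ a b ho) hY hX⟩,
    fun L y γ a b r Y hL hγ ho hY => ⟨?_, ?_⟩, fun L y γ a b A₀ A₁ B₀ B₁ hL hγ ho => ?_⟩
  · have s2 := tq_out hY fun r => (h2.surj γ a b ho 0 r).imp fun _ h => h.2
    refine Eq.mp (congrArg (Adm σ γ) (Set.ext fun x => ?_))
      (main h2 hB y hL hγ ho (tq_Icc r r) s2.1)
    rw [Set.mem_ofPred_eq, s2.2, Set.Icc_self, Set.mem_singleton_iff]
    exact and_assoc.symm
  · have s1 := tq_in hY fun r => (h2.surj γ a b ho 0 r).imp fun _ h => h.2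
    refine Eq.mp (congrArg (Adm σ (-γ)) (Set.ext fun x => ?_))
      (main h2 hB y hL (L.neg_mem hγ) (h2.neg γ a b ho) s1.1 (tq_Icc (-r) (-r)))
    rw [Set.mem_ofPred_eq, s1.2, Set.Icc_self, Set.mem_singleton_iff, neg_inj]
    exact ⟨fun h => ⟨⟨h.1, h.2.2⟩, h.2.1⟩, fun h => ⟨h.1.1, h.2, h.1.2⟩⟩
  · have hA := main h2 hB y hL hγ ho (tq_Icc A₀ A₁) (tq_Icc (-B₁) (-B₀))
    have e : {x | x ∈ coset L y ∧ a x ∈ Set.Icc A₀ A₁ ∧ -b x ∈ Set.Icc (-B₁) (-B₀)} =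
        {x | x ∈ coset L y ∧ A₀ ≤ a x ∧ a x ≤ A₁ ∧ B₀ ≤ b x ∧ b x ≤ B₁} := by
      ext x
      simp only [Set.mem_ofPred_eq, Set.mem_Icc, neg_le_neg_iff]
      tauto
    rw [e] at hA
    obtain ⟨c₁, c₂, hc₁, hc₂, hc⟩ := ho.im
    have h1 := (hA.sum 1 one_pos).tendsto_cofinite_zero.eventually_lt_const
      (Real.exp_pos (-1 * (c₁ * A₁ + c₂ * B₀)))
    rw [Filter.eventually_cofinite] at h1
    refine Set.finite_coe_iff.1 (Set.finite_univ_iff.1 (h1.subset ?_))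
    rintro ⟨d, x, hx, rfl⟩ -
    refine not_lt.2 (Real.exp_le_exp.2 ?_)
    have h3 : ((a x : ℚ) : ℝ) ≤ A₁ := by exact_mod_cast hx.2.2.1
    have h4 : ((B₀ : ℚ) : ℝ) ≤ b x := by exact_mod_cast hx.2.2.2.1
    rw [ConeAux.lv_mk σ ho.ne, ht, hc]
    nlinarith

end Pool.Agent.CU
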