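import Pool.Agent.Lib.MP_ca56d1_nt.CU.U.St

/-! More facts on functionals, half spaces and lattices in a complex cubic field. -/

namespace Pool.Agent.CU

open Complex Filter Topology MeasureTheory Pool.Agent.RM
open scoped Real Classical

variable {K : Type} [Field K] [CharZero K] {ρ : K →+* ℝ} {σ : K →+* ℂ}

namespace Bas2Aux

theorem ker (hB : BasSt ρ σ) {γ x : K} {a b : K →ₗ[ℚ] ℚ} (h : Ori σ γ a b) (ha : a x = 0)
    (hb : b x = 0) : ∃ q : ℚ, x = q * γ := by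
  obtain ⟨c₁, c₂, -, -, hc⟩ := h.im
  obtain ⟨q, hq⟩ := hB.rat (x / γ) (by rw [map_div₀, hc, ha, hb]; simp)
  exact ⟨q, by rw [← hq, div_mul_cancel₀ _ h.ne]⟩

theorem surj (hK : CC ρ σ) (hB : BasSt ρ σ) {γ : K} {a b : K →ₗ[ℚ] ℚ} (h : Ori σ γ a b)
    (p q : ℚ) : ∃ x, a x = p ∧ b x = q := by
  have : FiniteDimensional ℚ K := .of_finrank_eq_succ hK.three
  have h1 : LinearMap.ker (a.prod b) ≤ Submodule.span ℚ {γ} := fun x hx => by
    obtain ⟨r, rfl⟩ := ker hB h (congrArg Prod.fst hx) (congrArg Prod.snd hx)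
    exact Submodule.mem_span_singleton.2 ⟨r, Rat.smul_def _ _⟩
  have h2 := Submodule.finrank_mono h1
  have h3 := (a.prod b).finrank_range_add_finrank_ker
  have h4 := (LinearMap.range (a.prod b)).finrank_le
  have h5 : Module.finrank ℚ (ℚ × ℚ) = 2 := by simp
  rw [finrank_span_singleton h.ne] at h2
  rw [hK.three] at h3
  obtain ⟨x, hx⟩ := LinearMap.range_eq_top.1
    (Submodule.eq_top_of_finrank_eq (S := LinearMap.range (a.prod b)) (by omega)) (p, q)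
  exact ⟨x, congrArg Prod.fst hx, congrArg Prod.snd hx⟩

theorem gen (hK : CC ρ σ) (hB : BasSt ρ σ) (s : Finset (K →ₗ[ℚ] ℚ)) (hs : ∀ b ∈ s, b ≠ 0) :
    ∃ a, Fn ρ σ a ∧ ∀ b ∈ s, (¬ ∃ q : ℚ, a = q • b) ∧ ¬ ∃ q : ℚ, b = q • a := by
  have h1 := Subspace.biUnion_ne_univ_of_top_notMem (k := ℚ) (E := Module.Dual ℚ K)
    (s := (insert 0 s).image fun b => Submodule.span ℚ {b}) fun h => by
      obtain ⟨b, -, hb⟩ := Finset.mem_image.1 h
      have h2 := finrank_span_le_card (R := ℚ) ({b} : Set (Module.Dual ℚ K))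
      rw [hb, finrank_top, Subspace.dual_finrank_eq, hK.three] at h2
      simp at h2
  obtain ⟨a, ha⟩ := (Set.ne_univ_iff_exists_notMem _).1 h1
  have h2 : ∀ b ∈ insert 0 s, a ∉ Submodule.span ℚ {b} := fun b hb h =>
    ha (Set.mem_biUnion (Finset.mem_image_of_mem _ hb) h)
  have key : ∀ a : K →ₗ[ℚ] ℚ, (∀ b ∈ insert 0 s, a ∉ Submodule.span ℚ {b}) →
      ∀ b ∈ s, (¬ ∃ q : ℚ, a = q • b) ∧ ¬ ∃ q : ℚ, b = q • a := fun a h b hb => by
    have h3 := h b (Finset.mem_insert_of_mem hb)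
    rw [Submodule.mem_span_singleton] at h3
    refine ⟨fun ⟨q, hq⟩ => h3 ⟨q, hq.symm⟩, fun ⟨q, hq⟩ => h3 ⟨q⁻¹, ?_⟩⟩
    rw [hq, inv_smul_smul₀ fun e => hs b hb (by rw [hq, e, zero_smul])]
  rcases hB.fn a fun e => h2 0 (Finset.mem_insert_self _ _) (by simp [e]) with h | h
  · exact ⟨a, h, key a h2⟩
  · exact ⟨-a, h, key _ fun b hb h => h2 b hb (neg_mem_iff.1 h)⟩

theorem fn_ne (hB : BasSt ρ σ) {a : K →ₗ[ℚ] ℚ} (h : Fn ρ σ a) : a ≠ 0 := by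
  rintro rfl
  obtain ⟨r, c, h1, h2⟩ := h
  exact h1.ne' (hB.uniq r c fun x => by simpa using (h2 x).symm).1

theorem fn_smul {a : K →ₗ[ℚ] ℚ} {q : ℚ} (hq : 0 < q) (h : Fn ρ σ a) : Fn ρ σ (q • a) := by
  obtain ⟨r, c, h1, h2⟩ := h
  refine ⟨q * r, (q : ℝ) * c, mul_pos (by exact_mod_cast hq) h1, fun x => ?_⟩
  rw [mul_assoc ((q : ℝ) : ℂ), Complex.re_ofReal_mul, LinearMap.smul_apply, smul_eq_mul,
    Rat.cast_mul, h2]
  ring

theorem adapt (hK : CC ρ σ) (hB : BasSt ρ σ) {L : Submodule ℤ K} (hL : Lt L) {b : K →ₗ[ℚ] ℚ}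
    (hb : b ≠ 0) : ∃ (a c : K →ₗ[ℚ] ℚ) (α β γ : K) (s : ℕ), (∀ x, a x = 0 ↔ b x = 0) ∧ s ≠ 0 ∧
      Ori σ γ a c ∧ a α = 1 ∧ a β = 0 ∧ c β = s ∧
      ∀ x, x ∈ L ↔ ∃ i j k : ℤ, x = i * α + j * β + k * γ := by
  obtain ⟨b', h1, h2⟩ : ∃ b', Fn ρ σ b' ∧ ∀ x, b' x = 0 ↔ b x = 0 :=
    (hB.fn b hb).elim (fun h => ⟨b, h, fun _ => Iff.rfl⟩) fun h => ⟨-b, h, by simp⟩
  obtain ⟨p, p0, p1, p2⟩ := hB.prim b' L (fn_ne hB h1) hL
  obtain ⟨c, c1, c2⟩ := gen hK hB {p • b'} (by simpa using fn_ne hB (fn_smul p0 h1))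
  obtain ⟨q, q0, q1, -⟩ := hB.prim c L (fn_ne hB c1) hL
  obtain ⟨α, β, γ, s, h⟩ := hB.basis (p • b') (q • c) L (fn_smul p0 h1) (fn_smul q0 c1)
    (fun ⟨r, hr⟩ => (c2 _ (Finset.mem_singleton_self _)).1 ⟨q⁻¹ * r, by
      rw [mul_smul, ← hr, inv_smul_smul₀ q0.ne']⟩) hL p1 q1 p2
  exact ⟨_, _, α, β, γ, s, fun x => by simp [p0.ne', h2], h⟩

theorem comb (a : K →ₗ[ℚ] ℚ) (α β γ : K) (i j k : ℤ) :
    a (i * α + j * β + k * γ) = i * a α + j * a β + k * a γ := by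
  simp only [← zsmul_eq_mul, map_add, map_zsmul]

theorem lt_span (hK : CC ρ σ) (α β γ : K)
    (h : ∀ i j k : ℤ, (i : K) * α + j * β + k * γ = 0 → i = 0 ∧ j = 0 ∧ k = 0) :
    ∃ L : Submodule ℤ K, Lt L ∧ ∀ x, x ∈ L ↔ ∃ i j k : ℤ, x = i * α + j * β + k * γ := by
  have h1 : LinearIndependent ℤ ![α, β, γ] := Fintype.linearIndependent_iff.2 fun g hg i => by
    obtain ⟨a1, a2, a3⟩ := h (g 0) (g 1) (g 2) (by simpa [Fin.sum_univ_three] using hg)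
    fin_cases i <;> assumption
  have h2 := ((LinearIndependent.iff_fractionRing ℤ ℚ).1 h1).span_eq_top_of_card_eq_finrank
    (by simp [hK.three])
  rw [show Set.range ![α, β, γ] = {α, β, γ} by simp [Set.ext_iff]; tauto] at h2
  refine ⟨Submodule.span ℤ {α, β, γ}, ⟨Submodule.fg_span (Set.toFinite _), fun y => ?_⟩,
    fun x => by simp only [Submodule.mem_span_triple, zsmul_eq_mul, eq_comm]⟩
  obtain ⟨t, ht⟩ := multiple_mem_span_of_mem_localization_span (nonZeroDivisors ℤ) ℚ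
    {α, β, γ} y (h2 ▸ Submodule.mem_top)
  refine ⟨(t.1 * t.1).toNat, by
    have := mul_self_pos.2 (nonZeroDivisors.ne_zero t.2)
    omega, ?_⟩
  rw [← Int.cast_natCast, Int.toNat_of_nonneg (mul_self_nonneg _), ← zsmul_eq_mul, mul_smul]
  exact Submodule.smul_mem _ _ ht

omit [CharZero K] in
theorem dec {L L' : Submodule ℤ K} (y : K) (hL : Lt L) (hL' : Lt L') :
    ∃ s : Finset K, (∀ g ∈ s, g - y ∈ L) ∧ ∀ x, x - y ∈ L → ∃! g, g ∈ s ∧ x - g ∈ L' := by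
  have : Module.Finite ℤ (L.map L'.mkQ) := Module.Finite.iff_fg.2 (hL.fg.map _)
  have : Finite (L.map L'.mkQ) := Module.finite_of_fg_torsion _ fun c => by
    obtain ⟨_, x, -, rfl⟩ := c
    obtain ⟨n, hn, h1⟩ := hL'.full x
    refine ⟨⟨n, mem_nonZeroDivisors_of_ne_zero (by exact_mod_cast hn)⟩, Subtype.ext ?_⟩
    change (n : ℤ) • L'.mkQ x = 0
    rw [← map_zsmul, Submodule.mkQ_apply, Submodule.Quotient.mk_eq_zero]
    simpa using h1
  have := Fintype.ofFinite (L.map L'.mkQ)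
  choose r r1 r2 using fun c : L.map L'.mkQ => Submodule.mem_map.1 c.2
  have key : ∀ x (hx : x - y ∈ L) c, x - (y + r c) ∈ L' ↔ c = ⟨_, _, hx, rfl⟩ := fun x hx c => by
    rw [← sub_sub, ← Submodule.Quotient.eq, Subtype.ext_iff, ← r2, eq_comm]
    rfl
  refine ⟨Finset.univ.image fun c => y + r c, fun g hg => ?_, fun x hx =>
    ⟨_, ⟨Finset.mem_image_of_mem _ (Finset.mem_univ _), (key x hx _).2 rfl⟩, fun g hg => ?_⟩⟩
  · obtain ⟨c, -, rfl⟩ := Finset.mem_image.1 hg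
    simpa using r1 c
  · obtain ⟨c, -, rfl⟩ := Finset.mem_image.1 hg.1
    rw [(key x hx c).1 hg.2]

end Bas2Aux

open Bas2Aux in
theorem bas2 (hK : CC ρ σ) (hB : BasSt ρ σ) : Bas2 ρ σ where
  ker _ _ _ _ := ker hB
  surj _ _ _ := surj hK hB
  neg γ a b h := by
    obtain ⟨c₁, c₂, h1, h2, hc⟩ := h.im
    refine ⟨neg_ne_zero.2 h.ne, by simp [h.kb], by simp [h.ka], -c₂, -c₁, by linarith,
      by linarith, fun x => ?_⟩
    rw [map_neg, div_neg, Complex.neg_im, hc]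
    ring
  mul γ a b u hu h := by
    obtain ⟨c₁, c₂, h1, h2, hc⟩ := h.im
    refine ⟨mul_ne_zero hu h.ne, by simp [tw, hu, h.ka], by simp [tw, hu, h.kb], c₁, c₂, h1, h2,
      fun x => Eq.trans ?_ (hc (u⁻¹ * x))⟩
    rw [map_mul, map_mul, map_inv₀, div_mul_eq_div_div, div_eq_inv_mul (σ x)]
  pos γ γ' a b h h' := by
    obtain ⟨q, rfl⟩ := ker hB h h'.ka h'.kb
    obtain ⟨x, x1, x2⟩ := surj hK hB h 1 0
    obtain ⟨c₁, c₂, h1, -, hc⟩ := h.im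
    obtain ⟨d₁, d₂, h2, -, hd⟩ := h'.im
    have h3 := hd x
    rw [map_mul, map_ratCast, mul_comm, ← div_div, ← Complex.ofReal_ratCast, Complex.div_ofReal_im,
      hc, x1, x2] at h3
    have h4 : (0 : ℝ) < c₁ / q := by simpa using h3.trans_gt (by simpa using h2)
    exact ⟨q, by exact_mod_cast (div_pos_iff_of_pos_left h1).1 h4, rfl⟩
  scale γ a b p q hp hq h := by
    obtain ⟨c₁, c₂, h1, h2, hc⟩ := h.im
    have p0 : (0 : ℝ) < p := by exact_mod_cast hp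
    have q0 : (0 : ℝ) < q := by exact_mod_cast hq
    refine ⟨h.ne, by simp [h.ka], by simp [h.kb], c₁ / p, c₂ / q, div_pos h1 p0,
      div_neg_of_neg_of_pos h2 q0, fun x => ?_⟩
    simp only [hc, LinearMap.smul_apply, smul_eq_mul, Rat.cast_mul]
    field_simp
  gen := gen hK hB
  fn_ne _ := fn_ne hB
  lt _ _ h := ⟨h.fg, h.full⟩
  inf L h := by
    refine ⟨(h (Classical.arbitrary _)).fg.of_le (iInf_le _ _), fun y => ?_⟩
    choose n n0 n1 using fun i => (h i).full y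
    refine ⟨∏ i, n i, Finset.prod_ne_zero_iff.2 fun i _ => n0 i, (Submodule.mem_iInf _).2 fun i => ?_⟩
    obtain ⟨m, hm⟩ := Finset.dvd_prod_of_mem n (Finset.mem_univ i)
    rw [hm, mul_comm (n i), Nat.cast_mul, mul_assoc, ← nsmul_eq_mul]
    exact nsmul_mem (n1 i) m
  lt_mul u L hu h := by
    have key : ∀ x, x ∈ L.map (LinearMap.mulLeft ℤ u) ↔ u⁻¹ * x ∈ L := fun x =>
      ⟨fun ⟨z, hz, e⟩ => by simpa [← e, hu] using hz, fun hx => ⟨_, hx, by simp [hu]⟩⟩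
    refine ⟨_, ⟨h.fg.map _, fun y => ?_⟩, key⟩
    obtain ⟨n, n0, n1⟩ := h.full (u⁻¹ * y)
    exact ⟨n, n0, by rwa [key, mul_left_comm]⟩
  lt_span := lt_span hK
  lt_basis L hL := by
    obtain ⟨b, hb, -⟩ := gen hK hB ∅ (by simp)
    obtain ⟨a, c, α, β, γ, s, -, s0, h, a1, a2, a3, a4⟩ := adapt hK hB hL (fn_ne hB hb)
    refine ⟨α, β, γ, fun i j k e => ?_, a4⟩
    have e1 := comb a α β γ i j k
    have e2 := comb c α β γ i j k
    rw [e, map_zero] at e1 e2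
    obtain rfl : i = 0 := by simpa [a1, a2, h.ka] using e1.symm
    obtain rfl : j = 0 := by simpa [a3, h.kb, s0] using e2.symm
    simpa [h.ne] using e
  pl_basis L b hL hb := by
    obtain ⟨a, c, α, β, γ, s, a0, s0, h, a1, a2, a3, a4⟩ := adapt hK hB hL hb
    obtain ⟨c₁, c₂, -, h2, hc⟩ := h.im
    refine ⟨β, γ, h.ne, by simp [ht, hc, a2, a3, s0, h2.ne], fun x => ?_⟩
    rw [← a0, a4]
    constructor
    · rintro ⟨⟨i, j, k, rfl⟩, e⟩
      obtain rfl : i = 0 := by simpa [comb, a1, a2, h.ka] using (comb a α β γ i j k).symm.trans e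
      exact ⟨j, k, by simp⟩
    · rintro ⟨j, k, rfl⟩
      exact ⟨⟨0, j, k, by simp⟩, by simpa [a2, h.ka] using comb a α β γ 0 j k⟩
  dec _ _ y h h' _ := dec y h h'
  vals L y a A₀ A₁ hL := by
    obtain ⟨q, q0, q1⟩ : ∃ q : ℚ, 0 < q ∧ ∀ x ∈ L, ∃ n : ℤ, (q • a) x = n := by
      by_cases ha : a = 0
      · exact ⟨1, one_pos, fun x _ => ⟨0, by simp [ha]⟩⟩
      · exact (hB.prim a L ha hL).imp fun q h => ⟨h.1, h.2.1⟩
    refine ((Set.finite_Icc ⌈q * (A₀ - a y)⌉ ⌊q * (A₁ - a y)⌋).image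
      fun n : ℤ => a y + n / q).subset ?_
    rintro _ ⟨h1, h2, x, hx, rfl⟩
    obtain ⟨n, hn⟩ := q1 _ hx
    rw [LinearMap.smul_apply, smul_eq_mul, map_sub] at hn
    refine ⟨n, ⟨Int.ceil_le.2 ?_, Int.le_floor.2 ?_⟩, ?_⟩
    · rw [← hn]
      gcongr
    · rw [← hn]
      gcongr
    · simp [← hn, q0.ne']
  hs a A := ⟨fun x y e hx => by rwa [CU.hs, Set.mem_ofPred_eq, ← e], A, A, fun _ hx => hx,
    fun _ hx => hx⟩
  hs_add a X t h := by
    obtain ⟨A₀, A₁, h1, h2⟩ := h.bd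
    exact ⟨fun x y e => h.sat _ _ (by rw [map_sub, map_sub, e]), A₀ + a t, A₁ + a t,
      fun x hx => by simpa [lt_sub_iff_add_lt] using h1 _ hx,
      fun x hx => h2 _ (by rwa [map_sub, lt_sub_iff_add_lt])⟩
  hs_sm a X u h := by
    obtain ⟨A₀, A₁, h1, h2⟩ := h.bd
    exact ⟨fun x y e => h.sat _ _ e, A₀, A₁, fun x hx => h1 _ hx, fun x hx => h2 _ hx⟩
  hs_rf a X h := by
    obtain ⟨A₀, A₁, h1, h2⟩ := h.bd
    refine ⟨fun x y e hx hy => hx (h.sat _ _ (by rw [map_neg, map_neg, e]) hy), -A₁ - 1, -A₀,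
      fun x hx => ?_, fun x hx hy => ?_⟩
    · have := mt (h2 _) hx
      rw [map_neg] at this
      linarith
    · have := h1 _ hy
      rw [map_neg] at this
      linarith

end Pool.Agent.CU
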