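import Pool.Agent.Lib.MP_ca56d1_nt.CU.U.St

/-! The cocycle relation of the elliptic gamma function. -/

set_option linter.unusedSectionVars false

namespace Pool.Agent.CU

open Complex Pool.Agent.RM
open scoped Classical

variable {K : Type} [Field K] [CharZero K] {ρ : K →+* ℝ} {σ : K →+* ℂ}

namespace CocAux

/-- Entire and not identically zero. -/
def Ent (f : ℂ → ℂ) : Prop := Differentiable ℂ f ∧ ∀ w, analyticOrderAt f w ≠ ⊤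

theorem ord_mul {f g : ℂ → ℂ} (hf : Ent f) (hg : Ent g) (w : ℂ) :
    analyticOrderAt (fun w => f w * g w) w = analyticOrderAt f w + analyticOrderAt g w :=
  analyticOrderAt_mul (hf.1.analyticAt w) (hg.1.analyticAt w)

theorem Ent.mul {f g : ℂ → ℂ} (hf : Ent f) (hg : Ent g) : Ent fun w => f w * g w :=
  ⟨hf.1.mul hg.1, fun w => by
    rw [ord_mul hf hg]
    exact WithTop.add_ne_top.2 ⟨hf.2 w, hg.2 w⟩⟩

theorem Ent.ne {f : ℂ → ℂ} (hf : Ent f) : ∃ w, f w ≠ 0 := by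
  by_contra h
  push Not at h
  exact hf.2 0 (analyticOrderAt_eq_top.2 (Filter.Eventually.of_forall h))

theorem ent_lp (hP : LpSt σ) {γ : K} {S : Set K} (h : Adm σ γ S) : Ent (lp σ γ S) :=
  ⟨hP.diff γ S h, fun w => by rw [hP.ord γ S h]; split_ifs <;> simp⟩

theorem cg {d : ℕ} {f g f' g' : ℂ → ℂ} (h : Eqv σ d f g) (e : ∀ w, f' w = f w)
    (e' : ∀ w, g' w = g w) : Eqv σ d f' g' := by rwa [funext e, funext e']

/-- The product of the numerators. -/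
noncomputable def NN (σ : K →+* ℂ) (γ₁ γ₂ γ₃ : K) (Λ X Y W : Set K) (w : ℂ) : ℂ :=
  pN σ γ₁ Λ X Y w * pN σ γ₂ Λ Y W w * pN σ γ₃ Λ W X w

/-- The product of the denominators. -/
noncomputable def DD (σ : K →+* ℂ) (γ₁ γ₂ γ₃ : K) (Λ X Y W : Set K) (w : ℂ) : ℂ :=
  pD σ γ₁ Λ X Y w * pD σ γ₂ Λ Y W w * pD σ γ₃ Λ W X w

/-- The data of the cocycle relation. -/
structure Dat (σ : K →+* ℂ) (L : Submodule ℤ K) (γ₁ γ₂ γ₃ : K) (a b c : K →ₗ[ℚ] ℚ) : Prop where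
  lt : Lt L
  m₁ : γ₁ ∈ L
  m₂ : γ₂ ∈ L
  m₃ : γ₃ ∈ L
  o₁ : Ori σ γ₁ a b
  o₂ : Ori σ γ₂ b c
  o₃ : Ori σ γ₃ c a

/-- `N / D` and `N' / D'` agree modulo `e(K[w])`. -/
def Rl (σ : K →+* ℂ) (N D N' D' : ℂ → ℂ) : Prop :=
  Eqv σ 2 (fun w => N w * D' w) fun w => N' w * D w

variable {L : Submodule ℤ K} {γ₁ γ₂ γ₃ y : K} {a b c : K →ₗ[ℚ] ℚ} {X X' Y Y' W W' : Set K}

theorem Dat.rot (h : Dat σ L γ₁ γ₂ γ₃ a b c) : Dat σ L γ₂ γ₃ γ₁ b c a :=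
  ⟨h.lt, h.m₂, h.m₃, h.m₁, h.o₂, h.o₃, h.o₁⟩

theorem NN_rot (Λ : Set K) : NN σ γ₁ γ₂ γ₃ Λ X Y W = NN σ γ₂ γ₃ γ₁ Λ Y W X :=
  funext fun w => by rw [NN, NN]; ring

theorem DD_rot (Λ : Set K) : DD σ γ₁ γ₂ γ₃ Λ X Y W = DD σ γ₂ γ₃ γ₁ Λ Y W X :=
  funext fun w => by rw [DD, DD]; ring

theorem Rl.trans (hE : EqvSt σ) {N D N' D' N'' D'' : ℂ → ℂ} (h : Ent N ∧ Ent D)
    (h' : Ent N' ∧ Ent D') (h'' : Ent N'' ∧ Ent D'') (r : Rl σ N D N' D')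
    (r' : Rl σ N' D' N'' D'') : Rl σ N D N'' D'' := by
  refine hE.cancel _ _ _ _ (h.1.mul h''.2).1.continuous (h''.1.mul h.2).1.continuous
    (h'.1.mul h'.2).1 (h'.1.mul h'.2).ne ?_
  exact cg (hE.mul _ _ _ _ _ r r') (fun w => by ring) fun w => by ring

theorem ent (hP : LpSt σ) (hA : AdmSt σ) (h : Dat σ L γ₁ γ₂ γ₃ a b c) (hX : HS a X) (hY : HS b Y)
    (hW : HS c W) :
    Ent (NN σ γ₁ γ₂ γ₃ (coset L y) X Y W) ∧ Ent (DD σ γ₁ γ₂ γ₃ (coset L y) X Y W) := by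
  have a1 := hA.wedge L y _ _ _ _ _ h.lt h.m₁ h.o₁ hX hY
  have a2 := hA.wedge L y _ _ _ _ _ h.lt h.m₂ h.o₂ hY hW
  have a3 := hA.wedge L y _ _ _ _ _ h.lt h.m₃ h.o₃ hW hX
  exact ⟨((ent_lp hP a1.1).mul (ent_lp hP a2.1)).mul (ent_lp hP a3.1),
    ((ent_lp hP a1.2).mul (ent_lp hP a2.2)).mul (ent_lp hP a3.2)⟩

theorem ord (hP : LpSt σ) (hA : AdmSt σ) (h : Dat σ L γ₁ γ₂ γ₃ a b c) (hX : HS a X) (hY : HS b Y)
    (hW : HS c W) (w : ℂ) : analyticOrderAt (NN σ γ₁ γ₂ γ₃ (coset L y) X Y W) w =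
      analyticOrderAt (DD σ γ₁ γ₂ γ₃ (coset L y) X Y W) w := by
  have a1 := hA.wedge L y _ _ _ _ _ h.lt h.m₁ h.o₁ hX hY
  have a2 := hA.wedge L y _ _ _ _ _ h.lt h.m₂ h.o₂ hY hW
  have a3 := hA.wedge L y _ _ _ _ _ h.lt h.m₃ h.o₃ hW hX
  have k : ∀ {g₁ g₂ g₃ S₁ S₂ S₃}, Adm σ g₁ S₁ → Adm σ g₂ S₂ → Adm σ g₃ S₃ →
      analyticOrderAt (fun w => lp σ g₁ S₁ w * lp σ g₂ S₂ w * lp σ g₃ S₃ w) w =
        (if w ∈ σ '' S₁ then 1 else 0) + (if w ∈ σ '' S₂ then 1 else 0) +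
          if w ∈ σ '' S₃ then 1 else 0 := fun b1 b2 b3 => by
    rw [ord_mul ((ent_lp hP b1).mul (ent_lp hP b2)) (ent_lp hP b3),
      ord_mul (ent_lp hP b1) (ent_lp hP b2), hP.ord _ _ b1, hP.ord _ _ b2, hP.ord _ _ b3]
  refine (k a1.1 a2.1 a3.1).trans (Eq.trans ?_ (k a1.2 a2.2 a3.2).symm)
  by_cases hw : w ∈ Set.range σ
  · obtain ⟨x, rfl⟩ := hw
    simp only [σ.injective.mem_set_image, Set.mem_inter_iff, Set.mem_sdiff]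
    by_cases h0 : x ∈ coset L y <;> by_cases h1 : x ∈ X <;> by_cases h2 : x ∈ Y <;>
      by_cases h3 : x ∈ W <;> simp [h0, h1, h2, h3]
  · have : ∀ S, w ∉ σ '' S := fun S k => hw (Set.image_subset_range _ _ k)
    simp [this]

theorem chg (h2 : Bas2 ρ σ) (hE : EqvSt σ) (hS : StepSt σ) (hT : TL2St σ)
    (h : Dat σ L γ₁ γ₂ γ₃ a b c) (hX : HS a X) (hX' : HS a X') (hY : HS b Y) (hW : HS c W)
    (hs : X ⊆ X') : Rl σ (NN σ γ₁ γ₂ γ₃ (coset L y) X' Y W) (DD σ γ₁ γ₂ γ₃ (coset L y) X' Y W)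
      (NN σ γ₁ γ₂ γ₃ (coset L y) X Y W) (DD σ γ₁ γ₂ γ₃ (coset L y) X Y W) := by
  obtain ⟨-, A₁, -, b1⟩ := hX.bd
  obtain ⟨A₀, -, b0, -⟩ := hX'.bd
  obtain ⟨s, e⟩ : ∃ s : Finset ℚ, ∀ x ∈ coset L y, (x ∈ X' ∧ x ∉ X ↔ a x ∈ s) := by
    refine ⟨(h2.vals L y a A₀ A₁ h.lt).toFinset.filter fun r => ∃ x, a x = r ∧ x ∈ X' ∧ x ∉ X,
      fun x hx => ?_⟩
    rw [Finset.mem_filter, Set.Finite.mem_toFinset]
    exact ⟨fun k => ⟨⟨(b0 x k.1).le, not_lt.1 fun l => k.2 (b1 x l), x, hx, rfl⟩, x, rfl, k⟩,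
      fun ⟨_, z, e, k1, k2⟩ => ⟨hX'.sat _ _ e k1, fun l => k2 (hX.sat _ _ e.symm l)⟩⟩
  have o3 := h2.neg _ _ _ h.o₃
  have s1 := hS L y _ a b X X' Y h.lt h.m₁ h.o₁ hX hX' hY hs s e
  have s3 := hS L y _ a c X X' W h.lt (L.neg_mem h.m₃) o3 hX hX' hW hs s e
  have t := hE.mul _ _ _ _ _ (hE.prod 2 s _ _ fun r _ =>
    hT L y _ _ a b c r Y W h.lt h.m₁ (L.neg_mem h.m₃) h.o₁ o3 hY hW) (hE.refl 2 fun w =>
      pN σ γ₁ (coset L y) X Y w * pD σ γ₁ (coset L y) X' Y w * pD σ γ₃ (coset L y) W X w *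
        pN σ γ₃ (coset L y) W X' w * pN σ γ₂ (coset L y) Y W w * pD σ γ₂ (coset L y) Y W w)
  simp only [pN, pD, neg_neg] at s1 s3
  refine cg t (fun w => ?_) fun w => ?_
  · simp only [NN, DD, pN, pD]
    linear_combination (lp σ (-γ₃) (coset L y ∩ (X \ W)) w * lp σ γ₃ (coset L y ∩ (W \ X')) w *
      lp σ γ₂ (coset L y ∩ (Y \ W)) w * lp σ (-γ₂) (coset L y ∩ (W \ Y)) w) * s1 w
  · simp only [NN, DD, pN, pD]
    linear_combination (lp σ γ₁ (coset L y ∩ (X \ Y)) w * lp σ (-γ₁) (coset L y ∩ (Y \ X')) w *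
      lp σ γ₂ (coset L y ∩ (Y \ W)) w * lp σ (-γ₂) (coset L y ∩ (W \ Y)) w) * s3 w

theorem chg1 (h2 : Bas2 ρ σ) (hE : EqvSt σ) (hP : LpSt σ) (hA : AdmSt σ) (hS : StepSt σ)
    (hT : TL2St σ) (h : Dat σ L γ₁ γ₂ γ₃ a b c) (hX : HS a X) (hX' : HS a X') (hY : HS b Y)
    (hW : HS c W) : Rl σ (NN σ γ₁ γ₂ γ₃ (coset L y) X' Y W) (DD σ γ₁ γ₂ γ₃ (coset L y) X' Y W)
      (NN σ γ₁ γ₂ γ₃ (coset L y) X Y W) (DD σ γ₁ γ₂ γ₃ (coset L y) X Y W) := by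
  have hI : HS a (X ∩ X') := by
    obtain ⟨A₀, A₁, b0, b1⟩ := hX.bd
    obtain ⟨-, B₁, -, c1⟩ := hX'.bd
    exact ⟨fun x z e k => ⟨hX.sat _ _ e k.1, hX'.sat _ _ e k.2⟩, A₀, max A₁ B₁,
      fun x k => b0 x k.1, fun x k => ⟨b1 x (max_lt_iff.1 k).1, c1 x (max_lt_iff.1 k).2⟩⟩
  exact (chg h2 hE hS hT h hI hX' hY hW Set.inter_subset_right).trans hE (ent hP hA h hX' hY hW)
    (ent hP hA h hI hY hW) (ent hP hA h hX hY hW)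
    (hE.symm _ _ _ (chg h2 hE hS hT h hI hX hY hW Set.inter_subset_left))

theorem chg3 (h2 : Bas2 ρ σ) (hE : EqvSt σ) (hP : LpSt σ) (hA : AdmSt σ) (hS : StepSt σ)
    (hT : TL2St σ) (h : Dat σ L γ₁ γ₂ γ₃ a b c) (hX : HS a X) (hX' : HS a X') (hY : HS b Y)
    (hY' : HS b Y') (hW : HS c W) (hW' : HS c W') :
    Rl σ (NN σ γ₁ γ₂ γ₃ (coset L y) X' Y' W') (DD σ γ₁ γ₂ γ₃ (coset L y) X' Y' W')
      (NN σ γ₁ γ₂ γ₃ (coset L y) X Y W) (DD σ γ₁ γ₂ γ₃ (coset L y) X Y W) := by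
  have r2 := chg1 (y := y) h2 hE hP hA hS hT h.rot hY hY' hW' hX
  have r3 := chg1 (y := y) h2 hE hP hA hS hT h.rot.rot hW hW' hX hY
  simp only [← NN_rot (γ₁ := γ₁), ← DD_rot (γ₁ := γ₁)] at r2
  simp only [NN_rot (γ₁ := γ₃), DD_rot (γ₁ := γ₃)] at r3
  exact ((chg1 h2 hE hP hA hS hT h hX hX' hY' hW').trans hE (ent hP hA h hX' hY' hW')
    (ent hP hA h hX hY' hW') (ent hP hA h hX hY hW') r2).trans hE (ent hP hA h hX' hY' hW')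
    (ent hP hA h hX hY hW') (ent hP hA h hX hY hW) r3

theorem shift (hP : LpSt σ) {γ m : K} (hm : m ∈ L) (h : Adm σ γ (coset L y ∩ (X \ Y))) (w : ℂ) :
    lp σ γ (coset L y ∩ (X \ Y)) (w + σ m) =
      lp σ γ (coset L y ∩ ({x | x - -m ∈ X} \ {x | x - -m ∈ Y})) w := by
  rw [← (hP.add γ _ (-m) h).2.1, map_neg, add_neg_cancel_right]
  congr 1
  ext x
  refine and_congr_left fun _ => ?_
  change x - -m - y ∈ L ↔ x - y ∈ L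
  rw [show x - -m - y = x - y + m by ring, L.add_mem_iff_left hm]

theorem flip (hP : LpSt σ) {γ : K} (h : Adm σ γ (coset L y ∩ (X \ Y))) (w : ℂ) :
    lp σ γ (coset L y ∩ (X \ Y)) (σ (-1) * w + σ (2 * y)) =
      lp σ (-γ) (coset L y ∩ ({x | x - 2 * y ∈ rf Y} \ {x | x - 2 * y ∈ rf X})) w := by
  obtain ⟨h1, h2, -⟩ := hP.mul γ _ (-1) (by simp) h
  rw [← h2, ← (hP.add _ _ (2 * y) h1).2.1]
  congr 1
  · ring
  · ext x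
    have e : -(x - 2 * y) - y ∈ L ↔ x - y ∈ L := by
      rw [show -(x - 2 * y) - y = -(x - y) by ring, L.neg_mem_iff]
    simp only [rf, coset, Set.mem_inter_iff, Set.mem_sdiff, Set.mem_ofPred_eq, inv_neg_one,
      neg_one_mul, e, not_not]
    tauto
  · simp

end CocAux

open CocAux in
theorem cocSt (h2 : Bas2 ρ σ) (hE : EqvSt σ) (hX : EXSt σ) (hP : LpSt σ) (hA : AdmSt σ)
    (hS : StepSt σ) (hT : TL2St σ) : CocSt σ := by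
  intro L y γ₁ γ₂ γ₃ a b c X Y W l m1 m2 m3 o1 o2 o3 hX1 hY hW
  have h : Dat σ L γ₁ γ₂ γ₃ a b c := ⟨l, m1, m2, m3, o1, o2, o3⟩
  have a1 := hA.wedge L y _ _ _ _ _ l m1 o1 hX1 hY
  have a2 := hA.wedge L y _ _ _ _ _ l m2 o2 hY hW
  have a3 := hA.wedge L y _ _ _ _ _ l m3 o3 hW hX1
  have en := ent (y := y) hP hA h hX1 hY hW
  have sh : ∀ m ∈ L, Eqv σ 2
      (fun w => NN σ γ₁ γ₂ γ₃ (coset L y) X Y W (w + σ m) * DD σ γ₁ γ₂ γ₃ (coset L y) X Y W w)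
      fun w => NN σ γ₁ γ₂ γ₃ (coset L y) X Y W w * DD σ γ₁ γ₂ γ₃ (coset L y) X Y W (w + σ m) :=
    fun m hm => by
      have := chg3 (y := y) h2 hE hP hA hS hT h hX1 (h2.hs_add _ _ (-m) hX1) hY
        (h2.hs_add _ _ (-m) hY) hW (h2.hs_add _ _ (-m) hW)
      simpa only [Rl, NN, DD, pN, pD, shift hP hm a1.1, shift hP hm a1.2, shift hP hm a2.1,
        shift hP hm a2.2, shift hP hm a3.1, shift hP hm a3.2] using this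
  obtain ⟨x, x1, x2⟩ := h2.surj _ _ _ o1 1 0
  obtain ⟨n, n0, hn⟩ := l.full x
  obtain ⟨C, -, hC⟩ := hX 2 _ _ _ γ₁ en.1.1 en.2.1 (ord hP hA h hX1 hY hW) en.2.2 (by
    obtain ⟨c₁, c₂, p1, -, e⟩ := o1.im
    rw [e, ← nsmul_eq_mul, map_nsmul, map_nsmul, x1, x2]
    simp [p1.ne', n0]) (sh _ hn) (sh _ m1)
  have s : ∀ {a X}, HS a X → HS a {x | x - 2 * y ∈ rf X} := fun k =>
    h2.hs_add _ _ _ (h2.hs_rf _ _ k)
  have r := hE.mono _ 3 _ _ (by norm_num)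
    (hE.symm _ _ _ (chg3 (y := y) h2 hE hP hA hS hT h hX1 (s hX1) hY (s hY) hW (s hW)))
  have f := hE.comp _ _ _ (-1) (2 * y) hC
  have e := (ent (y := y) hP hA h (s hX1) (s hY) (s hW)).1.mul en.2
  refine hE.trans _ _ _ _ hC (hE.const _ _ _ (hE.ek_root _ 2 two_ne_zero
    (hE.ek_of 3 _ _ e.1 e.ne (hE.trans _ _ _ _ ?_ r))))
  simp only [NN, DD, pN, pD, flip hP a1.1, flip hP a1.2, flip hP a2.1, flip hP a2.2, flip hP a3.1,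
    flip hP a3.2, neg_neg] at f
  refine cg (hE.symm _ _ _ (hE.mul _ _ _ _ _ hC f)) (fun w => ?_) fun w => ?_ <;>
    simp only [NN, DD, pN, pD] <;> ring

end Pool.Agent.CU
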