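import Pool.Agent.Lib.MP_ca56d1_nt.CU.U.St

/-! The expansion of the generating function of a simplicial cone of lines. -/

namespace Pool.Agent.CU

open Complex Filter Topology MeasureTheory Pool.Agent.RM
open scoped Real Classical

namespace ConeAux

/-- `f t = a₀ + a₁ t + a₂ t ^ 2 + a₃ t ^ 3 + o(t ^ 3)` as `t → 0+`. -/
def J (f : ℝ → ℝ) (a₀ a₁ a₂ a₃ : ℝ) : Prop :=
  Tendsto (fun t => (f t - (a₀ + a₁ * t + a₂ * t ^ 2)) / t ^ 3) (𝓝[>] 0) (𝓝 a₃)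

theorem tid : Tendsto (fun t : ℝ => t) (𝓝[>] 0) (𝓝 0) :=
  tendsto_nhdsWithin_of_tendsto_nhds tendsto_id

theorem J.lim {f : ℝ → ℝ} {a₀ a₁ a₂ a₃ : ℝ} (h : J f a₀ a₁ a₂ a₃) :
    Tendsto f (𝓝[>] 0) (𝓝 a₀) := by
  have h1 : Tendsto (fun t : ℝ => a₀ + a₁ * t + a₂ * t ^ 2 +
      t ^ 3 * ((f t - (a₀ + a₁ * t + a₂ * t ^ 2)) / t ^ 3)) (𝓝[>] 0)
      (𝓝 (a₀ + a₁ * 0 + a₂ * 0 ^ 2 + 0 ^ 3 * a₃)) :=
    ((tendsto_const_nhds.add (tid.const_mul _)).add ((tid.pow 2).const_mul _)).add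
      ((tid.pow 3).mul h)
  have h2 : a₀ + a₁ * 0 + a₂ * 0 ^ 2 + 0 ^ 3 * a₃ = a₀ := by ring
  rw [h2] at h1
  refine h1.congr' ?_
  filter_upwards [self_mem_nhdsWithin] with t ht
  have ht' : t ≠ 0 := ne_of_gt ht
  field_simp
  ring

theorem J.mul {f g : ℝ → ℝ} {a₀ a₁ a₂ a₃ b₀ b₁ b₂ b₃ : ℝ} (hf : J f a₀ a₁ a₂ a₃)
    (hg : J g b₀ b₁ b₂ b₃) : J (fun t => f t * g t) (a₀ * b₀) (a₀ * b₁ + a₁ * b₀)
      (a₀ * b₂ + a₁ * b₁ + a₂ * b₀) (a₀ * b₃ + a₁ * b₂ + a₂ * b₁ + a₃ * b₀) := by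
  have hg0 := hg.lim
  unfold J at hf hg ⊢
  have h1 := ((((hg.const_mul a₀).add ((tendsto_const_nhds (x := a₁ * b₂ + a₂ * b₁)))).add
    (hf.mul hg0)).add (tid.mul ((hg.const_mul a₁).add (tendsto_const_nhds (x := a₂ * b₂))))).add
    ((tid.pow 2).mul (hg.const_mul a₂))
  have h2 : a₀ * b₃ + (a₁ * b₂ + a₂ * b₁) + a₃ * b₀ + 0 * (a₁ * b₃ + a₂ * b₂) + 0 ^ 2 * (a₂ * b₃) =
      a₀ * b₃ + a₁ * b₂ + a₂ * b₁ + a₃ * b₀ := by ring
  rw [h2] at h1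
  refine h1.congr' ?_
  filter_upwards [self_mem_nhdsWithin] with t ht
  have ht' : t ≠ 0 := ne_of_gt ht
  field_simp
  ring

theorem J.poly (a₀ a₁ a₂ : ℝ) : J (fun t => a₀ + a₁ * t + a₂ * t ^ 2) a₀ a₁ a₂ 0 := by
  unfold J
  simp

theorem rem (c : ℝ) : Tendsto (fun t : ℝ => (Real.exp (-t * c) -
    (1 - c * t + c ^ 2 / 2 * t ^ 2 - c ^ 3 / 6 * t ^ 3 + c ^ 4 / 24 * t ^ 4)) / t ^ 4)
    (𝓝[>] 0) (𝓝 0) := by
  have h0 : Tendsto (fun t : ℝ => -t * c) (𝓝[>] 0) (𝓝 0) := by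
    have := tid.neg.mul_const c
    simpa using this
  have h1 := (Real.exp_sub_sum_range_succ_isLittleO_pow 4).comp_tendsto h0
  have h2 : ((fun x : ℝ => x ^ 4) ∘ fun t : ℝ => -t * c) =O[𝓝[>] 0] fun t : ℝ => t ^ 4 := by
    have : ((fun x : ℝ => x ^ 4) ∘ fun t : ℝ => -t * c) = fun t : ℝ => c ^ 4 * t ^ 4 := by
      funext t
      simp only [Function.comp]
      ring
    rw [this]
    exact Asymptotics.isBigO_const_mul_self _ _ _
  refine (h1.trans_isBigO h2).tendsto_div_nhds_zero.congr fun t => ?_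
  simp only [Function.comp, Finset.sum_range_succ, Finset.sum_range_zero, Nat.factorial]
  push_cast
  ring

theorem jE (c : ℝ) : J (fun t => Real.exp (-t * c)) 1 (-c) (c ^ 2 / 2) (-c ^ 3 / 6) := by
  unfold J
  have h1 := ((tid.mul (rem c)).add (tendsto_const_nhds (x := -c ^ 3 / 6))).add
    (tid.mul_const (c ^ 4 / 24))
  have h2 : (0 : ℝ) * 0 + -c ^ 3 / 6 + 0 * (c ^ 4 / 24) = -c ^ 3 / 6 := by ring
  rw [h2] at h1
  refine h1.congr' ?_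
  filter_upwards [self_mem_nhdsWithin] with t ht
  have ht' : t ≠ 0 := ne_of_gt ht
  field_simp
  ring

theorem jA (c : ℝ) : J (fun t => (1 - Real.exp (-t * c)) / t) c (-c ^ 2 / 2) (c ^ 3 / 6)
    (-c ^ 4 / 24) := by
  unfold J
  have h1 := (rem c).neg.add (tendsto_const_nhds (x := -c ^ 4 / 24))
  have h2 : -(0 : ℝ) + -c ^ 4 / 24 = -c ^ 4 / 24 := by ring
  rw [h2] at h1
  refine h1.congr' ?_
  filter_upwards [self_mem_nhdsWithin] with t ht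
  have ht' : t ≠ 0 := ne_of_gt ht
  field_simp
  ring

theorem one_sub_pos {t c : ℝ} (ht : 0 < t) (hc : 0 < c) : Real.exp (-t * c) < 1 := by
  rw [Real.exp_lt_one_iff]
  nlinarith [mul_pos ht hc]

theorem xp {G : ℝ → ℝ} {v P Q : ℝ} (hP : 0 < P) (hQ : 0 < Q)
    (hG : ∀ t, 0 < t → G t = Real.exp (-t * v) *
      ((1 - Real.exp (-t * P))⁻¹ * (1 - Real.exp (-t * Q))⁻¹)) :
    Xp G ![1 / (P * Q), ((P + Q) / 2 - v) / (P * Q),
      ((P ^ 2 + 3 * P * Q + Q ^ 2) / 12 - (P + Q) * v / 2 + v ^ 2 / 2) / (P * Q), b23 v P Q] := by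
  have hAB := (jA P).mul (jA Q)
  have hl := hAB.lim
  have hp := (J.poly (1 / (P * Q)) (((P + Q) / 2 - v) / (P * Q))
    (((P ^ 2 + 3 * P * Q + Q ^ 2) / 12 - (P + Q) * v / 2 + v ^ 2 / 2) / (P * Q))).mul hAB
  have hE := jE v
  have hP' : P ≠ 0 := hP.ne'
  have hQ' : Q ≠ 0 := hQ.ne'
  unfold J at hp hE
  have h1 := (hE.sub hp).div hl (mul_ne_zero hP' hQ')
  unfold Xp
  simp only [Matrix.cons_val_zero, Matrix.cons_val_one, Matrix.cons_val]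
  refine Tendsto.congr' ?_ (h1.trans (le_of_eq (congrArg 𝓝 ?_)))
  · filter_upwards [self_mem_nhdsWithin] with t ht
    have ht0 : 0 < t := ht
    have ht' : t ≠ 0 := ne_of_gt ht
    have a1 : 1 - Real.exp (-t * P) ≠ 0 := (sub_pos.2 (one_sub_pos ht0 hP)).ne'
    have a2 : 1 - Real.exp (-t * Q) ≠ 0 := (sub_pos.2 (one_sub_pos ht0 hQ)).ne'
    rw [hG t ht0]
    simp only [Pi.div_apply]
    generalize 1 - Real.exp (-t * P) = A at a1 ⊢
    generalize 1 - Real.exp (-t * Q) = B at a2 ⊢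
    generalize Real.exp (-t * v) = E
    field_simp
    ring
  · unfold b23
    field_simp
    ring

variable {K : Type} [Field K] [CharZero K] (σ : K →+* ℂ)

theorem ht_add (γ x y : K) : ht σ γ (x + y) = ht σ γ x + ht σ γ y := by
  simp [ht, add_div]

theorem ht_nat (γ x : K) (n : ℕ) : ht σ γ (n * x) = n * ht σ γ x := by
  simp [ht, mul_div_assoc]

theorem ht_per {γ : K} (hγ : γ ≠ 0) (k : ℤ) : ht σ γ (k * γ) = 0 := by
  have : σ γ ≠ 0 := (map_ne_zero σ).2 hγ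
  simp [ht, mul_div_assoc, div_self this]

theorem lv_mk {γ : K} (hγ : γ ≠ 0) (x : K) :
    lv σ γ (QuotientAddGroup.mk x : Ln γ) = ht σ γ x := by
  obtain ⟨⟨h, hh⟩, e⟩ := QuotientAddGroup.mk_out_eq_add (AddSubgroup.zmultiples γ) x
  obtain ⟨k, rfl⟩ := AddSubgroup.mem_zmultiples_iff.1 hh
  have : lv σ γ (QuotientAddGroup.mk x : Ln γ) = ht σ γ (x + k * γ) := by
    unfold lv ht
    rw [e, ← zsmul_eq_mul]
  rw [this, ht_add, ht_per σ hγ, add_zero]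

theorem exists_equiv {γ α β : K} (x₀ : K)
    (hi : ∀ i j k : ℤ, (i : K) * α + j * β + k * γ = 0 → i = 0 ∧ j = 0 ∧ k = 0) :
    ∃ e : ℕ × ℕ ≃ lines γ {x | ∃ (i j : ℕ) (k : ℤ), x = x₀ + i * α + j * β + k * γ},
      ∀ p, (e p).1 = (QuotientAddGroup.mk (x₀ + p.1 * α + p.2 * β) : Ln γ) := by
  let f : ℕ × ℕ → lines γ {x | ∃ (i j : ℕ) (k : ℤ), x = x₀ + i * α + j * β + k * γ} :=
    fun p => ⟨QuotientAddGroup.mk (x₀ + p.1 * α + p.2 * β),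
      ⟨_, ⟨p.1, p.2, 0, by simp⟩, rfl⟩⟩
  refine ⟨Equiv.ofBijective f ⟨?_, ?_⟩, fun p => rfl⟩
  · rintro ⟨i, j⟩ ⟨i', j'⟩ h
    have h1 : (QuotientAddGroup.mk (x₀ + i * α + j * β) : Ln γ) =
        QuotientAddGroup.mk (x₀ + i' * α + j' * β) := congrArg Subtype.val h
    obtain ⟨k, hk⟩ := AddSubgroup.mem_zmultiples_iff.1 (QuotientAddGroup.eq.1 h1)
    rw [zsmul_eq_mul] at hk
    obtain ⟨a, b, -⟩ := hi ((i : ℤ) - i') ((j : ℤ) - j') k (by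
      push_cast
      linear_combination hk)
    exact Prod.ext (by show i = i'; omega) (by show j = j'; omega)
  · rintro ⟨d, x, ⟨i, j, k, rfl⟩, rfl⟩
    refine ⟨(i, j), Subtype.ext ?_⟩
    refine QuotientAddGroup.eq.2 (AddSubgroup.mem_zmultiples_iff.2 ⟨k, ?_⟩)
    rw [zsmul_eq_mul]
    ring

end ConeAux

variable {K : Type} [Field K] [CharZero K] {ρ : K →+* ℝ} {σ : K →+* ℂ}

open ConeAux in
theorem coneSt (hB : LpB σ) : ConeSt σ := by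
  intro γ α β x₀ hγ hP hQ hi
  obtain ⟨e, he⟩ := exists_equiv x₀ hi
  have hs : ∀ t : ℝ, 0 < t → HasSum
      (fun d : lines γ {x | ∃ (i j : ℕ) (k : ℤ), x = x₀ + i * α + j * β + k * γ} =>
        Real.exp (-t * lv σ γ d.1))
      (Real.exp (-t * ht σ γ x₀) * ((1 - Real.exp (-t * ht σ γ α))⁻¹ *
        (1 - Real.exp (-t * ht σ γ β))⁻¹)) := by
    intro t ht0
    rw [← e.hasSum_iff]
    have g1 := hasSum_geometric_of_lt_one (Real.exp_pos (-t * ht σ γ α)).le (one_sub_pos ht0 hP)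
    have g2 := hasSum_geometric_of_lt_one (Real.exp_pos (-t * ht σ γ β)).le (one_sub_pos ht0 hQ)
    have g3 := (g1.mul g2 (g1.summable.mul_of_nonneg g2.summable
      (fun n => by positivity) (fun n => by positivity))).mul_left (Real.exp (-t * ht σ γ x₀))
    refine g3.congr_fun fun p => ?_
    simp only [Function.comp]
    rw [he, lv_mk σ hγ, ht_add, ht_add, ht_nat, ht_nat, ← Real.exp_nat_mul, ← Real.exp_nat_mul,
      ← Real.exp_add, ← Real.exp_add]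
    congr 1
    ring
  have hx := xp hP hQ (G := gf σ γ {x | ∃ (i j : ℕ) (k : ℤ), x = x₀ + i * α + j * β + k * γ})
    (v := ht σ γ x₀) fun t ht0 => (hs t ht0).tsum_eq
  have hA : Adm σ γ {x | ∃ (i j : ℕ) (k : ℤ), x = x₀ + i * α + j * β + k * γ} := by
    refine ⟨hγ, fun x => ⟨?_, ?_⟩, fun t ht0 => (hs t ht0).summable, _, hx⟩
    · rintro ⟨i, j, k, h⟩
      refine ⟨i, j, k - 1, ?_⟩
      push_cast
      linear_combination h
    · rintro ⟨i, j, k, h⟩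
      refine ⟨i, j, k + 1, ?_⟩
      push_cast
      linear_combination h
  refine ⟨hA, ?_⟩
  rw [hB.xp_uniq _ _ _ (hB.xp _ _ hA) hx]
  rfl

end Pool.Agent.CU
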