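import Pool.Agent.Lib.MP_ca56d1_nt.CU.U.St

/-! The extension lemma for quotients of entire functions. -/

namespace Pool.Agent.CU

open Complex Filter Topology MeasureTheory Pool.Agent.RM
open scoped Real Classical

variable {K : Type} [Field K] [CharZero K]

namespace EXAux

open Polynomial

/-- An entire elliptic function is constant. -/
theorem const_of_per {g b : ℂ} (hi : (g / b).im ≠ 0) {f : ℂ → ℂ} (hf : Differentiable ℂ f)
    (h1 : Function.Periodic f g) (h2 : Function.Periodic f b) (z w : ℂ) : f z = f w := by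
  refine hf.apply_eq_apply_of_bounded ?_ z w
  refine ((isCompact_closedBall (0 : ℂ) (‖g‖ + ‖b‖)).image hf.continuous).isBounded.subset ?_
  rintro _ ⟨u, rfl⟩
  have hb : b ≠ 0 := fun e => hi (by simp [e])
  obtain ⟨x, y, e⟩ : ∃ x y : ℝ, u = x * g + y * b := by
    refine ⟨(u / b).im / (g / b).im, (u / b).re - (u / b).im / (g / b).im * (g / b).re, ?_⟩
    have : u / b = ((u / b).im / (g / b).im : ℝ) * (g / b) +
        ((u / b).re - (u / b).im / (g / b).im * (g / b).re : ℝ) := by
      apply Complex.ext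
      · simp only [add_re, re_ofReal_mul, ofReal_re]; ring
      · simp only [add_im, im_ofReal_mul, ofReal_im, add_zero]
        rw [div_mul_cancel₀ _ hi]
    rw [div_eq_iff hb] at this
    rw [add_mul, mul_assoc, div_mul_cancel₀ _ hb] at this
    exact this
  refine ⟨(Int.fract x : ℝ) * g + (Int.fract y : ℝ) * b, ?_, ?_⟩
  · rw [mem_closedBall_zero_iff]
    refine (norm_add_le _ _).trans (add_le_add ?_ ?_) <;>
      rw [norm_mul, Complex.norm_real, Real.norm_of_nonneg (Int.fract_nonneg _)] <;>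
      exact mul_le_of_le_one_left (norm_nonneg _) (Int.fract_lt_one _).le
  · rw [← h1.int_mul ⌊x⌋, ← h2.int_mul ⌊y⌋, e]
    congr 1
    simp only [Int.fract]
    push_cast; ring

theorem exists_quot {N D : ℂ → ℂ} (hN : Differentiable ℂ N) (hD : Differentiable ℂ D)
    (h1 : ∀ w, analyticOrderAt N w = analyticOrderAt D w) (h2 : ∀ w, analyticOrderAt D w ≠ ⊤) :
    ∃ f : ℂ → ℂ, Differentiable ℂ f ∧ (∀ w, f w ≠ 0) ∧ ∀ w, N w = f w * D w := by
  have hm : MeromorphicOn (N / D) Set.univ := fun w _ =>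
    (hN.analyticAt w).meromorphicAt.div (hD.analyticAt w).meromorphicAt
  have hn := fun w => meromorphicNFOn_toMeromorphicNFOn (N / D) Set.univ (Set.mem_univ w)
  have h0 : ∀ w, meromorphicOrderAt (toMeromorphicNFOn (N / D) Set.univ) w = 0 := by
    intro w
    rw [meromorphicOrderAt_toMeromorphicNFOn hm (Set.mem_univ w), meromorphicOrderAt_div
      (hN.analyticAt w).meromorphicAt (hD.analyticAt w).meromorphicAt,
      (hN.analyticAt w).meromorphicOrderAt_eq, (hD.analyticAt w).meromorphicOrderAt_eq, h1]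
    obtain ⟨n, e⟩ := ENat.ne_top_iff_exists.1 (h2 w)
    rw [← e]
    simp
  have ha := fun w => (hn w).meromorphicOrderAt_nonneg_iff_analyticAt.1 (h0 w).ge
  refine ⟨_, fun w => (ha w).differentiableAt,
    fun w => (hn w).meromorphicOrderAt_eq_zero_iff.1 (h0 w), fun w => ?_⟩
  have h3 := (hD.analyticAt w).eventually_eq_zero_or_eventually_ne_zero.resolve_left
    fun h => h2 w (analyticOrderAt_eq_top.2 h)
  refine ((hN.continuous.continuousAt.eventuallyEq_nhds_iff_eventuallyEq_nhdsNE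
    ((ha w).continuousAt.mul hD.continuous.continuousAt)).1 ?_).eq_of_nhds
  filter_upwards [h3, hm.toMeromorphicNFOn_eq_self_on_nhdsNE (Set.mem_univ w)] with z h4 h5
  rw [Pi.mul_apply, h5, Pi.div_apply, div_mul_cancel₀ _ h4]

theorem two_pi_ne : (2 * π * I : ℂ) ≠ 0 := Complex.two_pi_I_ne_zero

theorem hasDerivAt_ee {g : ℂ → ℂ} {g' w : ℂ} (h : HasDerivAt g g' w) :
    HasDerivAt (fun z => ee (g z)) (ee (g w) * (2 * π * I * g')) w :=
  (h.const_mul (2 * π * I : ℂ)).cexp

theorem exists_log {f : ℂ → ℂ} (hf : Differentiable ℂ f) (h0 : ∀ w, f w ≠ 0) :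
    ∃ g : ℂ → ℂ, Differentiable ℂ g ∧ ∀ w, f w = f 0 / ee (g 0) * ee (g w) := by
  obtain ⟨g, hg⟩ := Differentiable.isExactOn_univ (f := fun w => deriv f w / f w / (2 * π * I))
    ((hf.deriv.div hf h0).div_const _)
  refine ⟨g, fun w => (hg w trivial).differentiableAt, fun w => ?_⟩
  have h1 : ∀ w, HasDerivAt (fun z => f z / ee (g z)) 0 w := fun w => by
    have h2 := (hf w).hasDerivAt.div (hasDerivAt_ee (hg w trivial)) (Complex.exp_ne_zero _)
    refine h2.congr_deriv ?_
    have := h0 w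
    have := two_pi_ne
    field_simp
    ring
  rw [← is_const_of_deriv_eq_zero (fun w => (h1 w).differentiableAt) (fun w => (h1 w).deriv) w 0]
  exact (div_mul_cancel₀ _ (Complex.exp_ne_zero _)).symm

theorem int_of_ee {u : ℂ → ℂ} (hu : Differentiable ℂ u) (h : ∀ w, ee (u w) = 1) :
    ∃ k : ℤ, ∀ w, u w = k := by
  obtain ⟨k, hk⟩ := Complex.exp_eq_one_iff.1 (h 0)
  refine ⟨k, fun w => ?_⟩
  rw [is_const_of_deriv_eq_zero hu (fun w => ?_) w 0]
  · exact mul_left_cancel₀ two_pi_ne (hk.trans (mul_comm _ _))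
  · have h1 := hasDerivAt_ee (hu w).hasDerivAt
    rw [funext h] at h1
    have h2 := h1.unique (hasDerivAt_const w 1)
    rw [h w, one_mul] at h2
    exact (mul_eq_zero.1 h2).resolve_left two_pi_ne

theorem hasDerivAt_eval (σ : K →+* ℂ) (P : K[X]) (w : ℂ) :
    HasDerivAt (fun z => P.eval₂ σ z) (P.derivative.eval₂ σ w) w := by
  simpa only [eval_map, derivative_map] using (P.map σ).hasDerivAt w

theorem exists_prim (P : K[X]) :
    ∃ R : K[X], R.derivative = P ∧ R.natDegree ≤ P.natDegree + 1 := by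
  refine ⟨∑ i ∈ Finset.range (P.natDegree + 1), monomial (i + 1) (P.coeff i / (i + 1)), ?_, ?_⟩
  · rw [derivative_sum]
    refine Eq.trans (Finset.sum_congr rfl fun i _ => ?_) P.as_sum_range.symm
    rw [derivative_monomial_succ, div_mul_cancel₀ _ (Nat.cast_add_one_ne_zero i)]
  · exact natDegree_sum_le_of_forall_le _ _ fun i hi =>
      (natDegree_monomial_le _).trans (by simpa [Nat.lt_succ_iff] using hi)

theorem poly (σ : K →+* ℂ) {m₁ m₂ : K} (hm : (σ m₁ / σ m₂).im ≠ 0) (d : ℕ) :
    ∀ (g : ℂ → ℂ) (Q₁ Q₂ : K[X]), Differentiable ℂ g → Q₁.degree < d → Q₂.degree < d →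
      (∀ w, g (w + σ m₁) = g w + Q₁.eval₂ σ w) → (∀ w, g (w + σ m₂) = g w + Q₂.eval₂ σ w) →
      ∃ (c : ℂ) (P : K[X]), P.natDegree ≤ d ∧ ∀ w, g w = c + P.eval₂ σ w := by
  induction d with
  | zero =>
    intro g Q₁ Q₂ hg d1 d2 h1 h2
    rw [Nat.cast_zero, Nat.WithBot.lt_zero_iff, degree_eq_bot] at d1 d2
    subst d1 d2
    exact ⟨g 0, 0, by simp, fun w => by
      simpa using const_of_per hm hg (by simpa using h1) (by simpa using h2) w 0⟩
  | succ d ih =>
    intro g Q₁ Q₂ hg d1 d2 h1 h2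
    have hd : ∀ Q : K[X], Q.degree < (d + 1 : ℕ) → Q.derivative.degree < d := by
      intro Q h
      rw [degree_lt_iff_coeff_zero] at h ⊢
      intro n hn
      rw [coeff_derivative, h (n + 1) (by omega), zero_mul]
    have hs : ∀ (m : ℂ) (Q : K[X]), (∀ w, g (w + m) = g w + Q.eval₂ σ w) →
        ∀ w, deriv g (w + m) = deriv g w + Q.derivative.eval₂ σ w := by
      intro m Q h w
      have h3 := (hg (w + m)).hasDerivAt.comp_add_const w m
      rw [funext h] at h3
      exact h3.unique ((hg w).hasDerivAt.add (hasDerivAt_eval σ Q w))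
    obtain ⟨c, P, p1, p2⟩ := ih (deriv g) _ _ hg.deriv (hd _ d1) (hd _ d2) (hs _ _ h1) (hs _ _ h2)
    obtain ⟨R, r1, r2⟩ := exists_prim P
    have h3 : ∀ w, HasDerivAt (fun z => g z - (c * z + R.eval₂ σ z)) 0 w := fun w => by
      refine ((hg w).hasDerivAt.sub (((hasDerivAt_id w).const_mul c).add
        (hasDerivAt_eval σ R w))).congr_deriv ?_
      rw [r1, p2, mul_one, sub_self]
    have h4 := is_const_of_deriv_eq_zero (fun w => (h3 w).differentiableAt) fun w => (h3 w).deriv
    have hm1 : σ m₁ ≠ 0 := fun e => hm (by simp [e])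
    have h5 : σ ((Q₁.eval 0 - R.eval m₁ + R.eval 0) / m₁) = c := by
      have h6 := h4 (σ m₁) 0
      have h7 := h1 0
      rw [zero_add] at h7
      rw [map_div₀, div_eq_iff hm1, map_add, map_sub, ← eval₂_at_apply, ← eval₂_at_apply,
        ← eval₂_at_apply, map_zero]
      linear_combination h6 - h7
    refine ⟨g 0 - R.eval₂ σ 0, R + C ((Q₁.eval 0 - R.eval m₁ + R.eval 0) / m₁) * X,
      natDegree_add_le_of_degree_le (by omega) ((natDegree_C_mul_le _ _).trans
        (natDegree_X_le.trans (by omega))), fun w => ?_⟩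
    rw [eval₂_add, eval₂_mul, eval₂_C, eval₂_X, h5]
    linear_combination h4 w 0

end EXAux

open EXAux Polynomial

theorem exSt (σ : K →+* ℂ) : EXSt σ := by
  intro d N D m₁ m₂ hN hD h1 h2 hm e1 e2
  obtain ⟨f, hf, f0, hND⟩ := exists_quot hN hD h1 h2
  obtain ⟨g, hg, hfg⟩ := exists_log hf f0
  have he : ∀ z, ee z ≠ 0 := fun z => Complex.exp_ne_zero _
  have hc : f 0 / ee (g 0) ≠ 0 := div_ne_zero (f0 0) (he _)
  generalize f 0 / ee (g 0) = c at hfg hc
  have hD0 : ∀ m : ℂ, ¬ ∀ w, D (w + m) = 0 := fun m h => h2 0 (by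
    rw [show D = fun _ => 0 from funext fun w => by simpa using h (w - m)]
    exact analyticOrderAt_eq_top.2 (Eventually.of_forall fun _ => rfl))
  have hz : ∀ {u v : ℂ → ℂ}, Differentiable ℂ u → Differentiable ℂ v → (∀ w, u w * v w = 0) →
      (¬ ∀ w, v w = 0) → ∀ w, u w = 0 := fun hu hv h h' w =>
    (AnalyticOnNhd.eq_zero_or_eq_zero_of_mul_eq_zero (U := Set.univ) (fun z _ => hu.analyticAt z)
      (fun z _ => hv.analyticAt z) (fun z _ => h z) isPreconnected_univ).resolve_right
        (fun h => h' fun z => h z trivial) w trivial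
  have key : ∀ m : ℂ, Eqv σ d (fun w => N (w + m) * D w) (fun w => N w * D (w + m)) →
      ∃ Q : K[X], Q.degree < (d + 1 : ℕ) ∧ ∀ w, g (w + m) = g w + Q.eval₂ σ w := by
    rintro m ⟨P, p1, p2⟩
    have hP : Differentiable ℂ fun w => P.eval₂ σ w :=
      fun w => (hasDerivAt_eval σ P w).differentiableAt
    have hP' : Differentiable ℂ fun w => ee (P.eval₂ σ w) :=
      fun w => (hasDerivAt_ee (hP w).hasDerivAt).differentiableAt
    have hm : Differentiable ℂ fun w : ℂ => w + m := by fun_prop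
    have hu : Differentiable ℂ fun w => f (w + m) - ee (P.eval₂ σ w) * f w :=
      (hf.comp hm).sub (hP'.mul hf)
    have h3 := hz hu hD (hz (hu.mul hD) (hD.comp hm) (fun w => by
      have h := p2 w
      simp only [hND] at h
      simp only [Pi.mul_apply, Function.comp_apply]
      linear_combination h) (hD0 m)) (by simpa using hD0 0)
    obtain ⟨k, hk⟩ := int_of_ee (u := fun w => g (w + m) - g w - P.eval₂ σ w)
      (((hg.comp hm).sub hg).sub hP) fun w => by
        have h := h3 w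
        rw [hfg (w + m), hfg w] at h
        rw [ee, mul_sub, mul_sub, Complex.exp_sub, Complex.exp_sub, div_div,
          div_eq_one_iff_eq (mul_ne_zero (Complex.exp_ne_zero _) (Complex.exp_ne_zero _))]
        refine mul_left_cancel₀ hc ?_
        simp only [ee] at h
        linear_combination h
    refine ⟨P + C (k : K), ?_, fun w => ?_⟩
    · refine (degree_le_of_natDegree_le (natDegree_add_le_of_degree_le p1 (by simp))).trans_lt ?_
      exact_mod_cast Nat.lt_succ_self d
    · rw [eval₂_add, eval₂_C, map_intCast]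
      linear_combination hk w
  obtain ⟨Q₁, d1, q1⟩ := key _ e1
  obtain ⟨Q₂, d2, q2⟩ := key _ e2
  obtain ⟨c', P, p1, p2⟩ := poly σ hm (d + 1) g Q₁ Q₂ hg d1 d2 q1 q2
  refine ⟨c * ee c', mul_ne_zero hc (he _), P, p1, fun w => ?_⟩
  rw [hND, hfg, p2]
  simp only [ee, mul_add, Complex.exp_add]
  ring

end Pool.Agent.CU
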