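import Pool.Agent.Lib.MP_ca56d1_nt.CU.U.St

/-! Formal properties of `e(K)` and of equality modulo `e(K[w])`. -/

namespace Pool.Agent.CU

open Complex Filter Topology MeasureTheory Pool.Agent.RM
open scoped Real Classical

variable {K : Type} [Field K] [CharZero K] {ρ : K →+* ℝ} {σ : K →+* ℂ}

namespace EqvAux

theorem ee_add (z w : ℂ) : ee (z + w) = ee z * ee w := by rw [ee, mul_add, exp_add, ee, ee]

theorem ee_zero : ee 0 = 1 := by rw [ee, mul_zero, exp_zero]

theorem ee_ne (z : ℂ) : ee z ≠ 0 := exp_ne_zero _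

theorem ee_neg (z : ℂ) : ee (-z) = (ee z)⁻¹ := by rw [ee, mul_neg, exp_neg, ee]

theorem ee_zsmul (n : ℤ) (z : ℂ) : ee (n * z) = ee z ^ n := by
  rw [ee, ee, ← exp_int_mul, mul_left_comm]

theorem ee_nsmul (n : ℕ) (z : ℂ) : ee (n * z) = ee z ^ n := by
  rw [ee, ee, ← exp_nat_mul, mul_left_comm]

theorem cont_ee : Continuous ee := by
  unfold ee
  fun_prop

/-- continuous functions that agree off the zeros of an entire function agree -/
theorem ext_ne {F G h : ℂ → ℂ} (hF : Continuous F) (hG : Continuous G) (hh : Differentiable ℂ h)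
    (h0 : ∃ w, h w ≠ 0) (e : ∀ w, h w ≠ 0 → F w = G w) : F = G := by
  refine Continuous.ext_on (s := {w | h w ≠ 0}) (dense_iff_inter_open.2 fun U hU ⟨x, hx⟩ => ?_)
    hF hG e
  by_contra hn
  obtain ⟨w, hw⟩ := h0
  have h1 : h =ᶠ[𝓝 x] fun _ => 0 := by
    filter_upwards [hU.mem_nhds hx] with y hy
    by_contra h2
    exact hn ⟨y, hy, h2⟩
  exact hw (congrFun (AnalyticOnNhd.eq_of_eventuallyEq (fun z _ => hh.analyticAt z)
    analyticOnNhd_const h1) w)

omit [CharZero K] in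
theorem ek_mul (z w : ℂ) : EK σ z → EK σ w → EK σ (z * w) := by
  rintro ⟨k, rfl⟩ ⟨l, rfl⟩
  exact ⟨k + l, by rw [map_add, ee_add]⟩

omit [CharZero K] in
theorem ek_inv (z : ℂ) : EK σ z → EK σ z⁻¹ := by
  rintro ⟨k, rfl⟩
  exact ⟨-k, by rw [map_neg, ee_neg]⟩

omit [CharZero K] in
theorem ek_one : EK σ 1 := ⟨0, by rw [map_zero, ee_zero]⟩

omit [CharZero K] in
theorem ek_mu (z : ℂ) : Mu z → EK σ z := by
  rintro ⟨n, hn, h⟩
  have h0 : z ≠ 0 := by
    rintro rfl
    rw [zero_pow hn] at h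
    exact zero_ne_one h
  rw [← exp_log h0, ← exp_nat_mul] at h
  obtain ⟨m, hm⟩ := exp_eq_one_iff.1 h
  have n0 : (n : ℂ) ≠ 0 := Nat.cast_ne_zero.2 hn
  refine ⟨m / n, ?_⟩
  rw [map_div₀, map_intCast, map_natCast, ee, ← exp_log h0]
  congr 1
  field_simp
  linear_combination hm

omit [CharZero K] in
theorem refl (d : ℕ) (f : ℂ → ℂ) : Eqv σ d f f :=
  ⟨0, by simp, fun w => by rw [Polynomial.eval₂_zero, ee_zero, one_mul]⟩

omit [CharZero K] in
theorem mul (d : ℕ) (f g f' g' : ℂ → ℂ) : Eqv σ d f g → Eqv σ d f' g' →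
    Eqv σ d (fun w => f w * f' w) fun w => g w * g' w := by
  rintro ⟨P, h1, h2⟩ ⟨Q, h3, h4⟩
  refine ⟨P + Q, (Polynomial.natDegree_add_le _ _).trans (max_le h1 h3), fun w => ?_⟩
  simp only [h2, h4, Polynomial.eval₂_add, ee_add]
  ring

end EqvAux

open EqvAux in
omit [CharZero K] in
theorem eqvSt (σ : K →+* ℂ) : EqvSt σ where
  ek_ne := by
    rintro _ ⟨k, rfl⟩
    exact ee_ne _
  ek_one := ek_one
  ek_mul := ek_mul
  ek_inv := ek_inv
  ek_div z w h h' := div_eq_mul_inv z w ▸ ek_mul _ _ h (ek_inv _ h')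
  ek_zpow := by
    rintro _ n ⟨k, rfl⟩
    exact ⟨n * k, by rw [map_mul, map_intCast, ee_zsmul]⟩
  ek_prod s z h := Finset.prod_induction z (EK σ) ek_mul ek_one h
  ek_mu := ek_mu
  ek_root := by
    rintro z n hn ⟨k, hk⟩
    have n0 : (n : ℂ) ≠ 0 := Nat.cast_ne_zero.2 hn
    have h1 : ee (σ (k / n)) ^ n = ee (σ k) := by
      rw [← ee_nsmul, map_div₀, map_natCast, mul_div_cancel₀ _ n0]
    have h2 := ek_mul (σ := σ) _ _ (ek_mu (z / ee (σ (k / n)))
      ⟨n, hn, by rw [div_pow, hk, h1, div_self (ee_ne _)]⟩) ⟨k / n, rfl⟩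
    rwa [div_mul_cancel₀ _ (ee_ne _)] at h2
  refl := refl
  symm := by
    rintro d f g ⟨P, h1, h2⟩
    refine ⟨-P, by rwa [Polynomial.natDegree_neg], fun w => ?_⟩
    rw [h2, Polynomial.eval₂_neg, ee_neg, inv_mul_cancel_left₀ (ee_ne _)]
  trans := by
    rintro d f g h ⟨P, h1, h2⟩ ⟨Q, h3, h4⟩
    refine ⟨P + Q, (Polynomial.natDegree_add_le _ _).trans (max_le h1 h3), fun w => ?_⟩
    rw [h2, h4, Polynomial.eval₂_add, ee_add, mul_assoc]
  mono := by
    rintro d d' f g h ⟨P, h1, h2⟩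
    exact ⟨P, h1.trans h, h2⟩
  mul := mul
  prod d _ s f g h := by
    induction s using Finset.induction_on with
    | empty => exact refl d _
    | insert i s hi ih =>
      simp only [Finset.prod_insert hi]
      exact mul d _ _ _ _ (h i (Finset.mem_insert_self i s))
        (ih fun j hj => h j (Finset.mem_insert_of_mem hj))
  comp := by
    rintro d f g u t ⟨P, h1, h2⟩
    refine ⟨P.comp (Polynomial.C u * Polynomial.X + Polynomial.C t),
      Polynomial.natDegree_comp_le.trans ((Nat.mul_le_mul h1 Polynomial.natDegree_linear_le).trans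
        (mul_one d).le), fun w => ?_⟩
    simp only [h2, Polynomial.eval₂_comp, Polynomial.eval₂_add, Polynomial.eval₂_mul,
      Polynomial.eval₂_C, Polynomial.eval₂_X]
  const := by
    rintro d f _ ⟨k, rfl⟩
    exact ⟨Polynomial.C k, by simp, fun w => by rw [Polynomial.eval₂_C]⟩
  cancel := by
    rintro d f g h hf hg hh h0 ⟨P, h1, h2⟩
    refine ⟨P, h1, congrFun (ext_ne hf ((cont_ee.comp (P.continuous_eval₂ σ)).mul hg) hh h0
      fun w hw => mul_right_cancel₀ hw ?_)⟩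
    exact (h2 w).trans (mul_assoc _ _ _).symm
  ek_of := by
    rintro d f C hf h0 ⟨P, -, h2⟩
    have h3 := congrFun (ext_ne (F := fun _ => C) continuous_const
      (cont_ee.comp (P.continuous_eval₂ σ)) hf h0 fun w hw => mul_right_cancel₀ hw (h2 w)) (σ 0)
    exact ⟨P.eval 0, by rw [← Polynomial.eval₂_at_apply]; exact h3⟩
  at_pt := by
    rintro d f g x ⟨P, -, h2⟩ h0
    exact ⟨P.eval x, by rw [h2, mul_div_cancel_right₀ _ h0, Polynomial.eval₂_at_apply]⟩

end Pool.Agent.CU
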