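import Pool.Agent.Lib.MP_ca56d1_nt.CU.U.St

/-! The finite part of the theta integral of an admissible set of lines. -/

namespace Pool.Agent.CU

open Complex Filter Topology MeasureTheory Pool.Agent.RM
open scoped Real Classical

namespace FPAux

theorem integrable_tsum' {α ι : Type*} [MeasurableSpace α] {μ : Measure α} [Countable ι]
    {F : ι → α → ℝ} (h1 : ∀ i, Integrable (F i) μ) (h2 : Summable fun i => ∫ a, ‖F i a‖ ∂μ) :
    Integrable (fun a => ∑' i, F i a) μ := by
  refine ⟨AEStronglyMeasurable.tsum fun i => (h1 i).1, ?_⟩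
  refine lt_of_le_of_lt (lintegral_mono fun a => enorm_tsum_le_tsum_enorm) ?_
  rw [lintegral_tsum fun i => (h1 i).1.enorm]
  simp_rw [← ofReal_integral_norm_eq_lintegral_enorm (h1 _)]
  exact h2.tsum_ofReal_lt_top

/-- The theta series of one line. -/
noncomputable def tl (τ : ℂ) (T : ℝ) : ℝ := ∑' n : ℤ, Real.exp (-π * T * ‖τ + n‖ ^ 2)

theorem tl_nonneg (τ : ℂ) (T : ℝ) : 0 ≤ tl τ T := tsum_nonneg fun _ => (Real.exp_pos _).le

theorem tl_le (hL : LineSt) (T : ℝ) (hT : 0 < T) (τ : ℂ) :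
    tl τ T ≤ Real.exp (2 * π * T) * tl 0 (T / 2) * Real.exp (-(π * T) * τ.im) := by
  have h0 := (hL 0).1 (T / 2) (by positivity)
  have h1 := (Equiv.addRight ⌊τ.re⌋).summable_iff.2 h0
  have h2 := (Equiv.addRight ⌊τ.re⌋).tsum_eq fun n : ℤ => Real.exp (-π * (T / 2) * ‖(0 : ℂ) + n‖ ^ 2)
  unfold tl
  rw [← h2, mul_right_comm, ← tsum_mul_left]
  refine ((hL τ).1 T hT).tsum_le_tsum (fun n => ?_) (h1.mul_left _)
  rw [← Real.exp_add, ← Real.exp_add, Real.exp_le_exp]
  have e1 : ‖τ + n‖ ^ 2 = (τ.re + n) ^ 2 + τ.im ^ 2 := by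
    rw [Complex.sq_norm, Complex.normSq_apply]; simp; ring
  have e2 : ‖(0 : ℂ) + ((Equiv.addRight ⌊τ.re⌋ n : ℤ) : ℂ)‖ ^ 2 = ((n : ℝ) + ⌊τ.re⌋) ^ 2 := by
    rw [zero_add, Complex.norm_intCast, sq_abs]; simp
  rw [e1, e2]
  have f0 := Int.floor_le τ.re
  have f1 := Int.lt_floor_add_one τ.re
  have hπ : 0 < π * T := by positivity
  have key : ((n : ℝ) + ⌊τ.re⌋) ^ 2 / 2 + τ.im - 2 ≤ (τ.re + n) ^ 2 + τ.im ^ 2 := by
    nlinarith [sq_nonneg (τ.im - 1), sq_nonneg (τ.im), sq_nonneg ((τ.re + n) + (τ.re - ⌊τ.re⌋)),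
      mul_nonneg (sub_nonneg.2 f0) (sub_nonneg.2 f1.le)]
  nlinarith [mul_le_mul_of_nonneg_left key hπ.le]

variable {ι : Type} {τ : ι → ℂ}

theorem summable_tl (hL : LineSt)
    (hs : ∀ t : ℝ, 0 < t → Summable fun i => Real.exp (-t * (τ i).im)) (T : ℝ) (hT : 0 < T) :
    Summable fun i => tl (τ i) T :=
  .of_nonneg_of_le (fun _ => tl_nonneg _ _) (fun i => tl_le hL T hT (τ i))
    ((hs (π * T) (by positivity)).mul_left _)

theorem summable_pair (hL : LineSt)
    (hs : ∀ t : ℝ, 0 < t → Summable fun i => Real.exp (-t * (τ i).im)) (T : ℝ) (hT : 0 < T) :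
    Summable fun p : ι × ℤ => Real.exp (-π * T * ‖τ p.1 + p.2‖ ^ 2) :=
  (summable_prod_of_nonneg fun _ => (Real.exp_pos _).le).2
    ⟨fun i => (hL (τ i)).1 T hT, summable_tl hL hs T hT⟩

theorem ev_one (hs : ∀ t : ℝ, 0 < t → Summable fun i => Real.exp (-t * (τ i).im)) :
    ∀ᶠ i in cofinite, 1 < (τ i).im := by
  filter_upwards [(hs 1 one_pos).tendsto_cofinite_zero.eventually
    (gt_mem_nhds (Real.exp_pos (-1)))] with i hi
  rw [Real.exp_lt_exp] at hi
  linarith

theorem summable_abs (hs : ∀ t : ℝ, 0 < t → Summable fun i => Real.exp (-t * (τ i).im))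
    (t : ℝ) (ht : 0 < t) : Summable fun i => Real.exp (-t * |(τ i).im|) := by
  refine (hs t ht).congr_cofinite ?_
  filter_upwards [ev_one hs] with i hi
  rw [abs_of_pos (by linarith)]

theorem summable_bd (hs : ∀ t : ℝ, 0 < t → Summable fun i => Real.exp (-t * (τ i).im)) :
    Summable fun i =>
      2 * Real.exp (-2 * π * |(τ i).im|) / (1 - Real.exp (-2 * π * |(τ i).im|)) := by
  have h1 : Real.exp (-2 * π) < 1 := Real.exp_lt_one_iff.2 (by linarith [Real.pi_pos])
  refine Summable.of_norm_bounded_eventually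
    ((hs (2 * π) (by positivity)).mul_left (2 / (1 - Real.exp (-2 * π)))) ?_
  filter_upwards [ev_one hs] with i hi
  have h2 : Real.exp (-2 * π * (τ i).im) ≤ Real.exp (-2 * π) :=
    Real.exp_le_exp.2 (by nlinarith [Real.pi_pos])
  have h3 := Real.exp_pos (-2 * π * (τ i).im)
  rw [abs_of_pos (by linarith : 0 < (τ i).im), Real.norm_of_nonneg
    (div_nonneg (by linarith) (by linarith)), show -(2 * π) * (τ i).im = -2 * π * (τ i).im by ring,
    div_mul_eq_mul_div]
  exact div_le_div_of_nonneg_left (by linarith) (by linarith) (by linarith)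

theorem slope_exp (a b : ℝ) :
    Tendsto (fun r : ℝ => (Real.exp (a * r) - Real.exp (b * r)) / r) (𝓝[>] 0) (𝓝 (a - b)) := by
  have h : HasDerivAt (fun r : ℝ => Real.exp (a * r) - Real.exp (b * r)) (a - b) 0 := by
    have h1 := ((hasDerivAt_id (0 : ℝ)).const_mul a).exp
    have h2 := ((hasDerivAt_id (0 : ℝ)).const_mul b).exp
    simpa using h1.fun_sub h2
  have := h.tendsto_slope_zero_right
  simpa [div_eq_inv_mul] using this

theorem core (hL : LineSt) (hv : ∀ i, (τ i).im ≠ 0)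
    (hs : ∀ t : ℝ, 0 < t → Summable fun i => Real.exp (-t * (τ i).im)) (c : Fin 4 → ℝ)
    (hc : Xp (fun t => ∑' i, Real.exp (-t * (τ i).im)) c) (l : ℝ)
    (hl : HasSum (fun i => Real.log (‖1 - ee (τ i)‖ ^ 2)) l) :
    (∀ r : ℝ, 0 < r → IntegrableOn (fun T => (∑' i, tl (τ i) T) * cut r T) (Set.Ioi 0)) ∧
    Tendsto (fun r : ℝ => (∫ T in Set.Ioi (0 : ℝ), (∑' i, tl (τ i) T) * cut r T) -
      (c 0 / (2 * π) ^ 2 / r ^ 3 + c 1 / (2 * π) / r ^ 2 + c 2 / r)) (𝓝[>] 0)
      (𝓝 (-(l - 2 * π * c 3))) := by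
  have hcount : Countable ι := by
    have := (hs 1 one_pos).countable_support
    rw [← Set.countable_univ_iff]
    exact this.mono fun i _ => (Real.exp_pos _).ne'
  choose R hR hlim using fun i => (hL (τ i)).2 (hv i)
  have hRs : ∀ r, 0 < r → Summable fun i => R i r := fun r hr =>
    .of_norm_bounded (summable_bd hs) fun i => (hR i r hr).2.2
  have hE : ∀ r, 0 < r → Summable fun i => Real.exp (-2 * π * |(τ i).im| * r) / r := fun r hr =>
    ((summable_abs hs (2 * π * r) (by positivity)).div_const r).congr fun i => by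
      congr 2; ring
  have hnorm : ∀ r, 0 < r → Summable fun i =>
      ∫ T in Set.Ioi (0 : ℝ), ‖tl (τ i) T * cut r T‖ := fun r hr => by
    refine ((hE r hr).add (hRs r hr)).congr fun i => ?_
    rw [← (hR i r hr).2.1]
    refine setIntegral_congr_fun measurableSet_Ioi fun T hT => ?_
    have hT' : 0 < T := hT
    exact (Real.norm_of_nonneg (mul_nonneg (tl_nonneg _ _)
      (div_nonneg (Real.exp_pos _).le hT'.le))).symm
  refine ⟨fun r hr => ?_, ?_⟩
  · have := integrable_tsum' (μ := volume.restrict (Set.Ioi 0))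
      (F := fun i T => tl (τ i) T * cut r T) (fun i => (hR i r hr).1) (hnorm r hr)
    simp only [tsum_mul_right] at this
    exact this
  -- the finite set of lines below height one
  have hF := ev_one hs
  rw [eventually_cofinite] at hF
  have hpos : ∀ i ∉ hF.toFinset, |(τ i).im| = (τ i).im := fun i hi => by
    have : 1 < (τ i).im := by simpa using hi
    exact abs_of_pos (by linarith)
  have t1 : Tendsto (fun r : ℝ => ∑' i, R i r) (𝓝[>] 0)
      (𝓝 (∑' i, (-Real.log (‖1 - ee (τ i)‖ ^ 2) + 2 * π * (|(τ i).im| - (τ i).im)))) :=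
    tendsto_tsum_of_dominated_convergence (summable_bd hs) hlim
      (eventually_mem_nhdsWithin.mono fun r hr i => (hR i r hr).2.2)
  have s1 : HasSum (fun i => 2 * π * (|(τ i).im| - (τ i).im))
      (∑ i ∈ hF.toFinset, 2 * π * (|(τ i).im| - (τ i).im)) :=
    hasSum_sum_of_ne_finset_zero fun i hi => by rw [hpos i hi]; simp
  rw [(hl.neg.add s1).tsum_eq] at t1
  have t2 : Tendsto (fun r : ℝ => ∑ i ∈ hF.toFinset,
      (Real.exp (-2 * π * |(τ i).im| * r) - Real.exp (-2 * π * (τ i).im * r)) / r) (𝓝[>] 0)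
      (𝓝 (∑ i ∈ hF.toFinset, (-2 * π * |(τ i).im| - -2 * π * (τ i).im))) :=
    tendsto_finsetSum _ fun i _ => slope_exp _ _
  have t3 : Tendsto (fun r : ℝ => 2 * π * r) (𝓝[>] 0) (𝓝[>] 0) := by
    refine tendsto_nhdsWithin_iff.2 ⟨?_, eventually_mem_nhdsWithin.mono fun r hr => ?_⟩
    · have : Tendsto (fun r : ℝ => 2 * π * r) (𝓝 0) (𝓝 (2 * π * 0)) :=
        (continuous_const.mul continuous_id).tendsto 0
      rw [mul_zero] at this
      exact this.mono_left nhdsWithin_le_nhds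
    · have : 0 < r := hr
      exact Set.mem_Ioi.2 (by positivity)
  have t4 := (((hc.comp t3).const_mul (2 * π)).add t2).add t1
  have e : 2 * π * c 3 + ∑ i ∈ hF.toFinset, (-2 * π * |(τ i).im| - -2 * π * (τ i).im) +
      (-l + ∑ i ∈ hF.toFinset, 2 * π * (|(τ i).im| - (τ i).im)) = -(l - 2 * π * c 3) := by
    have : ∑ i ∈ hF.toFinset, (-2 * π * |(τ i).im| - -2 * π * (τ i).im) =
        -∑ i ∈ hF.toFinset, 2 * π * (|(τ i).im| - (τ i).im) := by
      rw [← Finset.sum_neg_distrib]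
      exact Finset.sum_congr rfl fun i _ => by ring
    rw [this]; ring
  rw [e] at t4
  refine t4.congr' (eventually_mem_nhdsWithin.mono fun r hr => ?_)
  have hr' : 0 < r := hr
  have a1 := hasSum_integral_of_summable_integral_norm (μ := volume.restrict (Set.Ioi 0))
    (F := fun i T => tl (τ i) T * cut r T) (fun i => (hR i r hr').1) (hnorm r hr')
  simp only [tsum_mul_right] at a1
  have a2 : HasSum (fun i => (Real.exp (-2 * π * |(τ i).im| * r) -
      Real.exp (-2 * π * (τ i).im * r)) / r) (∑ i ∈ hF.toFinset,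
      (Real.exp (-2 * π * |(τ i).im| * r) - Real.exp (-2 * π * (τ i).im * r)) / r) :=
    hasSum_sum_of_ne_finset_zero fun i hi => by rw [hpos i hi]; simp
  have a3 := ((((hs (2 * π * r) (by positivity)).hasSum.div_const r).add a2).add
    (hRs r hr').hasSum)
  have a4 := a1.unique (a3.congr_fun fun i => by
    have := (hR i r hr').2.1
    unfold tl
    rw [this, show -(2 * π * r) * (τ i).im = -2 * π * (τ i).im * r by ring]
    ring)
  have hπ := Real.pi_pos
  simp only [Function.comp]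
  rw [a4]
  field_simp
  ring

variable {K : Type} [Field K] [CharZero K]

omit [CharZero K] in
theorem per_int {σ : K →+* ℂ} {γ : K} {S : Set K} (h : Adm σ γ S) (n : ℤ) (x : K) :
    x + n * γ ∈ S ↔ x ∈ S := by
  induction n using Int.induction_on with
  | zero => simp
  | succ n ih =>
    rw [← ih, ← h.per (x + ((n : ℤ) : K) * γ)]
    push_cast
    rw [add_mul, one_mul, add_assoc]
  | pred n ih =>
    rw [← ih, ← h.per]
    push_cast
    rw [sub_mul, one_mul, add_assoc, sub_add_cancel]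

omit [CharZero K] in
theorem out_eq (γ x : K) : ∃ n : ℤ, (QuotientAddGroup.mk x : Ln γ).out = x + n * γ := by
  obtain ⟨⟨h, n, rfl⟩, hh⟩ := QuotientAddGroup.mk_out_eq_add (AddSubgroup.zmultiples γ) x
  exact ⟨n, by rw [hh]; simp⟩

omit [CharZero K] in
theorem out_mem {σ : K →+* ℂ} {γ : K} {S : Set K} (h : Adm σ γ S) (d : lines γ S) :
    d.1.out ∈ S := by
  obtain ⟨d, x, hx, rfl⟩ := d
  obtain ⟨n, hn⟩ := out_eq γ x
  rw [hn]
  exact (per_int h n x).2 hx

omit [CharZero K] in
theorem mk_add (γ x : K) (n : ℤ) :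
    (QuotientAddGroup.mk (x + n * γ) : Ln γ) = QuotientAddGroup.mk x := by
  rw [eq_comm, QuotientAddGroup.eq]
  exact ⟨n, by simp⟩

/-- An admissible set is the union of its lines. -/
noncomputable def eqv {σ : K →+* ℂ} {γ : K} {S : Set K} (h : Adm σ γ S) : lines γ S × ℤ ≃ S :=
  Equiv.ofBijective (fun p => ⟨p.1.1.out + p.2 * γ, (per_int h _ _).2 (out_mem h p.1)⟩) <| by
    constructor
    · rintro ⟨d, n⟩ ⟨d', n'⟩ hh
      have h1 : d.1.out + n * γ = d'.1.out + n' * γ := congrArg Subtype.val hh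
      have h2 := congrArg (QuotientAddGroup.mk : K → Ln γ) h1
      rw [mk_add, mk_add, QuotientAddGroup.out_eq', QuotientAddGroup.out_eq'] at h2
      obtain rfl : d = d' := Subtype.ext h2
      have h3 : (n : K) = n' := mul_right_cancel₀ h.ne (add_left_cancel h1)
      rw [Int.cast_inj.1 h3]
    · rintro ⟨x, hx⟩
      obtain ⟨n, hn⟩ := out_eq γ x
      refine ⟨⟨⟨QuotientAddGroup.mk x, x, hx, rfl⟩, -n⟩, Subtype.ext ?_⟩
      simp only [hn]
      push_cast
      ring

end FPAux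

open FPAux

variable {K : Type} [Field K] [CharZero K] {ρ : K →+* ℝ} {σ : K →+* ℂ}

theorem fpSt (hL : LineSt) (hA : LpA σ) (hB : LpB σ) : FPSt σ := by
  intro γ S w h hw
  have hγ : σ γ ≠ 0 := (map_ne_zero σ).2 h.ne
  have hg : 0 < ‖σ γ‖ := norm_pos_iff.2 hγ
  set g := ‖σ γ‖ with hgd
  set τ : lines γ S → ℂ := fun d => (σ d.1.out - w) / σ γ with hτ
  have him : ∀ d, (τ d).im = lv σ γ d.1 - (w / σ γ).im := fun d => by
    simp only [hτ, lv, sub_div, Complex.sub_im]
  have hex : ∀ (t : ℝ) d, Real.exp (-t * (τ d).im) =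
      Real.exp (t * (w / σ γ).im) * Real.exp (-t * lv σ γ d.1) := fun t d => by
    rw [him, ← Real.exp_add]; congr 1; ring
  have hs : ∀ t : ℝ, 0 < t → Summable fun d => Real.exp (-t * (τ d).im) := fun t ht => by
    simp only [hex]
    exact (h.sum t ht).mul_left _
  have hwS : w ∉ σ '' S := by
    rintro ⟨x, hx, rfl⟩
    exact hw x hx (by simp)
  obtain ⟨c, hc3, hc⟩ := hB.shift γ S w h
  have hc' : Xp (fun t => ∑' d, Real.exp (-t * (τ d).im)) c := by
    simp only [hex, tsum_mul_left]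
    exact hc
  obtain ⟨k1, k2⟩ := core hL (fun d => hw _ (out_mem h d)) hs c hc' _ (hA.log γ S h w hwS)
  have hpt : ∀ (T : ℝ) (p : lines γ S × ℤ), Real.exp (-π * T * ‖σ (eqv h p : K) - w‖ ^ 2) =
      Real.exp (-π * (g ^ 2 * T) * ‖τ p.1 + p.2‖ ^ 2) := fun T p => by
    have : σ (eqv h p : K) - w = σ γ * (τ p.1 + p.2) := by
      change σ (p.1.1.out + p.2 * γ) - w = _
      simp only [hτ, map_add, map_mul, map_intCast]
      field_simp
      ring
    rw [this, norm_mul]
    congr 1; ring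
  have hsum : ∀ T : ℝ, 0 < T → Summable fun x : S => Real.exp (-π * T * ‖σ x - w‖ ^ 2) :=
    fun T hT => by
      rw [← (eqv h).summable_iff]
      exact (summable_pair hL hs (g ^ 2 * T) (by positivity)).congr fun p => (hpt T p).symm
  have hTh : ∀ r : ℝ, ∀ T ∈ Set.Ioi (0 : ℝ), Th σ S w T * cut r T =
      g ^ 2 * ((∑' d, tl (τ d) (g ^ 2 * T)) * cut (g * r) (g ^ 2 * T)) := fun r T hT => by
    have hT' : 0 < T := hT
    have e1 : Th σ S w T = ∑' d, tl (τ d) (g ^ 2 * T) := by
      unfold Th tl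
      rw [← (eqv h).tsum_eq, ← (summable_pair hL hs (g ^ 2 * T) (by positivity)).tsum_prod]
      exact tsum_congr (hpt T)
    have e2 : -π * (g * r) ^ 2 / (g ^ 2 * T) = -π * r ^ 2 / T := by field_simp
    rw [e1, cut, cut, e2]
    field_simp
  have hg2 : 0 < g ^ 2 := by positivity
  refine ⟨hsum, fun r hr => ?_, ![c 0 / (2 * π) ^ 2 / g ^ 3, c 1 / (2 * π) / g ^ 2, c 2 / g], ?_⟩
  · refine IntegrableOn.congr_fun ?_ (fun T hT => (hTh r T hT).symm) measurableSet_Ioi
    refine Integrable.const_mul ?_ _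
    have := (integrableOn_Ioi_comp_mul_left_iff
      (fun T => (∑' d, tl (τ d) T) * cut (g * r) T) 0 hg2).2
      (by rw [mul_zero]; exact k1 _ (by positivity))
    exact this
  · have t3 : Tendsto (fun r : ℝ => g * r) (𝓝[>] 0) (𝓝[>] 0) := by
      refine tendsto_nhdsWithin_iff.2 ⟨?_, eventually_mem_nhdsWithin.mono fun r hr => ?_⟩
      · have : Tendsto (fun r : ℝ => g * r) (𝓝 0) (𝓝 (g * 0)) :=
          (continuous_const.mul continuous_id).tendsto 0
        rw [mul_zero] at this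
        exact this.mono_left nhdsWithin_le_nhds
      · have : 0 < r := hr
        exact Set.mem_Ioi.2 (by positivity)
    rw [el, ← hc3]
    refine (k2.comp t3).congr fun r => ?_
    have e1 := integral_comp_mul_left_Ioi'
      (fun T => (∑' d, tl (τ d) T) * cut (g * r) T) 0 hg2
    rw [mul_zero, smul_eq_mul] at e1
    rw [setIntegral_congr_fun measurableSet_Ioi (hTh r), integral_const_mul, e1]
    simp only [Function.comp, Matrix.cons_val_zero, Matrix.cons_val_one, Matrix.cons_val]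
    simp only [hτ, mul_pow g r, div_div, mul_assoc]

end Pool.Agent.CU
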