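import Pool.Agent.Lib.MP_ca56d1_nt.CU.U.St

/-! Gaussian sums over a shifted lattice for a small parameter. -/

namespace Pool.Agent.CU

open Complex Filter Topology MeasureTheory Pool.Agent.RM
open scoped Real Classical

namespace GaussAux

open Pool.Agent.Stark

variable {ι : Type} [Fintype ι]

/-- A Gaussian. -/
noncomputable def eg (a : ℝ) (x : ι → ℝ) : ℝ := Real.exp (-π * a * ∑ i, x i ^ 2)

theorem eg_pos (a : ℝ) (x : ι → ℝ) : 0 < eg a x := Real.exp_pos _

theorem lin_le {a : ℝ} (ha : 0 < a) (x : ι → ℝ) (j : ι) :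
    |x j| * eg a x ≤ (1 + 1 / a) * eg (a / 2) x := by
  have h1 : x j ^ 2 ≤ ∑ i, x i ^ 2 :=
    Finset.single_le_sum (f := fun i => x i ^ 2) (fun i _ => sq_nonneg _) (Finset.mem_univ j)
  unfold eg
  generalize ∑ i, x i ^ 2 = S at h1 ⊢
  have hS : 0 ≤ S := (sq_nonneg _).trans h1
  have h2 : -π * (a / 2) * S = π * (a / 2) * S + -π * a * S := by ring
  rw [h2, Real.exp_add, ← mul_assoc]
  refine mul_le_mul_of_nonneg_right ?_ (Real.exp_pos _).le
  have h3 := Real.add_one_le_exp (π * (a / 2) * S)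
  have h4 : a * S ≤ π * (a / 2) * S := by
    have := mul_nonneg ha.le hS
    nlinarith [Real.pi_gt_three]
  have h5 : |x j| ≤ 1 + S := by
    rw [← sq_abs] at h1
    nlinarith [sq_nonneg (|x j| - 1), abs_nonneg (x j)]
  have h6 : 1 + S ≤ (1 + 1 / a) * (a * S + 1) := by
    have e : (1 + 1 / a) * (a * S + 1) = 1 + S + (a * S + 1 / a) := by field_simp; ring
    have : 0 ≤ a * S + 1 / a := by positivity
    linarith
  refine h5.trans (h6.trans (mul_le_mul_of_nonneg_left (by linarith) (by positivity)))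

variable [DecidableEq ι]

theorem summ {B : Matrix ι ι ℝ} (hB : B.det ≠ 0) (c : ι → ℝ) {a : ℝ} (ha : 0 < a) :
    Summable fun k => eg a (lpt B k + c) := by
  have h := summable_gauss B hB (fun _ => (a : ℂ)) (fun _ => by rwa [Complex.ofReal_re]) c
  refine h.congr fun k => ?_
  rw [← Real.norm_of_nonneg (eg_pos _ _).le, ← Complex.norm_real, eg, ← Finset.mul_sum]
  congr 1
  simp only [Pi.add_apply]
  push_cast
  rw [mul_assoc (-(π : ℂ))]

theorem summ_lin {B : Matrix ι ι ℝ} (hB : B.det ≠ 0) (c : ι → ℝ) {a : ℝ} (ha : 0 < a) (j : ι) :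
    Summable fun k => |(lpt B k + c) j| * eg a (lpt B k + c) :=
  Summable.of_nonneg_of_le (fun _ => mul_nonneg (abs_nonneg _) (eg_pos _ _).le)
    (fun _ => lin_le ha _ j) ((summ hB c (half_pos ha)).mul_left _)

theorem det_dual {B : Matrix ι ι ℝ} (hB : B.det ≠ 0) : ((B⁻¹).transpose).det ≠ 0 := by
  rw [Matrix.det_transpose, Matrix.det_nonsing_inv, Ring.inverse_eq_inv']
  exact inv_ne_zero hB

theorem poisson {B : Matrix ι ι ℝ} (hB : B.det ≠ 0) (c : ι → ℝ) {t : ℝ} (ht : 0 < t) :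
    ((∑' k, eg (t ^ 2) (lpt B k + c) : ℝ) : ℂ) =
      ((1 / (|B.det| * t ^ Fintype.card ι) : ℝ) : ℂ) *
        ∑' k, (eg (1 / t ^ 2) (lpt (B⁻¹).transpose k) : ℂ) *
          cexp (I * ((2 * π * ∑ i, lpt (B⁻¹).transpose k i * c i : ℝ) : ℂ)) := by
  have h := poisson_gauss B hB (fun _ => ((t ^ 2 : ℝ) : ℂ))
    (fun _ => by rw [Complex.ofReal_re]; positivity) c
  have h0 : 1 / ((t ^ 2 : ℝ) : ℂ) ^ (1 / 2 : ℂ) = ((1 / t : ℝ) : ℂ) := by
    have h1 : ((1 / 2 : ℂ)) = ((1 / 2 : ℝ) : ℂ) := by push_cast; ring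
    rw [h1, ← Complex.ofReal_cpow (sq_nonneg t), ← Real.sqrt_eq_rpow, Real.sqrt_sq ht.le]
    push_cast
    rfl
  simp only [h0, Finset.prod_const, Finset.card_univ] at h
  rw [Complex.ofReal_tsum]
  refine Eq.trans (tsum_congr fun k => ?_) (h.trans ?_)
  · rw [eg, ← Finset.mul_sum]
    simp only [Pi.add_apply]
    push_cast
    rw [mul_assoc (-(π : ℂ))]
  · congr 1
    · push_cast
      rw [div_pow, one_pow, div_mul_div_comm, one_mul]
    · refine tsum_congr fun k => ?_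
      rw [eg, Complex.ofReal_exp, ← Complex.exp_add, ← Finset.sum_div]
      congr 1
      push_cast
      ring

theorem norm_ph (r t : ℝ) : ‖(r : ℂ) * cexp (I * (t : ℂ))‖ = |r| := by
  rw [norm_mul, Complex.norm_exp_I_mul_ofReal, mul_one, Complex.norm_real, Real.norm_eq_abs]

theorem summ_dual {B : Matrix ι ι ℝ} (hB : B.det ≠ 0) {a : ℝ} (ha : 0 < a)
    (φ : (ι → ℤ) → ℝ) :
    Summable fun k => (eg a (lpt (B⁻¹).transpose k) : ℂ) * cexp (I * (φ k : ℂ)) := by
  refine Summable.of_norm ?_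
  simp only [norm_ph, abs_of_pos (eg_pos _ _)]
  simpa only [add_zero] using summ (det_dual hB) 0 ha

omit [DecidableEq ι] in
theorem lpt_zero (B : Matrix ι ι ℝ) : lpt B 0 = 0 := by
  funext i
  simp [lpt, Matrix.mulVec, dotProduct]

theorem even_le {B : Matrix ι ι ℝ} (hB : B.det ≠ 0) (c : ι → ℝ) {t : ℝ} (ht : 0 < t)
    {g : (ι → ℤ) → ℝ} {s : ℝ} (hg : HasSum g s) (h0 : 0 ≤ g 0)
    (h1 : ∀ k, k ≠ 0 → eg (1 / t ^ 2) (lpt (B⁻¹).transpose k) ≤ g k) :
    |∑' k, eg (t ^ 2) (lpt B k + c) - 1 / (|B.det| * t ^ Fintype.card ι)| ≤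
      1 / (|B.det| * t ^ Fintype.card ι) * s := by
  rw [← Real.norm_eq_abs, ← Complex.norm_real, Complex.ofReal_sub, poisson hB c ht,
    Summable.tsum_eq_add_tsum_ite (summ_dual hB (by positivity) _) 0]
  simp only [lpt_zero, Pi.zero_apply, zero_mul, Finset.sum_const_zero, mul_zero,
    Complex.ofReal_zero, Complex.exp_zero, mul_one]
  rw [show eg (1 / t ^ 2) (0 : ι → ℝ) = 1 by simp [eg], Complex.ofReal_one, mul_add, mul_one,
    add_sub_cancel_left, norm_mul, Complex.norm_real, Real.norm_of_nonneg (by positivity)]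
  refine mul_le_mul_of_nonneg_left (tsum_of_norm_bounded hg fun k => ?_) (by positivity)
  split_ifs with hk
  · rw [norm_zero, hk]
    exact h0
  · rw [norm_ph, abs_of_pos (eg_pos _ _)]
    exact h1 k hk

theorem sum_single (x : ι → ℝ) (j : ι) (h : ℝ) :
    ∑ i, (x + Pi.single j h : ι → ℝ) i ^ 2 = ∑ i, x i ^ 2 + (2 * h * x j + h ^ 2) := by
  have e : ∀ i, (x + Pi.single j h : ι → ℝ) i ^ 2 =
      x i ^ 2 + if i = j then 2 * h * x j + h ^ 2 else 0 := fun i => by
    rw [Pi.add_apply]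
    split_ifs with hi
    · rw [hi, Pi.single_eq_same]; ring
    · rw [Pi.single_eq_of_ne hi]; ring
  simp only [e, Finset.sum_add_distrib, Finset.sum_ite_eq', Finset.mem_univ, if_true]

theorem hasDerivAt_eg (a : ℝ) (x : ι → ℝ) (j : ι) (h : ℝ) :
    HasDerivAt (fun h => eg a (x + Pi.single j h))
      (-(2 * π * a) * ((x + Pi.single j h : ι → ℝ) j * eg a (x + Pi.single j h))) h := by
  have h1 : HasDerivAt (fun h : ℝ => 2 * h * x j + h ^ 2) (2 * x j + 2 * h) h := by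
    have := (((hasDerivAt_id h).const_mul 2).mul_const (x j)).add (hasDerivAt_pow 2 h)
    refine this.congr_deriv ?_
    simp
  have h2 := ((h1.const_add (∑ i, x i ^ 2)).const_mul (-π * a)).exp
  simp only [eg, sum_single]
  refine h2.congr_deriv ?_
  rw [Pi.add_apply, Pi.single_eq_same]
  ring

theorem hasDerivAt_sum {B : Matrix ι ι ℝ} (hB : B.det ≠ 0) (c : ι → ℝ) {a : ℝ} (ha : 0 < a)
    (j : ι) : HasDerivAt (fun h => ∑' k, eg a (lpt B k + (c + Pi.single j h)))
      (-(2 * π * a) * ∑' k, (lpt B k + c) j * eg a (lpt B k + c)) 0 := by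
  have hp : 0 < 2 * π * a := by have := Real.pi_pos; positivity
  have h := hasDerivAt_tsum_of_isPreconnected
    (g := fun k h => eg a (lpt B k + c + Pi.single j h))
    (g' := fun k h => -(2 * π * a) * ((lpt B k + c + Pi.single j h : ι → ℝ) j *
      eg a (lpt B k + c + Pi.single j h))) (y₀ := 0) (y := 0)
    ((summ hB c (a := a / 4) (by positivity)).mul_left (2 * π * a *
        ((1 + 1 / a) * Real.exp (π * (a / 2)))))
    (isOpen_Ioo (a := -1) (b := 1)) isPreconnected_Ioo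
    (fun k h _ => hasDerivAt_eg _ _ _ _) (fun k h hh => ?_) ⟨by norm_num, by norm_num⟩
    (by simpa only [Pi.single_zero, add_zero] using summ hB c ha) ⟨by norm_num, by norm_num⟩
  · simp only [Pi.single_zero, add_zero, tsum_mul_left] at h
    simp only [← add_assoc]
    exact h
  · rw [norm_mul, norm_neg, Real.norm_of_nonneg hp.le, mul_assoc _ (_ * _), norm_mul,
      Real.norm_of_nonneg (eg_pos _ _).le, Real.norm_eq_abs]
    refine mul_le_mul_of_nonneg_left ((lin_le ha _ j).trans ?_) hp.le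
    rw [mul_assoc]
    refine mul_le_mul_of_nonneg_left ?_ (by positivity)
    rw [eg, eg, sum_single, ← Real.exp_add, Real.exp_le_exp]
    generalize lpt B k + c = x
    have h1 : x j ^ 2 ≤ ∑ i, x i ^ 2 :=
      Finset.single_le_sum (f := fun i => x i ^ 2) (fun i _ => sq_nonneg _) (Finset.mem_univ j)
    generalize ∑ i, x i ^ 2 = S at h1 ⊢
    have h2 : S / 2 - 1 ≤ S + (2 * h * x j + h ^ 2) := by
      nlinarith [sq_nonneg (x j + 2 * h), hh.1, hh.2]
    have h3 := mul_le_mul_of_nonneg_left h2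
      (show 0 ≤ π * (a / 2) by have := Real.pi_pos; positivity)
    nlinarith

theorem odd_le {B : Matrix ι ι ℝ} (hB : B.det ≠ 0) (c : ι → ℝ) {t : ℝ} (ht : 0 < t) (j : ι)
    {g : (ι → ℤ) → ℝ} {s : ℝ} (hg : HasSum g s) (h0 : 0 ≤ g 0)
    (h1 : ∀ k, k ≠ 0 →
      |lpt (B⁻¹).transpose k j| * eg (1 / t ^ 2) (lpt (B⁻¹).transpose k) ≤ g k) :
    t ^ 2 * |∑' k, (lpt B k + c) j * eg (t ^ 2) (lpt B k + c)| ≤
      1 / (|B.det| * t ^ Fintype.card ι) * s := by
  have hp : 0 < 2 * π := by have := Real.pi_pos; positivity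
  have h2 : ∀ k, |lpt (B⁻¹).transpose k j| * eg (1 / t ^ 2) (lpt (B⁻¹).transpose k) ≤ g k := by
    intro k
    by_cases hk : k = 0
    · rw [hk, lpt_zero, Pi.zero_apply, abs_zero, zero_mul]
      exact h0
    · exact h1 k hk
  have hs : 0 ≤ s := hg.nonneg fun k => (mul_nonneg (abs_nonneg _) (eg_pos _ _).le).trans (h2 k)
  have h := (hasDerivAt_sum hB c (a := t ^ 2) (by positivity) j).le_of_lip'
    (C := 2 * π * (1 / (|B.det| * t ^ Fintype.card ι) * s)) (by positivity)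
    (Eventually.of_forall fun h => ?_)
  · rw [norm_mul, norm_neg, Real.norm_of_nonneg (by positivity), mul_assoc _ (t ^ 2)] at h
    exact le_of_mul_le_mul_left h hp
  · rw [← Complex.norm_real, Complex.ofReal_sub, poisson hB _ ht, poisson hB _ ht, ← mul_sub,
      ← Summable.tsum_sub (summ_dual hB (by positivity) _) (summ_dual hB (by positivity) _),
      norm_mul, Complex.norm_real, Real.norm_of_nonneg (by positivity), sub_zero]
    refine (mul_le_mul_of_nonneg_left (tsum_of_norm_bounded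
      (hg.mul_left (2 * π * ‖h‖)) fun k => ?_) (by positivity)).trans_eq (by ring)
    refine le_trans ?_ (mul_le_mul_of_nonneg_left (h2 k) (by positivity))
    simp only [Pi.single_zero, add_zero]
    generalize lpt (B⁻¹).transpose k = ξ
    have e0 : ∑ i, ξ i * (c + Pi.single j h : ι → ℝ) i = ∑ i, ξ i * c i + ξ j * h := by
      simp only [Pi.add_apply, mul_add, Finset.sum_add_distrib, Pi.single_apply, mul_ite,
        mul_zero, Finset.sum_ite_eq', Finset.mem_univ, if_true]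
    have e : cexp (I * ((2 * π * ∑ i, ξ i * (c + Pi.single j h : ι → ℝ) i : ℝ) : ℂ)) =
        cexp (I * ((2 * π * ∑ i, ξ i * c i : ℝ) : ℂ)) *
          cexp (I * ((2 * π * ξ j * h : ℝ) : ℂ)) := by
      rw [← Complex.exp_add, e0]
      generalize ∑ i, ξ i * c i = p
      congr 1
      push_cast
      ring
    rw [e, ← mul_assoc, ← mul_sub_one, norm_mul, norm_ph]
    refine (mul_le_mul_of_nonneg_left Real.norm_exp_I_mul_ofReal_sub_one_le
      (abs_nonneg _)).trans_eq ?_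
    rw [abs_of_pos (eg_pos _ _), norm_mul, norm_mul, Real.norm_of_nonneg hp.le,
      Real.norm_eq_abs (ξ j)]
    ring

theorem dual_lower {B : Matrix ι ι ℝ} (hB : B.det ≠ 0) {M : ℝ} (hM : ∀ i j, |B i j| ≤ M)
    (k : ι → ℤ) : ∑ i, (k i : ℝ) ^ 2 ≤
      ((Fintype.card ι : ℝ) ^ 2 * M ^ 2 + 1) * ∑ i, lpt (B⁻¹).transpose k i ^ 2 := by
  have e : B.transpose.mulVec (lpt (B⁻¹).transpose k) = fun i => (k i : ℝ) := by
    rw [lpt, Matrix.mulVec_mulVec, ← Matrix.transpose_mul,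
      Matrix.nonsing_inv_mul B (isUnit_iff_ne_zero.2 hB), Matrix.transpose_one, Matrix.one_mulVec]
  generalize lpt (B⁻¹).transpose k = ξ at e ⊢
  have hS : 0 ≤ ∑ i, ξ i ^ 2 := Finset.sum_nonneg fun i _ => sq_nonneg _
  have h1 : ∀ i, (k i : ℝ) ^ 2 ≤ (Fintype.card ι * M ^ 2) * ∑ i, ξ i ^ 2 := fun i => by
    rw [← congrFun e i]
    refine (Finset.sum_mul_sq_le_sq_mul_sq Finset.univ (fun l => B.transpose i l) ξ).trans
      (mul_le_mul_of_nonneg_right ?_ hS)
    rw [← nsmul_eq_mul, ← Finset.card_univ]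
    refine Finset.sum_le_card_nsmul _ _ _ fun l _ => ?_
    rw [← sq_abs]
    exact pow_le_pow_left₀ (abs_nonneg _) (hM l i) 2
  have h2 := Finset.sum_le_card_nsmul Finset.univ _ _ fun i _ => h1 i
  rw [Finset.card_univ, nsmul_eq_mul] at h2
  nlinarith

theorem dual_le {B : Matrix ι ι ℝ} (hB : B.det ≠ 0) {M δ a : ℝ} (hM : ∀ i j, |B i j| ≤ M)
    (hδ : 0 < δ) (hδ' : δ * ((Fintype.card ι : ℝ) ^ 2 * M ^ 2 + 1) = π / 4) (ha : 1 ≤ a)
    {k : ι → ℤ} (hk : k ≠ 0) : eg (a / 2) (lpt (B⁻¹).transpose k) ≤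
      Real.exp (-(δ * a)) * ∏ i, Real.exp (-δ * (k i : ℝ) ^ 2) := by
  have h1 := mul_le_mul_of_nonneg_left (dual_lower hB hM k) hδ.le
  rw [← mul_assoc, hδ'] at h1
  rw [eg, ← Real.exp_sum, ← Real.exp_add, Real.exp_le_exp, ← Finset.mul_sum]
  obtain ⟨i, hi⟩ := Function.ne_iff.1 hk
  have h2 : (1 : ℝ) ≤ (k i : ℝ) ^ 2 := by
    have : (1 : ℤ) ≤ k i ^ 2 := (one_le_sq_iff_one_le_abs _).2 (Int.one_le_abs hi)
    exact_mod_cast this
  have h3 : (k i : ℝ) ^ 2 ≤ ∑ i, (k i : ℝ) ^ 2 :=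
    Finset.single_le_sum (f := fun i => (k i : ℝ) ^ 2) (fun i _ => sq_nonneg _)
      (Finset.mem_univ i)
  generalize ∑ i, (k i : ℝ) ^ 2 = T at h1 h3 ⊢
  generalize ∑ i, lpt (B⁻¹).transpose k i ^ 2 = S at h1 ⊢
  have h4 := mul_le_mul_of_nonneg_left h1 (show 0 ≤ a by linarith)
  have h5 : 0 ≤ δ * (a * (T - 1)) := mul_nonneg hδ.le (mul_nonneg (by linarith) (by linarith))
  have h6 : 0 ≤ δ * ((a - 1) * T) := mul_nonneg hδ.le (mul_nonneg (by linarith) (by linarith))
  nlinarith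

theorem exp_le {δ t : ℝ} (hδ : 0 < δ) (ht : 0 < t) (ht1 : t ≤ 1) (m : ℕ) :
    Real.exp (-(δ * (1 / t ^ 2))) ≤ m.factorial / δ ^ m * t ^ m := by
  have h1 := Real.pow_div_factorial_le_exp (δ * (1 / t ^ 2)) (by positivity) m
  have hf : (0 : ℝ) < m.factorial := by exact_mod_cast m.factorial_pos
  rw [Real.exp_neg]
  refine (inv_anti₀ (by positivity) h1).trans ?_
  have e : ((δ * (1 / t ^ 2)) ^ m / m.factorial)⁻¹ = m.factorial / δ ^ m * t ^ m * t ^ m := by
    rw [mul_pow, div_pow, one_pow, ← pow_mul, two_mul, pow_add]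
    field_simp
  rw [e]
  exact mul_le_of_le_one_right (by positivity) (pow_le_one₀ ht.le ht1)

end GaussAux

open GaussAux Pool.Agent.Stark

theorem gaussSt : GaussSt where
  sum B c t hB ht := ⟨summ hB c (a := t ^ 2) (by positivity),
    fun j => summ_lin hB c (a := t ^ 2) (by positivity) j⟩
  bd ι _ _ M N := by
    have hL : 0 < (Fintype.card ι : ℝ) ^ 2 * M ^ 2 + 1 := by positivity
    obtain ⟨δ, hδ, hδ'⟩ : ∃ δ : ℝ, 0 < δ ∧ δ * ((Fintype.card ι : ℝ) ^ 2 * M ^ 2 + 1) = π / 4 :=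
      ⟨π / 4 / _, div_pos (by have := Real.pi_pos; positivity) hL, div_mul_cancel₀ _ hL.ne'⟩
    have hs := (PoissonAux.summable_pi_prod (ι := ι) (PoissonAux.summable_exp_sq hδ)
      fun n => (Real.exp_pos _).le).hasSum
    generalize (∑' k : ι → ℤ, ∏ j, Real.exp (-δ * (k j : ℝ) ^ 2)) = s at hs
    have hs0 : 0 ≤ s := hs.nonneg fun k => Finset.prod_nonneg fun j _ => (Real.exp_pos _).le
    obtain ⟨C, hC, hCe⟩ : ∃ C : ℝ, 0 ≤ C ∧ ∀ t : ℝ, 0 < t → t ≤ 1 →
        Real.exp (-(δ * (1 / t ^ 2))) ≤ C * t ^ (N + Fintype.card ι + 2) :=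
      ⟨_, by positivity, fun t ht ht1 => exp_le hδ ht ht1 _⟩
    refine ⟨2 * C * s, by positivity, fun B c t hB hM ht ht1 => ?_⟩
    have hd : 0 < |B.det| := abs_pos.2 hB
    have ht2 : t ^ 2 ≤ 1 := pow_le_one₀ ht.le ht1
    have ha : 1 ≤ 1 / t ^ 2 := by rw [le_div_iff₀ (by positivity)]; linarith
    have hg := hs.mul_left (2 * Real.exp (-(δ * (1 / t ^ 2))))
    have h0 : 0 ≤ 2 * Real.exp (-(δ * (1 / t ^ 2))) *
        ∏ j : ι, Real.exp (-δ * (((0 : ι → ℤ) j : ℤ) : ℝ) ^ 2) :=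
      mul_nonneg (by positivity) (Finset.prod_nonneg fun j _ => (Real.exp_pos _).le)
    have key : 1 / (|B.det| * t ^ Fintype.card ι) * (2 * Real.exp (-(δ * (1 / t ^ 2))) * s) ≤
        t ^ 2 * (2 * C * s * t ^ N / |B.det|) := by
      refine (mul_le_mul_of_nonneg_left (mul_le_mul_of_nonneg_right
        (mul_le_mul_of_nonneg_left (hCe t ht ht1) zero_le_two) hs0) (by positivity)).trans_eq ?_
      rw [pow_add, pow_add]
      field_simp
    refine ⟨(even_le hB c ht hg h0 fun k hk => ?_).trans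
      (key.trans (mul_le_of_le_one_left (by positivity) ht2)), fun j =>
      le_of_mul_le_mul_left ((odd_le hB c ht j hg h0 fun k hk => ?_).trans key) (by positivity)⟩
    · have h1 := dual_le hB hM hδ hδ' ha hk
      have h2 : eg (1 / t ^ 2) (lpt (B⁻¹).transpose k) ≤
          eg (1 / t ^ 2 / 2) (lpt (B⁻¹).transpose k) := by
        rw [eg, eg, Real.exp_le_exp]
        have : 0 ≤ π * (1 / t ^ 2) * ∑ i, lpt (B⁻¹).transpose k i ^ 2 :=
          mul_nonneg (by have := Real.pi_pos; positivity)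
            (Finset.sum_nonneg fun i _ => sq_nonneg _)
        linarith
      have h3 := (eg_pos (1 / t ^ 2 / 2) (lpt (B⁻¹).transpose k)).le
      linarith
    · have h1 := dual_le hB hM hδ hδ' ha hk
      refine (lin_le (by positivity) _ j).trans ?_
      rw [mul_assoc, one_div_one_div]
      exact mul_le_mul (by linarith) h1 (eg_pos _ _).le zero_le_two

end Pool.Agent.CU
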