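import Pool.Agent.Lib.MP_ca56d1_nt.CU.U.St
import Pool.Agent.Lib.MP_ca56d1_nt.RM.ThetaCont1
import Pool.Agent.Lib.MP_ca56d1_nt.RM.Basic

/-! Hecke's continuation of the even and the odd zeta function of a coset. -/

namespace Pool.Agent.CU

open Complex Filter Topology MeasureTheory Pool.Agent.RM
open scoped Real Classical

namespace HkAAux

open Set Pool.Agent.Stark
open Pool.Agent.RM.ThetaContAux (mu mu_eq sh strip int_exp)

theorem shear {g h : ℝ → ℂ} (hg : Integrable g) (hh : Integrable h) :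
    Integrable (fun p : ℝ × ℝ => g (p.2 + 2 * p.1) * h (p.2 - p.1)) ∧
      ∫ p : ℝ × ℝ, g (p.2 + 2 * p.1) * h (p.2 - p.1) = ((∫ x, g x) * ∫ y, h y) / 3 := by
  let T := Matrix.toLin (Module.Basis.finTwoProd ℝ) (Module.Basis.finTwoProd ℝ) !![2, 1; -1, 1]
  have hT : ∀ p : ℝ × ℝ, T p = (p.2 + 2 * p.1, p.2 - p.1) := fun p => by
    rw [Matrix.toLin_finTwoProd_apply]
    ext <;> simp only <;> ring
  have hd : LinearMap.det T = 3 := by
    rw [LinearMap.det_toLin, Matrix.det_fin_two_of]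
    norm_num
  have hm := Measure.map_linearMap_addHaar_eq_smul_addHaar (volume : Measure (ℝ × ℝ))
    (f := T) (by rw [hd]; norm_num)
  have hc : Continuous T := LinearMap.continuous_of_finiteDimensional _
  have h1 : Integrable (fun p : ℝ × ℝ => g p.1 * h p.2) := hg.mul_prod hh
  have h2 : Integrable (fun p : ℝ × ℝ => g p.1 * h p.2) (Measure.map T volume) := by
    rw [hm]
    exact h1.smul_measure ENNReal.ofReal_ne_top
  have h3 := integral_map hc.aemeasurable h2.1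
  have h4 := (integrable_map_measure h2.1 hc.aemeasurable).1 h2
  rw [hm, integral_smul_measure, hd, ENNReal.toReal_ofReal (abs_nonneg _),
    Measure.volume_eq_prod, integral_prod_mul, ← Measure.volume_eq_prod] at h3
  simp only [hT, Function.comp_def] at h3 h4
  refine ⟨h4, ?_⟩
  rw [← h3, abs_of_pos (by norm_num), real_smul]
  push_cast
  ring

/-- One term of the theta series. -/
noncomputable def tm (j : ℕ) (β α x y : ℝ) : ℝ :=
  (Real.exp x * β) ^ j * Real.exp (-π * ((Real.exp x * β) ^ 2 + (Real.exp y * α) ^ 2))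

theorem tm_shift (j : ℕ) (β α x y t : ℝ) :
    tm j (Real.exp (2 * t) * β) (Real.exp (-t) * α) x y = tm j β α (x + 2 * t) (y - t) := by
  rw [tm, tm, Real.exp_add, sub_eq_add_neg, Real.exp_add, mul_assoc (Real.exp x),
    mul_assoc (Real.exp y)]

theorem abs_tm (j : ℕ) (β α x y : ℝ) : |tm j β α x y| = tm j |β| α x y := by
  rw [tm, tm, abs_mul, abs_pow, abs_mul, Real.abs_exp, Real.abs_exp, mul_pow _ |β| 2, sq_abs,
    ← mul_pow]

/-- One term of the Mellin integrand. -/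
noncomputable def G (j : ℕ) (β α : ℝ) (s : ℂ) (p : ℝ × ℝ) : ℂ :=
  (tm j β α (p.2 + 2 * p.1) (p.2 - p.1) : ℝ) * cexp (3 * s * p.2)

theorem G_eq (j : ℕ) (β α : ℝ) (s : ℂ) (p : ℝ × ℝ) : G j β α s p =
    (β : ℂ) ^ j * (PhiAux.f1 |β| (s + j) (p.2 + 2 * p.1) * PhiAux.f1 α (2 * s) (p.2 - p.1)) := by
  have e : ∀ x a : ℝ, (Real.exp x * a) ^ 2 = Real.exp (2 * x) * a ^ 2 := fun x a => by
    rw [mul_pow, ← Real.exp_nat_mul, Nat.cast_ofNat]
  have e1 : cexp ((s + j) * ((p.2 + 2 * p.1 : ℝ) : ℂ)) * cexp (2 * s * ((p.2 - p.1 : ℝ) : ℂ)) =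
      ((Real.exp (p.2 + 2 * p.1) ^ j : ℝ) : ℂ) * cexp (3 * s * p.2) := by
    rw [← Real.exp_nat_mul, ofReal_exp, ← Complex.exp_add, ← Complex.exp_add]
    congr 1
    push_cast
    ring
  rw [G, tm, e, e, mul_add (-π), Real.exp_add (-π * _), PhiAux.f1, PhiAux.f1, mul_mul_mul_comm, e1, mul_pow,
    sq_abs, ofReal_mul, ofReal_mul, ofReal_mul, ofReal_pow β]
  ring

theorem norm_G (j : ℕ) (β α : ℝ) (s : ℂ) (p : ℝ × ℝ) :
    ‖G j β α s p‖ = (G j |β| α s.re p).re := by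
  rw [G, G, norm_mul, norm_real, norm_exp, Real.norm_eq_abs, abs_tm, re_ofReal_mul,
    ← ofReal_ofNat 3, ← ofReal_mul, ← ofReal_mul, exp_ofReal_re]
  simp

theorem sg_mul (β : ℝ) : sg β * |β| = β := by
  unfold sg
  split_ifs with h
  · rw [one_mul, abs_of_pos h]
  · rw [abs_of_nonpos (not_lt.1 h)]
    ring

theorem G_int (j : ℕ) {β α : ℝ} (hβ : β ≠ 0) (hα : 0 < α) {s : ℂ} (hs : 0 < s.re) :
    Integrable (G j β α s) ∧ ∫ p, G j β α s p = Gammaℝ (s + j) * Gammaℝ (2 * s) / 12 *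
      ((sg β : ℂ) ^ j * ((|β| * α ^ 2 : ℝ) : ℂ) ^ (-s)) := by
  have hs' : 0 < (s + j).re := by
    rw [add_re, natCast_re]
    positivity
  have hs2 : 0 < (2 * s).re := by
    simp only [mul_re, re_ofNat, im_ofNat, zero_mul, sub_zero]
    positivity
  have hi : ∀ {x : ℝ} {z : ℂ}, 0 < x → 0 < z.re → Integrable (PhiAux.f1 x z) := fun hx hz =>
    Integrable.of_integral_ne_zero (by
      rw [PhiAux.integral_f1 hx hz, PhiAux.ofReal_cpow_eq hx]
      exact mul_ne_zero (div_ne_zero (Gammaℝ_ne_zero_of_re_pos hz) two_ne_zero)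
        (Complex.exp_ne_zero _))
  have b0 := abs_pos.2 hβ
  obtain ⟨h1, h2⟩ := shear (hi b0 hs') (hi hα hs2)
  rw [funext (G_eq j β α s)]
  refine ⟨h1.const_mul _, ?_⟩
  have h3 : (β : ℂ) = (sg β : ℂ) * (|β| : ℝ) := by rw [← ofReal_mul, sg_mul β]
  have h4 : ((|β| : ℝ) : ℂ) ^ (-(s + j)) * ((|β| : ℝ) : ℂ) ^ j = ((|β| : ℝ) : ℂ) ^ (-s) := by
    rw [← cpow_natCast, ← cpow_add _ _ (ofReal_ne_zero.2 b0.ne')]
    congr 1
    ring
  have h5 : ((α ^ 2 : ℝ) : ℂ) ^ (-s) = (α : ℂ) ^ (-(2 * s)) := by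
    rw [PhiAux.ofReal_cpow_eq (pow_pos hα 2), PhiAux.ofReal_cpow_eq hα, Real.log_pow]
    congr 1
    push_cast
    ring
  rw [integral_const_mul, h2, PhiAux.integral_f1 b0 hs', PhiAux.integral_f1 hα hs2,
    ofReal_mul, mul_cpow_ofReal_nonneg b0.le (sq_nonneg α), h5, ← h4, congrArg (· ^ j) h3, mul_pow]
  ring

variable {ι : Type} {β α : ι → ℝ} {l : ℝ}

theorem int_sh (j : ℕ) {b a : ℝ} (hb : b ≠ 0) (ha : 0 < a) {s : ℂ} (hs : 0 < s.re) (l t : ℝ) :
    Integrable (fun p => G j b a s (sh t p)) (mu l) := by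
  rw [mu_eq]
  exact ((G_int j hb ha hs).1.comp_add_right _).integrableOn

theorem int_norm (j : ℕ) {b a : ℝ} (hb : b ≠ 0) (ha : 0 < a) {s : ℂ} (hs : 0 < s.re) :
    ∫ p, ‖G j b a s p‖ =
      (Gammaℝ (s.re + j) * Gammaℝ (2 * s.re) / 12).re * (|b| * a ^ 2) ^ (-s.re) := by
  have h := G_int j (abs_pos.2 hb).ne' ha (s := s.re) hs
  have h1 := integral_re h.1
  simp only [RCLike.re_to_complex] at h1
  simp_rw [norm_G]
  rw [h1, h.2, sg, if_pos (abs_pos.2 hb), abs_abs, ← ofReal_neg,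
    ← ofReal_cpow (by positivity)]
  simp only [ofReal_one, one_pow, one_mul, re_mul_ofReal]

theorem unfold [Countable ι] (hl : 0 < l) (hβ : ∀ i, β i ≠ 0) (hα : ∀ i, 0 < α i) (j : ℕ) {s : ℂ}
    (hs : 0 < s.re) (hS : Summable fun i => (|β i| * α i ^ 2) ^ (-s.re)) :
    ∫ p, ∑' q : ι × ℤ, G j (β q.1) (α q.1) s (sh (q.2 * l) p) ∂mu l =
      Gammaℝ (s + j) * Gammaℝ (2 * s) / 12 *
        ∑' i, (sg (β i) : ℂ) ^ j * ((|β i| * α i ^ 2 : ℝ) : ℂ) ^ (-s) := by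
  have hI := fun i => G_int j (hβ i) (hα i) hs
  have h1 := fun q : ι × ℤ => int_sh j (hβ q.1) (hα q.1) hs l (q.2 * l)
  have h2 : Summable fun q : ι × ℤ => ∫ p, ‖G j (β q.1) (α q.1) s (sh (q.2 * l) p)‖ ∂mu l := by
    refine (summable_prod_of_nonneg fun q => integral_nonneg fun _ => norm_nonneg _).2
      ⟨fun a => (strip hl (hI a).1.norm).summable, (hS.mul_left _).congr fun a =>
        ((strip hl (hI a).1.norm).tsum_eq.trans (int_norm j (hβ a) (hα a) hs)).symm⟩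
  have h4 := hasSum_integral_of_summable_integral_norm h1 h2
  have h5 := (h4.prod_fiberwise fun a => strip hl (hI a).1).tsum_eq
  simp_rw [(hI _).2] at h5
  rw [← tsum_mul_left, h5]

theorem gam_real (x : ℝ) : Gammaℝ x = (π ^ (-x / 2) * Real.Gamma (x / 2) : ℝ) := by
  rw [Gammaℝ_def, ofReal_mul, ofReal_cpow Real.pi_pos.le, ← Gamma_ofReal]
  push_cast
  rfl

theorem summ (hl : 0 < l) (hβ : ∀ i, β i ≠ 0) (hα : ∀ i, 0 < α i) {x : ℝ} (hx : 0 < x)
    {Φ : ℝ × ℝ → ℂ} (hΦ : Integrable Φ (mu l))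
    (h : ∀ p, HasSum (fun q : ι × ℤ => G 0 (β q.1) (α q.1) x (sh (q.2 * l) p)) (Φ p)) :
    Summable fun i => (|β i| * α i ^ 2) ^ (-x) := by
  have hs : 0 < (x : ℂ).re := hx
  have hI := fun i => G_int 0 (hβ i) (hα i) hs
  have h1 := fun q : ι × ℤ => int_sh 0 (hβ q.1) (hα q.1) hs l (q.2 * l)
  have h0 : ∀ a b p, ‖G 0 a b x p‖ = (G 0 a b x p).re := fun a b p => by
    rw [norm_G, ofReal_re, G, G, ← abs_tm, abs_of_nonneg (by unfold tm; positivity)]
  have h2 : Summable fun q : ι × ℤ => ∫ p, ‖G 0 (β q.1) (α q.1) x (sh (q.2 * l) p)‖ ∂mu l := by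
    refine summable_of_sum_le (c := ∫ p, (Φ p).re ∂mu l)
      (fun q => integral_nonneg fun _ => norm_nonneg _) fun u => ?_
    rw [← integral_finsetSum _ fun q _ => (h1 q).norm]
    refine integral_mono (integrable_finsetSum _ fun q _ => (h1 q).norm) hΦ.re fun p => ?_
    have h3 := hasSum_re (h p)
    simp only [← h0] at h3
    exact sum_le_hasSum u (fun _ _ => norm_nonneg _) h3
  have h3 := h2.prod.congr fun a =>
    (strip hl (hI a).1.norm).tsum_eq.trans (int_norm 0 (hβ a) (hα a) hs)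
  refine (summable_mul_left_iff ?_).1 h3
  have h5 := Real.Gamma_pos_of_pos (half_pos hx)
  have h7 := Real.Gamma_pos_of_pos (half_pos (mul_pos two_pos hx))
  have h6 := Real.pi_pos
  rw [ofReal_re, Nat.cast_zero, add_zero, ← ofReal_ofNat 2, ← ofReal_mul, gam_real, gam_real,
    ← ofReal_mul, ← ofReal_ofNat 12, ← ofReal_div, ofReal_re]
  positivity

theorem entire {Ψ : ℝ × ℝ → ℝ} (hm : Measurable Ψ)
    (hb : ∀ R : ℝ, ∃ C : ℝ, ∀ u τ : ℝ, 0 ≤ u → u ≤ l → |Ψ (u, τ)| ≤ C * Real.exp (-R * |τ|)) :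
    (∀ s : ℂ, Integrable (fun p => (Ψ p : ℂ) * cexp (3 * s * p.2)) (mu l)) ∧
      Differentiable ℂ fun s : ℂ => ∫ p, (Ψ p : ℂ) * cexp (3 * s * p.2) ∂mu l := by
  have h1 : ∀ s : ℂ, AEStronglyMeasurable (fun p => (Ψ p : ℂ) * cexp (3 * s * p.2)) (mu l) :=
    fun s => Measurable.aestronglyMeasurable (by fun_prop)
  have h2 : ∀ r : ℝ, ∃ b : ℝ × ℝ → ℝ, Integrable b (mu l) ∧ ∀ᵐ p ∂mu l,
      ∀ s ∈ Metric.ball (0 : ℂ) r, ‖(Ψ p : ℂ) * cexp (3 * s * p.2)‖ ≤ b p := by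
    intro r
    obtain ⟨C, hC⟩ := hb (3 * r + 1)
    refine ⟨fun p => C * Real.exp (-|p.2|), (int_exp.const_mul C).comp_snd _, ?_⟩
    rw [mu_eq]
    filter_upwards [ae_restrict_mem (measurableSet_Ioc.prod MeasurableSet.univ)] with p hp s hs
    have h3 := hC p.1 p.2 hp.1.1.le hp.1.2
    have h4 : ‖cexp (3 * s * p.2)‖ ≤ Real.exp (3 * r * |p.2|) := by
      refine (norm_exp_le_exp_norm _).trans (Real.exp_le_exp.2 ?_)
      rw [norm_mul, norm_mul, norm_real, Real.norm_eq_abs, Complex.norm_ofNat]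
      have := (mem_ball_zero_iff.1 hs).le
      gcongr
    rw [norm_mul, norm_real, Real.norm_eq_abs]
    refine (mul_le_mul h3 h4 (norm_nonneg _) ((abs_nonneg _).trans h3)).trans_eq ?_
    rw [mul_assoc, ← Real.exp_add]
    congr 2
    ring
  refine ⟨fun s => ?_, fun s => ?_⟩
  · obtain ⟨b, h3, h4⟩ := h2 (‖s‖ + 1)
    exact h3.mono' (h1 s) (h4.mono fun p hp => hp s (by simp))
  · obtain ⟨b, h3, h4⟩ := h2 (‖s‖ + 1)
    exact (Shared.HoloIntegral.differentiableOn_integral Metric.isOpen_ball (fun w _ => h1 w)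
      (Filter.Eventually.of_forall fun p => by fun_prop) h4 h3).differentiableAt
      (Metric.isOpen_ball.mem_nhds (by simp))

theorem pole (hl : 0 < l) (c : ℝ) {s : ℂ} (hs : 1 < s.re) :
    Integrable (fun p : ℝ × ℝ => (((Iic 0).indicator (fun τ => c * Real.exp (-3 * τ)) p.2 : ℝ) : ℂ) *
      cexp (3 * s * p.2)) (mu l) ∧
    ∫ p : ℝ × ℝ, (((Iic 0).indicator (fun τ => c * Real.exp (-3 * τ)) p.2 : ℝ) : ℂ) *
      cexp (3 * s * p.2) ∂mu l = l * c / (3 * (s - 1)) := by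
  have ha : 0 < (3 * (s - 1)).re := by
    simp only [mul_re, re_ofNat, sub_re, one_re, im_ofNat, zero_mul, sub_zero]
    linarith
  have e : ∀ τ : ℝ, (((Iic 0).indicator (fun τ => c * Real.exp (-3 * τ)) τ : ℝ) : ℂ) *
      cexp (3 * s * τ) = (Iic 0).indicator (fun τ : ℝ => c * cexp (3 * (s - 1) * τ)) τ := by
    intro τ
    by_cases h : τ ∈ Iic (0 : ℝ)
    · rw [indicator_of_mem h, indicator_of_mem h, ofReal_mul, ofReal_exp, mul_assoc,
        ← Complex.exp_add]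
      congr 2
      push_cast
      ring
    · simp [indicator_of_notMem h]
  simp only [e]
  refine ⟨((integrable_indicator_iff measurableSet_Iic).2
    ((integrableOn_exp_mul_complex_Iic ha 0).const_mul _)).comp_snd _, ?_⟩
  rw [mu, integral_fun_snd, integral_indicator measurableSet_Iic, integral_const_mul,
    integral_exp_mul_complex_Iic ha, mul_div_assoc]
  simp [hl.le, div_eq_mul_inv]

theorem inv_zero' : (Gammaℝ 0)⁻¹ = 0 := by rw [Gammaℝ_eq_zero_iff.2 ⟨0, by simp⟩, inv_zero]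

theorem diff_two : Differentiable ℂ fun s : ℂ => (Gammaℝ (2 * s))⁻¹ :=
  differentiable_Gammaℝ_inv.comp (differentiable_id.const_mul 2)

theorem deriv_two : HasDerivAt (fun s : ℂ => (Gammaℝ (2 * s))⁻¹) 1 0 := by
  have h1 : HasDerivAt (fun s : ℂ => (Gammaℝ s)⁻¹) 2⁻¹ 0 := by
    rw [hasDerivAt_iff_tendsto_slope_zero]
    refine (Gammaℝ_residue_zero.inv₀ two_ne_zero).congr fun s => ?_
    rw [zero_add, inv_zero', sub_zero, smul_eq_mul, mul_inv]
  have h2 : HasDerivAt (fun s : ℂ => 2 * s) 2 0 := by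
    simpa only [mul_one, id] using (hasDerivAt_id (0 : ℂ)).const_mul 2
  have h3 := HasDerivAt.comp_of_eq (0 : ℂ) h1 h2 (mul_zero 2).symm
  rwa [inv_mul_cancel₀ two_ne_zero] at h3

theorem cont_even {H f : ℂ → ℂ} {A : ℂ} (hH : Differentiable ℂ H)
    (hf : ∀ s : ℂ, 1 < s.re → H s + A / (3 * (s - 1)) = Gammaℝ s * Gammaℝ (2 * s) / 12 * f s) :
    ∃ W : ℂ → ℂ, StarkStmt.IsCont f W ∧ W 0 = 0 ∧ deriv W 0 = 0 := by
  have hG := differentiable_Gammaℝ_inv
  have h1 : AnalyticAt ℂ (fun s => 12 * (H s + A / (3 * (s - 1)))) 0 :=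
    analyticAt_const.mul ((hH.analyticAt 0).add (analyticAt_const.div (by fun_prop) (by simp)))
  refine ⟨fun s => 12 * (H s + A / (3 * (s - 1))) * (Gammaℝ s)⁻¹ * (Gammaℝ (2 * s))⁻¹,
    ⟨fun s _ => ?_, (h1.mul (hG.analyticAt 0)).mul (diff_two.analyticAt 0), fun s hs => ?_⟩,
    by simp only [inv_zero', mul_zero], ?_⟩
  · have h2 := (hH.analyticAt s).meromorphicAt
    have h3 := (hG.analyticAt s).meromorphicAt
    have h4 : MeromorphicAt (fun s : ℂ => 3 * (s - 1)) s :=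
      AnalyticAt.meromorphicAt (by fun_prop)
    exact (((MeromorphicAt.const 12 s).mul (h2.add ((MeromorphicAt.const A s).div h4))).mul h3).mul
      (diff_two.analyticAt s).meromorphicAt
  · have h2 := Gammaℝ_ne_zero_of_re_pos (one_pos.trans hs)
    have h3 : Gammaℝ (2 * s) ≠ 0 := Gammaℝ_ne_zero_of_re_pos (by
      simp only [mul_re, re_ofNat, im_ofNat, zero_mul, sub_zero]
      linarith)
    simp only [hf s hs]
    generalize Gammaℝ (2 * s) = g at h3 ⊢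
    field_simp
  · have h2 := ((h1.differentiableAt.hasDerivAt.mul (hG 0).hasDerivAt).mul deriv_two).deriv
    simp only [Pi.mul_apply, inv_zero', mul_zero, zero_mul, add_zero] at h2
    exact h2

theorem cont_odd {H f : ℂ → ℂ} (hH : Differentiable ℂ H)
    (hf : ∀ s : ℂ, 1 < s.re → H s = Gammaℝ (s + 1) * Gammaℝ (2 * s) / 12 * f s) :
    ∃ W : ℂ → ℂ, Differentiable ℂ W ∧ (∀ s : ℂ, 1 < s.re → W s = f s) ∧ W 0 = 0 ∧
      deriv W 0 = 12 * H 0 := by
  have h1 : Differentiable ℂ fun s => 12 * H s * (Gammaℝ (s + 1))⁻¹ :=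
    (hH.const_mul 12).mul (differentiable_Gammaℝ_inv.comp (differentiable_id.add_const 1))
  refine ⟨fun s => 12 * H s * (Gammaℝ (s + 1))⁻¹ * (Gammaℝ (2 * s))⁻¹, h1.mul diff_two,
    fun s hs => ?_, by simp only [inv_zero', mul_zero], ?_⟩
  · have h2 : Gammaℝ (s + 1) ≠ 0 :=
      Gammaℝ_ne_zero_of_re_pos (by simp only [add_re, one_re]; linarith)
    have h3 : Gammaℝ (2 * s) ≠ 0 := Gammaℝ_ne_zero_of_re_pos (by
      simp only [mul_re, re_ofNat, im_ofNat, zero_mul, sub_zero]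
      linarith)
    simp only [hf s hs]
    generalize Gammaℝ (2 * s) = g at h3 ⊢
    field_simp
  · have h2 := ((h1 0).hasDerivAt.mul deriv_two).deriv
    simp only [inv_zero', mul_zero, zero_add, Gammaℝ_one, inv_one, mul_one] at h2
    exact h2

theorem main [Countable ι] (hl : 0 < l) (hβ : ∀ i, β i ≠ 0) (hα : ∀ i, 0 < α i)
    {T : ℕ → ℝ × ℝ → ℝ} (hm : ∀ j ≤ 1, Measurable (T j))
    (hs : ∀ j ≤ 1, ∀ (s : ℂ) p, HasSum (fun q : ι × ℤ => G j (β q.1) (α q.1) s (sh (q.2 * l) p))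
      ((T j p : ℂ) * cexp (3 * s * p.2))) {A : ℝ}
    (hb : ∀ R : ℝ, ∃ C : ℝ, ∀ u τ : ℝ, 0 ≤ u → u ≤ l →
      (0 ≤ τ → ∀ j ≤ 1, |T j (u, τ)| ≤ C * Real.exp (-R * τ)) ∧
      (τ ≤ 0 → |T 0 (u, τ) - A * Real.exp (-3 * τ)| ≤ C * Real.exp (R * τ) ∧
        |T 1 (u, τ)| ≤ C * Real.exp (R * τ))) :
    (∀ x : ℝ, 1 < x → Summable fun i => (|β i| * α i ^ 2) ^ (-x)) ∧
    (∃ W : ℂ → ℂ, StarkStmt.IsCont (fun s => ∑' i, ((|β i| * α i ^ 2 : ℝ) : ℂ) ^ (-s)) W ∧
      W 0 = 0 ∧ deriv W 0 = 0) ∧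
    ∃ W : ℂ → ℂ, Differentiable ℂ W ∧ (∀ s : ℂ, 1 < s.re →
      W s = ∑' i, (sg (β i) : ℂ) * ((|β i| * α i ^ 2 : ℝ) : ℂ) ^ (-s)) ∧ W 0 = 0 ∧
      deriv W 0 = ((12 * ∫ p in Ioc 0 l ×ˢ (univ : Set ℝ), T 1 p : ℝ) : ℂ) := by
  have hb' : ∀ R : ℝ, ∃ C : ℝ, ∀ u τ : ℝ, 0 ≤ u → u ≤ l →
      |T 0 (u, τ) - (Iic 0).indicator (fun τ => A * Real.exp (-3 * τ)) τ| ≤
        C * Real.exp (-R * |τ|) ∧ |T 1 (u, τ)| ≤ C * Real.exp (-R * |τ|) := fun R => by
    refine (hb R).imp fun C hC u τ h0 h1 => ?_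
    rcases le_or_gt τ 0 with hτ | hτ
    · rw [indicator_of_mem (show τ ∈ Iic 0 from hτ), abs_of_nonpos hτ, neg_mul_neg]
      exact (hC u τ h0 h1).2 hτ
    · rw [indicator_of_notMem (show τ ∉ Iic 0 from not_le.2 hτ), abs_of_pos hτ, sub_zero]
      exact ⟨(hC u τ h0 h1).1 hτ.le 0 zero_le_one, (hC u τ h0 h1).1 hτ.le 1 le_rfl⟩
  obtain ⟨a1, a2⟩ := entire (l := l) (Ψ := fun p => T 0 p - (Iic 0).indicator
    (fun τ => A * Real.exp (-3 * τ)) p.2)
    ((hm 0 zero_le_one).sub ((Measurable.indicator (by fun_prop) measurableSet_Iic).comp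
      measurable_snd)) fun R => (hb' R).imp fun C hC u τ h0 h1 => (hC u τ h0 h1).1
  obtain ⟨-, b2⟩ := entire (l := l) (hm 1 le_rfl)
    fun R => (hb' R).imp fun C hC u τ h0 h1 => (hC u τ h0 h1).2
  have e0 : ∀ s : ℂ, (fun p : ℝ × ℝ => (T 0 p : ℂ) * cexp (3 * s * p.2)) = fun p =>
      ((T 0 p - (Iic 0).indicator (fun τ => A * Real.exp (-3 * τ)) p.2 : ℝ) : ℂ) *
        cexp (3 * s * p.2) +
      (((Iic 0).indicator (fun τ => A * Real.exp (-3 * τ)) p.2 : ℝ) : ℂ) *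
        cexp (3 * s * p.2) := fun s => funext fun p => by
    rw [ofReal_sub]
    ring
  have hS : ∀ x : ℝ, 1 < x → Summable fun i => (|β i| * α i ^ 2) ^ (-x) := fun x hx =>
    summ hl hβ hα (one_pos.trans hx) (by rw [e0]; exact (a1 x).add (pole hl _ (s := x) hx).1)
      (hs 0 zero_le_one x)
  have hu := fun j (s : ℂ) (hs : 1 < s.re) => unfold hl hβ hα j (one_pos.trans hs) (hS _ hs)
  refine ⟨hS, cont_even (A := l * A) a2 fun s hs' => ?_, ?_⟩
  · have h2 := hu 0 s hs'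
    simp only [(hs 0 zero_le_one _ _).tsum_eq] at h2
    rw [e0, integral_add (a1 s) (pole hl _ hs').1, (pole hl _ hs').2] at h2
    simpa only [Nat.cast_zero, add_zero, pow_zero, one_mul] using h2
  · obtain ⟨W, h1, h2, h3, h4⟩ := cont_odd
      (f := fun s => ∑' i, (sg (β i) : ℂ) * ((|β i| * α i ^ 2 : ℝ) : ℂ) ^ (-s)) b2 fun s hs' => by
        have h2 := hu 1 s hs'
        simp only [(hs 1 le_rfl _ _).tsum_eq] at h2
        simpa only [Nat.cast_one, pow_one] using h2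
    refine ⟨W, h1, h2, h3, h4.trans ?_⟩
    simp only [mul_zero, zero_mul, Complex.exp_zero, mul_one]
    rw [integral_complex_ofReal, mu_eq, ofReal_mul, ofReal_ofNat]

end HkAAux

variable {K : Type} [Field K] [CharZero K] {ρ : K →+* ℝ} {σ : K →+* ℂ}

theorem hkA (h2 : Bas2 ρ σ) (h : T3B ρ σ) : HkA ρ σ := by
  intro ε L y hε hL hy hy' ι a ha
  obtain ⟨t1, t2, A, t3⟩ := h L y (Real.log (ρ ε) / 2) (h2.lt ε L hL) hy'
  have hp : 0 < ρ ε := one_pos.trans hε.one_lt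
  have he : ε ≠ 0 := fun h0 => by simp [h0] at hp
  have hst : Stab ε (coset L y) := fun z => by
    have e1 : ε * z - y = ε * (z - y) + (ε - 1) * y := by ring
    change ε * z - y ∈ L ↔ z - y ∈ L
    rw [e1, L.add_mem_iff_left hy, hL.stab]
  let f : ι × ℤ ≃ coset L y := Equiv.ofBijective
    (fun c => ⟨ε ^ c.2 * a c.1, (hst.zpow he c.2 _).2 (ha.1 c.1)⟩)
    ⟨fun c c' hc => (ha.2 _ ((hst.zpow he c.2 _).2 (ha.1 c.1))).unique rfl
      (congrArg Subtype.val hc), fun y => (ha.2 y.1 y.2).exists.imp fun c hc => Subtype.ext hc.symm⟩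
  have hf : ∀ c, (f c : K) = ε ^ c.2 * a c.1 := fun c => rfl
  have ha0 : ∀ i, a i ≠ 0 := fun i hi => hy' (by
    have h1 : a i - y ∈ L := ha.1 i
    rwa [hi, zero_sub, L.neg_mem_iff] at h1)
  have hc : Countable (coset L y) := by
    have h1 := (t2 0 zero_le_one 0 0).countable_support
    rw [Function.support_eq_univ fun z => by positivity] at h1
    exact Set.countable_univ_iff.1 h1
  have : Countable (ι × ℤ) := f.injective.countable
  have : Countable ι := (Prod.mk_left_injective (0 : ℤ)).countable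
  have e1 : Real.exp (2 * (Real.log (ρ ε) / 2)) = ρ ε := by
    rw [mul_div_cancel₀ _ two_ne_zero, Real.exp_log hp]
  have e2 : Real.exp (-(Real.log (ρ ε) / 2)) = ‖σ ε‖ := by
    refine (sq_eq_sq₀ (Real.exp_pos _).le (norm_nonneg _)).1 (mul_left_cancel₀ hp.ne' ?_)
    rw [hε.norm, ← Real.exp_nat_mul, Nat.cast_ofNat, mul_neg, Real.exp_neg, e1,
      mul_inv_cancel₀ hp.ne']
  have e3 : ∀ (n : ℤ) (x : ℝ), Real.exp (n * x) = Real.exp x ^ n := fun n x => by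
    rw [← Real.rpow_intCast, ← Real.exp_mul, mul_comm]
  refine HkAAux.main (β := fun i => ρ (a i)) (α := fun i => ‖σ (a i)‖)
    (T := fun j p => th3 ρ σ (coset L y) j (p.2 + 2 * p.1) (p.2 - p.1)) (A := A)
    (half_pos (Real.log_pos hε.one_lt)) (fun i => (map_ne_zero ρ).2 (ha0 i))
    (fun i => norm_pos_iff.2 ((map_ne_zero σ).2 (ha0 i)))
    (fun j hj => ((t1 j hj).comp (f := fun p : ℝ × ℝ => (p.2 + 2 * p.1, p.2 - p.1))
      (by fun_prop)).measurable) (fun j hj s p => ?_) t3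
  have h3 : Summable fun z : coset L y =>
      HkAAux.tm j (ρ z) ‖σ z‖ (p.2 + 2 * p.1) (p.2 - p.1) := by
    refine Summable.of_abs ((t2 j hj (p.2 + 2 * p.1) (p.2 - p.1)).congr fun z => ?_)
    rw [HkAAux.tm, abs_mul (_ ^ j), abs_pow, Real.abs_exp]
  have h4 := (hasSum_ofReal.2 (f.hasSum_iff.2 h3.hasSum)).mul_right (cexp (3 * s * p.2))
  refine (congrArg (HasSum · _) (funext fun q => ?_)).mp h4
  have h5 : ρ (f q) = Real.exp (2 * (q.2 * (Real.log (ρ ε) / 2))) * ρ (a q.1) := by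
    rw [hf, map_mul, map_zpow₀, mul_left_comm, e3, e1]
  have h6 : ‖σ (f q)‖ = Real.exp (-(q.2 * (Real.log (ρ ε) / 2))) * ‖σ (a q.1)‖ := by
    rw [hf, map_mul, map_zpow₀, norm_mul, norm_zpow, ← mul_neg, e3, e2]
  simp only [Function.comp_apply, h5, h6, HkAAux.tm_shift, HkAAux.G, ThetaContAux.sh,
    Prod.fst_add, Prod.snd_add, add_zero, mul_add, add_assoc, sub_add_eq_sub_sub]

end Pool.Agent.CU
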