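import Pool.Agent.Lib.MP_ca56d1_nt.CU.U.Tw
import Pool.Agent.Lib.MP_ca56d1_nt.RM.FD

/-! Assembly of the Kronecker limit formula. -/

namespace Pool.Agent.CU

open Complex Filter Topology MeasureTheory Pool.Agent.RM
open scoped Real Classical

variable {K : Type} [Field K] [CharZero K] {ρ : K →+* ℝ} {σ : K →+* ℂ}

namespace KlfAux

omit [CharZero K] in
theorem neg_fd {ε : K} {Λ : Set K} (h1 : 1 < ρ ε) (hs : Stab ε Λ) :
    IsFD ε {x | x ∈ Λ ∧ ρ x < 0}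
      (Subtype.val : {x | (x ∈ Λ ∧ ρ x < 0) ∧ -ρ x ∈ Set.Ico 1 (ρ ε)} → K) := by
  have h0 : 0 < ρ ε := one_pos.trans h1
  have hε : ε ≠ 0 := fun h => by simp [h] at h0
  refine isFD_set hε (fun x hx => hx.1) fun x hx => ?_
  obtain ⟨n, hn⟩ := exists_mem_Ico_zpow (neg_pos.2 hx.2) h1
  have key : ∀ k : ℤ, -ρ (ε ^ k * x) ∈ Set.Ico 1 (ρ ε) ↔
      -ρ x ∈ Set.Ico (ρ ε ^ (-k)) (ρ ε ^ (-k + 1)) := fun k => by
    have hk := zpow_pos h0 k
    rw [map_mul, map_zpow₀, Set.mem_Ico, Set.mem_Ico, zpow_add_one₀ h0.ne', zpow_neg,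
      inv_le_iff_one_le_mul₀' hk, lt_inv_mul_iff₀ hk, mul_neg]
  refine ⟨-n, ⟨⟨(hs.zpow hε _ _).2 hx.1, ?_⟩, (key _).2 (by rwa [neg_neg])⟩, fun k hk => ?_⟩
  · rw [map_mul, map_zpow₀]
    exact mul_neg_of_pos_of_neg (zpow_pos h0 _) hx.2
  · have h3 := (key k).1 hk.2
    have h4 := (zpow_lt_zpow_iff_right₀ h1).1 (h3.1.trans_lt hn.2)
    have h5 := (zpow_lt_zpow_iff_right₀ h1).1 (hn.1.trans_lt h3.2)
    omega

omit [CharZero K] in
theorem summ {ι : Type} {c : ι → K} (hc : ∀ i, c i ≠ 0) {s : ℂ}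
    (h : Summable fun i => (|ρ (c i)| * ‖σ (c i)‖ ^ 2) ^ (-s.re)) :
    Summable fun i => ((|ρ (c i)| * ‖σ (c i)‖ ^ 2 : ℝ) : ℂ) ^ (-s) := by
  refine Summable.of_norm (h.congr fun i => ?_)
  rw [norm_cpow_eq_rpow_re_of_pos (mul_pos (abs_pos.2 ((map_ne_zero ρ).2 (hc i)))
    (pow_pos (norm_pos_iff.2 ((map_ne_zero σ).2 (hc i))) 2)), neg_re]

end KlfAux

open KlfAux

theorem klfSt (hB : BasSt ρ σ) (h2 : Bas2 ρ σ) (hU : UValSt ρ σ) (hA : HkA ρ σ) (hH : HkB ρ σ)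
    (hL : LimSt ρ σ) : KlfSt ρ σ := by
  intro ε L y hε hE hy hy' ι a ha
  have h0 : 0 < ρ ε := one_pos.trans hε.one_lt
  have hne : ε ≠ 0 := fun h => by simp [h] at h0
  have hs := stab_coset hE hy
  have hfd := ha.sum hne (neg_fd hε.one_lt hs)
    (fun x => by simp only [Set.mem_ofPred_eq, hs x, map_mul, mul_pos_iff_of_pos_left h0])
    (fun x => by
      simp only [Set.mem_ofPred_eq, hs x, map_mul, ← neg_pos, ← mul_neg,
        mul_pos_iff_of_pos_left h0])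
    (Set.disjoint_left.2 fun x h1 h3 => lt_asymm h1.2 h3.2)
  have hu : {x | x ∈ coset L y ∧ 0 < ρ x} ∪ {x | x ∈ coset L y ∧ ρ x < 0} = coset L y := by
    ext x
    refine ⟨fun h => h.elim (·.1) (·.1), fun h => ?_⟩
    have hx : ρ x ≠ 0 := (map_ne_zero ρ).2 fun e => hy' (by
      simpa [e, coset] using h)
    exact hx.lt_or_gt.symm.imp (⟨h, ·⟩) (⟨h, ·⟩)
  rw [hu] at hfd
  obtain ⟨s1, ⟨Z, z1, z2, z3⟩, W, w1, w2, w3, w4⟩ := hA ε L y hε hE hy hy' _ hfd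
  obtain ⟨b, γ, b1, b2, b3⟩ := exists_ori hB h2 hε (h2.lt ε L hE)
  have e1 := (hU ε L y hε hE hy hy' b γ _ b1 b2 b3 (h2.hs b 0)).2.2
  have e2 := hL ε L y b γ hε hE hy hy' b1 b2 b3
  have e3 := (hH L y (Real.log (ρ ε) / 2) (h2.lt ε L hE) hy'
    (half_pos (Real.log_pos hε.one_lt))).2
  refine ⟨fun s => (Z s + W s) / 2, ⟨fun s h => ((z1.1 s h).add
    (w1.analyticAt s).meromorphicAt).div (MeromorphicAt.const 2 s),
    (z1.2.1.add (w1.analyticAt 0)).div analyticAt_const two_ne_zero, fun s h => ?_⟩,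
    by simp only [z2, w3, add_zero, zero_div], ?_⟩
  · have hs1 := summ (fun i e => hy' (by
      have h3 := hfd.1 i
      rw [e] at h3
      simpa [coset] using h3)) (s1 s.re h)
    have h3 := hs1.comp_injective Sum.inl_injective
    have h4 := hs1.comp_injective Sum.inr_injective
    have p1 : ∀ i, sg (ρ (a i)) = 1 := fun i => if_pos (ha.1 i).2
    have p2 : ∀ x : {x | (x ∈ coset L y ∧ ρ x < 0) ∧ -ρ x ∈ Set.Ico 1 (ρ ε)}, sg (ρ x) = -1 :=
      fun x => if_neg x.2.1.2.not_gt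
    simp only [z1.2.2 s h, w2 s h, zfam]
    rw [Summable.tsum_sum h3 h4, Summable.tsum_sum (by
      simpa only [Function.comp_def, Sum.elim_inl, p1, ofReal_one, one_mul] using h3) (by
      simpa only [Function.comp_def, Sum.elim_inr, p2, ofReal_neg, ofReal_one, neg_mul, one_mul]
        using h4.neg)]
    simp only [Sum.elim_inl, Sum.elim_inr, p1, p2, ofReal_neg, ofReal_one, neg_mul, one_mul,
      tsum_neg]
    ring
  · rw [((z1.2.1.differentiableAt.hasDerivAt.fun_add (w1 0).hasDerivAt).div_const 2).deriv, z3, w4,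
      e3, e2, e1]
    change _ = ((-pl σ γ (coset L y) (CU.hs b 0) (CU.hs (tw b ε⁻¹) 0) 0 : ℝ) : ℂ)
    push_cast
    ring

end Pool.Agent.CU
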