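import Pool.Agent.Lib.MP_ca56d1_nt.CU.U.Tw
import Pool.Agent.Lib.MP_ca56d1_nt.RM.ThetaCont1

/-! The limit formula for the odd theta integral. -/

namespace Pool.Agent.CU

open Complex Filter Topology MeasureTheory Pool.Agent.RM
open scoped Real Classical

variable {K : Type} [Field K] [CharZero K] {ρ : K →+* ℝ} {σ : K →+* ℂ}

namespace LimAux

/-- The cut off in logarithmic coordinates. -/
noncomputable def ch (r τ : ℝ) : ℝ := Real.exp (-π * r ^ 2 / Real.exp (2 * τ))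

theorem ch_cont (r : ℝ) : Continuous (ch r) :=
  Real.continuous_exp.comp (continuous_const.div (by fun_prop) fun _ => (Real.exp_pos _).ne')

theorem ch_le (r τ : ℝ) : |ch r τ| ≤ 1 := by
  rw [ch, Real.abs_exp, Real.exp_le_one_iff]
  have := Real.pi_pos
  exact div_nonpos_of_nonpos_of_nonneg (by nlinarith [sq_nonneg r]) (Real.exp_pos _).le

theorem int_ch {f : ℝ → ℝ} (hf : Integrable f) (r : ℝ) : Integrable fun τ => f τ * ch r τ :=
  hf.mul_bdd (ch_cont r).aestronglyMeasurable (Eventually.of_forall (ch_le r))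

theorem lim_ch {f : ℝ → ℝ} (hf : Integrable f) :
    Tendsto (fun r => ∫ τ, f τ * ch r τ) (𝓝[>] 0) (𝓝 (∫ τ, f τ)) := by
  refine tendsto_integral_filter_of_dominated_convergence (fun τ => ‖f τ‖)
    (Eventually.of_forall fun r => (int_ch hf r).aestronglyMeasurable)
    (Eventually.of_forall fun r => Eventually.of_forall fun τ => ?_) hf.norm
    (Eventually.of_forall fun τ => ?_)
  · rw [norm_mul]
    exact mul_le_of_le_one_right (norm_nonneg _) (ch_le r τ)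
  · have h : Continuous fun r : ℝ => f τ * ch r τ := by unfold ch; fun_prop
    simpa [ch] using (h.tendsto 0).mono_left nhdsWithin_le_nhds

theorem int_pole : Integrable fun τ => Real.exp (-2 * τ) * ch 1 τ := by
  refine ThetaContAux.int_exp.mono' ((by fun_prop : Continuous fun τ : ℝ =>
    Real.exp (-2 * τ)).mul (ch_cont 1)).aestronglyMeasurable (Eventually.of_forall fun τ => ?_)
  rw [ch, ← Real.exp_add, Real.norm_eq_abs, Real.abs_exp, Real.exp_le_exp, one_pow, mul_one,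
    div_eq_mul_inv, ← Real.exp_neg]
  have h1 := Real.add_one_le_exp (-(2 * τ))
  have h2 := Real.exp_pos (-(2 * τ))
  have h3 := Real.pi_gt_three
  rcases le_total 0 τ with h | h
  · rw [abs_of_nonneg h]; nlinarith
  · rw [abs_of_nonpos h]; nlinarith

theorem pole {r : ℝ} (hr : 0 < r) : (Integrable fun τ => Real.exp (-2 * τ) * ch r τ) ∧
    ∫ τ, Real.exp (-2 * τ) * ch r τ = (∫ τ, Real.exp (-2 * τ) * ch 1 τ) / r ^ 2 := by
  have e : ∀ τ, Real.exp (-2 * τ) * ch r τ =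
      Real.exp (-2 * (τ - Real.log r)) * ch 1 (τ - Real.log r) / r ^ 2 := fun τ => by
    have h1 : Real.exp (2 * Real.log r) = r ^ 2 := by
      rw [← Real.exp_log (pow_pos hr 2), Real.log_pow]; norm_num
    rw [ch, ch, show -2 * (τ - Real.log r) = -2 * τ + 2 * Real.log r by ring, mul_sub,
      Real.exp_add, Real.exp_sub, h1, one_pow, div_div_eq_mul_div, mul_one]
    field_simp
  simp only [e]
  exact ⟨(int_pole.comp_sub_right _).div_const _, by
    rw [integral_div, integral_sub_right_eq_self (fun τ => Real.exp (-2 * τ) * ch 1 τ)]⟩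

theorem chg {f : ℝ → ℝ} {r : ℝ} (h : IntegrableOn (fun T => f T * cut r T) (Set.Ioi 0)) :
    (Integrable fun τ => 2 * f (Real.exp (2 * τ)) * ch r τ) ∧
    ∫ τ, 2 * f (Real.exp (2 * τ)) * ch r τ = ∫ T in Set.Ioi 0, f T * cut r T := by
  have h1 : ∀ τ ∈ (Set.univ : Set ℝ), HasDerivWithinAt (fun τ => Real.exp (2 * τ))
      (Real.exp (2 * τ) * 2) Set.univ τ := fun τ _ => by
    simpa using ((hasDerivAt_id τ).const_mul 2).exp
  have h2 : Set.InjOn (fun τ : ℝ => Real.exp (2 * τ)) Set.univ := fun x _ y _ e => by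
    have := Real.exp_injective e
    linarith
  have h3 : (fun τ : ℝ => Real.exp (2 * τ)) '' Set.univ = Set.Ioi 0 := by
    ext T
    exact ⟨by rintro ⟨τ, -, rfl⟩; exact Real.exp_pos _, fun hT => ⟨Real.log T / 2, trivial, by
      simp only [mul_div_cancel₀ _ (two_ne_zero' ℝ), Real.exp_log hT]⟩⟩
  have h4 : ∀ τ, |Real.exp (2 * τ) * 2| • (f (Real.exp (2 * τ)) * cut r (Real.exp (2 * τ))) =
      2 * f (Real.exp (2 * τ)) * ch r τ := fun τ => by
    have := Real.exp_pos (2 * τ)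
    rw [abs_of_pos (by positivity), smul_eq_mul, cut, ch]
    field_simp
  rw [← h3] at h ⊢
  rw [integrableOn_image_iff_integrableOn_abs_deriv_smul MeasurableSet.univ h1 h2] at h
  rw [integral_image_eq_integral_abs_deriv_smul MeasurableSet.univ h1 h2]
  simpa only [h4, integrableOn_univ, Measure.restrict_univ, and_true] using h

theorem int_om {Ψ : ℝ → ℝ} {c C C' : ℝ} (h0 : Continuous fun τ => Ψ (Real.exp τ))
    (h1 : ∀ t, 0 < t → t ≤ 1 → |Ψ t - c / t ^ 2| ≤ C * t) (h2 : ∀ t, 1 ≤ t → |Ψ t| ≤ C' / t) :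
    Integrable fun τ => Ψ (Real.exp τ) - c * Real.exp (-2 * τ) := by
  refine (ThetaContAux.int_exp.const_mul (max C (C' + |c|))).mono'
    (h0.sub (by fun_prop)).aestronglyMeasurable (Eventually.of_forall fun τ => ?_)
  have hp := Real.exp_pos τ
  rw [Real.norm_eq_abs]
  rcases le_total 0 τ with h | h
  · have h3 := h2 _ (Real.one_le_exp h)
    rw [div_eq_mul_inv, ← Real.exp_neg] at h3
    have h4 : Real.exp (-2 * τ) ≤ Real.exp (-τ) := Real.exp_le_exp.2 (by linarith)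
    rw [abs_of_nonneg h]
    refine (abs_sub _ _).trans (le_trans ?_
      (mul_le_mul_of_nonneg_right (le_max_right _ _) (Real.exp_pos _).le))
    rw [abs_mul, Real.abs_exp, add_mul]
    exact add_le_add h3 (mul_le_mul_of_nonneg_left h4 (abs_nonneg _))
  · have h3 := h1 _ hp (Real.exp_le_one_iff.2 h)
    rw [div_eq_mul_inv, ← Real.exp_nat_mul, ← Real.exp_neg] at h3
    rw [abs_of_nonpos h, neg_neg, neg_mul]
    exact h3.trans (mul_le_mul_of_nonneg_right (le_max_left _ _) hp.le)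

theorem main (hN : FinSt) {F Ψ f g : ℝ → ℝ} {c l p q : ℝ} {A B : Fin 3 → ℝ} (hF : Integrable F)
    (hΨ : Integrable fun τ => Ψ τ - c * Real.exp (-2 * τ))
    (e : ∀ τ, F τ = Ψ (τ + l) - Ψ τ + (2 * f (Real.exp (2 * τ)) - 2 * g (Real.exp (2 * τ))))
    (hf : ∀ r : ℝ, 0 < r → IntegrableOn (fun T => f T * cut r T) (Set.Ioi 0))
    (hg : ∀ r : ℝ, 0 < r → IntegrableOn (fun T => g T * cut r T) (Set.Ioi 0))
    (hA : Tendsto (fun r : ℝ => (∫ T in Set.Ioi (0 : ℝ), f T * cut r T) -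
      (A 0 / r ^ 3 + A 1 / r ^ 2 + A 2 / r)) (𝓝[>] 0) (𝓝 (-p)))
    (hB : Tendsto (fun r : ℝ => (∫ T in Set.Ioi (0 : ℝ), g T * cut r T) -
      (B 0 / r ^ 3 + B 1 / r ^ 2 + B 2 / r)) (𝓝[>] 0) (𝓝 (-q))) : ∫ τ, F τ = -(p - q) := by
  have h1 := hΨ.comp_add_right l
  have h2 := (((lim_ch hF).sub ((lim_ch h1).sub (lim_ch hΨ))).sub hA).add hB
  rw [integral_add_right_eq_self (fun τ => Ψ τ - c * Real.exp (-2 * τ)), sub_self] at h2
  have h3 := hN (A 0 - B 0) (c * (Real.exp (-2 * l) - 1) * (∫ τ, Real.exp (-2 * τ) * ch 1 τ) +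
    (A 1 - B 1)) (A 2 - B 2) _ (h2.congr' (eventually_nhdsWithin_of_forall fun r hr => by
      have h4 : ∀ τ, F τ * ch r τ = (Ψ (τ + l) - c * Real.exp (-2 * (τ + l))) * ch r τ -
          (Ψ τ - c * Real.exp (-2 * τ)) * ch r τ +
          c * (Real.exp (-2 * l) - 1) * (Real.exp (-2 * τ) * ch r τ) +
          (2 * f (Real.exp (2 * τ)) * ch r τ - 2 * g (Real.exp (2 * τ)) * ch r τ) := fun τ => by
        rw [e, mul_add (-2), Real.exp_add]
        ring
      have i1 := (int_ch h1 r).sub (int_ch hΨ r)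
      have i2 := (pole hr).1.const_mul (c * (Real.exp (-2 * l) - 1))
      have j1 := integral_add (i1.add i2) ((chg (hf r hr)).1.sub (chg (hg r hr)).1)
      have j2 := integral_add i1 i2
      simp only [Pi.add_apply, Pi.sub_apply] at j1 j2
      simp only [h4]
      rw [j1, j2, integral_sub (int_ch h1 r) (int_ch hΨ r),
        integral_sub (chg (hf r hr)).1 (chg (hg r hr)).1,
        integral_const_mul, (pole hr).2, (chg (hf r hr)).2, (chg (hg r hr)).2]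
      ring))
  linarith

theorem psi_mul {ε : K} {Λ : Set K} (hε : Eps ρ σ ε) (hs : Stab ε Λ) (a : K →ₗ[ℚ] ℚ) (τ : ℝ) :
    psi ρ σ Λ (tw a ε⁻¹) (Real.exp (τ + Real.log (ρ ε) / 2)) (Real.exp (τ + Real.log (ρ ε) / 2)) =
      psi ρ σ Λ a (Real.exp τ * Real.exp (3 * (Real.log (ρ ε) / 2))) (Real.exp τ) := by
  have h0 : 0 < ρ ε := one_pos.trans hε.one_lt
  have hne : ε ≠ 0 := fun h => by simp [h] at h0
  have h1 : Real.exp (Real.log (ρ ε) / 2) ^ 2 = ρ ε := by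
    rw [← Real.exp_nat_mul, Nat.cast_ofNat, mul_div_cancel₀ _ two_ne_zero, Real.exp_log h0]
  have h2 : Real.exp (3 * (Real.log (ρ ε) / 2)) = Real.exp (Real.log (ρ ε) / 2) * ρ ε := by
    rw [show (3 : ℝ) = (3 : ℕ) by norm_num, Real.exp_nat_mul, pow_succ' _ 2, h1]
  let e : Λ ≃ Λ := (Equiv.mulLeft₀ ε hne).subtypeEquiv fun x => (hs x).symm
  rw [psi, psi, ← e.tsum_eq]
  refine tsum_congr fun x => ?_
  change (gg (_ * ρ (ε * x)) - sg (a (ε⁻¹ * (ε * x)) : ℚ)) * Real.exp (_ * ‖σ (ε * x)‖ ^ 2) = _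
  rw [inv_mul_cancel_left₀ hne, map_mul, map_mul, norm_mul, Real.exp_add, h2, mul_pow, mul_pow,
    h1]
  congr 2
  · congr 1
    ring
  · linear_combination (-π * Real.exp τ ^ 2 * ‖σ x‖ ^ 2) * hε.norm

theorem psi_sub {Λ : Set K} {a b : K →ₗ[ℚ] ℚ} {t : ℝ}
    (ha : Summable fun x : Λ => (gg (t * ρ x) - sg (a x : ℚ)) * Real.exp (-π * t ^ 2 * ‖σ x‖ ^ 2))
    (hb : Summable fun x : Λ => (gg (t * ρ x) - sg (b x : ℚ)) * Real.exp (-π * t ^ 2 * ‖σ x‖ ^ 2))
    (hN : Summable fun x : ↥(Λ ∩ (hs a 0 \ hs b 0)) => Real.exp (-π * t ^ 2 * ‖σ x - 0‖ ^ 2))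
    (hD : Summable fun x : ↥(Λ ∩ (hs b 0 \ hs a 0)) => Real.exp (-π * t ^ 2 * ‖σ x - 0‖ ^ 2)) :
    psi ρ σ Λ b t t - psi ρ σ Λ a t t = 2 * Th σ (Λ ∩ (hs a 0 \ hs b 0)) 0 (t ^ 2) -
      2 * Th σ (Λ ∩ (hs b 0 \ hs a 0)) 0 (t ^ 2) := by
  have h1 := (hasSum_subtype_iff_indicator (f := fun x : K =>
    (gg (t * ρ x) - sg (a x : ℚ)) * Real.exp (-π * t ^ 2 * ‖σ x‖ ^ 2))).1 ha.hasSum
  have h2 := (hasSum_subtype_iff_indicator (f := fun x : K =>
    (gg (t * ρ x) - sg (b x : ℚ)) * Real.exp (-π * t ^ 2 * ‖σ x‖ ^ 2))).1 hb.hasSum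
  have h3 := (hasSum_subtype_iff_indicator (f := fun x : K =>
    Real.exp (-π * t ^ 2 * ‖σ x - 0‖ ^ 2))).1 hN.hasSum
  have h4 := (hasSum_subtype_iff_indicator (f := fun x : K =>
    Real.exp (-π * t ^ 2 * ‖σ x - 0‖ ^ 2))).1 hD.hasSum
  refine (h2.sub h1).unique (((h3.mul_left 2).sub (h4.mul_left 2)).congr_fun fun x => ?_)
  by_cases p1 : x ∈ Λ <;> by_cases p2 : 0 < a x <;> by_cases p3 : 0 < b x <;>
    simp [Set.indicator, hs, sg, p1, p2, p3] <;> ring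

end LimAux

open LimAux

theorem limSt (hB : BasSt ρ σ) (h2 : Bas2 ρ σ) (hA : AdmSt σ) (hF : FPSt σ) (hN : FinSt)
    (hP : PsiA ρ σ) (hQ : PsiB ρ σ) (hH : HkB ρ σ) : LimSt ρ σ := by
  intro ε L y a γ hε hE hy hy' ha hγ ho
  have hL := h2.lt ε L hE
  have hb := (exists_per hB h2 hε hL ha).1
  obtain ⟨a1, a2⟩ := hA.wedge L y γ a _ _ _ hL hγ ho (h2.hs a 0) (h2.hs _ 0)
  obtain ⟨c₁, c₂, c1, c2, c3⟩ := ho.im
  obtain ⟨n1, n2, A, n3⟩ := hF γ _ 0 a1 fun x hx => by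
    have h3 : (0 : ℝ) < a x := by exact_mod_cast hx.2.1
    have h4 : (tw a ε⁻¹ x : ℝ) ≤ 0 := by exact_mod_cast not_lt.1 hx.2.2
    rw [sub_zero, c3]
    nlinarith
  obtain ⟨d1, d2, B, d3⟩ := hF (-γ) _ 0 a2 fun x hx => by
    have h3 : (0 : ℝ) < tw a ε⁻¹ x := by exact_mod_cast hx.2.1
    have h4 : (a x : ℝ) ≤ 0 := by exact_mod_cast not_lt.1 hx.2.2
    rw [sub_zero, map_neg, div_neg, neg_im, c3]
    nlinarith
  obtain ⟨c, C, q1⟩ := hQ L y _ hL hb
  obtain ⟨C', q2⟩ := hP.big L y _ hL hy' hb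
  refine main hN (hH L y _ hL hy' (half_pos (Real.log_pos hε.one_lt))).1
    (int_om (Ψ := fun t => psi ρ σ (coset L y) (tw a ε⁻¹) t t) (hP.cont L y _ hL hb) q1 q2)
    (l := Real.log (ρ ε) / 2) (fun τ => ?_) n2 d2 n3 d3
  have hp := Real.exp_pos τ
  have e1 : Real.exp (2 * τ) = Real.exp τ ^ 2 := by rw [← Real.exp_nat_mul, Nat.cast_ofNat]
  rw [psi_mul hε (stab_coset hE hy), e1, ← psi_sub (hP.sum L y a _ _ hL ha hp hp)
    (hP.sum L y _ _ _ hL hb hp hp) (n1 _ (pow_pos hp 2)) (d1 _ (pow_pos hp 2)), sub_add_sub_cancel,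
    psi, psi, ← Summable.tsum_sub (hP.sum L y a _ _ hL ha (by positivity) hp)
      (hP.sum L y a _ _ hL ha hp hp), fF]
  exact tsum_congr fun x => by ring

end Pool.Agent.CU
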