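import Pool.Agent.Lib.MP_ca56d1_nt.CU.U.Tw

/-! The distribution relation for the values of the elliptic gamma function. -/

namespace Pool.Agent.CU

open Complex Filter Topology MeasureTheory Pool.Agent.RM
open scoped Real Classical

variable {K : Type} [Field K] [CharZero K] {ρ : K →+* ℝ} {σ : K →+* ℂ}

namespace LinAux

omit [CharZero K] in
theorem elat_pow {ε : K} {L : Submodule ℤ K} (hL : ELat ε L) (m : ℕ) : ELat (ε ^ m) L := by
  refine ⟨hL.fg, hL.full, ?_⟩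
  induction m with
  | zero => simp
  | succ m ih => intro y; rw [pow_succ, mul_assoc, ih, hL.stab]

omit [CharZero K] in
theorem ne_zero {ε : K} (hε : Eps ρ σ ε) : ε ≠ 0 := by
  rintro rfl
  have := hε.one_lt
  rw [map_zero] at this
  linarith

omit [CharZero K] in
theorem sm_coset {u y : K} {L : Submodule ℤ K} (hu : u ≠ 0) (hL : ELat u L) :
    sm u (coset L y) = coset L (u * y) := by
  ext x
  change u⁻¹ * x - y ∈ L ↔ x - u * y ∈ L
  rw [← hL.stab, mul_sub, mul_inv_cancel_left₀ hu]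

omit [CharZero K] in
theorem sm_sm (u v : K) (X : Set K) : sm u (sm v X) = sm (u * v) X := by
  ext x
  change v⁻¹ * (u⁻¹ * x) ∈ X ↔ (u * v)⁻¹ * x ∈ X
  rw [mul_inv_rev, mul_assoc]

theorem chain (hB : BasSt ρ σ) (h2 : Bas2 ρ σ) (hE : EqvSt σ) (hV : ValSt ρ σ) {ε γ : K}
    {L : Submodule ℤ K} {a : K →ₗ[ℚ] ℚ} {X : Set K} (hε : Eps ρ σ ε) (hL : ELat ε L)
    (ha : Fn ρ σ a) (hγ : γ ∈ L) (ho : Ori σ γ a (tw a ε⁻¹)) (hX : HS a X) (m : ℕ) :
    ∀ y, y ∉ L → ∃ δ ∈ L, Ori σ δ a (tw a (ε ^ (m + 1))⁻¹) ∧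
      EK σ (ph σ δ (coset L (ε ^ m * y)) X (sm (ε ^ (m + 1)) X) 0 /
        ∏ j ∈ Finset.range (m + 1), ph σ γ (coset L (ε ^ j * y)) X (sm ε X) 0) ∧
      pl σ δ (coset L (ε ^ m * y)) X (sm (ε ^ (m + 1)) X) 0 =
        ∑ j ∈ Finset.range (m + 1), pl σ γ (coset L (ε ^ j * y)) X (sm ε X) 0 := by
  have hLt := h2.lt ε L hL
  have hS := h2.hs_sm a X ε hX
  induction m with
  | zero =>
    intro y hy
    refine ⟨γ, hγ, by simpa using ho, ?_, by simp⟩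
    have h1 := hV.ne L y γ a _ X _ hLt hγ ho hX hS fun h => absurd h hy
    simpa [div_self h1] using hE.ek_one
  | succ m ih =>
    intro y hy
    obtain ⟨δ, hδ, hoδ, e1, e2⟩ := ih (ε * y) (by rwa [hL.stab])
    obtain ⟨-, δ', hδ', hoδ'⟩ := exists_per hB h2 (hB.pow ε hε (m + 1 + 1) (by omega)) hLt ha
    have hu : ε ^ (m + 1) ≠ 0 := pow_ne_zero _ (ne_zero hε)
    have hLu := elat_pow hL (m + 1)
    have ho2 := h2.mul γ a _ (ε ^ (m + 1)) hu ho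
    rw [tw_tw, ← mul_inv_rev, ← pow_succ] at ho2
    have hy' : ε ^ (m + 1) * y ∉ L := by rwa [hLu.stab]
    have hX1 := h2.hs_sm a X (ε ^ (m + 1)) hX
    have hX2 := h2.hs_sm a X (ε ^ (m + 1 + 1)) hX
    obtain ⟨t1, t2⟩ := hV.tri L (ε ^ (m + 1) * y) δ (ε ^ (m + 1) * γ) (-δ') a _ _ X _ _ hLt hδ
      ((hLu.stab γ).2 hγ) (L.neg_mem hδ') hoδ ho2 (h2.neg _ _ _ hoδ') hX hX1 hX2
      fun h => absurd h hy'
    obtain ⟨a1, a2⟩ := hV.anti δ' (coset L (ε ^ (m + 1) * y)) X (sm (ε ^ (m + 1 + 1)) X) 0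
    obtain ⟨b1, b2⟩ := hV.hom L y γ a _ X _ (ε ^ (m + 1)) 0 hLt hγ ho hX hS hu
    rw [mul_zero, sm_coset hu hLu, sm_sm, ← pow_succ] at b1 b2
    rw [a1, b1] at t1
    rw [a2, b2] at t2
    have n1 := hV.ne L (ε ^ (m + 1) * y) δ a _ X _ hLt hδ hoδ hX hX1 fun h => absurd h hy'
    simp only [← mul_assoc, ← pow_succ] at e1 e2
    refine ⟨δ', hδ', hoδ', ?_, ?_⟩
    · rw [Finset.prod_range_succ', pow_zero, one_mul]
      have h3 := hE.ek_div _ _ e1 t1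
      have n2 := hE.ek_ne _ e1
      have n3 := hE.ek_ne _ t1
      have n4 := (div_ne_zero_iff.1 n2).2
      have n5 := (mul_ne_zero_iff.1 (mul_ne_zero_iff.1 n3).1).2
      have n6 := inv_ne_zero (mul_ne_zero_iff.1 n3).2
      rw [inv_inv] at n6
      refine (congrArg (EK σ) ?_).mp h3
      field_simp
    · rw [Finset.sum_range_succ', pow_zero, one_mul, ← e2]
      linarith

omit [CharZero K] in
theorem rel (hL : LpA σ) (hR : RPSt σ) {ι : Type} [Fintype ι] {γ : K} {k : ι → ℕ} {n : ι → ℤ}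
    {Λ : ι → ℕ → Set K} {Z : Set K} (hA : ∀ i j, Adm σ γ (Λ i j ∩ Z)) (h0 : ∀ i j, 0 ∉ Λ i j)
    (h : ∀ x, ∑ i, ∑ j ∈ Finset.range (k i), (if x ∈ Λ i j then n i else 0) = 0) :
    ∏ i, (∏ j ∈ Finset.range (k i), lp σ γ (Λ i j ∩ Z) 0) ^ n i = 1 ∧
      ∑ i, (n i : ℝ) * ∑ j ∈ Finset.range (k i), el σ γ (Λ i j ∩ Z) 0 = 0 := by
  have h1 : ∀ x, ∑ p : Σ i, Fin (k i),
      @ite ℤ (x ∈ Λ p.1 p.2 ∩ Z) (Classical.propDecidable _) (n p.1) 0 = 0 := fun x => by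
    by_cases hx : x ∈ Z
    · refine Eq.trans ?_ (h x)
      rw [Fintype.sum_sigma]
      refine Finset.sum_congr rfl fun i _ => ?_
      rw [Finset.sum_range]
      simp [hx]
    · simp [hx]
  have h2 : ∀ p : Σ i, Fin (k i), (0 : ℂ) ∉ σ '' (Λ p.1 p.2 ∩ Z) := by
    rintro p ⟨x, hx, e⟩
    rw [map_eq_zero] at e
    exact h0 _ _ (e ▸ hx.1)
  have h3 := hL.same γ (fun p : Σ i, Fin (k i) => Λ p.1 p.2 ∩ Z) (fun p => n p.1)
    (fun p => hA _ _) h1 0 h2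
  have h4 := hR (fun _ : Σ i, Fin (k i) => γ) (fun p => Λ p.1 p.2 ∩ Z) (fun p => n p.1)
    (fun p => hA _ _) h1 0 h2
  constructor
  · rw [← h3, Fintype.prod_sigma]
    refine Finset.prod_congr rfl fun i _ => ?_
    rw [← Finset.prod_zpow, Finset.prod_range]
  · rw [← h4, Fintype.sum_sigma]
    refine Finset.sum_congr rfl fun i _ => ?_
    rw [Finset.mul_sum, Finset.sum_range]

end LinAux

open LinAux

theorem linSt (hB : BasSt ρ σ) (h2 : Bas2 ρ σ) (hE : EqvSt σ) (hL : LpA σ) (hA : AdmSt σ)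
    (hR : RPSt σ) (hV : ValSt ρ σ) (hU : UValSt ρ σ) : LinSt ρ σ := by
  intro ε hε ι _ L y k n hLa hk hy hy' hs0
  rcases isEmpty_or_nonempty ι with hι | hι
  · exact ⟨1, one_ne_zero, by simp⟩
  have hLt := fun i => h2.lt ε _ (hLa i)
  obtain ⟨a, γ, ha, hγ, ho⟩ := exists_ori hB h2 hε (h2.inf L hLt)
  have hγ' : ∀ i, γ ∈ L i := (Submodule.mem_iInf _).1 hγ
  have hX := h2.hs a 0
  have hS := h2.hs_sm a _ ε hX
  have e0 := ne_zero hε
  set X := hs a 0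
  have key : ∀ i, EK σ (uu ρ σ (ε ^ k i) (L i) (y i) /
      ∏ j ∈ Finset.range (k i), ph σ γ (coset (L i) (ε ^ j * (ε * y i))) X (sm ε X) 0) ∧
      Real.log (‖uu ρ σ (ε ^ k i) (L i) (y i)‖ ^ 2) =
        ∑ j ∈ Finset.range (k i), pl σ γ (coset (L i) (ε ^ j * (ε * y i))) X (sm ε X) 0 := by
    intro i
    obtain ⟨m, hm⟩ := Nat.exists_eq_succ_of_ne_zero (hk i)
    have hyi := hy i
    rw [hm] at hyi ⊢
    obtain ⟨δ, hδ, hoδ, e1, e2⟩ := chain hB h2 hE hV hε (hLa i) ha (hγ' i) ho hX m (ε * y i)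
      (by rw [(hLa i).stab]; exact hy' i)
    have hc : coset (L i) (ε ^ m * (ε * y i)) = coset (L i) (y i) := by
      ext x
      change x - ε ^ m * (ε * y i) ∈ L i ↔ x - y i ∈ L i
      rw [show x - y i = x - ε ^ m * (ε * y i) + (ε ^ (m + 1) - 1) * y i by ring,
        (L i).add_mem_iff_left hyi]
    rw [hc] at e1 e2
    obtain ⟨u1, u2, u3⟩ := hU (ε ^ (m + 1)) (L i) (y i) (hB.pow ε hε _ m.succ_ne_zero)
      (elat_pow (hLa i) _) hyi (hy' i) a δ X ha hδ hoδ hX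
    refine ⟨?_, u3.trans e2⟩
    have h3 := hE.ek_mul _ _ u2 e1
    rwa [div_mul_div_cancel₀ u1] at h3
  have h0 : ∀ i j, (0 : K) ∉ coset (L i) (ε ^ j * (ε * y i)) := fun i j h => by
    change 0 - ε ^ j * (ε * y i) ∈ L i at h
    rw [zero_sub, (L i).neg_mem_iff, (elat_pow (hLa i) j).stab, (hLa i).stab] at h
    exact hy' i h
  have h1 : ∀ x, ∑ i, ∑ j ∈ Finset.range (k i),
      (if x ∈ coset (L i) (ε ^ j * (ε * y i)) then n i else 0) = 0 := fun x => by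
    refine Eq.trans ?_ (hs0 (ε⁻¹ * x))
    refine Finset.sum_congr rfl fun i _ => Finset.sum_congr rfl fun j _ => if_congr ?_ rfl rfl
    change x - ε ^ j * (ε * y i) ∈ L i ↔ _
    rw [← (hLa i).stab (ε⁻¹ * x - ε ^ j * y i), mul_sub, mul_inv_cancel_left₀ e0, mul_left_comm]
  have hW := fun i j => hA.wedge (L i) (ε ^ j * (ε * y i)) γ a _ X _ (hLt i) (hγ' i) ho hX hS
  obtain ⟨r1, r2⟩ := rel hL hR (fun i j => (hW i j).1) h0 h1
  obtain ⟨r3, r4⟩ := rel hL hR (fun i j => (hW i j).2) h0 h1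
  have p1 : ∏ i, (∏ j ∈ Finset.range (k i),
      ph σ γ (coset (L i) (ε ^ j * (ε * y i))) X (sm ε X) 0) ^ n i = 1 := by
    simp only [ph, pN, pD, Finset.prod_div_distrib, div_zpow]
    rw [r1, r3, div_one]
  have p2 : ∑ i, (n i : ℝ) * ∑ j ∈ Finset.range (k i),
      pl σ γ (coset (L i) (ε ^ j * (ε * y i))) X (sm ε X) 0 = 0 := by
    simp only [pl, Finset.sum_sub_distrib, mul_sub]
    rw [r2, r4, sub_zero]
  have q1 : EK σ (∏ i, uu ρ σ (ε ^ k i) (L i) (y i) ^ n i) := by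
    have h3 := hE.ek_prod Finset.univ _ fun i _ => hE.ek_zpow _ (n i) (key i).1
    simp only [div_zpow, Finset.prod_div_distrib] at h3
    rwa [p1, div_one] at h3
  refine hB.mu _ q1 ?_
  have q2 : ∀ i, ‖uu ρ σ (ε ^ k i) (L i) (y i)‖ ≠ 0 := fun i =>
    norm_ne_zero_iff.2 (div_ne_zero_iff.1 (hE.ek_ne _ (key i).1)).1
  have q3 : Real.log ‖∏ i, uu ρ σ (ε ^ k i) (L i) (y i) ^ n i‖ = 0 := by
    simp only [← (key _).2, Real.log_pow] at p2
    rw [norm_prod, Real.log_prod fun i _ => by rw [norm_zpow]; exact zpow_ne_zero _ (q2 i)]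
    simp only [norm_zpow, Real.log_zpow]
    have h3 : ∑ i, (n i : ℝ) * (((2 : ℕ) : ℝ) * Real.log ‖uu ρ σ (ε ^ k i) (L i) (y i)‖) =
        2 * ∑ i, (n i : ℝ) * Real.log ‖uu ρ σ (ε ^ k i) (L i) (y i)‖ := by
      rw [Finset.mul_sum]
      exact Finset.sum_congr rfl fun i _ => by push_cast; ring
    linarith
  exact Real.eq_one_of_pos_of_log_eq_zero (norm_pos_iff.2 (hE.ek_ne _ q1)) q3

end Pool.Agent.CU
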