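import Pool.Agent.Lib.MP_ca56d1_nt.CU.U.St

/-! The finite part of the theta integral of one line. -/

namespace Pool.Agent.CU

open Complex Filter Topology MeasureTheory Pool.Agent.RM
open scoped Real Classical

namespace LineAux

theorem integrable_tsum {α ι : Type*} [MeasurableSpace α] {μ : Measure α} [Countable ι]
    {F : ι → α → ℝ} (hF : ∀ i, Integrable (F i) μ) (hs : Summable fun i => ∫ a, ‖F i a‖ ∂μ) :
    Integrable (fun a => ∑' i, F i a) μ := by
  refine ⟨(AEMeasurable.tsum fun i => (hF i).1.aemeasurable).aestronglyMeasurable, ?_⟩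
  have h1 : ∫⁻ a, ‖∑' i, F i a‖ₑ ∂μ ≤ ∫⁻ a, ∑' i, ‖F i a‖ₑ ∂μ :=
    lintegral_mono fun a => enorm_tsum_le_tsum_enorm
  rw [lintegral_tsum fun i => (hF i).1.enorm] at h1
  refine h1.trans_lt ?_
  simp only [fun i => (ofReal_integral_norm_eq_lintegral_enorm (hF i)).symm]
  rw [← ENNReal.ofReal_tsum_of_nonneg (fun i => integral_nonneg fun _ => norm_nonneg _) hs]
  exact ENNReal.ofReal_lt_top

theorem norm_sq (τ : ℂ) (n : ℤ) : ‖τ + n‖ ^ 2 = (n + τ.re) ^ 2 + τ.im ^ 2 := by
  rw [Complex.sq_norm, Complex.normSq_apply]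
  simp
  ring

theorem summ (τ : ℂ) {T : ℝ} (hT : 0 < T) :
    Summable fun n : ℤ => Real.exp (-π * T * ‖τ + n‖ ^ 2) := by
  have hp : 0 < π * T := mul_pos Real.pi_pos hT
  refine Summable.of_nonneg_of_le (fun _ => (Real.exp_pos _).le) (fun n => ?_)
    ((Stark.PoissonAux.summable_exp_sq (half_pos hp)).mul_left (Real.exp (π * T * τ.re ^ 2)))
  rw [← Real.exp_add, Real.exp_le_exp, norm_sq]
  have h1 : (n : ℝ) ^ 2 / 2 - τ.re ^ 2 ≤ (n + τ.re) ^ 2 + τ.im ^ 2 := by
    nlinarith [sq_nonneg ((n : ℝ) + 2 * τ.re), sq_nonneg τ.im]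
  nlinarith [mul_le_mul_of_nonneg_left h1 hp.le]

theorem poisson (u : ℝ) {T : ℝ} (hT : 0 < T) :
    ∑' n : ℤ, Real.exp (-π * T * (n + u) ^ 2) = T ^ (-(1 / 2) : ℝ) *
      ∑' k : ℤ, Real.cos (2 * π * k * u) * Real.exp (-π * k ^ 2 / T) := by
  have h := Complex.tsum_exp_neg_quadratic (a := (T⁻¹ : ℝ)) (by simpa using hT) (-I * u)
  have e1 : ∀ k : ℤ, cexp (-π * (T⁻¹ : ℝ) * k ^ 2 + 2 * π * (-I * u) * k) =
      (Real.exp (-π * k ^ 2 / T) : ℝ) * cexp ((-(2 * π * k * u) : ℝ) * I) := fun k => by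
    rw [ofReal_exp, ← Complex.exp_add]
    congr 1
    push_cast
    ring
  have e2 : ∀ n : ℤ, cexp (-π / (T⁻¹ : ℝ) * (n + I * (-I * u)) ^ 2) =
      (Real.exp (-π * T * (n + u) ^ 2) : ℝ) := fun n => by
    rw [ofReal_exp, show I * (-I * u) = u by linear_combination (-u : ℂ) * I_mul_I]
    congr 1
    push_cast
    rw [div_inv_eq_mul]
  have e3 : 1 / ((T⁻¹ : ℝ) : ℂ) ^ (1 / 2 : ℂ) = (T ^ (1 / 2 : ℝ) : ℝ) := by
    rw [show (1 / 2 : ℂ) = ((1 / 2 : ℝ) : ℂ) by push_cast; ring,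
      ← ofReal_cpow (inv_pos.2 hT).le, Real.inv_rpow hT.le, ofReal_inv, one_div, inv_inv]
  simp only [e1, e2, e3] at h
  have hs : Summable fun k : ℤ =>
      ((Real.exp (-π * k ^ 2 / T) : ℝ) : ℂ) * cexp ((-(2 * π * k * u) : ℝ) * I) := by
    refine Summable.of_norm ((Stark.PoissonAux.summable_exp_sq
      (div_pos Real.pi_pos hT)).congr fun k => ?_)
    rw [norm_mul, Complex.norm_exp_ofReal_mul_I, mul_one, Complex.norm_real,
      Real.norm_of_nonneg (Real.exp_pos _).le]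
    congr 1
    ring
  have h2 := congrArg Complex.re h
  rw [Complex.re_tsum hs, ← ofReal_tsum, ← ofReal_mul, ofReal_re] at h2
  simp only [re_ofReal_mul, exp_ofReal_mul_I_re, Real.cos_neg] at h2
  simp only [mul_comm (Real.cos _)]
  rw [h2, ← mul_assoc, ← Real.rpow_add hT]
  simp

/-- One term of the integrated series. -/
noncomputable def tm (u w r : ℝ) (k : ℤ) : ℝ :=
  Real.cos (2 * π * k * u) *
    (Real.exp (-2 * π * w * √(k ^ 2 + r ^ 2)) / √(k ^ 2 + r ^ 2))

/-- The majorant. -/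
noncomputable def bd (w : ℝ) (k : ℤ) : ℝ := if k = 0 then 0 else Real.exp (-2 * π * w * |(k : ℝ)|)

theorem hasSum_bd {w : ℝ} (hw : 0 < w) :
    HasSum (bd w) (2 * Real.exp (-2 * π * w) / (1 - Real.exp (-2 * π * w))) := by
  have hq : Real.exp (-2 * π * w) < 1 := Real.exp_lt_one_iff.2 (by nlinarith [Real.pi_pos])
  have h := (hasSum_geometric_of_lt_one (Real.exp_pos _).le hq).mul_left (Real.exp (-2 * π * w))
  have e : ∀ n : ℕ, bd w (n + 1) = Real.exp (-2 * π * w) * Real.exp (-2 * π * w) ^ n := fun n => by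
    rw [bd, if_neg (by omega), ← pow_succ', ← Real.exp_nat_mul, abs_of_nonneg (by positivity)]
    congr 1
    push_cast
    ring
  have e' : ∀ k : ℤ, bd w (-k) = bd w k := fun k => by simp [bd]
  have h2 := HasSum.of_add_one_of_neg_add_one (f := bd w) (by simpa only [e] using h)
    (by simpa only [e', e] using h)
  rw [bd, if_pos rfl, add_zero, ← two_mul, ← mul_assoc, ← div_eq_mul_inv] at h2
  exact h2

theorem le_bd {w : ℝ} (hw : 0 < w) (r : ℝ) {k : ℤ} (hk : k ≠ 0) :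
    Real.exp (-2 * π * w * √(k ^ 2 + r ^ 2)) / √(k ^ 2 + r ^ 2) ≤ bd w k := by
  have h1 : |(k : ℝ)| ≤ √(k ^ 2 + r ^ 2) := Real.abs_le_sqrt (by nlinarith [sq_nonneg r])
  have h2 : (1 : ℝ) ≤ |(k : ℝ)| := by exact_mod_cast Int.one_le_abs hk
  rw [bd, if_neg hk]
  refine (div_le_self (Real.exp_pos _).le (h2.trans h1)).trans (Real.exp_le_exp.2 ?_)
  nlinarith [mul_le_mul_of_nonneg_left h1 (mul_pos Real.pi_pos hw).le]

theorem tm_le (u : ℝ) {w : ℝ} (hw : 0 < w) (r : ℝ) (k : ℤ) :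
    ‖if k = 0 then 0 else tm u w r k‖ ≤ bd w k := by
  split_ifs with hk
  · simp [bd, hk]
  · rw [tm, norm_mul, Real.norm_of_nonneg (r := _ / _) (by positivity)]
    exact (mul_le_of_le_one_left (by positivity) (Real.abs_cos_le_one _)).trans (le_bd hw r hk)

theorem hasSum_zero (u : ℝ) {w : ℝ} (hw : 0 < w) :
    HasSum (fun k : ℤ => if k = 0 then 0 else tm u w 0 k)
      (-Real.log (‖1 - ee (u + w * I)‖ ^ 2)) := by
  have hz : ∀ n : ℕ, ee (u + w * I) ^ n =
      (Real.exp (-2 * π * w * n) : ℝ) * cexp ((2 * π * n * u : ℝ) * I) := fun n => by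
    rw [ee, ← Complex.exp_nat_mul, ofReal_exp, ← Complex.exp_add]
    congr 1
    push_cast
    linear_combination (2 * π * w * n : ℂ) * I_mul_I
  have hn : ‖ee (u + w * I)‖ < 1 := by
    rw [← pow_one (ee _), hz, norm_mul, Complex.norm_exp_ofReal_mul_I, mul_one, Complex.norm_real,
      Real.norm_of_nonneg (Real.exp_pos _).le, Real.exp_lt_one_iff, Nat.cast_one]
    nlinarith [Real.pi_pos]
  have h := (hasSum_nat_add_iff' 1).2 (Complex.hasSum_re (hasSum_taylorSeries_neg_log hn))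
  simp only [Finset.sum_range_one, Nat.cast_zero, div_zero, zero_re, sub_zero, neg_re,
    Complex.log_re] at h
  have e : ∀ n : ℕ, (if (n + 1 : ℤ) = 0 then 0 else tm u w 0 (n + 1)) =
      (ee (u + w * I) ^ (n + 1) / ((n + 1 : ℕ) : ℂ)).re := fun n => by
    rw [if_neg (by omega), tm, hz, div_natCast_re, re_ofReal_mul, exp_ofReal_mul_I_re,
      zero_pow two_ne_zero, add_zero, Real.sqrt_sq (by positivity)]
    push_cast
    ring
  have e' : ∀ k : ℤ, (if -k = 0 then 0 else tm u w 0 (-k)) = if k = 0 then 0 else tm u w 0 k :=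
    fun k => by simp [tm]
  have h2 := HasSum.of_add_one_of_neg_add_one (f := fun k : ℤ => if k = 0 then 0 else tm u w 0 k)
    (by simpa only [e] using h) (by simpa only [e', e] using h)
  rw [if_pos rfl, add_zero, ← two_mul, mul_neg] at h2
  rw [Real.log_pow]
  exact h2

theorem log_eq (τ : ℂ) (h : τ.im ≠ 0) : -Real.log (‖1 - ee (τ.re + (|τ.im| : ℝ) * I)‖ ^ 2) =
    -Real.log (‖1 - ee τ‖ ^ 2) + 2 * π * (|τ.im| - τ.im) := by
  rcases h.lt_or_gt with h | h
  · have h1 : ‖ee τ‖ = Real.exp (-2 * π * τ.im) := by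
      rw [ee, Complex.norm_exp]
      simp
    have h2 : 1 - ee τ ≠ 0 := fun h0 => by
      rw [← sub_eq_zero.1 h0, norm_one, eq_comm, Real.exp_eq_one_iff] at h1
      nlinarith [Real.pi_pos]
    have h3 : 1 - ee (τ.re + (|τ.im| : ℝ) * I) = (starRingEnd ℂ) (-(ee τ)⁻¹ * (1 - ee τ)) := by
      rw [mul_sub, mul_one, neg_mul, inv_mul_cancel₀ (show ee τ ≠ 0 from Complex.exp_ne_zero _), sub_neg_eq_add,
        neg_add_eq_sub, map_sub, map_one, ee, ee, ← Complex.exp_neg, ← Complex.exp_conj,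
        abs_of_neg h]
      congr 2
      apply Complex.ext <;> simp
    rw [h3, Complex.norm_conj, norm_mul, norm_neg, norm_inv, h1, ← Real.exp_neg, mul_pow,
      Real.log_mul (by positivity) (pow_ne_zero _ (norm_ne_zero_iff.2 h2)), Real.log_pow (Real.exp _),
      Real.log_exp, abs_of_neg h]
    push_cast
    ring
  · rw [abs_of_pos h, re_add_im]
    ring

theorem tendsto_tm (u w : ℝ) (k : ℤ) : Tendsto (fun r => if k = 0 then 0 else tm u w r k)
    (𝓝[>] 0) (𝓝 (if k = 0 then 0 else tm u w 0 k)) := by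
  split_ifs with hk
  · exact tendsto_const_nhds
  · refine ContinuousAt.tendsto (f := fun r => tm u w r k) ?_ |>.mono_left nhdsWithin_le_nhds
    have : (k : ℝ) ≠ 0 := by exact_mod_cast hk
    unfold tm
    exact continuousAt_const.mul (ContinuousAt.div (by fun_prop) (by fun_prop)
      (Real.sqrt_pos.2 (by positivity)).ne')

end LineAux

open LineAux

theorem lineSt (h : CSSt) : LineSt := by
  intro τ
  refine ⟨fun T hT => summ τ hT, fun hv => ?_⟩
  have hw : 0 < |τ.im| := abs_pos.2 hv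
  refine ⟨fun r => ∑' k : ℤ, if k = 0 then 0 else tm τ.re |τ.im| r k, fun r hr => ?_, ?_⟩
  · have hc : ∀ k : ℤ, 0 < √(k ^ 2 + r ^ 2) := fun k => Real.sqrt_pos.2 (by positivity)
    set F : ℤ → ℝ → ℝ := fun k T => Real.cos (2 * π * k * τ.re) * (T ^ (-(3 / 2) : ℝ) *
      Real.exp (-π * T * |τ.im| ^ 2 - π * √(k ^ 2 + r ^ 2) ^ 2 / T)) with hF
    have h1 : ∀ k, Integrable (F k) (volume.restrict (Set.Ioi 0)) := fun k =>
      (h _ _ hw (hc k)).1.const_mul _
    have h2 : ∀ k, ∫ T in Set.Ioi 0, F k T = tm τ.re |τ.im| r k := fun k => by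
      rw [hF, tm, integral_const_mul, (h _ _ hw (hc k)).2]
    have h3 : Summable fun k => ∫ T in Set.Ioi 0, ‖F k T‖ := by
      refine Summable.of_norm_bounded_eventually (hasSum_bd hw).summable ?_
      filter_upwards [eventually_cofinite_ne 0] with k hk
      rw [Real.norm_of_nonneg (integral_nonneg fun _ => norm_nonneg _)]
      refine le_trans ?_ (le_bd hw r hk)
      rw [← (h _ _ hw (hc k)).2]
      refine setIntegral_mono_on (h1 k).norm (h _ _ hw (hc k)).1 measurableSet_Ioi fun T hT => ?_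
      have hT' : 0 < T := hT
      rw [hF, norm_mul, Real.norm_of_nonneg (r := _ ^ _ * _) (by positivity)]
      exact mul_le_of_le_one_left (by positivity) (Real.abs_cos_le_one _)
    have h4 : Set.EqOn (fun T => ∑' k, F k T)
        (fun T => (∑' n : ℤ, Real.exp (-π * T * ‖τ + n‖ ^ 2)) * cut r T) (Set.Ioi 0) := by
      intro T hT
      have hT' : 0 < T := hT
      simp only [norm_sq, mul_add, Real.exp_add, tsum_mul_right, poisson τ.re hT', hF, cut]
      rw [← tsum_mul_left, ← tsum_mul_right, ← tsum_mul_right]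
      refine tsum_congr fun k => ?_
      rw [Real.sq_sqrt (by positivity), sq_abs, show (-(3 / 2) : ℝ) = -(1 / 2) - 1 by norm_num,
        Real.rpow_sub_one hT'.ne', show -π * T * τ.im ^ 2 - π * (k ^ 2 + r ^ 2) / T =
          -π * T * τ.im ^ 2 + -π * r ^ 2 / T + -π * k ^ 2 / T by ring, Real.exp_add, Real.exp_add]
      ring
    have h5 := hasSum_integral_of_summable_integral_norm h1 h3
    simp only [h2] at h5
    refine ⟨IntegrableOn.congr_fun (integrable_tsum h1 h3) h4 measurableSet_Ioi, ?_,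
      tsum_of_norm_bounded (hasSum_bd hw) (tm_le _ hw r)⟩
    rw [← setIntegral_congr_fun measurableSet_Ioi h4, ← h5.tsum_eq,
      h5.summable.tsum_eq_add_tsum_ite 0]
    congr 1
    simp [tm, Real.sqrt_sq hr.le]
  · rw [← log_eq τ hv, ← (hasSum_zero τ.re hw).tsum_eq]
    exact tendsto_tsum_of_dominated_convergence (hasSum_bd hw).summable (tendsto_tm _ _)
      (Eventually.of_forall fun r k => tm_le _ hw r k)

end Pool.Agent.CU
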