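import Pool.Agent.Lib.MP_ca56d1_nt.CU.U.St

/-! The two halves of the formal properties of line products put together. -/

namespace Pool.Agent.CU

open Complex
open scoped Real

variable {K : Type} [Field K] {σ : K →+* ℂ}

theorem lpSt_of (hA : LpA σ) (hB : LpB σ) : LpSt σ where
  diff := hA.diff
  ord := hA.ord
  xp := hB.xp
  xp_uniq := hB.xp_uniq
  empty γ h := ⟨(hB.empty γ h).1, hA.empty γ, (hB.empty γ h).2⟩
  union γ S T h1 h2 h3 :=
    ⟨(hB.union γ S T h1 h2 h3).1, hA.union γ S T h1 h2 h3, (hB.union γ S T h1 h2 h3).2⟩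
  sdiff := hB.sdiff
  add γ S t h := ⟨(hB.add γ S t h).1, hA.add γ S t h, (hB.add γ S t h).2⟩
  mul γ S u h1 h2 := ⟨(hB.mul γ S u h1 h2).1, hA.mul γ S u h1 h2, (hB.mul γ S u h1 h2).2⟩
  nsmul γ S N h1 h2 := ⟨(hB.nsmul γ S N h1 h2).1,
    hA.nsmul γ S N h1 h2 (hB.nsmul γ S N h1 h2).1, (hB.nsmul γ S N h1 h2).2⟩
  fin γ S h1 h2 h3 := by
    obtain ⟨b1, b2, b3, b4, b5, b6⟩ := hB.fin γ S h1 h2 h3
    obtain ⟨a1, a2⟩ := hA.fin γ S h1 h2 h3
    refine ⟨b1, b2, b3, b4, a1, fun w hw => ?_⟩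
    have h4 := norm_ne_zero_iff.2 (hA.ne γ S b1 w hw)
    have h5 : ∑ d ∈ h3.toFinset, (lv σ γ d - (w / σ γ).im) = -nn σ γ S w := by
      rw [b5, ← Finset.sum_neg_distrib]
      exact Finset.sum_congr rfl fun d _ => (neg_sub _ _).symm
    rw [el, el, a2, b6, h5, Real.log_pow, Real.log_pow, Real.log_mul (Real.exp_pos _).ne' h4,
      Real.log_exp]
    push_cast
    ring

end Pool.Agent.CU
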