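import Pool.Agent.Lib.MP_ca56d1_nt.CU.U.St

/-! Formal properties of the products over lines. -/

namespace Pool.Agent.CU

open Complex Filter Topology MeasureTheory Pool.Agent.RM
open scoped Real Classical

variable {K : Type} [Field K] {σ : K →+* ℂ} {γ : K}

namespace LpAAux

theorem ee_add (x y : ℂ) : ee (x + y) = ee x * ee y := by rw [ee, mul_add, exp_add, ee, ee]

theorem ee_eq_one {z : ℂ} : ee z = 1 ↔ ∃ n : ℤ, z = n := by
  rw [ee, exp_eq_one_iff]
  refine exists_congr fun n => ?_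
  rw [mul_comm, mul_left_inj' two_pi_I_ne_zero]

theorem norm_ee (z : ℂ) : ‖ee z‖ = Real.exp (-(2 * π) * z.im) := by
  rw [ee, norm_exp]
  simp

/-- One factor of the product. -/
noncomputable def fa (σ : K →+* ℂ) (γ : K) (w : ℂ) (x : K) : ℂ := 1 - ee ((σ x - w) / σ γ)

theorem out_eq (γ x : K) : ∃ k : ℤ, (x : Ln γ).out = x + k * γ := by
  obtain ⟨⟨_, k, rfl⟩, h⟩ := QuotientAddGroup.mk_out_eq_add (AddSubgroup.zmultiples γ) x
  exact ⟨k, by rw [h]; simp⟩

theorem mk_eq {x y : K} : (x : Ln γ) = y ↔ ∃ k : ℤ, y = x + k * γ := by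
  rw [QuotientAddGroup.eq, AddSubgroup.mem_zmultiples_iff]
  refine exists_congr fun k => ?_
  rw [zsmul_eq_mul, eq_neg_add_iff_add_eq, eq_comm]

theorem fa_add (hγ : γ ≠ 0) (w : ℂ) (x : K) (k : ℤ) : fa σ γ w (x + k * γ) = fa σ γ w x := by
  have h : σ γ ≠ 0 := (map_ne_zero σ).2 hγ
  have e : (σ (x + k * γ) - w) / σ γ = (σ x - w) / σ γ + k := by
    rw [map_add, map_mul, map_intCast]
    field_simp
    ring
  rw [fa, e, ee_add, ee_eq_one.2 ⟨k, rfl⟩, mul_one, fa]

theorem fa_out (hγ : γ ≠ 0) (w : ℂ) (x : K) : fa σ γ w (x : Ln γ).out = fa σ γ w x := by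
  obtain ⟨k, h⟩ := out_eq γ x
  rw [h, fa_add hγ]

theorem fa_eq_zero (hγ : γ ≠ 0) {w : ℂ} {x : K} :
    fa σ γ w x = 0 ↔ ∃ k : ℤ, σ (x + k * γ) = w := by
  have h : σ γ ≠ 0 := (map_ne_zero σ).2 hγ
  rw [fa, sub_eq_zero, eq_comm, ee_eq_one]
  simp only [div_eq_iff h, map_add, map_mul, map_intCast]
  exact ⟨fun ⟨k, e⟩ => ⟨-k, by push_cast; linear_combination e⟩,
    fun ⟨k, e⟩ => ⟨-k, by push_cast; linear_combination e⟩⟩

theorem per_z {S : Set K} (h : ∀ x, x + γ ∈ S ↔ x ∈ S) (x : K) (k : ℤ) :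
    x + k * γ ∈ S ↔ x ∈ S := by
  induction k using Int.induction_on with
  | zero => simp
  | succ i ih => rw [← ih, ← h (x + (i : ℤ) * γ)]; push_cast; ring_nf
  | pred i ih => rw [← ih, ← h (x + _)]; push_cast; ring_nf

theorem mem_lines {S : Set K} (h : ∀ x, x + γ ∈ S ↔ x ∈ S) {d : Ln γ} :
    d ∈ lines γ S ↔ d.out ∈ S := by
  refine ⟨?_, fun e => ⟨_, e, Quotient.out_eq d⟩⟩
  rintro ⟨x, hx, rfl⟩
  obtain ⟨k, e⟩ := out_eq γ x
  rwa [e, per_z h]

/-- The product over a set of lines. -/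
noncomputable def pr (σ : K →+* ℂ) (γ : K) (D : Set (Ln γ)) (w : ℂ) : ℂ :=
  ∏' d : D, fa σ γ w d.1.out

/-- The summability condition for a set of lines. -/
def Sm (σ : K →+* ℂ) (γ : K) (D : Set (Ln γ)) : Prop :=
  Summable fun d : D => Real.exp (-(2 * π) * lv σ γ d.1)

theorem sm_of {S : Set K} (h : Adm σ γ S) : Sm σ γ (lines γ S) := h.sum _ Real.two_pi_pos

theorem Sm.mono {D D' : Set (Ln γ)} (h : Sm σ γ D) (h' : D' ⊆ D) : Sm σ γ D' := by
  have h1 : Summable fun d : D => Real.exp (-(2 * π) * lv σ γ d.1) := h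
  exact (h1.comp_injective (Set.inclusion_injective h')).congr fun _ => rfl

theorem norm_term (w : ℂ) (d : Ln γ) : ‖-ee ((σ d.out - w) / σ γ)‖ =
    Real.exp (-(2 * π) * lv σ γ d) * Real.exp (2 * π * (w / σ γ).im) := by
  rw [norm_neg, norm_ee, ← Real.exp_add, sub_div, sub_im, lv]
  congr 1
  ring

theorem Sm.norm {D : Set (Ln γ)} (h : Sm σ γ D) (w : ℂ) :
    Summable fun d : D => ‖-ee ((σ d.1.out - w) / σ γ)‖ := by
  simp only [norm_term]
  exact Summable.mul_right _ h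

theorem Sm.hasProd {D : Set (Ln γ)} (h : Sm σ γ D) (w : ℂ) :
    HasProd (fun d : D => fa σ γ w d.1.out) (pr σ γ D w) := by
  refine Multipliable.hasProd ?_
  simp only [fa, sub_eq_add_neg (1 : ℂ)]
  exact multipliable_one_add_of_summable (h.norm w)

theorem Sm.ne {D : Set (Ln γ)} (h : Sm σ γ D) {w : ℂ} (h0 : ∀ d ∈ D, fa σ γ w d.out ≠ 0) :
    pr σ γ D w ≠ 0 := by
  simp only [pr, fa, sub_eq_add_neg (1 : ℂ)] at h0 ⊢
  exact tprod_one_add_ne_zero_of_summable (fun d => h0 d.1 d.2) (h.norm w)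

theorem Sm.diff {D : Set (Ln γ)} (h : Sm σ γ D) : Differentiable ℂ (pr σ γ D) := by
  intro w
  have hU : IsOpen {z : ℂ | (z / σ γ).im < (w / σ γ).im + 1} :=
    isOpen_lt (by fun_prop) continuous_const
  have h1 := Summable.hasProdLocallyUniformlyOn_one_add
    (f := fun (d : D) (z : ℂ) => -ee ((σ d.1.out - z) / σ γ)) hU
    (Summable.mul_right (Real.exp (2 * π * ((w / σ γ).im + 1))) h)
    (.of_forall fun d z hz => by
      rw [norm_term]
      have : (z / σ γ).im < (w / σ γ).im + 1 := hz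
      gcongr)
    fun d => by unfold ee; fun_prop
  have h2 := h1.differentiableOn (.of_forall fun s => by
    have : Differentiable ℂ fun z : ℂ => ∏ d ∈ s, (1 + -ee ((σ d.1.out - z) / σ γ)) := by
      unfold ee
      fun_prop
    exact this.differentiableOn) hU
  unfold pr fa
  simp only [sub_eq_add_neg (1 : ℂ)]
  exact h2.differentiableAt (hU.mem_nhds (by simp))

theorem pr_union {D D' : Set (Ln γ)} (h : Sm σ γ D) (h' : Sm σ γ D') (hd : Disjoint D D') (w : ℂ) :
    pr σ γ (D ∪ D') w = pr σ γ D w * pr σ γ D' w :=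
  (HasProd.mul_disjoint (f := fun d : Ln γ => fa σ γ w d.out) hd (h.hasProd w)
    (h'.hasProd w)).tprod_eq

theorem ne_of {S : Set K} (h : Adm σ γ S) {w : ℂ} (hw : w ∉ σ '' S) {x : K} (hx : x ∈ S) :
    fa σ γ w x ≠ 0 := fun e => by
  obtain ⟨k, e'⟩ := (fa_eq_zero h.ne).1 e
  exact hw ⟨_, (per_z h.per x k).2 hx, e'⟩

theorem lp_ne {S : Set K} (h : Adm σ γ S) {w : ℂ} (hw : w ∉ σ '' S) : lp σ γ S w ≠ 0 :=
  (sm_of h).ne fun _ hd => ne_of h hw ((mem_lines h.per).1 hd)

theorem ord {S : Set K} (h : Adm σ γ S) {x : K} (hx : x ∈ S) :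
    analyticOrderAt (lp σ γ S) (σ x) = 1 := by
  have hγ : σ γ ≠ 0 := (map_ne_zero σ).2 h.ne
  have h1 : ({(x : Ln γ)} : Set (Ln γ)) ⊆ lines γ S := Set.singleton_subset_iff.2 ⟨x, hx, rfl⟩
  have h2 := (sm_of h).mono (Set.sdiff_subset (t := {(x : Ln γ)}))
  have h3 : lp σ γ S = (fun w => fa σ γ w x) * pr σ γ (lines γ S \ {(x : Ln γ)}) := by
    funext w
    have h4 := pr_union ((sm_of h).mono h1) h2 Set.disjoint_sdiff_right w
    rw [Set.union_sdiff_cancel h1] at h4
    refine h4.trans ?_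
    rw [pr, tprod_singleton (x : Ln γ) fun d => fa σ γ w d.out, fa_out h.ne]
    rfl
  have h5 : HasDerivAt (fun w => fa σ γ w x) (2 * π * I / σ γ) (σ x) := by
    have := ((((hasDerivAt_id (σ x)).const_sub (σ x)).div_const (σ γ)).const_mul
      (2 * π * I)).cexp.const_sub 1
    refine HasDerivAt.congr_deriv this ?_
    simp [div_eq_mul_inv]
  have h6 : AnalyticAt ℂ (fun w => fa σ γ w x) (σ x) := by
    unfold fa ee
    fun_prop
  have h7 : pr σ γ (lines γ S \ {(x : Ln γ)}) (σ x) ≠ 0 := h2.ne fun d hd e => by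
    obtain ⟨k, e'⟩ := (fa_eq_zero h.ne).1 e
    exact hd.2 ((Quotient.out_eq d).symm.trans (mk_eq.2 ⟨k, (σ.injective e').symm⟩))
  rw [h3, analyticOrderAt_mul h6 (h2.diff.analyticAt _),
    (h2.diff.analyticAt _).analyticOrderAt_eq_zero.2 h7, add_zero]
  exact h6.analyticOrderAt_eq_one_of_zero_deriv_ne_zero ((fa_eq_zero h.ne).2 ⟨0, by simp⟩)
    (by rw [h5.deriv]; exact div_ne_zero two_pi_I_ne_zero hγ)

theorem tr {γ' : K} (hγ : γ' ≠ 0) (f : K ≃ K) (hf : ∀ x y : K, (x : Ln γ) = y ↔ (f x : Ln γ') = f y)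
    {S S' : Set K} (hS : ∀ x, f x ∈ S' ↔ x ∈ S) (w : ℂ) :
    lp σ γ' S' w = ∏' d : lines γ S, fa σ γ' w (f d.1.out) := by
  let g : lines γ S → lines γ' S' := fun d => ⟨(f d.1.out : K), by
    obtain ⟨x, hx, e⟩ := d.2
    exact ⟨f x, (hS x).2 hx, (hf _ _).1 (e.trans (Quotient.out_eq _).symm)⟩⟩
  have hg : Function.Bijective g := by
    refine ⟨fun d d' e => Subtype.ext ?_, fun d => ?_⟩
    · exact (Quotient.out_eq _).symm.trans (((hf _ _).2 (congrArg Subtype.val e)).trans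
        (Quotient.out_eq _))
    · obtain ⟨_, y, hy, rfl⟩ := d
      obtain ⟨x, rfl⟩ := f.surjective y
      exact ⟨⟨x, x, (hS x).1 hy, rfl⟩, Subtype.ext ((hf _ _).1 (Quotient.out_eq _))⟩
  rw [lp, ← (Equiv.ofBijective g hg).tprod_eq]
  exact tprod_congr fun d => fa_out hγ w _

theorem prod_fa (hγ : γ ≠ 0) {N : ℕ} (hN : N ≠ 0) (w : ℂ) (x : K) :
    ∏ j : Fin N, fa σ (N * γ) w (x + (j : ℕ) * γ) = fa σ γ w x := by
  have h : σ γ ≠ 0 := (map_ne_zero σ).2 hγ
  have hN' : (N : ℂ) ≠ 0 := Nat.cast_ne_zero.2 hN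
  have h1 := congrArg (Polynomial.eval 1) (X_pow_sub_C_eq_prod (isPrimitiveRoot_exp N hN)
    (α := ee ((σ x - w) / σ γ / N)) (a := ee ((σ x - w) / σ γ)) (Nat.pos_of_ne_zero hN) (by
      rw [ee, ee, ← exp_nat_mul]
      congr 1
      field_simp))
  simp only [Polynomial.eval_sub, Polynomial.eval_pow, Polynomial.eval_X, Polynomial.eval_C,
    one_pow, Polynomial.eval_prod] at h1
  rw [fa, h1, Finset.prod_range]
  refine Finset.prod_congr rfl fun j _ => ?_
  rw [fa, ee, ee, ← exp_nat_mul, ← exp_add, map_add, map_mul, map_mul, map_natCast, map_natCast]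
  congr 2
  field_simp
  ring

theorem nsmul [CharZero K] {S : Set K} {N : ℕ} (hN : N ≠ 0) (h : Adm σ γ S) (h' : Adm σ (N * γ) S) (w : ℂ) :
    lp σ (N * γ) S w = lp σ γ S w := by
  let g : lines γ S × Fin N → lines (N * γ) S := fun d =>
    ⟨(d.1.1.out + (d.2 : ℕ) * γ : K), _, by
      have := (per_z h.per _ (d.2 : ℕ)).2 ((mem_lines h.per).1 d.1.2)
      rwa [Int.cast_natCast] at this, rfl⟩
  have hN' : (0 : ℤ) < N := by omega
  have hg : Function.Bijective g := by
    refine ⟨fun d d' e => ?_, fun d => ?_⟩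
    · obtain ⟨k, e'⟩ := mk_eq.1 (congrArg Subtype.val e)
      have h1 : d.1 = d'.1 := Subtype.ext ((Quotient.out_eq _).symm.trans
        ((mk_eq.2 ⟨(d.2 : ℕ) + k * N - (d'.2 : ℕ), by push_cast; linear_combination e'⟩).trans
          (Quotient.out_eq _)))
      rw [h1] at e'
      have h2 : ((d'.2 : ℕ) : ℤ) = (d.2 : ℕ) + k * N := by
        refine Int.cast_injective (α := K) (mul_right_cancel₀ h.ne ?_)
        push_cast
        linear_combination e'
      have h3 := d.2.2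
      have h4 := d'.2.2
      have h5 : k = 0 := by nlinarith
      exact Prod.ext h1 (Fin.ext (by simpa [h5] using h2.symm))
    · obtain ⟨_, x, hx, rfl⟩ := d
      obtain ⟨k, e⟩ := out_eq γ x
      have h1 := Int.emod_nonneg (-k) hN'.ne'
      have h2 := Int.emod_lt_of_pos (-k) hN'
      refine ⟨(⟨x, x, hx, rfl⟩, ⟨(-k % N).toNat, by omega⟩), Subtype.ext (mk_eq.2 ⟨-k / N, ?_⟩)⟩
      have h3 := congrArg (Int.cast : ℤ → K) (Int.emod_add_mul_ediv (-k) N)
      have h4 : (((-k % N).toNat : ℕ) : K) = ((-k % N : ℤ) : K) := by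
        rw [← Int.cast_natCast, Int.toNat_of_nonneg h1]
      simp only [e, h4]
      rw [Int.cast_add, Int.cast_mul, Int.cast_neg, Int.cast_natCast] at h3
      linear_combination (-γ) * h3
  have h1 := (Equiv.ofBijective g hg).hasProd_iff.2 ((sm_of h').hasProd w)
  refine (h1.prod_fiberwise fun d => ?_).unique ((sm_of h).hasProd w)
  rw [← prod_fa h.ne hN]
  convert hasProd_fintype _ using 2
  exact (fa_out h'.ne w _).symm

theorem fin {S : Set K} (hγ : γ ≠ 0) (h : (lines γ S).Finite) (w : ℂ) :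
    lp σ (-γ) S w = (∏ d ∈ h.toFinset, ee (1 / 2 - (σ d.out - w) / σ γ)) * lp σ γ S w := by
  have h1 : ∀ f : Ln γ → ℂ, ∏' d : lines γ S, f d = ∏ d ∈ h.toFinset, f d := fun f => by
    rw [← Finset.tprod_subtype', h.coe_toFinset]
  rw [tr (γ := γ) (neg_ne_zero.2 hγ) (Equiv.refl K) (fun x y => ?_) (fun _ => Iff.rfl) w,
    h1 fun d => fa σ (-γ) w (Equiv.refl K d.out), lp,
    h1 fun d => 1 - ee ((σ d.out - w) / σ γ), ← Finset.prod_mul_distrib]
  · refine Finset.prod_congr rfl fun d _ => ?_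
    have h2 : ee (1 / 2) = -1 := by
      rw [ee, ← exp_pi_mul_I]
      congr 1
      ring
    rw [mul_sub, ← ee_add, sub_add_cancel, sub_eq_add_neg (1 / 2 : ℂ), ee_add, h2, fa, map_neg,
      div_neg, Equiv.refl_apply]
    ring
  · simp only [mk_eq, Equiv.refl_apply]
    exact ⟨fun ⟨k, e⟩ => ⟨-k, by simpa using e⟩, fun ⟨k, e⟩ => ⟨-k, by simpa using e⟩⟩

theorem ee_sum {ι : Type} (s : Finset ι) (f : ι → ℂ) : ee (∑ i ∈ s, f i) = ∏ i ∈ s, ee (f i) := by
  simp only [ee, Finset.mul_sum, exp_sum]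

theorem zpow_sum {ι : Type} {z : ℂ} (hz : z ≠ 0) (s : Finset ι) (n : ι → ℤ) :
    ∏ i ∈ s, z ^ n i = z ^ ∑ i ∈ s, n i := by
  induction s using Finset.induction_on with
  | empty => simp
  | insert a s ha ih => rw [Finset.prod_insert ha, Finset.sum_insert ha, ih, zpow_add₀ hz]

end LpAAux

open LpAAux in
theorem lpA [CharZero K] (σ : K →+* ℂ) : LpA σ where
  diff _ _ h := (sm_of h).diff
  ord γ S h w := by
    split_ifs with hw
    · obtain ⟨x, hx, rfl⟩ := hw
      exact ord h hx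
    · exact analyticOrderAt_eq_zero.2 (Or.inr (lp_ne h hw))
  ne _ _ h _ hw := lp_ne h hw
  empty γ w := by simp [lp, lines]
  union γ S T h h' hd w := by
    have := pr_union (sm_of h) (sm_of h') (Set.disjoint_left.2 fun d e e' =>
      Set.disjoint_left.1 hd ((mem_lines h.per).1 e) ((mem_lines h'.per).1 e')) w
    rwa [lines, lines, ← Set.image_union] at this
  add γ S t h w := by
    rw [tr (γ := γ) (S := S) h.ne (Equiv.addRight t) (fun x y => ?_) (fun x => by simp)]
    · exact tprod_congr fun d => by simp [fa]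
    · simp only [mk_eq, Equiv.coe_addRight]
      exact exists_congr fun k => ⟨fun e => by linear_combination e, fun e => by
        linear_combination e⟩
  mul γ S u hu h w := by
    have h1 : σ u ≠ 0 := (map_ne_zero σ).2 hu
    rw [tr (γ := γ) (S := S) (mul_ne_zero hu h.ne) (Equiv.mulLeft₀ u hu) (fun x y => ?_)
      (fun x => by simp [hu])]
    · refine tprod_congr fun d => ?_
      rw [fa, Equiv.mulLeft₀_apply, map_mul, map_mul, ← mul_sub, mul_div_mul_left _ _ h1]
    · simp only [mk_eq, Equiv.mulLeft₀_apply]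
      exact exists_congr fun k => ⟨fun e => by linear_combination u * e, fun e =>
        mul_left_cancel₀ hu (by linear_combination e)⟩
  nsmul _ _ _ hN h h' := nsmul hN h h'
  fin γ S hγ _ h := by
    refine ⟨⟨∑ d ∈ h.toFinset, (Polynomial.C (1 / 2 - d.out / γ) + Polynomial.C γ⁻¹ * Polynomial.X),
      Polynomial.natDegree_sum_le_of_forall_le _ _ fun d _ => by compute_degree, fun w => ?_⟩,
      fun w => ?_⟩
    · rw [fin hγ h, Polynomial.eval₂_finsetSum, ee_sum]
      refine congrArg (· * _) (Finset.prod_congr rfl fun d _ => congrArg ee ?_)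
      rw [Polynomial.eval₂_add, Polynomial.eval₂_C, Polynomial.eval₂_mul, Polynomial.eval₂_C,
        Polynomial.eval₂_X, map_sub, map_div₀, map_div₀, map_one, map_ofNat, map_inv₀]
      ring
    · rw [fin hγ h, norm_mul, norm_prod, Finset.mul_sum, Real.exp_sum]
      refine congrArg (· * _) (Finset.prod_congr rfl fun d _ => ?_)
      rw [norm_ee, sub_div, lv]
      congr 1
      simp
      ring
  log γ S h w hw := by
    have h1 : Tendsto _ atTop _ := (sm_of h).hasProd w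
    refine ((h1.norm.pow 2).log (pow_ne_zero 2 (norm_ne_zero_iff.2 (lp_ne h hw)))).congr fun s => ?_
    rw [norm_prod, ← Finset.prod_pow, Real.log_prod fun d _ =>
      pow_ne_zero 2 (norm_ne_zero_iff.2 (ne_of h hw ((mem_lines h.per).1 d.2)))]
    rfl
  same γ S n h h0 w hw := by
    have h1 : ∀ i, HasProd (fun d : Ln γ => (if d.out ∈ S i then fa σ γ w d.out else 1) ^ n i)
        (lp σ γ (S i) w ^ n i) := fun i => by
      have h2 := (hasProd_subtype_iff_mulIndicator (f := fun d : Ln γ => fa σ γ w d.out)).1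
        ((sm_of (h i)).hasProd w)
      have h3 : Tendsto _ atTop _ := h2
      refine (h3.zpow₀ (n i) (Or.inl (lp_ne (h i) (hw i)))).congr fun s => ?_
      rw [← Finset.prod_zpow]
      refine Finset.prod_congr rfl fun d _ => ?_
      rw [Set.mulIndicator_apply, mem_lines (h i).per]
    refine (hasProd_prod fun i _ => h1 i).unique ?_
    convert hasProd_one with d
    by_cases hd : ∃ i, d.out ∈ S i
    · obtain ⟨i, hi⟩ := hd
      have h2 := zpow_sum (ne_of (h i) (hw i) hi) Finset.univ fun j => if d.out ∈ S j then n j else 0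
      rw [h0, zpow_zero] at h2
      refine (Finset.prod_congr rfl fun j _ => ?_).trans h2
      split_ifs <;> simp
    · exact Finset.prod_eq_one fun j _ => by rw [if_neg fun e => hd ⟨j, e⟩, one_zpow]

end Pool.Agent.CU
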