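import Pool.Agent.Lib.MP_ca56d1_nt.CU.U.St

/-! The generating function half of the formal properties of line products. -/

namespace Pool.Agent.CU

open Complex Filter Topology MeasureTheory Pool.Agent.RM
open scoped Real Classical

namespace LpBAux

theorem tid : Tendsto (fun t : ℝ => t) (𝓝[>] 0) (𝓝 0) :=
  tendsto_nhdsWithin_of_tendsto_nhds tendsto_id

theorem xp_congr {G G' : ℝ → ℝ} {c : Fin 4 → ℝ} (h : ∀ t, 0 < t → G t = G' t) (hG : Xp G c) :
    Xp G' c := by
  unfold Xp at hG ⊢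
  refine hG.congr' ?_
  filter_upwards [self_mem_nhdsWithin] with t ht
  rw [h t ht]

theorem xp_add {G G' : ℝ → ℝ} {c c' : Fin 4 → ℝ} (hG : Xp G c) (hG' : Xp G' c') :
    Xp (fun t => G t + G' t) (c + c') := by
  unfold Xp at hG hG' ⊢
  refine (hG.add hG').congr ?_
  intro t
  simp only [Pi.add_apply]
  ring

theorem xp_sub {G G' : ℝ → ℝ} {c c' : Fin 4 → ℝ} (hG : Xp G c) (hG' : Xp G' c') :
    Xp (fun t => G t - G' t) (c - c') := by
  unfold Xp at hG hG' ⊢
  refine (hG.sub hG').congr ?_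
  intro t
  simp only [Pi.sub_apply]
  ring

theorem xp_zero : Xp (fun _ => 0) 0 := by
  unfold Xp
  simp

theorem xp_one : Xp (fun _ => 1) ![0, 0, 1, 0] := by
  unfold Xp
  simp

theorem zero_of_xp {c : Fin 4 → ℝ} (h : Xp (fun _ => 0) c) : c = 0 := by
  unfold Xp at h
  have h0 : c 0 = 0 := by
    have h1 : Tendsto (fun t : ℝ => (0 - (c 0 / t ^ 2 + c 1 / t + c 2)) / t * t ^ 3) (𝓝[>] 0)
        (𝓝 (c 3 * 0 ^ 3)) := h.mul (tid.pow 3)
    have h2 : Tendsto (fun t : ℝ => -(c 0 + c 1 * t + c 2 * t ^ 2)) (𝓝[>] 0)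
        (𝓝 (-(c 0 + c 1 * 0 + c 2 * 0 ^ 2))) :=
      ((tendsto_const_nhds.add (tid.const_mul _)).add ((tid.pow 2).const_mul _)).neg
    have h3 : Tendsto (fun t : ℝ => -(c 0 + c 1 * t + c 2 * t ^ 2)) (𝓝[>] 0)
        (𝓝 (c 3 * 0 ^ 3)) := by
      refine h1.congr' ?_
      filter_upwards [self_mem_nhdsWithin] with t ht
      have : t ≠ 0 := ne_of_gt ht
      field_simp
      ring
    have := tendsto_nhds_unique h2 h3
    simpa using this
  have h1' : c 1 = 0 := by
    have h1 : Tendsto (fun t : ℝ => (0 - (c 0 / t ^ 2 + c 1 / t + c 2)) / t * t ^ 2) (𝓝[>] 0)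
        (𝓝 (c 3 * 0 ^ 2)) := h.mul (tid.pow 2)
    have h2 : Tendsto (fun t : ℝ => -(c 1 + c 2 * t)) (𝓝[>] 0) (𝓝 (-(c 1 + c 2 * 0))) :=
      (tendsto_const_nhds.add (tid.const_mul _)).neg
    have h3 : Tendsto (fun t : ℝ => -(c 1 + c 2 * t)) (𝓝[>] 0) (𝓝 (c 3 * 0 ^ 2)) := by
      refine h1.congr' ?_
      filter_upwards [self_mem_nhdsWithin] with t ht
      have : t ≠ 0 := ne_of_gt ht
      rw [h0]
      field_simp
      ring
    have := tendsto_nhds_unique h2 h3
    simpa using this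
  have h2' : c 2 = 0 := by
    have h1 : Tendsto (fun t : ℝ => (0 - (c 0 / t ^ 2 + c 1 / t + c 2)) / t * t) (𝓝[>] 0)
        (𝓝 (c 3 * 0)) := h.mul tid
    have h3 : Tendsto (fun _ : ℝ => -c 2) (𝓝[>] 0) (𝓝 (c 3 * 0)) := by
      refine h1.congr' ?_
      filter_upwards [self_mem_nhdsWithin] with t ht
      have : t ≠ 0 := ne_of_gt ht
      rw [h0, h1']
      field_simp
      ring
    have := tendsto_nhds_unique (tendsto_const_nhds (x := -c 2) (f := 𝓝[>] (0 : ℝ))) h3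
    simpa using this
  have h3' : c 3 = 0 := by
    rw [h0, h1', h2'] at h
    simp only [zero_div, add_zero, sub_zero] at h
    exact (tendsto_nhds_unique (tendsto_const_nhds (x := (0 : ℝ)) (f := 𝓝[>] (0 : ℝ))) h).symm
  funext i
  fin_cases i
  · exact h0
  · exact h1'
  · exact h2'
  · exact h3'

theorem xp_uniq {G : ℝ → ℝ} {c c' : Fin 4 → ℝ} (h : Xp G c) (h' : Xp G c') : c = c' := by
  have := xp_sub h h'
  simp only [sub_self] at this
  exact sub_eq_zero.1 (zero_of_xp this)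

theorem exp_rem (V : ℝ) :
    Tendsto (fun t : ℝ => (Real.exp (t * V) - (1 + t * V + (t * V) ^ 2 / 2)) / t ^ 3) (𝓝[>] 0)
      (𝓝 (V ^ 3 / 6)) := by
  have h1 : Tendsto (fun t : ℝ => t * V) (𝓝[>] 0) (𝓝 0) := by
    simpa using tid.mul_const V
  have h2 := (Real.exp_sub_sum_range_succ_isLittleO_pow 3).comp_tendsto h1
  have h3 : (fun t : ℝ => (t * V) ^ 3) =O[𝓝[>] 0] fun t : ℝ => t ^ 3 := by
    refine Asymptotics.IsBigO.of_bound (‖V ^ 3‖) (Eventually.of_forall fun t => ?_)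
    rw [mul_pow, norm_mul, mul_comm]
  have h4 := (h2.trans_isBigO h3).tendsto_div_nhds_zero
  have h5 := h4.add (tendsto_const_nhds (x := V ^ 3 / 6))
  rw [zero_add] at h5
  refine h5.congr' ?_
  filter_upwards [self_mem_nhdsWithin] with t ht
  have : t ≠ 0 := ne_of_gt ht
  simp only [Function.comp, Finset.sum_range_succ, Finset.sum_range_zero, Nat.factorial]
  push_cast
  field_simp
  ring

/-- The coefficients after multiplication by `exp (t V)`. -/
noncomputable def sh (c : Fin 4 → ℝ) (V : ℝ) : Fin 4 → ℝ :=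
  ![c 0, c 1 + c 0 * V, c 2 + c 1 * V + c 0 * V ^ 2 / 2,
    c 3 + c 2 * V + c 1 * V ^ 2 / 2 + c 0 * V ^ 3 / 6]

theorem xp_exp {G : ℝ → ℝ} {c : Fin 4 → ℝ} (h : Xp G c) (V : ℝ) :
    Xp (fun t => Real.exp (t * V) * G t) (sh c V) := by
  unfold Xp at h ⊢
  have he : Tendsto (fun t : ℝ => Real.exp (t * V)) (𝓝[>] 0) (𝓝 1) := by
    have h1 : Tendsto (fun t : ℝ => t * V) (𝓝[>] 0) (𝓝 0) := by
      simpa using tid.mul_const V
    have h2 := (Real.continuous_exp.tendsto 0).comp h1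
    rw [Real.exp_zero] at h2
    exact h2
  have hs := exp_rem V
  have h1 := (he.mul h).add (((hs.const_mul (c 0)).add ((tid.mul hs).const_mul (c 1))).add
    (((tid.pow 2).mul hs).const_mul (c 2)))
  have h2 := h1.add ((tendsto_const_nhds (x := c 1 * V ^ 2 / 2 + c 2 * V)).add
    (tid.const_mul (c 2 * V ^ 2 / 2)))
  have e : sh c V 3 = 1 * c 3 + (c 0 * (V ^ 3 / 6) + c 1 * (0 * (V ^ 3 / 6)) +
      c 2 * (0 ^ 2 * (V ^ 3 / 6))) + (c 1 * V ^ 2 / 2 + c 2 * V + c 2 * V ^ 2 / 2 * 0) := by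
    simp only [sh, Matrix.cons_val]
    ring
  rw [e]
  refine h2.congr' ?_
  filter_upwards [self_mem_nhdsWithin] with t ht
  have : t ≠ 0 := ne_of_gt ht
  simp only [sh, Matrix.cons_val_zero, Matrix.cons_val_one, Matrix.cons_val]
  field_simp
  ring

theorem xp_scale {G : ℝ → ℝ} {c : Fin 4 → ℝ} (h : Xp G c) (N : ℝ) (hN : 0 < N) :
    Xp (fun t => G (t / N) * N) ![c 0 * N ^ 3, c 1 * N ^ 2, c 2 * N, c 3] := by
  unfold Xp at h ⊢
  have h1 : Tendsto (fun t : ℝ => t / N) (𝓝[>] 0) (𝓝[>] 0) := by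
    refine tendsto_nhdsWithin_iff.2 ⟨by simpa using tid.div_const N, ?_⟩
    filter_upwards [self_mem_nhdsWithin] with t ht
    exact div_pos ht hN
  have h2 := h.comp h1
  simp only [Matrix.cons_val_zero, Matrix.cons_val_one, Matrix.cons_val]
  refine h2.congr' ?_
  filter_upwards [self_mem_nhdsWithin] with t ht
  have : t ≠ 0 := ne_of_gt ht
  have : N ≠ 0 := ne_of_gt hN
  simp only [Function.comp]
  field_simp

theorem xp_sum {ι : Type} (s : Finset ι) (v : ι → ℝ) :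
    Xp (fun t => ∑ i ∈ s, Real.exp (t * v i)) ![0, 0, s.card, ∑ i ∈ s, v i] := by
  induction s using Finset.induction_on with
  | empty =>
    have : (![0, 0, ((∅ : Finset ι).card : ℝ), ∑ i ∈ (∅ : Finset ι), v i] : Fin 4 → ℝ) = 0 := by
      funext i
      fin_cases i <;> simp
    rw [this]
    simpa using xp_zero
  | insert a s ha ih =>
    have h := xp_add (xp_exp xp_one (v a)) ih
    have e : (![0, 0, ((insert a s).card : ℝ), ∑ i ∈ insert a s, v i] : Fin 4 → ℝ) =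
        sh ![0, 0, 1, 0] (v a) + ![0, 0, (s.card : ℝ), ∑ i ∈ s, v i] := by
      rw [Finset.card_insert_of_notMem ha, Finset.sum_insert ha]
      funext i
      fin_cases i <;> simp [sh, add_comm]
    rw [e]
    refine xp_congr (fun t _ => ?_) h
    rw [Finset.sum_insert ha, mul_one]

variable {K : Type} [Field K] [CharZero K] {σ : K →+* ℂ}

omit [CharZero K] in
theorem mk_eq_iff (γ x y : K) :
    (QuotientAddGroup.mk x : Ln γ) = QuotientAddGroup.mk y ↔ ∃ k : ℤ, y = x + k * γ := by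
  rw [QuotientAddGroup.eq, AddSubgroup.mem_zmultiples_iff]
  constructor
  · rintro ⟨k, hk⟩
    refine ⟨k, ?_⟩
    rw [zsmul_eq_mul] at hk
    rw [hk]
    ring
  · rintro ⟨k, rfl⟩
    refine ⟨k, ?_⟩
    rw [zsmul_eq_mul]
    ring

omit [CharZero K] in
theorem mk_out (γ : K) (d : Ln γ) : (QuotientAddGroup.mk d.out : Ln γ) = d :=
  QuotientAddGroup.out_eq' d

omit [CharZero K] in
theorem out_eq (γ x : K) : ∃ k : ℤ, (QuotientAddGroup.mk x : Ln γ).out = x + k * γ :=
  (mk_eq_iff γ x _).1 (mk_out γ _).symm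

omit [CharZero K] in
theorem lv_mk {γ : K} (hγ : γ ≠ 0) (x : K) :
    lv σ γ (QuotientAddGroup.mk x) = (σ x / σ γ).im := by
  obtain ⟨k, hk⟩ := out_eq γ x
  have h0 : σ γ ≠ 0 := (map_ne_zero σ).2 hγ
  unfold lv
  rw [hk, map_add, map_mul, map_intCast, add_div, mul_div_assoc, div_self h0]
  simp

omit [CharZero K] in
theorem per_int {γ : K} {S : Set K} (per : ∀ x, x + γ ∈ S ↔ x ∈ S) (x : K) (k : ℤ) :
    x + k * γ ∈ S ↔ x ∈ S := by
  induction k using Int.induction_on with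
  | zero => simp
  | succ n ih =>
    rw [← ih, ← per (x + ((n : ℤ) : K) * γ)]
    push_cast
    rw [add_mul, one_mul, add_assoc]
  | pred n ih =>
    rw [← ih, ← per (x + ((-(n : ℤ) - 1 : ℤ) : K) * γ)]
    push_cast
    rw [show x + (-(n : K) - 1) * γ + γ = x + -(n : K) * γ by ring]

omit [CharZero K] in
theorem mk_mem {γ : K} {S : Set K} (per : ∀ x, x + γ ∈ S ↔ x ∈ S) (x : K) :
    (QuotientAddGroup.mk x : Ln γ) ∈ lines γ S ↔ x ∈ S := by
  constructor
  · rintro ⟨y, hy, h⟩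
    obtain ⟨k, rfl⟩ := (mk_eq_iff γ y x).1 h
    exact (per_int per y k).2 hy
  · intro h
    exact ⟨x, h, rfl⟩

omit [CharZero K] in
theorem out_mem {γ : K} {S : Set K} (per : ∀ x, x + γ ∈ S ↔ x ∈ S) (d : lines γ S) :
    d.1.out ∈ S := by
  rw [← mk_mem per, mk_out]
  exact d.2

omit [CharZero K] in
/-- Sums over lines through a system of representatives. -/
theorem transfer {ι : Type} {γ : K} (hγ : γ ≠ 0) {S : Set K} (φ : ι → K) (hφ : ∀ i, φ i ∈ S)
    (inj : ∀ i j (k : ℤ), φ j = φ i + k * γ → i = j)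
    (surj : ∀ x ∈ S, ∃ i, ∃ k : ℤ, x = φ i + k * γ) :
    ∃ e : ι ≃ lines γ S, ∀ i, lv σ γ (e i).1 = (σ (φ i) / σ γ).im := by
  let f : ι → lines γ S := fun i => ⟨QuotientAddGroup.mk (φ i), φ i, hφ i, rfl⟩
  have hf : Function.Bijective f := by
    constructor
    · intro i j h
      obtain ⟨k, hk⟩ := (mk_eq_iff γ _ _).1 (congrArg Subtype.val h)
      exact inj i j k hk
    · rintro ⟨_, x, hx, rfl⟩
      obtain ⟨i, k, hk⟩ := surj x hx
      exact ⟨i, Subtype.ext ((mk_eq_iff γ _ _).2 ⟨k, hk⟩)⟩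
  exact ⟨Equiv.ofBijective f hf, fun i => lv_mk hγ _⟩

omit [CharZero K] in
theorem out_inj {γ : K} {S : Set K} (i j : lines γ S) (k : ℤ) (h : j.1.out = i.1.out + k * γ) :
    i = j := by
  apply Subtype.ext
  rw [← mk_out γ i.1, ← mk_out γ j.1]
  exact (mk_eq_iff γ _ _).2 ⟨k, h⟩

omit [CharZero K] in
theorem out_surj {γ : K} {S : Set K} (x : K) (hx : x ∈ S) :
    ∃ i : lines γ S, ∃ k : ℤ, x = i.1.out + k * γ := by
  refine ⟨⟨QuotientAddGroup.mk x, x, hx, rfl⟩, ?_⟩
  exact (mk_eq_iff γ _ _).1 (mk_out γ _)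

omit [CharZero K] in
theorem xp_co {γ : K} {S : Set K} (h : Adm σ γ S) : Xp (gf σ γ S) (co σ γ S) :=
  Classical.epsilon_spec h.xp

omit [CharZero K] in
theorem co_eq {γ : K} {S : Set K} {c : Fin 4 → ℝ} (h : Xp (gf σ γ S) c) : co σ γ S = c :=
  xp_uniq (Classical.epsilon_spec (p := Xp (gf σ γ S)) ⟨c, h⟩) h

omit [CharZero K] in
/-- Admissibility from explicit sums. -/
theorem adm_of {γ : K} {S : Set K} (hγ : γ ≠ 0) (per : ∀ x, x + γ ∈ S ↔ x ∈ S) {G : ℝ → ℝ}
    {c : Fin 4 → ℝ} (hG : Xp G c)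
    (hs : ∀ t : ℝ, 0 < t → HasSum (fun d : lines γ S => Real.exp (-t * lv σ γ d.1)) (G t)) :
    Adm σ γ S ∧ co σ γ S = c := by
  have h : Xp (gf σ γ S) c := xp_congr (fun t ht => ((hs t ht).tsum_eq).symm) hG
  exact ⟨⟨hγ, per, fun t ht => (hs t ht).summable, c, h⟩, co_eq h⟩

omit [CharZero K] in
theorem hasSum_gf {γ : K} {S : Set K} (h : Adm σ γ S) {t : ℝ} (ht : 0 < t) :
    HasSum (fun d : lines γ S => Real.exp (-t * lv σ γ d.1)) (gf σ γ S t) :=
  (h.sum t ht).hasSum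

omit [CharZero K] in
theorem nn_eq (γ : K) (S : Set K) (w : ℂ) : nn σ γ S w = sh (co σ γ S) (w / σ γ).im 3 := by
  simp only [nn, sh, Matrix.cons_val]

omit [CharZero K] in
theorem disj {γ : K} {S T : Set K} (hS : ∀ x, x + γ ∈ S ↔ x ∈ S) (h : Disjoint S T) :
    Disjoint (lines γ S) (lines γ T) := by
  rw [Set.disjoint_left]
  rintro d hd ⟨x, hx, rfl⟩
  exact Set.disjoint_left.1 h ((mk_mem hS x).1 hd) hx

omit [CharZero K] in
theorem hasSum_union {γ : K} {S T : Set K} (hS : ∀ x, x + γ ∈ S ↔ x ∈ S) (h : Disjoint S T)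
    (f : Ln γ → ℝ) {a b : ℝ} (ha : HasSum (fun d : lines γ S => f d.1) a)
    (hb : HasSum (fun d : lines γ T => f d.1) b) :
    HasSum (fun d : lines γ (S ∪ T) => f d.1) (a + b) := by
  have e : lines γ (S ∪ T) = lines γ S ∪ lines γ T := Set.image_union _ _ _
  rw [e]
  exact HasSum.add_disjoint (disj hS h) ha hb

omit [CharZero K] in
theorem empty (γ : K) (hγ : γ ≠ 0) : Adm σ γ ∅ ∧ co σ γ ∅ = 0 := by
  refine adm_of hγ (by simp) xp_zero fun t _ => ?_
  have : IsEmpty (lines γ (∅ : Set K)) := ⟨fun d => by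
    obtain ⟨_, x, hx, _⟩ := d
    exact hx⟩
  exact hasSum_empty

omit [CharZero K] in
theorem union {γ : K} {S T : Set K} (hS : Adm σ γ S) (hT : Adm σ γ T) (h : Disjoint S T) :
    Adm σ γ (S ∪ T) ∧ co σ γ (S ∪ T) = co σ γ S + co σ γ T := by
  refine adm_of hS.ne (fun x => ?_) (xp_add (xp_co hS) (xp_co hT)) fun t ht => ?_
  · rw [Set.mem_union, Set.mem_union, hS.per, hT.per]
  · exact hasSum_union hS.per h (fun d => Real.exp (-t * lv σ γ d)) (hasSum_gf hS ht)
      (hasSum_gf hT ht)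

omit [CharZero K] in
theorem sdiff {γ : K} {S T : Set K} (hS : Adm σ γ S) (hT : Adm σ γ T) (h : T ⊆ S) :
    Adm σ γ (S \ T) := by
  have per : ∀ x, x + γ ∈ S \ T ↔ x ∈ S \ T := fun x => by
    rw [Set.mem_sdiff, Set.mem_sdiff, hS.per, hT.per]
  refine (adm_of hS.ne per (xp_sub (xp_co hS) (xp_co hT)) fun t ht => ?_).1
  have hsub : lines γ (S \ T) ⊆ lines γ S := Set.image_mono Set.sdiff_subset
  have h0 := (hS.sum t ht).comp_injective (Set.inclusion_injective hsub)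
  have h1 : Summable fun d : lines γ (S \ T) => Real.exp (-t * lv σ γ d.1) :=
    h0.congr fun _ => rfl
  have hd : Disjoint (S \ T) T := Set.disjoint_sdiff_left
  have h2 := hasSum_union (γ := γ) (S := S \ T) (T := T) per hd
    (fun d => Real.exp (-t * lv σ γ d)) h1.hasSum (hasSum_gf hT ht)
  have e : S \ T ∪ T = S := Set.sdiff_union_of_subset h
  rw [e] at h2
  have h3 := h2.unique (hasSum_gf hS ht)
  rw [← h3, add_sub_cancel_right]
  exact h1.hasSum

omit [CharZero K] in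
theorem add {γ : K} {S : Set K} (u : K) (hS : Adm σ γ S) : Adm σ γ {x | x - u ∈ S} ∧
    ∀ w, nn σ γ {x | x - u ∈ S} (w + σ u) = nn σ γ S w := by
  have per : ∀ x, x + γ ∈ {x | x - u ∈ S} ↔ x ∈ {x | x - u ∈ S} := fun x => by
    simp only [Set.mem_ofPred_eq]
    rw [show x + γ - u = x - u + γ by ring, hS.per]
  obtain ⟨e, he⟩ := transfer (σ := σ) (S := {x | x - u ∈ S}) hS.ne
    (fun d : lines γ S => d.1.out + u)
    (fun d => by simpa using out_mem hS.per d)
    (fun i j k hk => out_inj i j k (by linear_combination hk))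
    (fun x hx => by
      obtain ⟨i, k, hk⟩ := out_surj (γ := γ) (x - u) hx
      exact ⟨i, k, by linear_combination hk⟩)
  have key := adm_of (σ := σ) hS.ne per (xp_exp (xp_co hS) (-(σ u / σ γ).im)) fun t ht => by
    rw [← e.hasSum_iff]
    refine ((hasSum_gf hS ht).mul_left (Real.exp (t * -(σ u / σ γ).im))).congr_fun fun d => ?_
    simp only [Function.comp]
    rw [he, ← Real.exp_add, map_add, add_div, Complex.add_im]
    congr 1
    unfold lv
    ring
  refine ⟨key.1, fun w => ?_⟩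
  rw [nn_eq, nn_eq, key.2, add_div, Complex.add_im]
  simp only [sh, Matrix.cons_val_zero, Matrix.cons_val_one, Matrix.cons_val]
  ring

omit [CharZero K] in
theorem mul {γ : K} {S : Set K} {u : K} (hu : u ≠ 0) (hS : Adm σ γ S) :
    Adm σ (u * γ) {x | u⁻¹ * x ∈ S} ∧ co σ (u * γ) {x | u⁻¹ * x ∈ S} = co σ γ S := by
  have per : ∀ x, x + u * γ ∈ {x | u⁻¹ * x ∈ S} ↔ x ∈ {x | u⁻¹ * x ∈ S} := fun x => by
    simp only [Set.mem_ofPred_eq]
    rw [mul_add, inv_mul_cancel_left₀ hu, hS.per]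
  obtain ⟨e, he⟩ := transfer (σ := σ) (S := {x | u⁻¹ * x ∈ S}) (mul_ne_zero hu hS.ne)
    (fun d : lines γ S => u * d.1.out)
    (fun d => by
      simp only [Set.mem_ofPred_eq]
      rw [inv_mul_cancel_left₀ hu]
      exact out_mem hS.per d)
    (fun i j k hk => out_inj i j k (mul_left_cancel₀ hu (by linear_combination hk)))
    (fun x hx => by
      obtain ⟨i, k, hk⟩ := out_surj (γ := γ) (u⁻¹ * x) hx
      refine ⟨i, k, ?_⟩
      rw [← mul_inv_cancel_left₀ hu x, hk]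
      ring)
  refine adm_of (σ := σ) (mul_ne_zero hu hS.ne) per (xp_co hS) fun t ht => ?_
  rw [← e.hasSum_iff]
  refine (hasSum_gf hS ht).congr_fun fun d => ?_
  simp only [Function.comp]
  rw [he, map_mul, map_mul, mul_div_mul_left _ _ ((map_ne_zero σ).2 hu)]
  rfl

theorem nsmul {γ : K} {S : Set K} {N : ℕ} (hN : N ≠ 0) (hS : Adm σ γ S) :
    Adm σ (N * γ) S ∧ ∀ w, nn σ (N * γ) S w = nn σ γ S w := by
  have hN' : (N : K) ≠ 0 := Nat.cast_ne_zero.2 hN
  have hNR : (0 : ℝ) < N := Nat.cast_pos.2 (Nat.pos_of_ne_zero hN)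
  have hNZ : (0 : ℤ) < N := Nat.cast_pos.2 (Nat.pos_of_ne_zero hN)
  have him : ∀ z : ℂ, (z / σ (N * γ)).im = (z / σ γ).im / N := fun z => by
    rw [map_mul, map_natCast, mul_comm, ← div_div, Complex.div_natCast_im]
  have per : ∀ x, x + N * γ ∈ S ↔ x ∈ S := fun x => by
    simpa using per_int hS.per x (N : ℤ)
  obtain ⟨e, he⟩ := transfer (σ := σ) (S := S) (mul_ne_zero hN' hS.ne)
    (fun p : lines γ S × Fin N => p.1.1.out + ((p.2 : ℕ) : ℤ) * γ)
    (fun p => (per_int hS.per _ _).2 (out_mem hS.per p.1))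
    (fun p q k hk => by
      have h1 : p.1 = q.1 := out_inj p.1 q.1 (((p.2 : ℕ) : ℤ) - ((q.2 : ℕ) : ℤ) + k * N)
        (by push_cast at hk ⊢; linear_combination hk)
      rw [h1] at hk
      have h2 : ((((q.2 : ℕ) : ℤ) - ((p.2 : ℕ) : ℤ) - k * N : ℤ) : K) * γ = 0 := by
        push_cast at hk ⊢
        linear_combination hk
      have h3 : ((q.2 : ℕ) : ℤ) - ((p.2 : ℕ) : ℤ) - k * N = 0 := by
        rcases mul_eq_zero.1 h2 with h | h
        · exact_mod_cast h
        · exact absurd h hS.ne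
      have hp : ((p.2 : ℕ) : ℤ) < N := by exact_mod_cast p.2.2
      have hq : ((q.2 : ℕ) : ℤ) < N := by exact_mod_cast q.2.2
      have hp0 : (0 : ℤ) ≤ ((p.2 : ℕ) : ℤ) := Int.natCast_nonneg _
      have hq0 : (0 : ℤ) ≤ ((q.2 : ℕ) : ℤ) := Int.natCast_nonneg _
      have hk0 : k = 0 := by
        rcases lt_trichotomy k 0 with h | h | h
        · nlinarith
        · exact h
        · nlinarith
      refine Prod.ext h1 (Fin.ext ?_)
      rw [hk0] at h3
      omega)
    (fun x hx => by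
      obtain ⟨i, k, hk⟩ := out_surj (γ := γ) x hx
      have h0 := Int.emod_nonneg k hNZ.ne'
      have h1 := Int.emod_lt_of_pos k hNZ
      refine ⟨(i, ⟨(k % N).toNat, by omega⟩), k / N, ?_⟩
      have h2 : (k : K) = ((k % N : ℤ) : K) + (N : K) * ((k / N : ℤ) : K) := by
        exact_mod_cast (Int.emod_add_mul_ediv k N).symm
      simp only [Int.toNat_of_nonneg h0]
      rw [hk, h2]
      ring)
  have key := adm_of (σ := σ) (mul_ne_zero hN' hS.ne) per (xp_scale (xp_co hS) N hNR)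
    fun t ht => by
      rw [← e.hasSum_iff]
      have h1 := hasSum_gf hS (div_pos ht hNR)
      have h2 : HasSum (fun _ : Fin N => (1 : ℝ)) (N : ℝ) := by
        simpa using hasSum_fintype (fun _ : Fin N => (1 : ℝ))
      refine (h1.mul h2 (h1.summable.mul_of_nonneg h2.summable (fun _ => (Real.exp_pos _).le)
        fun _ => zero_le_one)).congr_fun fun p => ?_
      simp only [Function.comp]
      have h0 : σ γ ≠ 0 := (map_ne_zero σ).2 hS.ne
      rw [he, him, mul_one, map_add, map_mul, map_intCast, add_div, mul_div_assoc, div_self h0]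
      congr 1
      unfold lv
      simp only [mul_one, Complex.add_im, Complex.intCast_im, add_zero]
      ring
  refine ⟨key.1, fun w => ?_⟩
  rw [nn_eq, nn_eq, key.2, him]
  simp only [sh, Matrix.cons_val_zero, Matrix.cons_val_one, Matrix.cons_val]
  field_simp

omit [CharZero K] in
theorem fin {γ : K} {S : Set K} (hγ : γ ≠ 0) (per : ∀ x, x + γ ∈ S ↔ x ∈ S)
    (h : (lines γ S).Finite) : Adm σ γ S ∧ Adm σ (-γ) S ∧ co σ γ S 0 = 0 ∧ co σ γ S 1 = 0 ∧
    (∀ w, nn σ γ S w = ∑ d ∈ h.toFinset, ((w / σ γ).im - lv σ γ d)) ∧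
    ∀ w, nn σ (-γ) S w = -nn σ γ S w := by
  have hsum : ∀ f : Ln γ → ℝ, HasSum (fun d : lines γ S => f d.1) (∑ d ∈ h.toFinset, f d) :=
    fun f => by
      have := Finset.hasSum h.toFinset f
      have h2 := (hasSum_subtype_iff_indicator (s := (h.toFinset : Set (Ln γ))) (f := f)).1 this
      rw [h.coe_toFinset] at h2
      exact (hasSum_subtype_iff_indicator (s := lines γ S) (f := f)).2 h2
  have k1 := adm_of (σ := σ) hγ per (xp_sum h.toFinset fun d => -lv σ γ d) fun t _ => by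
    refine (hsum fun d => Real.exp (t * -lv σ γ d)).congr_fun fun d => ?_
    rw [neg_mul, mul_neg]
  have per' : ∀ x, x + -γ ∈ S ↔ x ∈ S := fun x => by
    rw [← per (x + -γ), neg_add_cancel_right]
  obtain ⟨e, he⟩ := transfer (σ := σ) (S := S) (neg_ne_zero.2 hγ)
    (fun d : lines γ S => d.1.out) (fun d => out_mem per d)
    (fun i j k hk => out_inj i j (-k) (by push_cast; linear_combination hk))
    (fun x hx => by
      obtain ⟨i, k, hk⟩ := out_surj (γ := γ) x hx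
      exact ⟨i, -k, by push_cast; linear_combination hk⟩)
  have k2 := adm_of (σ := σ) (neg_ne_zero.2 hγ) per' (xp_sum h.toFinset fun d => lv σ γ d)
    fun t _ => by
      rw [← e.hasSum_iff]
      refine (hsum fun d => Real.exp (t * lv σ γ d)).congr_fun fun d => ?_
      simp only [Function.comp]
      rw [he, map_neg, div_neg, Complex.neg_im, neg_mul_neg]
      rfl
  refine ⟨k1.1, k2.1, by rw [k1.2]; rfl, by rw [k1.2]; rfl, fun w => ?_, fun w => ?_⟩
  · rw [nn_eq, k1.2]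
    simp only [sh, Matrix.cons_val_zero, Matrix.cons_val_one, Matrix.cons_val]
    rw [Finset.sum_sub_distrib, Finset.sum_neg_distrib, Finset.sum_const, nsmul_eq_mul]
    ring
  · rw [nn_eq, nn_eq, k1.2, k2.2, map_neg, div_neg, Complex.neg_im]
    simp only [sh, Matrix.cons_val_zero, Matrix.cons_val_one, Matrix.cons_val]
    rw [Finset.sum_neg_distrib]
    ring

end LpBAux

variable {K : Type} [Field K] [CharZero K] {ρ : K →+* ℝ} {σ : K →+* ℂ}

theorem lpB (σ : K →+* ℂ) : LpB σ where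
  xp := fun _ _ h => LpBAux.xp_co h
  xp_uniq := fun _ _ _ h h' => LpBAux.xp_uniq h h'
  empty := LpBAux.empty
  union := fun _ _ _ hS hT h => LpBAux.union hS hT h
  sdiff := fun _ _ _ hS hT h => LpBAux.sdiff hS hT h
  add := fun _ _ u hS => LpBAux.add u hS
  mul := fun _ _ _ hu hS => LpBAux.mul hu hS
  nsmul := fun _ _ _ hN hS => LpBAux.nsmul hN hS
  fin := fun _ _ hγ per h => LpBAux.fin hγ per h
  shift := fun γ S w hS => ⟨LpBAux.sh (co σ γ S) (w / σ γ).im, (LpBAux.nn_eq γ S w).symm,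
    LpBAux.xp_exp (LpBAux.xp_co hS) _⟩

end Pool.Agent.CU
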