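import Pool.Agent.Lib.MP_ca56d1_nt.CU.U.St

/-! The normalising exponent of the elliptic gamma value. -/

namespace Pool.Agent.CU

open Complex Filter Topology MeasureTheory Pool.Agent.RM
open scoped Real Classical

variable {K : Type} [Field K] [CharZero K] {ρ : K →+* ℝ} {σ : K →+* ℂ}

namespace N3Aux

/-- The representative modulo one that is positive and at most one. -/
def md (r : ℚ) : ℚ := r - ⌈r⌉ + 1

theorem md_pos (r : ℚ) : 0 < md r := by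
  have := Int.ceil_lt_add_one r
  unfold md
  linarith

theorem md_le (r : ℚ) : md r ≤ 1 := by
  have := Int.le_ceil r
  unfold md
  linarith

theorem md_add (r : ℚ) (n : ℤ) : md (r + n) = md r := by
  unfold md
  rw [Int.ceil_add_intCast]
  push_cast
  ring

theorem mi (a : K →ₗ[ℚ] ℚ) (i : ℤ) (x : K) : a (i * x) = i * a x := by
  rw [← zsmul_eq_mul, map_zsmul, zsmul_eq_mul]

theorem mn (a : K →ₗ[ℚ] ℚ) (i : ℕ) (x : K) : a (i * x) = i * a x := by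
  rw [← nsmul_eq_mul, map_nsmul, nsmul_eq_mul]

/-- The coset of `g` modulo the span of `u, v, γ`. -/
def Sp (u v γ g : K) : Set K := {x | ∃ i j k : ℤ, x = g + i * u + j * v + k * γ}

omit [CharZero K] in
theorem sp_swap (u v γ g : K) : Sp v u (-γ) g = Sp u v γ g := by
  ext x
  constructor <;> rintro ⟨i, j, k, rfl⟩ <;> exact ⟨j, i, -k, by push_cast; ring⟩

/-- A dual pair of vectors for two functionals. -/
structure Du (σ : K →+* ℂ) (γ u v : K) (a b : K →ₗ[ℚ] ℚ) (P Q : ℝ) : Prop where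
  ne : γ ≠ 0
  ag : a γ = 0
  bg : b γ = 0
  au : a u = 1
  bu : b u = 0
  av : a v = 0
  bv : b v = 1
  hP : 0 < P
  hQ : 0 < Q
  ht : ∀ x, ht σ γ x = P * a x - Q * b x

theorem Du.swap {γ u v : K} {a b : K →ₗ[ℚ] ℚ} {P Q : ℝ} (h : Du σ γ u v a b P Q) :
    Du σ (-γ) v u b a Q P :=
  ⟨neg_ne_zero.2 h.ne, by rw [map_neg, h.bg, neg_zero], by rw [map_neg, h.ag, neg_zero], h.bv,
    h.av, h.bu, h.au, h.hQ, h.hP, fun x => by
      have := h.ht x
      rw [CU.ht] at this ⊢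
      rw [map_neg, div_neg, neg_im, this, neg_sub]⟩

theorem cone (hC : ConeSt σ) {γ u v : K} {a b : K →ₗ[ℚ] ℚ} {P Q : ℝ} (h : Du σ γ u v a b P Q)
    (g : K) : Adm σ γ (Sp u v γ g ∩ (hs a 0 \ hs b 0)) ∧
      co σ γ (Sp u v γ g ∩ (hs a 0 \ hs b 0)) 3 =
        b23 (P * md (a g) + Q * (1 - md (b g))) P Q := by
  obtain ⟨x, hx⟩ : ∃ x : K, x = g + ((1 - ⌈a g⌉ : ℤ) : K) * u + ((-⌈b g⌉ : ℤ) : K) * v := ⟨_, rfl⟩
  have ha : a x = md (a g) := by
    rw [hx, map_add, map_add, mi, mi, h.au, h.av, md]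
    push_cast
    ring
  have hb : b x = md (b g) - 1 := by
    rw [hx, map_add, map_add, mi, mi, h.bu, h.bv, md]
    push_cast
    ring
  have e1 : CU.ht σ γ u = P := by rw [h.ht, h.au, h.bu]; simp
  have e2 : CU.ht σ γ (-v) = Q := by rw [h.ht, map_neg, map_neg, h.av, h.bv]; simp
  have e3 : CU.ht σ γ x = P * md (a g) + Q * (1 - md (b g)) := by
    rw [h.ht, ha, hb]
    push_cast
    ring
  have hc := hC γ u (-v) x h.ne (e1 ▸ h.hP) (e2 ▸ h.hQ) fun i j k e => by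
    have h1 := congrArg a e
    have h2 := congrArg b e
    rw [map_add, map_add, mi, mi, mi, map_neg, map_zero] at h1 h2
    rw [h.au, h.av, h.ag] at h1
    rw [h.bu, h.bv, h.bg] at h2
    obtain rfl : i = 0 := by simpa using h1
    obtain rfl : j = 0 := by simpa using h2
    exact ⟨rfl, rfl, by simpa [h.ne] using e⟩
  rw [e1, e2, e3] at hc
  have hS : Sp u v γ g ∩ (hs a 0 \ hs b 0) =
      {z | ∃ (i j : ℕ) (k : ℤ), z = x + i * u + j * (-v) + k * γ} := by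
    ext z
    constructor
    · rintro ⟨⟨i, j, k, rfl⟩, h1, h2⟩
      simp only [hs, Set.mem_ofPred_eq, map_add, mi, h.au, h.av, h.ag, h.bu, h.bv, h.bg, mul_one,
        mul_zero, add_zero, not_lt] at h1 h2
      have h3 : 0 < ⌈a g⌉ + i := by rwa [← Int.ceil_add_intCast, Int.ceil_pos]
      have h4 : ⌈b g⌉ + j ≤ 0 := by rwa [← Int.ceil_add_intCast, Int.ceil_le, Int.cast_zero]
      obtain ⟨i', hi⟩ := Int.eq_ofNat_of_zero_le (show 0 ≤ ⌈a g⌉ + i - 1 by omega)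
      obtain ⟨j', hj⟩ := Int.eq_ofNat_of_zero_le (show 0 ≤ -(⌈b g⌉ + j) by omega)
      refine ⟨i', j', k, ?_⟩
      rw [hx, ← Int.cast_natCast (R := K) i', ← Int.cast_natCast (R := K) j', ← hi, ← hj]
      push_cast
      ring
    · rintro ⟨i, j, k, rfl⟩
      refine ⟨⟨1 - ⌈a g⌉ + i, -⌈b g⌉ - j, k, by rw [hx]; push_cast; ring⟩, ?_, ?_⟩
      · simp only [hs, Set.mem_ofPred_eq, map_add, mi, mn, map_neg, h.au, h.av, h.ag, ha, mul_one,
          mul_zero, add_zero, neg_zero]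
        exact add_pos_of_pos_of_nonneg (md_pos _) (Nat.cast_nonneg _)
      · simp only [hs, Set.mem_ofPred_eq, map_add, mi, mn, map_neg, h.bu, h.bv, h.bg, hb, mul_zero,
          add_zero, not_lt]
        have := md_le (b g)
        have : (0 : ℚ) ≤ j := Nat.cast_nonneg _
        linarith
  rwa [hS]

omit [CharZero K] in
theorem union (hP : LpSt σ) {γ : K} (hγ : γ ≠ 0) {ι : Type} (S : ι → Set K)
    (h1 : ∀ z, Adm σ γ (S z)) (h2 : ∀ z z' x, x ∈ S z → x ∈ S z' → z = z') (t : Finset ι) :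
    Adm σ γ (⋃ z ∈ t, S z) ∧ co σ γ (⋃ z ∈ t, S z) = ∑ z ∈ t, co σ γ (S z) := by
  induction t using Finset.induction_on with
  | empty => simpa using ⟨(hP.empty γ hγ).1, (hP.empty γ hγ).2.2⟩
  | insert z t hz ih =>
    have := hP.union γ _ _ (h1 z) ih.1 (Set.disjoint_left.2 fun x hx hx' => by
      obtain ⟨z', h3, h4⟩ := Set.mem_iUnion₂.1 hx'
      exact hz (h2 z z' x hx h4 ▸ h3))
    rw [Finset.set_biUnion_insert, Finset.sum_insert hz, this.2.2, ih.2]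
    exact ⟨this.1, rfl⟩

theorem wedge (hP : LpSt σ) (hC : ConeSt σ) {γ u v : K} {a b : K →ₗ[ℚ] ℚ} {P Q : ℝ}
    (h : Du σ γ u v a b P Q) {ι : Type} [Fintype ι] (g : ι → K) {Λ : Set K}
    (h1 : ∀ x, x ∈ Λ ↔ ∃ z, x ∈ Sp u v γ (g z))
    (h2 : ∀ z z' x, x ∈ Sp u v γ (g z) → x ∈ Sp u v γ (g z') → z = z') (N : ℕ) (hN : N ≠ 0) :
    nn σ (N * γ) (Λ ∩ (hs a 0 \ hs b 0)) 0 =
      ∑ z, b23 (P * md (a (g z)) + Q * (1 - md (b (g z)))) P Q := by
  have h3 := union hP h.ne (fun z => Sp u v γ (g z) ∩ (hs a 0 \ hs b 0))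
    (fun z => (cone hC h (g z)).1) (fun z z' x h3 h4 => h2 z z' x h3.1 h4.1) Finset.univ
  have h4 : (⋃ z ∈ (Finset.univ : Finset ι), Sp u v γ (g z) ∩ (hs a 0 \ hs b 0)) =
      Λ ∩ (hs a 0 \ hs b 0) := by
    ext x
    simp only [Finset.mem_univ, Set.iUnion_true, Set.mem_iUnion, Set.mem_inter_iff, h1,
      exists_and_right]
  rw [h4] at h3
  rw [(hP.nsmul γ _ N hN h3.1).2.2, nn, h3.2]
  simp only [zero_div, zero_im, mul_zero, add_zero, ne_eq, OfNat.ofNat_ne_zero, not_false_eq_true,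
    zero_pow, Finset.sum_apply]
  exact Finset.sum_congr rfl fun z _ => (cone hC h (g z)).2

/-- A third of the third Bernoulli polynomial. -/
def bt (x : ℚ) : ℚ := (x - 1 / 2) ^ 3 / 3 - (x - 1 / 2) / 12

/-- The mixed term. -/
def mx (x z : ℚ) : ℚ := (x - 1 / 2) ^ 2 * (z - 1 / 2) - (z - 1 / 2) / 12

theorem alg {P Q : ℝ} (hP : P ≠ 0) (hQ : Q ≠ 0) (x z : ℚ) :
    b23 (P * x + Q * (1 - z)) P Q - b23 (Q * z + P * (1 - x)) Q P =
      Q ^ 2 / P * bt z - P ^ 2 / Q * bt x + P * mx x z - Q * mx z x := by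
  unfold b23 bt mx
  push_cast
  field_simp
  ring

theorem sum_eq {s : ℕ} [NeZero s] (f : ℚ → ℚ) (hf : ∀ r (n : ℤ), f (r + n) = f r) (A : ℚ)
    (d c i : ℤ) (hc : (i : ZMod s) * c = 1) :
    ∑ z : ZMod s, f ((A + (d + c * z.val : ℤ)) / s) = ∑ z : ZMod s, f ((A + z.val) / s) := by
  have hs : (s : ℚ) ≠ 0 := Nat.cast_ne_zero.2 (NeZero.ne s)
  refine Fintype.sum_bijective (fun z : ZMod s => (d : ZMod s) + c * z)
    (Finite.injective_iff_bijective.1 fun z z' e => ?_) _ _ fun z => ?_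
  · rw [← one_mul z, ← one_mul z', ← hc, mul_assoc, mul_assoc, add_left_cancel e]
  · have h1 : (d : ZMod s) + c * z = ((d + c * z.val : ℤ) : ZMod s) := by
      push_cast
      rw [ZMod.natCast_zmod_val]
    rw [h1]
    generalize d + c * z.val = n
    rw [← hf ((A + ((n : ZMod s).val : ℚ)) / s) (n / s), ← Int.cast_natCast (R := ℚ) (ZMod.val _),
      ZMod.val_intCast]
    refine congrArg f ?_
    have h2 : (n : ℚ) = (n % s : ℤ) + s * (n / s : ℤ) := by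
      exact_mod_cast (Int.emod_add_mul_ediv n s).symm
    rw [h2]
    field_simp
    ring

theorem hs_smul (a : K →ₗ[ℚ] ℚ) {q : ℚ} (hq : 0 < q) : hs (q • a) 0 = hs a 0 :=
  Set.ext fun _ => mul_pos_iff_of_pos_left hq

theorem tw_smul (a : K →ₗ[ℚ] ℚ) (q : ℚ) (u : K) : tw (q • a) u = q • tw a u := rfl

theorem tw_ne {a : K →ₗ[ℚ] ℚ} {u : K} (ha : a ≠ 0) (hu : ¬ ∃ q : ℚ, u = q) :
    ¬ ∃ q : ℚ, tw a u = q • a := by
  rintro ⟨q, hq⟩
  have h0 : u - q ≠ 0 := fun e => hu ⟨q, sub_eq_zero.1 e⟩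
  refine ha (LinearMap.ext fun z => ?_)
  have h1 : a (u * ((u - q)⁻¹ * z)) = q • a ((u - q)⁻¹ * z) := LinearMap.congr_fun hq _
  rwa [← map_smul, Rat.smul_def, ← sub_eq_zero, ← map_sub, ← sub_mul,
    mul_inv_cancel_left₀ h0] at h1

theorem fn_smul {a : K →ₗ[ℚ] ℚ} (h : Fn ρ σ a) {q : ℚ} (hq : 0 < q) : Fn ρ σ (q • a) := by
  obtain ⟨r, c, h1, h2⟩ := h
  refine ⟨q * r, ((q : ℝ) : ℂ) * c, mul_pos (Rat.cast_pos.2 hq) h1, fun x => ?_⟩
  rw [LinearMap.smul_apply, smul_eq_mul, Rat.cast_mul, h2, mul_assoc ((q : ℝ) : ℂ), re_ofReal_mul]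
  ring

theorem ratio (hB : BasSt ρ σ) {ε γ : K} {a : K →ₗ[ℚ] ℚ} (hε : Eps ρ σ ε) (ha : Fn ρ σ a)
    {c₁ c₂ : ℝ} (h : ∀ x, (σ x / σ γ).im = c₁ * a x + c₂ * tw a ε⁻¹ x) : c₂ = -c₁ * ρ ε := by
  obtain ⟨r, c, h1, h2⟩ := ha
  have h0 : ρ ε ≠ 0 := (one_pos.trans hε.one_lt).ne'
  have h3 := (hB.uniq (c₁ * r + c₂ * (r * (ρ ε)⁻¹))
    (c₁ * c + c₂ * (c * σ ε⁻¹) + I / σ γ) fun x => by
      have h4 := h x
      have h5 : tw a ε⁻¹ x = a (ε⁻¹ * x) := rfl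
      rw [h5, h2, h2, map_mul, map_mul, map_inv₀ ρ] at h4
      have h6 : I / σ γ * σ x = I * (σ x / σ γ) := by ring
      rw [add_mul (_ + _), add_mul (_ * c), add_re, add_re, h6, I_mul_re, h4, mul_assoc _ c,
        mul_assoc (c₂ : ℂ), re_ofReal_mul, re_ofReal_mul, mul_assoc c]
      ring).1
  have h7 : r * (c₁ * ρ ε + c₂) = 0 := by
    rw [← mul_zero (ρ ε), ← h3]
    field_simp
  have := (mul_eq_zero.1 h7).resolve_left h1.ne'
  linarith

theorem cubic (hB : BasSt ρ σ) {ε : K} (hε : Eps ρ σ ε) :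
    ∃ t t' : ℚ, ρ ε ^ 3 = t * ρ ε ^ 2 - t' * ρ ε + 1 := by
  obtain ⟨t, t', h⟩ := hB.cub ε
  refine ⟨t, t', ?_⟩
  have h1 := congrArg ρ h
  rwa [map_add, map_sub, map_mul, map_mul, map_pow, map_pow, map_ratCast, map_ratCast, map_ratCast,
    hB.norm, hε.norm] at h1

theorem main (hB : BasSt ρ σ) (h2 : Bas2 ρ σ) (hP : LpSt σ) (hC : ConeSt σ) {ε y γ : K}
    {L : Submodule ℤ K} {a : K →ₗ[ℚ] ℚ} (hε : Eps ρ σ ε) (hL : ELat ε L) (hy : (ε - 1) * y ∈ L)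
    (ha : Fn ρ σ a) (hγ : γ ∈ L) (ho : Ori σ γ a (tw a ε⁻¹)) (hi : ∀ x ∈ L, ∃ n : ℤ, a x = n)
    (h1 : ∃ x ∈ L, a x = 1) : ∃ k : K,
      nn σ γ (coset L y ∩ (hs a 0 \ hs (tw a ε⁻¹) 0)) 0 -
        nn σ (-γ) (coset L y ∩ (hs (tw a ε⁻¹) 0 \ hs a 0)) 0 = (σ k).im := by
  have hρ : 0 < ρ ε := one_pos.trans hε.one_lt
  have hε0 : ε ≠ 0 := fun e => by simp [e] at hρ
  have htw : ∀ x, tw a ε⁻¹ x = a (ε⁻¹ * x) := fun _ => rfl
  have hi' : ∀ x ∈ L, ∃ n : ℤ, tw a ε⁻¹ x = n := fun x hx =>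
    hi (ε⁻¹ * x) ((hL.stab _).1 (by rwa [mul_inv_cancel_left₀ hε0]))
  obtain ⟨α, β, g, s, hs0, hog, aα, aβ, bβ, hbas⟩ := hB.basis a (tw a ε⁻¹) L ha
    (hB.fn_tw a _ ha (by rw [map_inv₀]; exact inv_pos.2 hρ))
    (tw_ne (h2.fn_ne a ha) fun ⟨q, hq⟩ => hB.irr ε hε ⟨q⁻¹, by
      rw [Rat.cast_inv, ← hq, inv_inv]⟩) (h2.lt ε L hL) hi hi' h1
  obtain ⟨c₁, c₂, hc₁, hc₂, him⟩ := hog.im
  have hκ := ratio hB hε ha him
  obtain ⟨d, hd⟩ := hi' _ hy
  rw [htw, sub_one_mul, mul_sub, inv_mul_cancel_left₀ hε0, map_sub, ← htw] at hd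
  obtain ⟨x₁, hx₁, hx₂⟩ : ∃ x ∈ L, tw a ε⁻¹ x = 1 := by
    obtain ⟨x, h3, h4⟩ := h1
    exact ⟨ε * x, (hL.stab x).2 h3, by rw [htw, inv_mul_cancel_left₀ hε0, h4]⟩
  have ag := hog.ka
  have bg := hog.kb
  obtain ⟨q, hq, hqγ⟩ := h2.pos g γ _ _ hog ho
  have aγ := ho.ka
  have bγ := ho.kb
  have hg0 := hog.ne
  clear htw ho hog
  generalize tw a ε⁻¹ = b at *
  obtain ⟨c, hc⟩ := hi' α ((hbas α).2 ⟨1, 0, 0, by simp⟩)
  have hsq : (0 : ℚ) < s := Nat.cast_pos.2 (Nat.pos_of_ne_zero hs0)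
  have hsr : (0 : ℝ) < s := Nat.cast_pos.2 (Nat.pos_of_ne_zero hs0)
  have : NeZero s := ⟨hs0⟩
  obtain ⟨N, hN, rfl⟩ : ∃ N : ℕ, N ≠ 0 ∧ γ = N * g := by
    obtain ⟨i, j, k, e⟩ := (hbas γ).1 hγ
    rw [e, map_add, map_add, mi, mi, mi] at aγ bγ
    rw [aα, aβ, ag] at aγ
    obtain rfl : i = 0 := by simpa using aγ
    rw [bβ, bg] at bγ
    obtain rfl : j = 0 := by simpa [hs0] using bγ
    rw [Int.cast_zero, zero_mul, zero_mul, zero_add, zero_add] at e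
    have h3 : q = k := by exact_mod_cast mul_right_cancel₀ hg0 (hqγ.symm.trans e)
    have h4 : 0 < k := by exact_mod_cast h3 ▸ hq
    lift k to ℕ using h4.le
    exact ⟨k, by omega, by rw [e, Int.cast_natCast]⟩
  obtain ⟨i₁, hi₁⟩ : ∃ i : ℤ, (i : ZMod s) * c = 1 := by
    obtain ⟨i, j, k, rfl⟩ := (hbas x₁).1 hx₁
    rw [map_add, map_add, mi, mi, mi, hc, bβ, bg, mul_zero, add_zero] at hx₂
    have h3 : i * c + j * s = 1 := by exact_mod_cast hx₂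
    exact ⟨i, by simpa using congrArg (Int.cast : ℤ → ZMod s) h3⟩
  have hD : Du σ g (s * α - c * β) β ((s : ℚ)⁻¹ • a) ((s : ℚ)⁻¹ • b) (c₁ * s) (-c₂ * s) := by
    refine ⟨hg0, by simp [ag], by simp [bg], ?_, ?_, by simp [aβ], by simp [bβ, hs0],
      mul_pos hc₁ hsr, mul_pos (neg_pos.2 hc₂) hsr, fun x => ?_⟩
    · simp [mi, mn, aα, aβ, hs0]
    · rw [LinearMap.smul_apply, map_sub, mi, mn, hc, bβ, mul_comm, sub_self, smul_zero]
    · rw [CU.ht, him]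
      simp only [LinearMap.smul_apply, smul_eq_mul]
      push_cast
      field_simp
      ring
  have k1 : ∀ x, x ∈ coset L y ↔
      ∃ z : ZMod s, x ∈ Sp (s * α - c * β) β g (y + (z.val : K) * α) := by
    intro x
    refine (hbas _).trans ⟨?_, ?_⟩
    · rintro ⟨i, j, k, e⟩
      refine ⟨(i : ZMod s), i / s, j + c * (i / s), k, ?_⟩
      have h3 : (i : K) = (i % s : ℤ) + s * (i / s : ℤ) := by
        exact_mod_cast (Int.emod_add_mul_ediv i s).symm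
      rw [← Int.cast_natCast (R := K) (ZMod.val _), ZMod.val_intCast, Int.cast_add, Int.cast_mul]
      linear_combination e + α * h3
    · rintro ⟨z, i, j, k, rfl⟩
      exact ⟨z.val + i * s, j - c * i, k, by push_cast; ring⟩
  have k2 : ∀ (z z' : ZMod s) x, x ∈ Sp (s * α - c * β) β g (y + (z.val : K) * α) →
      x ∈ Sp (s * α - c * β) β g (y + (z'.val : K) * α) → z = z' := by
    rintro z z' _ ⟨i, j, k, rfl⟩ ⟨i', j', k', e⟩
    have h3 := congrArg a e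
    simp only [map_add, map_sub, mi, mn, aα, aβ, ag, mul_one, mul_zero, add_zero, sub_zero,
      add_assoc, add_right_inj] at h3
    have h4 : (z.val : ℤ) + i * s = z'.val + i' * s := by exact_mod_cast h3
    simpa using congrArg (Int.cast : ℤ → ZMod s) h4
  have w1 := wedge hP hC hD _ k1 k2 N hN
  have w2 := wedge hP hC hD.swap (fun z : ZMod s => y + (z.val : K) * α) (Λ := coset L y)
    (by simpa only [sp_swap] using k1) (by simpa only [sp_swap] using k2) N hN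
  rw [hs_smul a (inv_pos.2 hsq), hs_smul b (inv_pos.2 hsq)] at w1 w2
  rw [← mul_neg, w1, w2, ← Finset.sum_sub_distrib]
  simp only [alg hD.hP.ne' hD.hQ.ne', Finset.sum_sub_distrib, Finset.sum_add_distrib,
    ← Finset.mul_sum, ← Rat.cast_sum]
  have hT : ∑ z : ZMod s, bt (md (((s : ℚ)⁻¹ • b) (y + (z.val : K) * α))) =
      ∑ z : ZMod s, bt (md (((s : ℚ)⁻¹ • a) (y + (z.val : K) * α))) := by
    have h3 := sum_eq (fun r => bt (md r)) (fun r n => by rw [md_add]) (a y) (-d) c i₁ hi₁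
    refine Eq.trans (Finset.sum_congr rfl fun z _ => ?_)
      (h3.trans (Finset.sum_congr rfl fun z _ => ?_))
    · rw [LinearMap.smul_apply, smul_eq_mul, map_add, mn, hc, inv_mul_eq_div]
      refine congrArg (fun r => bt (md (r / s))) ?_
      push_cast
      linarith
    · rw [LinearMap.smul_apply, smul_eq_mul, map_add, mn, aα, inv_mul_eq_div, mul_one]
  rw [hT]
  generalize ∑ z : ZMod s, bt _ = T
  generalize ∑ z : ZMod s, mx (md (((s : ℚ)⁻¹ • a) _)) _ = R₁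
  generalize ∑ z : ZMod s, mx (md (((s : ℚ)⁻¹ • b) _)) _ = R₂
  obtain ⟨t, t', ht⟩ := cubic hB hε
  refine ⟨((R₁ - t' * T) • (s * α - c * β) + (R₂ - t * T) • β) / g, ?_⟩
  have h3 := hD.ht ((R₁ - t' * T) • (s * α - c * β) + (R₂ - t * T) • β)
  rw [map_add, map_add, map_smul, map_smul, map_smul, map_smul, hD.au, hD.av, hD.bu, hD.bv,
    CU.ht] at h3
  rw [map_div₀, h3, hκ]
  simp only [smul_eq_mul]
  push_cast
  field_simp
  linear_combination (T : ℝ) * ht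

end N3Aux

open N3Aux

theorem n3St (hB : BasSt ρ σ) (h2 : Bas2 ρ σ) (hP : LpSt σ) (hC : ConeSt σ) :
    N3St ρ σ := by
  intro ε L y a γ hε hL hy ha hγ ho
  obtain ⟨q, hq, h3, h4⟩ := hB.prim a L (h2.fn_ne a ha) (h2.lt ε L hL)
  have := main hB h2 hP hC hε hL hy (fn_smul ha hq) hγ (h2.scale γ _ _ q q hq hq ho) h3 h4
  rwa [tw_smul, hs_smul _ hq, hs_smul _ hq] at this

end Pool.Agent.CU
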