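import Pool.Agent.Lib.MP_ca56d1_nt.CU.U.St

/-! The formal properties of the values `uu`. -/

namespace Pool.Agent.CU

open Complex Filter Topology MeasureTheory Pool.Agent.RM
open scoped Real Classical

variable {K : Type} [Field K] [CharZero K] {ρ : K →+* ℝ} {σ : K →+* ℂ}

namespace PUAux

theorem mu_one : Mu 1 := ⟨1, one_ne_zero, one_pow 1⟩

theorem tw_ne {a : K →ₗ[ℚ] ℚ} {u : K} (ha : a ≠ 0) (hu : ¬ ∃ q : ℚ, u = q) :
    ¬ ∃ q : ℚ, tw a u = q • a := fun ⟨q, hq⟩ => ha <| LinearMap.ext fun x => by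
  have h0 : u - q ≠ 0 := fun h => hu ⟨q, sub_eq_zero.1 h⟩
  have h1 : a (u * ((u - q)⁻¹ * x)) = q • a ((u - q)⁻¹ * x) := LinearMap.congr_fun hq _
  rw [← map_smul, ← sub_eq_zero, ← map_sub, Rat.smul_def, ← sub_mul,
    mul_inv_cancel_left₀ h0] at h1
  exact h1

theorem exists_ori (hB : BasSt ρ σ) (h2 : Bas2 ρ σ) {ε : K} {L : Submodule ℤ K} (hε : Eps ρ σ ε)
    (hL : ELat ε L) : ∃ a γ, Fn ρ σ a ∧ γ ∈ L ∧ Ori σ γ a (tw a ε⁻¹) := by
  obtain ⟨a, ha, -⟩ := h2.gen ∅ (by simp)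
  have h1 : 0 < ρ ε⁻¹ := by
    rw [map_inv₀]
    exact inv_pos.2 (one_pos.trans hε.one_lt)
  have h3 : ¬ ∃ q : ℚ, ε⁻¹ = q := fun ⟨q, hq⟩ =>
    hB.irr ε hε ⟨q⁻¹, by rw [Rat.cast_inv, ← hq, inv_inv]⟩
  obtain ⟨γ, hγ, ho⟩ := hB.ori a _ L ha (hB.fn_tw a _ ha h1) (tw_ne (h2.fn_ne a ha) h3)
    (h2.lt ε L hL)
  exact ⟨a, γ, ha, hγ, ho⟩

omit [CharZero K] in
theorem hat_ne (hE : EqvSt σ) {f z : ℂ} {l : ℝ} (h : Hat σ f l z) : z ≠ 0 := fun h0 =>
  hE.ek_ne _ h.2.1 (by rw [h0, zero_div])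

omit [CharZero K] in
theorem hat_inv (hE : EqvSt σ) {f z : ℂ} {l : ℝ} (h : Hat σ f l z) : Hat σ f⁻¹ (-l) z⁻¹ := by
  refine ⟨inv_ne_zero h.1, ?_, ?_⟩
  · have h1 := hE.ek_inv _ h.2.1
    rwa [inv_div, div_eq_mul_inv, mul_comm, ← div_inv_eq_mul] at h1
  · rw [norm_inv, inv_pow, Real.log_inv, h.2.2]

theorem hat_div (hB : BasSt ρ σ) (hE : EqvSt σ) {f z z' : ℂ} {l : ℝ} (h : Hat σ f l z)
    (h' : Hat σ f l z') : Mu (z' / z) := by
  have h0 := norm_pos_iff.2 (hat_ne hE h)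
  have h0' := norm_pos_iff.2 (hat_ne hE h')
  refine hB.mu _ ?_ ?_
  · have h1 := hE.ek_div _ _ h'.2.1 h.2.1
    rwa [div_div_div_cancel_right₀ h.1] at h1
  · have h1 := Real.log_injOn_pos (Set.mem_Ioi.2 (pow_pos h0' 2)) (Set.mem_Ioi.2 (pow_pos h0 2))
      (h'.2.2.trans h.2.2.symm)
    rw [norm_div, (pow_left_inj₀ h0'.le h0.le two_ne_zero).1 h1, div_self h0.ne']

omit [CharZero K] in
theorem sm_rf (u : K) (X : Set K) : sm u (rf X) = rf (sm u X) := by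
  ext x
  simp only [sm, rf, Set.mem_ofPred_eq, mul_neg]

omit [CharZero K] in
theorem sm_sm (u v : K) (X : Set K) : sm u (sm v X) = sm v (sm u X) := by
  ext x
  simp only [sm, Set.mem_ofPred_eq, mul_left_comm]

theorem tw_tw (a : K →ₗ[ℚ] ℚ) (u v : K) : tw (tw a u) v = tw (tw a v) u := by
  ext x
  simp only [tw, LinearMap.comp_apply, LinearMap.mulLeft_apply, mul_left_comm]

end PUAux

open PUAux

theorem partU_of (hB : BasSt ρ σ) (h2 : Bas2 ρ σ) (hE : EqvSt σ) (hV : ValSt ρ σ)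
    (hU : UValSt ρ σ) (h1 : LinSt ρ σ) (h3 : KlfSt ρ σ) : PartU ρ σ where
  ne ε L y hε hL hy := by
    by_cases h : y ∈ L
    · rw [uu, if_pos h]
      exact one_ne_zero
    · obtain ⟨a, γ, ha, hγ, ho⟩ := exists_ori hB h2 hε hL
      exact hat_ne hE (hU ε L y hε hL hy h a γ _ ha hγ ho (h2.hs a 0))
  per ε L y y' h := by
    have h4 : y ∈ L ↔ y' ∈ L :=
      ⟨fun h5 => by simpa using L.sub_mem h5 h, fun h5 => by simpa using L.add_mem h h5⟩
    have h5 : coset L y = coset L y' := by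
      ext x
      exact ⟨fun h6 : x - y ∈ L => show x - y' ∈ L by simpa using L.add_mem h6 h,
        fun h6 : x - y' ∈ L => show x - y ∈ L by simpa using L.sub_mem h6 h⟩
    have h6 : IsVal ρ σ ε L y = IsVal ρ σ ε L y' := by
      funext z
      simp only [IsVal, h5]
    simp only [uu, h4, h6]
  odd ε L y hε hL hy := by
    by_cases h : y ∈ L
    · rw [uu, uu, if_pos h, if_pos (L.neg_mem h), mul_one]
      exact mu_one
    · obtain ⟨a, γ, ha, hγ, ho⟩ := exists_ori hB h2 hε hL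
      have hX := h2.hs a 0
      have h4 := hU ε L y hε hL hy h a γ _ ha hγ ho hX
      have h5 := hU ε L (-y) hε hL (by rw [mul_neg]; exact L.neg_mem hy)
        (fun h5 => h (L.neg_mem_iff.1 h5)) a γ _ ha hγ ho (h2.hs_rf a _ hX)
      obtain ⟨h6, h7⟩ := hV.refl L y γ a _ _ _ 0 (h2.lt ε L hL) hγ ho hX (h2.hs_sm a _ ε hX)
      rw [neg_zero] at h6 h7
      rw [sm_rf, h6, h7] at h5
      have h8 := hat_div hB hE (hat_inv hE h4) h5
      rwa [div_inv_eq_mul, mul_comm] at h8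
  hom ε L L' y t hε hL hy ht hm := by
    by_cases h : y ∈ L
    · rw [uu, uu, if_pos h, if_pos ((hm y).2 h), div_one]
      exact mu_one
    · obtain ⟨a, γ, ha, hγ, ho⟩ := exists_ori hB h2 hε hL
      have ht0 : t ≠ 0 := fun h0 => by simp [h0] at ht
      have hm' : ∀ x, x ∈ L' ↔ t⁻¹ * x ∈ L := fun x => by
        rw [← hm, mul_inv_cancel_left₀ ht0]
      have hL' : ELat ε L' := by
        obtain ⟨L'', h4, h5⟩ := h2.lt_mul t L ht0 (h2.lt ε L hL)
        have h6 : L'' = L' := Submodule.ext fun x => (h5 x).trans (hm' x).symm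
        rw [h6] at h4
        exact ⟨h4.fg, h4.full, fun x => by rw [hm', hm', mul_left_comm, hL.stab]⟩
      have hX := h2.hs a 0
      have h4 := hU ε L y hε hL hy h a γ _ ha hγ ho hX
      have ho' := h2.mul γ _ _ t ht0 ho
      rw [tw_tw] at ho'
      have h5 := hU ε L' (t * y) hε hL' (by rw [mul_left_comm]; exact (hm _).2 hy)
        (fun h5 => h ((hm y).1 h5)) _ (t * γ) _
        (hB.fn_tw a t⁻¹ ha (by rw [map_inv₀]; exact inv_pos.2 ht)) ((hm γ).2 hγ) ho'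
        (h2.hs_sm a _ t hX)
      have h6 : coset L' (t * y) = sm t (coset L y) := by
        ext x
        change x - t * y ∈ L' ↔ t⁻¹ * x - y ∈ L
        rw [hm', mul_sub, inv_mul_cancel_left₀ ht0]
      obtain ⟨h7, h8⟩ := hV.hom L y γ a _ _ _ t 0 (h2.lt ε L hL) hγ ho hX (h2.hs_sm a _ ε hX) ht0
      rw [mul_zero] at h7 h8
      rw [h6, sm_sm, h7, h8] at h5
      exact hat_div hB hE h4 h5
  lin := h1
  klf := h3

end Pool.Agent.CU
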