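import Pool.Agent.Lib.MP_ca56d1_nt.CU.U.St

/-! Convergence, continuity and decay of the non holomorphic theta series. -/

namespace Pool.Agent.CU

open Complex Filter Topology MeasureTheory Pool.Agent.RM
open scoped Real Classical

namespace PsiAAux

theorem sg_mul {t : ℝ} (ht : 0 < t) (x : ℝ) : sg (t * x) = sg x := by
  simp only [sg, mul_pos_iff_of_pos_left ht]

theorem abs_sg (x : ℝ) : |sg x| = 1 := by
  unfold sg
  split_ifs <;> simp

theorem abs_le_of_ne {r u v : ℝ} (h : sg u ≠ sg (r * u + v)) : r * |u| ≤ |v| := by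
  unfold sg at h
  by_cases h1 : 0 < u
  · have h2 : ¬ 0 < r * u + v := fun h2 => h (by rw [if_pos h1, if_pos h2])
    rw [abs_of_pos h1]
    linarith [neg_le_abs v]
  · have h2 : 0 < r * u + v := by
      by_contra h2
      exact h (by rw [if_neg h1, if_neg h2])
    rw [abs_of_nonpos (not_lt.1 h1)]
    linarith [le_abs_self v]

theorem term_le (h1 : T1St) {r : ℝ} (hr : 0 < r) (k : ℝ) : ∃ d : ℝ, 0 < d ∧
    ∀ m t₁ t u v n : ℝ, 0 < m → m ≤ t₁ → m ≤ t → 0 ≤ n → |v| ≤ k * n →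
      |(gg (t₁ * u) - sg (r * u + v)) * Real.exp (-π * t ^ 2 * n ^ 2)| ≤
        3 * Real.exp (-π * (d * m) ^ 2 * (u ^ 2 + n ^ 2)) := by
  have hq : 0 ≤ (k / r) ^ 2 := sq_nonneg _
  set q := (k / r) ^ 2 with hq'
  have hd : 0 < (q + 1)⁻¹ := by positivity
  have hd1 : (q + 1)⁻¹ ≤ 1 := inv_le_one_of_one_le₀ (by linarith)
  have hd2 : (q + 1)⁻¹ * (q + 1) = 1 := inv_mul_cancel₀ (by positivity)
  refine ⟨(q + 1)⁻¹, hd, fun m t₁ t u v n hm h2 h3 hn hv => ?_⟩
  set d := (q + 1)⁻¹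
  have hπ := Real.pi_pos
  have ht₁ : 0 < t₁ := hm.trans_le h2
  have hdm : d * m ≤ m := mul_le_of_le_one_left hm.le hd1
  have h0 : 0 < d * m := mul_pos hd hm
  have h4 := h1.tail (t₁ * u)
  rw [sg_mul ht₁] at h4
  rw [abs_mul, Real.abs_exp]
  by_cases h : sg u = sg (r * u + v)
  · rw [← h]
    refine (mul_le_mul_of_nonneg_right h4 (Real.exp_pos _).le).trans ?_
    rw [← Real.exp_add]
    refine le_trans (Real.exp_le_exp.2 ?_) (le_mul_of_one_le_left (Real.exp_pos _).le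
      (by norm_num))
    have a1 : (d * m) ^ 2 * u ^ 2 ≤ t₁ ^ 2 * u ^ 2 := by gcongr; exact hdm.trans h2
    have a2 : (d * m) ^ 2 * n ^ 2 ≤ t ^ 2 * n ^ 2 := by gcongr; exact hdm.trans h3
    nlinarith [mul_le_mul_of_nonneg_left (add_le_add a1 a2) hπ.le]
  · have a0 : Real.exp (-π * (t₁ * u) ^ 2) ≤ 1 :=
      Real.exp_le_one_iff.2 (by nlinarith [sq_nonneg (t₁ * u)])
    have a1 : |gg (t₁ * u) - sg (r * u + v)| ≤ 3 := by
      have b1 := abs_sub_le (gg (t₁ * u)) (sg u) (sg (r * u + v))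
      have b2 := abs_sub (sg u) (sg (r * u + v))
      rw [abs_sg, abs_sg] at b2
      linarith
    refine mul_le_mul a1 (Real.exp_le_exp.2 ?_) (Real.exp_pos _).le (by norm_num)
    have a2 : |u| ≤ k / r * n := by
      rw [div_mul_eq_mul_div, le_div_iff₀ hr, mul_comm]
      exact (abs_le_of_ne h).trans hv
    have a3 : u ^ 2 ≤ q * n ^ 2 := by
      rw [hq', ← mul_pow, ← sq_abs u]
      gcongr
    have a4 : (d * m) ^ 2 * (u ^ 2 + n ^ 2) ≤ t ^ 2 * n ^ 2 :=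
      calc (d * m) ^ 2 * (u ^ 2 + n ^ 2) ≤ (d * m) ^ 2 * ((q + 1) * n ^ 2) := by
            gcongr
            linarith
        _ = (d * (q + 1)) * d * (m ^ 2 * n ^ 2) := by ring
        _ ≤ 1 * (t ^ 2 * n ^ 2) := by
            rw [hd2, one_mul]
            gcongr
        _ = _ := one_mul _
    nlinarith [mul_le_mul_of_nonneg_left a4 hπ.le]

variable {K : Type} [Field K] [CharZero K] {ρ : K →+* ℝ} {σ : K →+* ℂ}

theorem bound (h1 : T1St) {b : K →ₗ[ℚ] ℚ} (hb : Fn ρ σ b) : ∃ d : ℝ, 0 < d ∧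
    ∀ (m t₁ t : ℝ) (x : K), 0 < m → m ≤ t₁ → m ≤ t →
      |(gg (t₁ * ρ x) - sg (b x : ℚ)) * Real.exp (-π * t ^ 2 * ‖σ x‖ ^ 2)| ≤
        3 * Real.exp (-π * (d * m) ^ 2 * (ρ x ^ 2 + ‖σ x‖ ^ 2)) := by
  obtain ⟨r, c, hr, hc⟩ := hb
  obtain ⟨d, hd, h⟩ := term_le h1 hr ‖c‖
  refine ⟨d, hd, fun m t₁ t x hm h2 h3 => ?_⟩
  rw [hc]
  exact h m t₁ t _ _ _ hm h2 h3 (norm_nonneg _) ((abs_re_le_norm _).trans_eq (norm_mul _ _))

theorem summ (h3 : T3St ρ σ) {L : Submodule ℤ K} (hL : Lt L) (y : K) {t : ℝ} (ht : 0 < t) :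
    Summable fun x : coset L y => 3 * Real.exp (-π * t ^ 2 * (ρ x ^ 2 + ‖σ x‖ ^ 2)) := by
  refine Summable.mul_left 3 ((h3.sum L y 1 0 t hL one_ne_zero ht).of_nonneg_of_le
    (fun x => (Real.exp_pos _).le) fun x => ?_)
  rw [q3, one_mul, zero_mul, zero_re, add_zero]
  refine le_mul_of_one_le_left (Real.exp_pos _).le ?_
  linarith [abs_nonneg (ρ x), norm_nonneg (σ x)]

end PsiAAux

variable {K : Type} [Field K] [CharZero K] {ρ : K →+* ℝ} {σ : K →+* ℂ}

theorem psiA (h1 : T1St) (h3 : T3St ρ σ) : PsiA ρ σ where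
  sum L y b t₁ t hL hb ht₁ ht := by
    obtain ⟨d, hd, h⟩ := PsiAAux.bound h1 hb
    have hm := lt_min ht₁ ht
    exact Summable.of_norm_bounded (PsiAAux.summ h3 hL y (mul_pos hd hm)) fun x =>
      h _ t₁ t x hm (min_le_left _ _) (min_le_right _ _)
  cont L y b hL hb := by
    obtain ⟨d, hd, h⟩ := PsiAAux.bound h1 hb
    have hg : Continuous gg := continuous_iff_continuousAt.2 fun x => (h1.deriv x).continuousAt
    refine continuous_iff_continuousAt.2 fun τ => ?_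
    refine ContinuousOn.continuousAt (s := Set.Ioi (τ - 1)) ?_ (Ioi_mem_nhds (by linarith))
    refine continuousOn_tsum (fun x => Continuous.continuousOn (by fun_prop))
      (PsiAAux.summ h3 hL y (mul_pos hd (Real.exp_pos (τ - 1)))) fun x s hs => ?_
    have h2 := Real.exp_le_exp.2 (le_of_lt hs)
    exact h _ _ _ x (Real.exp_pos _) h2 h2
  big L y b hL hy hb := by
    obtain ⟨d, hd, h⟩ := PsiAAux.bound h1 hb
    obtain ⟨μ, hμ, hl⟩ := h3.low L y hL hy
    have hπ := Real.pi_pos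
    have hκ : 0 < π * d ^ 2 * μ / 2 := by positivity
    have hs := PsiAAux.summ h3 hL y (half_pos hd)
    refine ⟨(∑' x : coset L y, 3 * Real.exp (-π * (d / 2) ^ 2 * (ρ x ^ 2 + ‖σ x‖ ^ 2))) /
      (π * d ^ 2 * μ / 2), fun t ht => ?_⟩
    have ht0 : 0 < t := one_pos.trans_le ht
    rw [div_div, div_eq_mul_inv, ← Real.norm_eq_abs]
    refine tsum_of_norm_bounded (hs.hasSum.mul_right _) fun x => ?_
    refine (h t t t x ht0 le_rfl le_rfl).trans ?_
    have a1 : Real.exp (-(π * d ^ 2 * μ / 2 * t)) ≤ (π * d ^ 2 * μ / 2 * t)⁻¹ := by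
      rw [Real.exp_neg]
      exact inv_anti₀ (mul_pos hκ ht0) (by linarith [Real.add_one_le_exp (π * d ^ 2 * μ / 2 * t)])
    rw [mul_assoc 3]
    refine mul_le_mul_of_nonneg_left (le_trans ?_
      (mul_le_mul_of_nonneg_left a1 (Real.exp_pos _).le)) (by norm_num)
    rw [← Real.exp_add]
    refine Real.exp_le_exp.2 ?_
    have a2 := hl x x.2
    generalize ρ x ^ 2 + ‖σ x‖ ^ 2 = N at a2 ⊢
    have a3 : N / 4 + μ / 2 * t ≤ t ^ 2 * N := by
      have b1 : μ * t ≤ N * t := by gcongr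
      have b2 : N * t ≤ N * t ^ 2 := mul_le_mul_of_nonneg_left (by nlinarith) (by linarith)
      have b3 : N * 1 ≤ N * t := mul_le_mul_of_nonneg_left ht (by linarith)
      nlinarith
    nlinarith [mul_le_mul_of_nonneg_left a3 (mul_pos hπ (pow_pos hd 2)).le]

end Pool.Agent.CU
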