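import Pool.Agent.Lib.MP_ca56d1_nt.CU.U.St

/-! The behaviour of the non holomorphic theta series at zero. -/

namespace Pool.Agent.CU

open Complex Filter Topology MeasureTheory Pool.Agent.RM
open scoped Real Classical

variable {K : Type} [Field K] [CharZero K] {ρ : K →+* ℝ} {σ : K →+* ℂ}

namespace PsiBAux

theorem quad {a u s M : ℝ} (hM : 0 ≤ M) (h : |u| ≤ M * s) :
    a ^ 2 + s ^ 2 ≤ (2 * (M + 1)) ^ 2 * ((a + u) ^ 2 + s ^ 2) := by
  have h1 : u ^ 2 ≤ (M * s) ^ 2 := sq_le_sq' (abs_le.1 h).1 (abs_le.1 h).2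
  have h2 : a ^ 2 ≤ 2 * (a + u) ^ 2 + 2 * u ^ 2 := by nlinarith [sq_nonneg (a + 2 * u)]
  have h3 : 0 ≤ M * ((a + u) ^ 2 + s ^ 2) := by positivity
  have h4 : 0 ≤ M ^ 2 * (a + u) ^ 2 := by positivity
  have h5 : 0 ≤ M ^ 2 * s ^ 2 := by positivity
  nlinarith [sq_nonneg (a + u), sq_nonneg s]

omit [CharZero K] in
theorem q3_le {c : ℂ} {M t : ℝ} (hM : ‖c‖ ≤ M) (x : K) :
    q3 ρ σ 1 c t x ≤ q3 ρ σ 1 0 (t / (2 * (M + 1))) x := by
  have h0 : 0 ≤ M := (norm_nonneg _).trans hM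
  have h1 : |(c * σ x).re| ≤ M * ‖σ x‖ := (abs_re_le_norm _).trans (by
    rw [norm_mul]; gcongr)
  have h2 := quad (a := ρ x) h0 h1
  have h3 : (0 : ℝ) < (2 * (M + 1)) ^ 2 := by positivity
  unfold q3
  refine Real.exp_le_exp.2 ?_
  simp only [one_mul, zero_mul, zero_re, add_zero, div_pow, neg_mul, neg_le_neg_iff]
  rw [mul_assoc, mul_assoc, div_mul_eq_mul_div, mul_div_assoc]
  gcongr
  rwa [div_le_iff₀' h3]

theorem shear (h1 : T1St) (h3 : T3St ρ σ) {L : Submodule ℤ K} (hL : Lt L) (y : K) (c : ℂ) :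
    ∃ C : ℝ, ∀ t, 0 < t → t ≤ 1 →
      (Summable fun x : coset L y => (gg (t * (ρ x + (c * σ x).re)) - gg (t * ρ x)) *
        Real.exp (-π * t ^ 2 * ‖σ x‖ ^ 2)) ∧
      |∑' x : coset L y, (gg (t * (ρ x + (c * σ x).re)) - gg (t * ρ x)) *
        Real.exp (-π * t ^ 2 * ‖σ x‖ ^ 2)| ≤ C * t := by
  have hc := norm_nonneg c
  obtain ⟨A, C, hC⟩ := h3.bd L y (2 * ‖c‖ + 1) 0 hL
  refine ⟨2 * C, fun t ht ht1 => ?_⟩
  let g : coset L y → ℝ → ℝ := fun x θ =>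
    (gg (t * (ρ x + θ * (c * σ x).re)) - gg (t * ρ x)) * Real.exp (-π * t ^ 2 * ‖σ x‖ ^ 2)
  let g' : coset L y → ℝ → ℝ := fun x θ => 2 * t * ((c * σ x).re * q3 ρ σ 1 (θ * c) t x)
  have hn : ∀ θ ∈ Set.Ioo (-2 : ℝ) 2, ‖(θ : ℂ) * c‖ ≤ 2 * ‖c‖ + 1 := fun θ hθ => by
    have : |θ| ≤ 2 := abs_le.2 ⟨hθ.1.le, hθ.2.le⟩
    rw [norm_mul, norm_real, Real.norm_eq_abs]
    nlinarith
  have hg : ∀ x θ, θ ∈ Set.Ioo (-2 : ℝ) 2 → HasDerivAt (g x) (g' x θ) θ := fun x θ _ => by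
    have a1 : HasDerivAt (fun θ : ℝ => t * (ρ x + θ * (c * σ x).re)) (t * (c * σ x).re) θ := by
      simpa using (((hasDerivAt_id θ).mul_const (c * σ x).re).const_add (ρ x)).const_mul t
    have a2 := (((h1.deriv _).comp θ a1).sub_const (gg (t * ρ x))).mul_const
      (Real.exp (-π * t ^ 2 * ‖σ x‖ ^ 2))
    refine a2.congr_deriv ?_
    have a3 : ((θ : ℂ) * c * σ x).re = θ * (c * σ x).re := by rw [mul_assoc, re_ofReal_mul]
    simp only [g', q3, a3, one_mul]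
    rw [show -π * t ^ 2 * ((ρ x + θ * (c * σ x).re) ^ 2 + ‖σ x‖ ^ 2) =
      -π * (t * (ρ x + θ * (c * σ x).re)) ^ 2 + -π * t ^ 2 * ‖σ x‖ ^ 2 by ring, Real.exp_add]
    ring
  have hu := (h3.sum L y 1 0 (t / (2 * (2 * ‖c‖ + 1 + 1))) hL one_ne_zero
    (by positivity)).mul_left (2 * t * ‖c‖)
  have hg' : ∀ x θ, θ ∈ Set.Ioo (-2 : ℝ) 2 → ‖g' x θ‖ ≤ 2 * t * ‖c‖ * ((1 + |ρ x| + ‖σ x‖) *
      q3 ρ σ 1 0 (t / (2 * (2 * ‖c‖ + 1 + 1))) x) := fun x θ hθ => by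
    have a1 := q3_le (ρ := ρ) (σ := σ) (t := t) (hn θ hθ) x
    have a2 : 0 < q3 ρ σ 1 (θ * c) t x := Real.exp_pos _
    have a3 : |(c * σ x).re| ≤ ‖c‖ * (1 + |ρ x| + ‖σ x‖) := (abs_re_le_norm _).trans (by
      rw [norm_mul]
      gcongr
      linarith [abs_nonneg (ρ x)])
    simp only [g', Real.norm_eq_abs, abs_mul, abs_of_pos a2, abs_of_pos ht, abs_two]
    rw [mul_assoc (2 * t), ← mul_assoc ‖c‖]
    gcongr
  have h0 : ∀ x, g x 0 = 0 := fun x => by simp [g]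
  have hs0 : Summable fun x => g x 0 := by simpa only [h0] using summable_zero
  have m0 : (0 : ℝ) ∈ Set.Ioo (-2 : ℝ) 2 := by norm_num
  have hd := fun θ hθ => hasDerivAt_tsum_of_isPreconnected hu isOpen_Ioo isPreconnected_Ioo hg hg'
    m0 hs0 (y := θ) hθ
  have hs1 := summable_of_summable_hasDerivAt_of_isPreconnected hu isOpen_Ioo isPreconnected_Ioo
    hg hg' m0 hs0 (y := 1) (by norm_num)
  have sub : Set.Icc (0 : ℝ) 1 ⊆ Set.Ioo (-2) 2 := fun θ h => ⟨by linarith [h.1], by linarith [h.2]⟩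
  obtain ⟨θ, a1, a2⟩ := exists_hasDerivAt_eq_slope (fun z => ∑' x, g x z) (fun z => ∑' x, g' x z)
    zero_lt_one (fun z hz => (hd z (sub hz)).continuousAt.continuousWithinAt)
    fun z hz => hd z (sub (Set.Ioo_subset_Icc_self hz))
  simp only [h0, tsum_zero, sub_zero, div_one, g', tsum_mul_left] at a2
  have a3 := (hC 1 (θ * c) t le_rfl (by linarith) (hn θ (sub (Set.Ioo_subset_Icc_self a1))) ht
    ht1).2.2 c (by linarith)
  simp only [g, one_mul] at hs1 a2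
  refine ⟨hs1, ?_⟩
  rw [← a2, abs_mul, abs_of_pos (by positivity : 0 < 2 * t)]
  rw [pow_zero, mul_one] at a3
  nlinarith

theorem planes {L : Submodule ℤ K} (y : K) (b : K →ₗ[ℚ] ℚ) {q : ℚ} (hq : 0 < q)
    (hi : ∀ x ∈ L, ∃ n : ℤ, (q • b) x = n) (f : ℚ → ℝ) (E : K → ℝ)
    (hs : Summable fun x : coset L y => f (b x) * E x) :
    HasSum (fun n : ℤ => f (b y + n / q) * ∑' x : plane (coset L y) b (b y + n / q), E x)
      (∑' x : coset L y, f (b x) * E x) := by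
  have a1 := (hasSum_subtype_iff_indicator (f := fun x => f (b x) * E x)
    (s := coset L y)).1 hs.hasSum
  have a2 := a1.tsum_fiberwise b
  have a3 : ∀ r : ℚ, ∑' x : (b ⁻¹' {r} : Set K), (coset L y).indicator (fun x => f (b x) * E x) x =
      f r * ∑' x : plane (coset L y) b r, E x := fun r => by
    rw [tsum_subtype (b ⁻¹' {r}) ((coset L y).indicator fun x => f (b x) * E x),
      tsum_subtype (plane (coset L y) b r) E, ← tsum_mul_left]
    refine tsum_congr fun x => ?_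
    by_cases c1 : b x = r <;> by_cases c2 : x ∈ coset L y <;>
      simp [Set.indicator, plane, c1, c2]
  simp only [a3] at a2
  have inj : Function.Injective fun n : ℤ => b y + n / q := fun m n h => by
    have : (m : ℚ) / q = n / q := add_left_cancel h
    exact_mod_cast (div_left_inj' hq.ne').1 this
  refine (inj.hasSum_iff (f := fun r => f r * ∑' x : plane (coset L y) b r, E x) ?_).2 a2
  intro r hr
  have : IsEmpty (plane (coset L y) b r) := ⟨fun x => hr (by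
    obtain ⟨n, hn⟩ := hi _ x.2.1
    refine ⟨n, ?_⟩
    simp only [LinearMap.smul_apply, map_sub, smul_eq_mul, x.2.2] at hn
    change b y + n / q = r
    rw [← hn]
    field_simp
    ring)⟩
  simp

end PsiBAux

open PsiBAux in
theorem psiB (hB : BasSt ρ σ) (h2 : Bas2 ρ σ) (h1 : T1St) (h3 : T3St ρ σ) (hA : PsiA ρ σ) :
    PsiB ρ σ := by
  intro L y b hL hb
  have hb0 := h2.fn_ne b hb
  obtain ⟨q, hq, hi, x₁, hx₁, hx₂⟩ := hB.prim b L hb0 hL
  obtain ⟨r, c₀, hr, hc⟩ := id hb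
  have hq' : (0 : ℝ) < q := by exact_mod_cast hq
  obtain ⟨C₁, k1⟩ := shear h1 h3 hL y (c₀ / r)
  obtain ⟨A, C₂, k2⟩ := h3.plane L b 2 hL hb0
  obtain ⟨c, C₃, k3⟩ := h1.sum (1 / (q * r)) (b y / r) (by positivity)
  have e1 : ∀ x, ρ x + (c₀ / r * σ x).re = (b x : ℝ) / r := fun x => by
    rw [hc, div_mul_eq_mul_div, div_ofReal_re]
    field_simp
  have e2 : ∀ v : ℝ, sg (v / r) = sg v := fun v => by simp [sg, div_pos_iff_of_pos_right, hr]
  have e3 : ∀ n : ℤ, ((b y + n / q : ℚ) : ℝ) / r = 1 / (q * r) * n + b y / r := fun n => by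
    push_cast
    field_simp
    ring
  refine ⟨A * c, C₁ + |A| * C₃ + |C₂| * C₃, fun t ht ht1 => ?_⟩
  obtain ⟨s1, b1⟩ := k1 t ht ht1
  obtain ⟨s3, b3, b4⟩ := k3 t ht ht1
  simp only [e1] at s1 b1
  have s0 := hA.sum L y b t t hL hb ht ht
  have e4 : ∀ x : coset L y, (gg (t * ((b x : ℝ) / r)) - sg ((b x : ℝ) / r)) *
      Real.exp (-π * t ^ 2 * ‖σ x‖ ^ 2) = (gg (t * ρ x) - sg (b x : ℚ)) *
        Real.exp (-π * t ^ 2 * ‖σ x‖ ^ 2) + (gg (t * ((b x : ℝ) / r)) - gg (t * ρ x)) *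
        Real.exp (-π * t ^ 2 * ‖σ x‖ ^ 2) := fun x => by rw [e2]; ring
  have s2 := planes y b hq hi (fun v => gg (t * ((v : ℝ) / r)) - sg ((v : ℝ) / r))
    (fun x => Real.exp (-π * t ^ 2 * ‖σ x‖ ^ 2)) ((s0.add s1).congr fun x => (e4 x).symm)
  simp only [e3, e4] at s2
  rw [s0.tsum_add s1] at s2
  have ne : ∀ n : ℤ, (plane (coset L y) b (b y + n / q)).Nonempty := fun n => by
    refine ⟨y + n • x₁, by simpa [coset] using L.smul_mem n hx₁, ?_⟩
    simp only [LinearMap.smul_apply, smul_eq_mul] at hx₂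
    rw [map_add, map_zsmul, zsmul_eq_mul, add_right_inj, eq_div_iff hq.ne', mul_assoc,
      mul_comm _ q, hx₂, mul_one]
  generalize hw : (fun n : ℤ => gg (t * (1 / (q * r) * n + b y / r)) -
    sg (1 / (q * r) * n + b y / r)) = w at *
  have hw' : ∀ n : ℤ, gg (t * (1 / (q * r) * n + b y / r)) -
    sg (1 / (q * r) * n + b y / r) = w n := fun n => congrFun hw n
  simp only [hw'] at s2 s3 b3 b4
  have s4 := (s2.sub (s3.of_abs.hasSum.mul_right (A / t ^ 2)))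
  simp only [← mul_sub] at s4
  have b5 := s4.norm_le_of_bounded (s3.hasSum.mul_right (|C₂| * t ^ 2)) fun n => by
    rw [norm_mul, Real.norm_eq_abs, Real.norm_eq_abs]
    gcongr
    exact ((k2 y _ t ht).2 (ne n) ht1).trans (by gcongr; exact le_abs_self _)
  rw [Real.norm_eq_abs] at b5
  have b6 : (∑' n, |w n|) * (|C₂| * t ^ 2) ≤ |C₂| * C₃ * t :=
    (mul_le_mul_of_nonneg_right b4 (by positivity)).trans_eq (by field_simp)
  have b7 : |(∑' n, w n) * (A / t ^ 2) - A * c / t ^ 2| ≤ |A| * C₃ * t := by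
    rw [show (∑' n, w n) * (A / t ^ 2) - A * c / t ^ 2 = (∑' n, w n - c) * (A / t ^ 2) by ring,
      abs_mul, abs_div, abs_of_pos (by positivity : 0 < t ^ 2)]
    exact (mul_le_mul_of_nonneg_right b3 (by positivity)).trans_eq (by field_simp)
  unfold psi
  rw [abs_le] at b1 b5 b7 ⊢
  constructor <;> linarith [b1.1, b1.2, b5.1, b5.2, b7.1, b7.2]

end Pool.Agent.CU
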