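import Pool.Agent.Lib.MP_ca56d1_nt.CU.U.St

/-! Uniqueness of finite parts and the real principle for line products. -/

namespace Pool.Agent.CU

open Complex Filter Topology MeasureTheory Pool.Agent.RM
open scoped Real Classical

variable {K : Type} [Field K] [CharZero K] {ρ : K →+* ℝ} {σ : K →+* ℂ}

namespace RPAux

theorem lim_id : Tendsto (fun r : ℝ => r) (𝓝[>] 0) (𝓝 0) :=
  tendsto_nhdsWithin_of_tendsto_nhds tendsto_id

theorem step {f g : ℝ → ℝ} {l a : ℝ} (k : ℕ) (hf : Tendsto f (𝓝[>] 0) (𝓝 l))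
    (hg : Tendsto g (𝓝[>] 0) (𝓝 a)) (h : ∀ r, 0 < r → r ^ (k + 1) * f r = g r) : a = 0 := by
  have h1 : Tendsto (fun r : ℝ => r ^ (k + 1) * f r) (𝓝[>] 0) (𝓝 (0 ^ (k + 1) * l)) :=
    (lim_id.pow _).mul hf
  rw [zero_pow (Nat.succ_ne_zero k), zero_mul] at h1
  have h2 : Tendsto g (𝓝[>] 0) (𝓝 0) := by
    refine h1.congr' ?_
    filter_upwards [self_mem_nhdsWithin] with r hr using h r hr
  exact tendsto_nhds_unique hg h2

end RPAux

open RPAux in
theorem finSt : FinSt := by
  intro A B C l h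
  have hA : A = 0 := by
    refine step 2 (g := fun r => A + B * r + C * r ^ 2) h ?_ ?_
    · have : Tendsto (fun r : ℝ => A + B * r + C * r ^ 2) (𝓝[>] 0) (𝓝 (A + B * 0 + C * 0 ^ 2)) :=
        (tendsto_const_nhds.add (lim_id.const_mul B)).add ((lim_id.pow 2).const_mul C)
      simpa using this
    · intro r hr
      field_simp
  subst hA
  have hB : B = 0 := by
    refine step 1 (g := fun r => B + C * r) h ?_ ?_
    · have : Tendsto (fun r : ℝ => B + C * r) (𝓝[>] 0) (𝓝 (B + C * 0)) :=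
        tendsto_const_nhds.add (lim_id.const_mul C)
      simpa using this
    · intro r hr
      field_simp
      ring
  subst hB
  have hC : C = 0 := by
    refine step 0 (g := fun _ => C) h tendsto_const_nhds ?_
    intro r hr
    field_simp
    ring
  subst hC
  simp only [zero_div, add_zero] at h
  exact (tendsto_nhds_unique h tendsto_const_nhds)

namespace RPAux

omit [Field K] [CharZero K] in
/-- The theta series of a vanishing combination vanishes. -/
theorem th_sum {ι : Type} [Fintype ι] (S : ι → Set K) (n : ι → ℤ) (f : K → ℝ)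
    (hs : ∀ i, Summable fun x : S i => f x) (h : ∀ x, ∑ i, (if x ∈ S i then n i else 0) = 0) :
    ∑ i, (n i : ℝ) * ∑' x : S i, f x = 0 := by
  have h1 : ∀ i, HasSum (fun x : K => (n i : ℝ) * (S i).indicator f x)
      ((n i : ℝ) * ∑' x : S i, f x) := fun i =>
    (hasSum_subtype_iff_indicator.1 (hs i).hasSum).mul_left _
  have h2 := hasSum_sum (s := Finset.univ) fun i _ => h1 i
  have h3 : (fun x : K => ∑ i, (n i : ℝ) * (S i).indicator f x) = fun _ => 0 := by
    funext x
    have h4 : ∑ i, (n i : ℝ) * (S i).indicator f x =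
        ((∑ i, (if x ∈ S i then n i else 0) : ℤ) : ℝ) * f x := by
      push_cast
      rw [Finset.sum_mul]
      refine Finset.sum_congr rfl fun i _ => ?_
      by_cases hx : x ∈ S i <;> simp [hx]
    rw [h4, h x]
    simp
  rw [h3] at h2
  exact h2.unique hasSum_zero

/-- The principle at a point off all lines. -/
theorem generic (hF : FPSt σ) {ι : Type} [Fintype ι] (γ : ι → K) (S : ι → Set K) (n : ι → ℤ)
    (ha : ∀ i, Adm σ (γ i) (S i)) (h : ∀ x, ∑ i, (if x ∈ S i then n i else 0) = 0) (w : ℂ)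
    (hw : ∀ i, ∀ x ∈ S i, ((σ x - w) / σ (γ i)).im ≠ 0) :
    ∑ i, (n i : ℝ) * el σ (γ i) (S i) w = 0 := by
  have hs := fun i => (hF (γ i) (S i) w (ha i) (hw i)).1
  have hi := fun i => (hF (γ i) (S i) w (ha i) (hw i)).2.1
  choose A hA using fun i => (hF (γ i) (S i) w (ha i) (hw i)).2.2
  have h0 : ∀ r : ℝ, 0 < r →
      ∑ i, (n i : ℝ) * ∫ T in Set.Ioi (0 : ℝ), Th σ (S i) w T * cut r T = 0 := by
    intro r hr
    have h1 : ∑ i, (n i : ℝ) * ∫ T in Set.Ioi (0 : ℝ), Th σ (S i) w T * cut r T =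
        ∫ T in Set.Ioi (0 : ℝ), ∑ i, (n i : ℝ) * (Th σ (S i) w T * cut r T) := by
      rw [integral_finsetSum _ fun i _ => (hi i r hr).const_mul (n i : ℝ)]
      exact Finset.sum_congr rfl fun i _ => (integral_const_mul _ _).symm
    rw [h1]
    refine setIntegral_eq_zero_of_forall_eq_zero fun T hT => ?_
    have h2 := th_sum S n (fun x => Real.exp (-π * T * ‖σ x - w‖ ^ 2)) (fun i => hs i T hT) h
    calc ∑ i, (n i : ℝ) * (Th σ (S i) w T * cut r T)
        = (∑ i, (n i : ℝ) * Th σ (S i) w T) * cut r T := by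
          rw [Finset.sum_mul]
          exact Finset.sum_congr rfl fun i _ => by ring
      _ = 0 := by
          unfold Th
          rw [h2, zero_mul]
  have h3 := tendsto_finsetSum Finset.univ fun i _ => (hA i).const_mul (-(n i : ℝ))
  have h4 : Tendsto (fun r : ℝ => (∑ i, (n i : ℝ) * A i 0) / r ^ 3 +
      (∑ i, (n i : ℝ) * A i 1) / r ^ 2 + (∑ i, (n i : ℝ) * A i 2) / r) (𝓝[>] 0)
      (𝓝 (∑ i, (n i : ℝ) * el σ (γ i) (S i) w)) := by
    have h5 : ∑ i, -(n i : ℝ) * -el σ (γ i) (S i) w = ∑ i, (n i : ℝ) * el σ (γ i) (S i) w :=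
      Finset.sum_congr rfl fun i _ => by ring
    rw [h5] at h3
    refine h3.congr' ?_
    filter_upwards [self_mem_nhdsWithin] with r hr
    have h6 := h0 r hr
    rw [Finset.sum_div, Finset.sum_div, Finset.sum_div, ← Finset.sum_add_distrib,
      ← Finset.sum_add_distrib, ← sub_eq_zero, ← Finset.sum_sub_distrib, ← neg_eq_zero,
      ← Finset.sum_neg_distrib]
    exact Eq.trans (Finset.sum_congr rfl fun i _ => by ring) h6
  exact finSt _ _ _ _ h4

omit [CharZero K] in
theorem lines_countable {γ : K} {S : Set K} (ha : Adm σ γ S) : Countable (lines γ S) := by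
  have h := (ha.sum 1 one_pos).countable_support
  have h1 : (Function.support fun d : lines γ S => Real.exp (-1 * lv σ γ d.1)) = Set.univ := by
    ext d
    simp [Real.exp_ne_zero]
  rw [h1] at h
  exact Set.countable_univ_iff.1 h

theorem lv_mk {γ : K} (hγ : γ ≠ 0) (x : K) :
    lv σ γ (QuotientAddGroup.mk x) = (σ x / σ γ).im := by
  have h : (QuotientAddGroup.mk (QuotientAddGroup.mk x : Ln γ).out : Ln γ) =
      QuotientAddGroup.mk x := QuotientAddGroup.out_eq' _
  rw [QuotientAddGroup.eq, AddSubgroup.mem_zmultiples_iff] at h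
  obtain ⟨k, hk⟩ := h
  have hs : σ γ ≠ 0 := (map_ne_zero σ).2 hγ
  have h2 : (QuotientAddGroup.mk x : Ln γ).out = x - k * γ := by
    rw [← zsmul_eq_mul, hk]
    ring
  unfold lv
  rw [h2, map_sub, map_mul, map_intCast, sub_div, mul_div_assoc, div_self hs]
  simp

theorem dense_off {g : ℂ} (hg : g ≠ 0) (c : ℝ) : Dense {w : ℂ | (w / g).im ≠ c} := by
  have h1 : IsOpenMap fun w : ℂ => (w / g).im := by
    have h2 : IsOpenMap fun w : ℂ => w * g⁻¹ := (Homeomorph.mulRight₀ g⁻¹ (inv_ne_zero hg)).isOpenMap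
    simpa [div_eq_mul_inv, Function.comp_def] using Complex.isOpenMap_im.comp h2
  exact (dense_compl_singleton c).preimage h1

theorem open_off (g : ℂ) (c : ℝ) : IsOpen {w : ℂ | (w / g).im ≠ c} :=
  isOpen_ne_fun (by fun_prop) continuous_const

omit [CharZero K] in
theorem el_cont (hA : LpA σ) {γ : K} {S : Set K} (ha : Adm σ γ S) {w : ℂ} (hw : w ∉ σ '' S) :
    ContinuousAt (el σ γ S) w := by
  have h1 : ContinuousAt (fun w => ‖lp σ γ S w‖ ^ 2) w :=
    ((hA.diff γ S ha).continuous.norm.pow 2).continuousAt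
  have h2 : ‖lp σ γ S w‖ ^ 2 ≠ 0 := pow_ne_zero _ (norm_ne_zero_iff.2 (hA.ne γ S ha w hw))
  have h3 : Continuous (nn σ γ S) := by
    unfold nn
    fun_prop
  exact (h1.log h2).sub (continuousAt_const.mul h3.continuousAt)

end RPAux

open RPAux in
theorem rpS (hA : LpA σ) (hF : FPSt σ) : RPSt σ := by
  intro ι _ γ S n ha h w hw
  have := fun i => lines_countable (ha i)
  have hd : Dense (⋂ p : Σ i, lines (γ i) (S i),
      {w : ℂ | (w / σ (γ p.1)).im ≠ lv σ (γ p.1) p.2.1}) :=
    dense_iInter_of_isOpen (fun p => open_off _ _)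
      fun p => dense_off ((map_ne_zero σ).2 (ha p.1).ne) _
  have hc : ContinuousAt (fun w => ∑ i, (n i : ℝ) * el σ (γ i) (S i) w) w :=
    tendsto_finsetSum _ fun i _ => continuousAt_const.mul (el_cont hA (ha i) (hw i))
  refine tendsto_nhds_unique_of_frequently_eq hc.tendsto tendsto_const_nhds ?_
  refine (mem_closure_iff_frequently.1 (hd w)).mono fun v hv => ?_
  refine generic hF γ S n ha h v fun i x hx => ?_
  have h1 := Set.mem_iInter.1 hv ⟨i, ⟨QuotientAddGroup.mk x, x, hx, rfl⟩⟩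
  simp only [Set.mem_ofPred_eq] at h1
  rw [lv_mk (ha i).ne] at h1
  rw [sub_div, Complex.sub_im]
  exact sub_ne_zero.2 h1.symm

end Pool.Agent.CU
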