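import Pool.Agent.Lib.MP_ca56d1_nt.CU.U.St

/-! The error function on an arithmetic progression. -/

namespace Pool.Agent.CU

open Complex Filter Topology MeasureTheory Pool.Agent.RM
open scoped Real Classical

namespace T1Aux

theorem der (x : ℝ) : HasDerivAt gg (2 * Real.exp (-π * x ^ 2)) x :=
  ((by fun_prop : Continuous fun u : ℝ => Real.exp (-π * u ^ 2)).integral_hasStrictDerivAt
    0 x).hasDerivAt.const_mul 2

theorem gg_neg (x : ℝ) : gg (-x) = -gg x := by
  have := intervalIntegral.integral_comp_neg (a := 0) (b := x) fun u : ℝ => Real.exp (-π * u ^ 2)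
  simp only [neg_sq, neg_zero] at this
  rw [gg, gg, this, intervalIntegral.integral_symm, mul_neg]

theorem lim : Tendsto gg atTop (𝓝 1) := by
  have h := (intervalIntegral_tendsto_integral_Ioi (f := fun u : ℝ => Real.exp (-π * u ^ 2)) 0
    (integrable_exp_neg_mul_sq Real.pi_pos).integrableOn tendsto_id).const_mul 2
  rw [integral_gaussian_Ioi, div_self Real.pi_ne_zero, Real.sqrt_one] at h
  rwa [show (2 : ℝ) * (1 / 2) = 1 by norm_num] at h

theorem tail0 {x : ℝ} (hx : 0 ≤ x) : |gg x - 1| ≤ Real.exp (-π * x ^ 2) := by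
  have h1 : gg x ≤ 1 := (monotone_of_hasDerivAt_nonneg der fun _ => by positivity).ge_of_tendsto lim x
  have h2 : MonotoneOn (fun T => Real.exp (-π * x ^ 2) * gg T - gg (x + T)) (Set.Ici 0) := by
    have hd : ∀ T, HasDerivAt (fun T => Real.exp (-π * x ^ 2) * gg T - gg (x + T))
        (Real.exp (-π * x ^ 2) * (2 * Real.exp (-π * T ^ 2)) - 2 * Real.exp (-π * (x + T) ^ 2))
        T := fun T => ((der T).const_mul _).sub ((der (x + T)).comp_const_add x T)
    refine monotoneOn_of_hasDerivWithinAt_nonneg (convex_Ici 0)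
      (fun T _ => (hd T).continuousAt.continuousWithinAt) (fun T _ => (hd T).hasDerivWithinAt)
      fun T hT => ?_
    have h3 : 0 ≤ T := interior_subset hT
    rw [mul_left_comm, ← Real.exp_add, sub_nonneg]
    gcongr
    nlinarith [mul_nonneg Real.pi_pos.le (mul_nonneg hx h3)]
  have h3 := ge_of_tendsto ((lim.const_mul (Real.exp (-π * x ^ 2))).sub
    (lim.comp (tendsto_atTop_add_const_left _ x tendsto_id)))
    ((eventually_ge_atTop 0).mono fun T hT => h2 Set.self_mem_Ici hT hT)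
  have h4 : gg 0 = 0 := by simp [gg]
  simp only [h4, add_zero] at h3
  rw [abs_of_nonpos (by linarith)]
  linarith

theorem tail (x : ℝ) : |gg x - sg x| ≤ Real.exp (-π * x ^ 2) := by
  unfold sg
  split_ifs with h
  · exact tail0 h.le
  · have := tail0 (neg_nonneg.2 (not_lt.1 h))
    rwa [gg_neg, neg_sq, ← abs_neg, neg_sub, sub_neg_eq_add, add_comm, ← sub_neg_eq_add] at this

theorem tail' {t : ℝ} (ht : 0 < t) (v : ℝ) :
    |gg (t * v) - sg v| ≤ Real.exp (-π * t ^ 2 * v ^ 2) := by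
  have := tail (t * v)
  rwa [show sg (t * v) = sg v by simp only [sg, mul_pos_iff_of_pos_left ht], mul_pow,
    ← mul_assoc] at this

theorem helly {G : ℝ → ℝ} {D : ℝ} (hD : 0 ≤ D)
    (h : ∀ a t, 0 < a → a ≤ t → t ≤ 1 → |G t - G a| ≤ D * t ^ 3) :
    ∃ c, ∀ t, 0 < t → t ≤ 1 → |G t - c| ≤ D * t ^ 3 := by
  have key : ∀ a ∈ Set.Ioc (0 : ℝ) 1, ∀ t ∈ Set.Ioc (0 : ℝ) 1,
      G a - D * a ^ 3 ≤ G t + D * t ^ 3 := fun a ha t ht => by
    have h1 : 0 ≤ D * a ^ 3 := mul_nonneg hD (pow_pos ha.1 3).le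
    have h2 : 0 ≤ D * t ^ 3 := mul_nonneg hD (pow_pos ht.1 3).le
    rcases le_total a t with e | e
    · linarith [(abs_le.1 (h a t ha.1 e ht.2)).1]
    · linarith [(abs_le.1 (h t a ht.1 e ha.2)).2]
  refine ⟨sSup ((fun a => G a - D * a ^ 3) '' Set.Ioc 0 1), fun t h0 h1 => abs_le.2 ⟨?_, ?_⟩⟩
  · have := csSup_le (Set.Nonempty.image (fun a => G a - D * a ^ 3) (s := Set.Ioc 0 1) ⟨t, h0, h1⟩)
      (Set.forall_mem_image.2 fun a ha => key a ha t ⟨h0, h1⟩)
    linarith
  · have := le_csSup (s := (fun a => G a - D * a ^ 3) '' Set.Ioc 0 1)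
      ⟨_, Set.forall_mem_image.2 fun a ha => key a ha t ⟨h0, h1⟩⟩ ⟨t, ⟨h0, h1⟩, rfl⟩
    linarith

theorem gauss (hG : GaussSt) {s : ℝ} (θ : ℝ) (hs : 0 < s) :
    (∀ t, 0 < t → (Summable fun n : ℤ => Real.exp (-π * t ^ 2 * (s * n + θ) ^ 2)) ∧
      Summable fun n : ℤ => |s * n + θ| * Real.exp (-π * t ^ 2 * (s * n + θ) ^ 2)) ∧
    ∃ C : ℝ, 0 ≤ C ∧ ∀ t, 0 < t → t ≤ 1 →
      ∑' n : ℤ, Real.exp (-π * t ^ 2 * (s * n + θ) ^ 2) ≤ C / t ∧
      |∑' n : ℤ, (s * n + θ) * Real.exp (-π * t ^ 2 * (s * n + θ) ^ 2)| ≤ C * t ^ 2 := by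
  let B : Matrix Unit Unit ℝ := fun _ _ => s
  have hB : B.det = s := Matrix.det_unique B
  let e := (Equiv.funUnique Unit ℤ).symm
  have h1 : ∀ n : ℤ, Stark.lpt B (e n) () = s * n := fun n => by
    simp [Stark.lpt, B, e, Matrix.mulVec, dotProduct]
  have h2 : ∀ t (n : ℤ), gq B (fun _ => θ) t (e n) = Real.exp (-π * t ^ 2 * (s * n + θ) ^ 2) :=
    fun t n => by simp only [gq, Finset.univ_unique, Finset.sum_singleton, ← h1]
  refine ⟨fun t ht => ?_, ?_⟩
  · obtain ⟨h3, h4⟩ := hG.sum B (fun _ => θ) t (hB ▸ hs.ne') ht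
    exact ⟨(e.summable_iff.2 h3).congr (h2 t),
      (e.summable_iff.2 (h4 ())).congr fun n => by simp only [Function.comp_apply, h1, h2]⟩
  · obtain ⟨C, h3, h4⟩ := hG.bd Unit s 2
    refine ⟨(1 + C) / s, by positivity, fun t ht ht1 => ?_⟩
    obtain ⟨h5, h6⟩ := h4 B (fun _ => θ) t (hB ▸ hs.ne') (fun _ _ => (abs_of_pos hs).le) ht ht1
    have h7 := h6 ()
    rw [← e.tsum_eq, hB, abs_of_pos hs] at h5 h7
    simp only [h1, h2, Fintype.card_unique, pow_one] at h5 h7
    have h8 : C * t ^ 2 / s ≤ C / s / t := by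
      rw [div_right_comm, mul_div_right_comm, div_right_comm, le_div_iff₀ ht, mul_assoc]
      exact mul_le_of_le_one_right (by positivity) (by nlinarith [pow_le_one₀ ht.le ht1 (n := 2)])
    constructor
    · rw [add_div, add_div, div_div 1]
      linarith [(abs_le.1 h5).2]
    · refine h7.trans ?_
      rw [mul_div_right_comm]
      gcongr
      linarith

end T1Aux

open T1Aux in
theorem t1St (hG : GaussSt) : T1St where
  deriv := der
  tail := tail
  sum s θ hs := by
    obtain ⟨h1, C, hC, h2⟩ := gauss hG θ hs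
    have h3 : ∀ t, 0 < t → Summable fun n : ℤ => |gg (t * (s * n + θ)) - sg (s * n + θ)| :=
      fun t ht => (h1 t ht).1.of_nonneg_of_le (fun _ => abs_nonneg _) fun _ => tail' ht _
    have h4 : ∀ t, 0 < t → HasDerivAt
        (fun t => ∑' n : ℤ, (gg (t * (s * n + θ)) - sg (s * n + θ)))
        (∑' n : ℤ, 2 * ((s * n + θ) * Real.exp (-π * t ^ 2 * (s * n + θ) ^ 2))) t := fun t ht => by
      refine hasDerivAt_tsum_of_isPreconnected
        (g' := fun (n : ℤ) t => 2 * ((s * n + θ) * Real.exp (-π * t ^ 2 * (s * n + θ) ^ 2)))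
        ((h1 (t / 2) (half_pos ht)).2.mul_left 2) isOpen_Ioi isPreconnected_Ioi
        (fun n y _ => ?_) (fun n y hy => ?_) (half_lt_self ht) (h3 t ht).of_abs (half_lt_self ht)
      · refine (((der _).comp y (hasDerivAt_mul_const (s * n + θ))).sub_const _).congr_deriv ?_
        rw [mul_pow, ← mul_assoc]
        ring
      · have hy' : t / 2 < y := hy
        rw [Real.norm_eq_abs, abs_mul, abs_mul, abs_two, abs_of_pos (Real.exp_pos _)]
        have : (t / 2) ^ 2 ≤ y ^ 2 := by gcongr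
        gcongr 2 * (_ * Real.exp ?_)
        nlinarith [mul_nonneg Real.pi_pos.le (mul_nonneg (sub_nonneg.2 this) (sq_nonneg (s * n + θ)))]
    obtain ⟨c, hc⟩ := helly (G := fun t => ∑' n : ℤ, (gg (t * (s * n + θ)) - sg (s * n + θ)))
      (D := 2 * C) (by positivity) fun a t ha hat ht => by
        have h5 := (convex_Icc a t).norm_image_sub_le_of_norm_hasDerivWithin_le
          (C := 2 * C * t ^ 2) (fun y hy => (h4 y (ha.trans_le hy.1)).hasDerivWithinAt)
          (fun y hy => by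
            rw [tsum_mul_left, Real.norm_eq_abs, abs_mul, abs_two, mul_assoc]
            have h6 := (h2 y (ha.trans_le hy.1) (hy.2.trans ht)).2
            have h7 : y ^ 2 ≤ t ^ 2 := pow_le_pow_left₀ (ha.le.trans hy.1) hy.2 2
            nlinarith [mul_le_mul_of_nonneg_left h7 hC])
          (Set.left_mem_Icc.2 hat) (Set.right_mem_Icc.2 hat)
        refine h5.trans ?_
        rw [Real.norm_eq_abs, abs_of_nonneg (sub_nonneg.2 hat), pow_succ t 2, ← mul_assoc]
        gcongr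
        linarith
    refine ⟨c, 2 * C, fun t ht ht1 => ⟨h3 t ht, hc t ht ht1, ?_⟩⟩
    refine ((h3 t ht).tsum_le_tsum (fun _ => tail' ht _) (h1 t ht).1).trans
      ((h2 t ht ht1).1.trans ?_)
    gcongr
    linarith

end Pool.Agent.CU
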