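import Pool.Agent.Lib.MP_ca56d1_nt.CU.U.St

/-! Theta series of cosets and of planes in a complex cubic field. -/

set_option linter.unusedSectionVars false

namespace Pool.Agent.CU

open Complex Filter Topology MeasureTheory Pool.Agent.RM
open scoped Real Classical

variable {K : Type} [Field K] [CharZero K] {ρ : K →+* ℝ} {σ : K →+* ℂ}

namespace T3Aux

/-- Sheared real coordinates on `K`. -/
noncomputable def cv (ρ : K →+* ℝ) (σ : K →+* ℂ) (p : ℝ) (c : ℂ) (x : K) : Fin 3 → ℝ :=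
  ![p * ρ x + (c * σ x).re, (σ x).re, (σ x).im]

/-- The matrix of a basis in the sheared coordinates. -/
noncomputable def bm (ρ : K →+* ℝ) (σ : K →+* ℂ) (p : ℝ) (c : ℂ) (v : Fin 3 → K) :
    Matrix (Fin 3) (Fin 3) ℝ := Matrix.of fun i j => cv ρ σ p c (v j) i

theorem det_bm (p : ℝ) (c : ℂ) (v : Fin 3 → K) :
    (bm ρ σ p c v).det = p * (bm ρ σ 1 0 v).det := by
  simp [bm, cv, Matrix.det_fin_three]
  ring

theorem lpt_bm (p : ℝ) (c : ℂ) (v : Fin 3 → K) (y : K) (k : Fin 3 → ℤ) (i : Fin 3) :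
    Stark.lpt (bm ρ σ p c v) k i + cv ρ σ p c y i =
      cv ρ σ p c (k 0 * v 0 + k 1 * v 1 + k 2 * v 2 + y) i := by
  fin_cases i <;>
    simp [Stark.lpt, bm, cv, Matrix.mulVec, dotProduct, Fin.sum_univ_three] <;> ring

theorem q3_eq (p : ℝ) (c : ℂ) (t : ℝ) (x : K) :
    q3 ρ σ p c t x = Real.exp (-π * t ^ 2 * ∑ i, cv ρ σ p c x i ^ 2) := by
  rw [q3, Complex.sq_norm, Complex.normSq_apply]
  simp only [cv, Fin.sum_univ_three, Matrix.cons_val_zero, Matrix.cons_val_one,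
    Matrix.cons_val_two, Matrix.head_cons, Matrix.tail_cons]
  congr 2
  ring

theorem exists_basis (hB : BasSt ρ σ) (h2 : Bas2 ρ σ) {L : Submodule ℤ K} (hL : Lt L) (y : K) :
    ∃ (v : Fin 3 → K) (e : (Fin 3 → ℤ) ≃ coset L y), (bm ρ σ 1 0 v).det ≠ 0 ∧
      ∀ k, (e k : K) = k 0 * v 0 + k 1 * v 1 + k 2 * v 2 + y := by
  obtain ⟨α, β, γ, h1, h3⟩ := h2.lt_basis L hL
  let f : (Fin 3 → ℤ) → coset L y := fun k => ⟨k 0 * α + k 1 * β + k 2 * γ + y, by
    change _ - y ∈ L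
    rw [add_sub_cancel_right]
    exact (h3 _).2 ⟨_, _, _, rfl⟩⟩
  have hf : Function.Bijective f := by
    refine ⟨fun k k' h => ?_, fun x => ?_⟩
    · have h4 : (k 0 : K) * α + k 1 * β + k 2 * γ + y = k' 0 * α + k' 1 * β + k' 2 * γ + y :=
        congrArg Subtype.val h
      obtain ⟨h5, h6, h7⟩ := h1 (k 0 - k' 0) (k 1 - k' 1) (k 2 - k' 2) (by
        push_cast
        linear_combination h4)
      funext i
      fin_cases i
      · exact sub_eq_zero.1 h5
      · exact sub_eq_zero.1 h6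
      · exact sub_eq_zero.1 h7
    · obtain ⟨i, j, k, h4⟩ := (h3 _).1 x.2
      refine ⟨![i, j, k], Subtype.ext ?_⟩
      change (i : K) * α + j * β + k * γ + y = x
      linear_combination -h4
  refine ⟨![α, β, γ], Equiv.ofBijective f hf, fun h0 => ?_, fun k => rfl⟩
  obtain ⟨w, hw, h4⟩ := Matrix.exists_vecMul_eq_zero_iff.2 h0
  have h5 := congrFun h4 0
  have h6 := congrFun h4 1
  have h7 := congrFun h4 2
  simp [Matrix.vecMul, dotProduct, bm, cv, Fin.sum_univ_three] at h5 h6 h7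
  obtain ⟨h8, h9⟩ := hB.uniq (w 0) ⟨w 1, -w 2⟩ fun x => by
    obtain ⟨n, hn, hx⟩ := hL.full x
    obtain ⟨i, j, k, e⟩ := (h3 _).1 hx
    have e1 := congrArg ρ e
    have e2 := congrArg (fun z => (σ z).re) e
    have e3 := congrArg (fun z => (σ z).im) e
    simp at e1 e2 e3
    refine mul_left_cancel₀ (Nat.cast_ne_zero.2 hn : (n : ℝ) ≠ 0) ?_
    simp only [mul_re]
    linear_combination w 0 * e1 + w 1 * e2 + w 2 * e3 + i * h5 + j * h6 + k * h7
  have h10 := congrArg Complex.re h9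
  have h11 := congrArg Complex.im h9
  simp at h10 h11
  refine hw (funext fun i => ?_)
  fin_cases i
  · exact h8
  · exact h10
  · exact h11

theorem gq_pos {ι : Type} [Fintype ι] (B : Matrix ι ι ℝ) (c : ι → ℝ) (t : ℝ) (k : ι → ℤ) :
    0 < gq B c t k := Real.exp_pos _

section

variable {L : Submodule ℤ K} {y : K} {v : Fin 3 → K} {e : (Fin 3 → ℤ) ≃ coset L y}
  (he : ∀ k, (e k : K) = k 0 * v 0 + k 1 * v 1 + k 2 * v 2 + y)
include he

theorem cv_e (p : ℝ) (c : ℂ) (k : Fin 3 → ℤ) (i : Fin 3) :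
    cv ρ σ p c (e k) i = Stark.lpt (bm ρ σ p c v) k i + cv ρ σ p c y i := by
  rw [lpt_bm, he]

theorem q3_e (p : ℝ) (c : ℂ) (t : ℝ) (k : Fin 3 → ℤ) :
    q3 ρ σ p c t (e k) = gq (bm ρ σ p c v) (cv ρ σ p c y) t k := by
  simp only [q3_eq, gq, cv_e he]

theorem sum_cv (hG : GaussSt) (hd : (bm ρ σ 1 0 v).det ≠ 0) {p t : ℝ} (c : ℂ) (hp : p ≠ 0)
    (ht : 0 < t) : (Summable fun x : coset L y => q3 ρ σ p c t x) ∧
      ∀ i, Summable fun x : coset L y => |cv ρ σ p c x i| * q3 ρ σ p c t x := by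
  obtain ⟨h1, h2⟩ := hG.sum (bm ρ σ p c v) (cv ρ σ p c y) t
    (by rw [det_bm]; exact mul_ne_zero hp hd) ht
  refine ⟨e.summable_iff.1 ?_, fun i => e.summable_iff.1 ?_⟩
  · simpa only [Function.comp_def, q3_e he] using h1
  · simpa only [Function.comp_def, q3_e he, cv_e he] using h2 i

end

theorem sum (hB : BasSt ρ σ) (h2 : Bas2 ρ σ) (hG : GaussSt) (L : Submodule ℤ K) (y : K) (p : ℝ)
    (c : ℂ) (t : ℝ) (hL : Lt L) (hp : p ≠ 0) (ht : 0 < t) :
    Summable fun x : coset L y => (1 + |ρ x| + ‖σ x‖) * q3 ρ σ p c t x := by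
  obtain ⟨v, e, hd, he⟩ := exists_basis hB h2 hL y
  obtain ⟨h1, h3⟩ := sum_cv he hG hd c hp ht
  have hq : ∀ x : K, 0 < q3 ρ σ p c t x := fun x => Real.exp_pos _
  have hp' : 0 < |p| := abs_pos.2 hp
  refine Summable.of_nonneg_of_le (fun x => mul_nonneg (by positivity) (hq x).le) (fun x => ?_)
    ((h1.add ((h3 0).mul_left |p|⁻¹)).add (((h3 1).add (h3 2)).mul_left (1 + |p|⁻¹ * ‖c‖)))
  have h4 : ‖σ x‖ ≤ |cv ρ σ p c x 1| + |cv ρ σ p c x 2| := Complex.norm_le_abs_re_add_abs_im _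
  have h5 : |p| * |ρ x| ≤ |cv ρ σ p c x 0| + ‖c‖ * ‖σ x‖ := by
    have h6 : p * ρ x = cv ρ σ p c x 0 - (c * σ x).re := by simp [cv]
    rw [← abs_mul, h6, ← norm_mul]
    exact (abs_sub _ _).trans (by gcongr; exact Complex.abs_re_le_norm _)
  have h6 : |ρ x| ≤ |p|⁻¹ * (|cv ρ σ p c x 0| +
      ‖c‖ * (|cv ρ σ p c x 1| + |cv ρ σ p c x 2|)) := by
    rw [le_inv_mul_iff₀ hp']
    exact h5.trans (by gcongr)
  have h7 := mul_le_mul_of_nonneg_right (add_le_add (add_le_add_right h6 1) h4) (hq x).le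
  refine h7.trans (le_of_eq ?_)
  ring

theorem bd (hB : BasSt ρ σ) (h2 : Bas2 ρ σ) (hG : GaussSt) (L : Submodule ℤ K) (y : K) (M : ℝ)
    (N : ℕ) (hL : Lt L) : ∃ A C : ℝ, ∀ p c t, 1 ≤ p → p ≤ M → ‖c‖ ≤ M → 0 < t → t ≤ 1 →
    |∑' x : coset L y, q3 ρ σ p c t x - A / (p * t ^ 3)| ≤ C * t ^ N ∧
    |∑' x : coset L y, ρ x * q3 ρ σ p c t x| ≤ C * t ^ N ∧
    ∀ c' : ℂ, ‖c'‖ ≤ M → |∑' x : coset L y, (c' * σ x).re * q3 ρ σ p c t x| ≤ C * t ^ N := by
  obtain ⟨v, e, hd, he⟩ := exists_basis hB h2 hL y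
  obtain ⟨C, hC, h1⟩ := hG.bd (Fin 3) (∑ j, M * (|ρ (v j)| + ‖σ (v j)‖)) N
  set D := |(bm ρ σ 1 0 v).det| with hD
  have hD0 : 0 < D := abs_pos.2 hd
  refine ⟨1 / D, (1 + 2 * M) * (C / D), fun p c t hp hM hc ht ht1 => ?_⟩
  have hp0 : 0 < p := one_pos.trans_le hp
  have hM1 : 1 ≤ M := hp.trans hM
  have hdet : |(bm ρ σ p c v).det| = p * D := by rw [det_bm, abs_mul, abs_of_pos hp0]
  obtain ⟨h3, h4⟩ := h1 (bm ρ σ p c v) (cv ρ σ p c y) t
    (by rw [det_bm]; exact mul_ne_zero hp0.ne' hd) (fun i j => by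
      refine le_trans ?_ (Finset.single_le_sum (f := fun j => M * (|ρ (v j)| + ‖σ (v j)‖))
        (fun j _ => by positivity) (Finset.mem_univ j))
      have h5 := Complex.abs_re_le_norm (σ (v j))
      have h6 := Complex.abs_im_le_norm (σ (v j))
      have h7 := abs_nonneg (ρ (v j))
      have h8 := norm_nonneg (σ (v j))
      have h9 : |p * ρ (v j) + (c * σ (v j)).re| ≤ M * (|ρ (v j)| + ‖σ (v j)‖) := by
        refine (abs_add_le _ _).trans ?_
        rw [abs_mul, abs_of_pos hp0, mul_add]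
        gcongr
        refine (Complex.abs_re_le_norm _).trans ?_
        rw [norm_mul]
        gcongr
      fin_cases i
      · exact h9
      · exact h5.trans (by nlinarith)
      · exact h6.trans (by nlinarith)) ht ht1
  set E := C / D * t ^ N with hE
  have hE0 : 0 ≤ E := by positivity
  have h5 : C * t ^ N / |(bm ρ σ p c v).det| ≤ E := by
    rw [hdet, hE, div_mul_eq_mul_div]
    exact div_le_div_of_nonneg_left (by positivity) hD0 (le_mul_of_one_le_left hD0.le hp)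
  obtain ⟨-, s2⟩ := sum_cv he hG hd c hp0.ne' ht
  have s3 : ∀ i, Summable fun x : coset L y => cv ρ σ p c x i * q3 ρ σ p c t x := fun i =>
    summable_abs_iff.1 ((s2 i).congr fun x => by
      rw [abs_mul, abs_of_pos (show 0 < q3 ρ σ p c t x from Real.exp_pos _)])
  set S : Fin 3 → ℝ := fun i => ∑' x : coset L y, cv ρ σ p c x i * q3 ρ σ p c t x with hS
  have h6 : ∀ i, |S i| ≤ E := fun i => by
    refine le_trans (le_of_eq ?_) ((h4 i).trans h5)
    simp only [hS]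
    rw [← e.tsum_eq]
    simp only [q3_e he, cv_e he]
  have h7 : ∀ c' : ℂ, ‖c'‖ ≤ M → |c'.re * S 1 - c'.im * S 2| ≤ 2 * M * E := fun c' hc' => by
    refine (abs_sub _ _).trans ?_
    rw [abs_mul, abs_mul]
    have h8 := mul_le_mul ((Complex.abs_re_le_norm c').trans hc') (h6 1) (abs_nonneg _)
      (by linarith)
    have h9 := mul_le_mul ((Complex.abs_im_le_norm c').trans hc') (h6 2) (abs_nonneg _)
      (by linarith)
    linarith
  rw [mul_assoc, ← hE]
  refine ⟨?_, ?_, fun c' hc' => ?_⟩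
  · rw [← e.tsum_eq]
    simp only [q3_e he]
    rw [hdet, Fintype.card_fin] at h3
    rw [show 1 / D / (p * t ^ 3) = 1 / (p * D * t ^ 3) by field_simp]
    rw [hdet] at h5
    nlinarith
  · have h8 := ((s3 0).hasSum.sub (((s3 1).hasSum.mul_left c.re).sub
      ((s3 2).hasSum.mul_left c.im))).mul_left p⁻¹
    have h9 : ∑' x : coset L y, ρ x * q3 ρ σ p c t x = p⁻¹ * (S 0 - (c.re * S 1 - c.im * S 2)) := by
      rw [← h8.tsum_eq]
      refine tsum_congr fun x => ?_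
      simp [cv]
      field_simp
      ring
    rw [h9, abs_mul, abs_of_pos (inv_pos.2 hp0)]
    refine (mul_le_of_le_one_left (abs_nonneg _) (inv_le_one_of_one_le₀ hp)).trans
      ((abs_sub _ _).trans ?_)
    have := h6 0
    have := h7 c hc
    linarith
  · have h8 := ((s3 1).hasSum.mul_left c'.re).sub ((s3 2).hasSum.mul_left c'.im)
    have h9 : ∑' x : coset L y, (c' * σ x).re * q3 ρ σ p c t x = c'.re * S 1 - c'.im * S 2 := by
      rw [← h8.tsum_eq]
      refine tsum_congr fun x => ?_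
      simp [cv]
      ring
    rw [h9]
    have := h7 c' hc'
    linarith

theorem low (hB : BasSt ρ σ) (h2 : Bas2 ρ σ) (hG : GaussSt) (L : Submodule ℤ K) (y : K)
    (hL : Lt L) (hy : y ∉ L) : ∃ μ : ℝ, 0 < μ ∧ ∀ x ∈ coset L y, μ ≤ ρ x ^ 2 + ‖σ x‖ ^ 2 := by
  obtain ⟨v, e, hd, he⟩ := exists_basis hB h2 hL y
  have h1 := (sum_cv he hG hd 0 one_ne_zero one_pos).1.tendsto_cofinite_zero.eventually_lt_const
    (Real.exp_pos (-π))
  have h3 : {x : coset L y | ρ x ^ 2 + ‖σ x‖ ^ 2 ≤ 1}.Finite := by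
    refine (eventually_cofinite.1 h1).subset fun x hx => ?_
    simp only [Set.mem_ofPred_eq, q3, not_lt, Real.exp_le_exp, one_mul, zero_mul, zero_re,
      add_zero, one_pow, mul_one] at hx ⊢
    nlinarith [Real.pi_pos]
  have h4 : ∀ x : coset L y, 0 < ρ x ^ 2 + ‖σ x‖ ^ 2 := fun x => by
    have h5 : (x : K) ≠ 0 := fun h => hy (by
      have h6 : (x : K) - y ∈ L := x.2
      rwa [h, zero_sub, neg_mem_iff] at h6)
    have := norm_pos_iff.2 ((map_ne_zero σ).2 h5)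
    positivity
  rcases Set.eq_empty_or_nonempty {x : coset L y | ρ x ^ 2 + ‖σ x‖ ^ 2 ≤ 1} with h | h
  · exact ⟨1, one_pos, fun x hx => (not_le.1 (Set.eq_empty_iff_forall_notMem.1 h ⟨x, hx⟩)).le⟩
  · obtain ⟨x₀, h5, h6⟩ := Set.exists_min_image _
      (fun x : coset L y => ρ x ^ 2 + ‖σ x‖ ^ 2) h3 h
    refine ⟨_, h4 x₀, fun x hx => ?_⟩
    by_cases h7 : ρ x ^ 2 + ‖σ x‖ ^ 2 ≤ 1
    · exact h6 ⟨x, hx⟩ h7
    · exact le_trans h5 (not_le.1 h7).le

theorem pln (h2 : Bas2 ρ σ) (hG : GaussSt) (L : Submodule ℤ K) (b : K →ₗ[ℚ] ℚ) (N : ℕ)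
    (hL : Lt L) (hb : b ≠ 0) : ∃ A C : ℝ, ∀ y r (t : ℝ), 0 < t →
    (Summable fun x : plane (coset L y) b r => Real.exp (-π * t ^ 2 * ‖σ x‖ ^ 2)) ∧
    ((plane (coset L y) b r).Nonempty → t ≤ 1 →
      |∑' x : plane (coset L y) b r, Real.exp (-π * t ^ 2 * ‖σ x‖ ^ 2) - A / t ^ 2| ≤
        C * t ^ N) := by
  obtain ⟨β, γ, hγ, hβ, h1⟩ := h2.pl_basis L b hL hb
  set B : Matrix (Fin 2) (Fin 2) ℝ := !![(σ β).re, (σ γ).re; (σ β).im, (σ γ).im] with hB
  have hd : B.det ≠ 0 := fun h => hβ (by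
    rw [hB, Matrix.det_fin_two_of] at h
    rw [ht, Complex.div_im, ← sub_div, div_eq_zero_iff]
    exact Or.inl (by linarith))
  obtain ⟨C, -, h3⟩ := hG.bd (Fin 2) (‖σ β‖ + ‖σ γ‖) N
  refine ⟨1 / |B.det|, C / |B.det|, fun y r t ht => ?_⟩
  rcases (plane (coset L y) b r).eq_empty_or_nonempty with h | ⟨x₀, hx₀⟩
  · rw [h]
    exact ⟨summable_empty, fun h => absurd h Set.not_nonempty_empty⟩
  have hm : ∀ x, x ∈ plane (coset L y) b r ↔ x - x₀ ∈ L ∧ b (x - x₀) = 0 := fun x => by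
    have h4 : x₀ - y ∈ L := hx₀.1
    rw [map_sub, hx₀.2, sub_eq_zero]
    refine and_congr_left' ?_
    change x - y ∈ L ↔ _
    rw [← L.sub_mem_iff_left h4, sub_sub_sub_cancel_right]
  let f : (Fin 2 → ℤ) → plane (coset L y) b r := fun k => ⟨k 0 * β + k 1 * γ + x₀, by
    rw [hm, add_sub_cancel_right]
    exact (h1 _).2 ⟨_, _, rfl⟩⟩
  have hf : Function.Bijective f := by
    refine ⟨fun k k' h => ?_, fun x => ?_⟩
    · have h4 : (k 0 : K) * β + k 1 * γ + x₀ = k' 0 * β + k' 1 * γ + x₀ := congrArg Subtype.val h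
      have h5 := congrArg (fun z => (σ z).re) h4
      have h6 := congrArg (fun z => (σ z).im) h4
      rw [hB, Matrix.det_fin_two_of] at hd
      simp at h5 h6
      have h7 : (k 0 : ℝ) = k' 0 := mul_left_cancel₀ hd (by
        linear_combination (σ γ).im * h5 - (σ γ).re * h6)
      have h8 : (k 1 : ℝ) = k' 1 := mul_left_cancel₀ hd (by
        linear_combination (σ β).re * h6 - (σ β).im * h5)
      funext i
      fin_cases i
      · exact Int.cast_injective h7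
      · exact Int.cast_injective h8
    · obtain ⟨j, k, h4⟩ := (h1 _).1 ((hm x).1 x.2)
      refine ⟨![j, k], Subtype.ext ?_⟩
      change (j : K) * β + k * γ + x₀ = x
      linear_combination -h4
  have h4 : ∀ k, Real.exp (-π * t ^ 2 * ‖σ (Equiv.ofBijective f hf k)‖ ^ 2) =
      gq B ![(σ x₀).re, (σ x₀).im] t k := fun k => by
    change Real.exp (-π * t ^ 2 * ‖σ (k 0 * β + k 1 * γ + x₀)‖ ^ 2) = _
    rw [gq, Complex.sq_norm, Complex.normSq_apply]
    congr 2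
    simp [Stark.lpt, hB, Matrix.mulVec, dotProduct, Fin.sum_univ_two]
    ring
  refine ⟨(Equiv.ofBijective f hf).summable_iff.1 ?_, fun _ ht1 => ?_⟩
  · simpa only [Function.comp_def, h4] using (hG.sum B _ t hd ht).1
  · have h5 := (h3 B ![(σ x₀).re, (σ x₀).im] t hd (fun i j => by
      have := Complex.abs_re_le_norm (σ β)
      have := Complex.abs_im_le_norm (σ β)
      have := Complex.abs_re_le_norm (σ γ)
      have := Complex.abs_im_le_norm (σ γ)
      have := norm_nonneg (σ β)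
      have := norm_nonneg (σ γ)
      fin_cases i <;> fin_cases j <;> simp [hB] <;> linarith) ht ht1).1
    rw [← (Equiv.ofBijective f hf).tsum_eq]
    simp only [h4]
    rw [Fintype.card_fin] at h5
    rwa [div_div, div_mul_eq_mul_div]

end T3Aux

theorem t3St (hB : BasSt ρ σ) (h2 : Bas2 ρ σ) (hG : GaussSt) : T3St ρ σ :=
  ⟨T3Aux.sum hB h2 hG, T3Aux.bd hB h2 hG, T3Aux.low hB h2 hG, T3Aux.pln h2 hG⟩

end Pool.Agent.CU
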