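import Pool.Agent.Lib.MP_ca56d1_nt.CU.U.St

/-! Bounds for the Hecke theta series on a strip. -/

namespace Pool.Agent.CU

open Complex Filter Topology MeasureTheory Pool.Agent.RM
open scoped Real Classical

variable {K : Type} [Field K] [CharZero K] {ρ : K →+* ℝ} {σ : K →+* ℂ}

namespace T3BAux

omit [CharZero K] in
theorem q3_eq (x x' : ℝ) (z : K) : q3 ρ σ (Real.exp (x - x')) 0 (Real.exp x') z =
    Real.exp (-π * ((Real.exp x * ρ z) ^ 2 + (Real.exp x' * ‖σ z‖) ^ 2)) := by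
  have e : Real.exp x = Real.exp x' * Real.exp (x - x') := by
    rw [← Real.exp_add]
    congr 1
    ring
  rw [q3]
  congr 1
  rw [e]
  simp only [zero_mul, zero_re, add_zero]
  ring

omit [CharZero K] in
theorem q3_one (m : ℝ) (z : K) : q3 ρ σ 1 0 (Real.exp m) z =
    Real.exp (-π * Real.exp m ^ 2 * (ρ z ^ 2 + ‖σ z‖ ^ 2)) := by
  simp [q3]

omit [CharZero K] in
theorem pow_le {j : ℕ} (hj : j ≤ 1) {x M : ℝ} (hx : x ≤ M) (z : K) :
    |Real.exp x * ρ z| ^ j ≤ (1 + Real.exp M) * (1 + |ρ z| + ‖σ z‖) := by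
  have h1 := Real.exp_le_exp.2 hx
  have h2 := Real.exp_pos x
  have h3 := abs_nonneg (ρ z)
  have h4 := norm_nonneg (σ z)
  interval_cases j
  · rw [pow_zero]
    nlinarith
  · rw [pow_one, abs_mul, abs_of_pos h2]
    nlinarith

omit [CharZero K] in
theorem exp_le {x x' m : ℝ} (hx : m ≤ x) (hx' : m ≤ x') (z : K) :
    Real.exp (-π * ((Real.exp x * ρ z) ^ 2 + (Real.exp x' * ‖σ z‖) ^ 2)) ≤
      Real.exp (-π * Real.exp m ^ 2 * (ρ z ^ 2 + ‖σ z‖ ^ 2)) := by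
  have h1 : Real.exp m ^ 2 ≤ Real.exp x ^ 2 := by gcongr
  have h2 : Real.exp m ^ 2 ≤ Real.exp x' ^ 2 := by gcongr
  have h3 := mul_le_mul_of_nonneg_right h1 (sq_nonneg (ρ z))
  have h4 := mul_le_mul_of_nonneg_right h2 (sq_nonneg ‖σ z‖)
  rw [Real.exp_le_exp, mul_pow, mul_pow, mul_assoc (-π), neg_mul, neg_mul, neg_le_neg_iff]
  exact mul_le_mul_of_nonneg_left (by linarith) Real.pi_pos.le

omit [CharZero K] in
theorem term_le {j : ℕ} (hj : j ≤ 1) {x x' m M : ℝ} (hx : m ≤ x) (hx' : m ≤ x') (hM : x ≤ M)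
    (z : K) : |Real.exp x * ρ z| ^ j *
      Real.exp (-π * ((Real.exp x * ρ z) ^ 2 + (Real.exp x' * ‖σ z‖) ^ 2)) ≤
      (1 + Real.exp M) * ((1 + |ρ z| + ‖σ z‖) * q3 ρ σ 1 0 (Real.exp m) z) := by
  rw [q3_one, ← mul_assoc]
  exact mul_le_mul (pow_le hj hM z) (exp_le hx hx' z) (Real.exp_pos _).le (by positivity)

omit [CharZero K] in
theorem norm_term (j : ℕ) (x x' : ℝ) (z : K) : ‖(Real.exp x * ρ z) ^ j *
      Real.exp (-π * ((Real.exp x * ρ z) ^ 2 + (Real.exp x' * ‖σ z‖) ^ 2))‖ =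
    |Real.exp x * ρ z| ^ j *
      Real.exp (-π * ((Real.exp x * ρ z) ^ 2 + (Real.exp x' * ‖σ z‖) ^ 2)) := by
  rw [norm_mul, norm_pow, Real.norm_eq_abs, Real.norm_eq_abs, abs_of_pos (Real.exp_pos _)]

theorem cont (h3 : T3St ρ σ) {L : Submodule ℤ K} (y : K) (hL : Lt L) {j : ℕ} (hj : j ≤ 1) :
    Continuous fun v : ℝ × ℝ => th3 ρ σ (coset L y) j v.1 v.2 := by
  refine continuous_iff_continuousAt.2 fun v => ?_
  have hs := (h3.sum L y 1 0 (Real.exp (min v.1 v.2 - 1)) hL one_ne_zero (Real.exp_pos _)).mul_left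
    (1 + Real.exp (v.1 + 1))
  have key : ContinuousOn (fun v : ℝ × ℝ => th3 ρ σ (coset L y) j v.1 v.2) (Metric.ball v 1) := by
    refine continuousOn_tsum (fun z => Continuous.continuousOn (by fun_prop)) hs fun z w hw => ?_
    rw [Metric.mem_ball, Prod.dist_eq, max_lt_iff, Real.dist_eq, Real.dist_eq, abs_lt,
      abs_lt] at hw
    have := min_le_left v.1 v.2
    have := min_le_right v.1 v.2
    rw [norm_term]
    exact term_le hj (by linarith [hw.1.1]) (by linarith [hw.2.1]) (by linarith [hw.1.2]) _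
  exact key.continuousAt (Metric.ball_mem_nhds v one_pos)

theorem summ (h3 : T3St ρ σ) {L : Submodule ℤ K} (y : K) (hL : Lt L) {j : ℕ} (hj : j ≤ 1)
    (x x' : ℝ) : Summable fun z : coset L y => |Real.exp x * ρ z| ^ j *
      Real.exp (-π * ((Real.exp x * ρ z) ^ 2 + (Real.exp x' * ‖σ z‖) ^ 2)) :=
  Summable.of_nonneg_of_le (fun _ => by positivity)
    (fun z => term_le hj (min_le_left x x') (min_le_right x x') le_rfl (z : K))
    ((h3.sum L y 1 0 (Real.exp (min x x')) hL one_ne_zero (Real.exp_pos _)).mul_left _)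

theorem big (h3 : T3St ρ σ) {L : Submodule ℤ K} {y : K} (hL : Lt L) (hy : y ∉ L) (l R : ℝ) :
    ∃ C : ℝ, 0 ≤ C ∧ ∀ u τ : ℝ, 0 ≤ u → u ≤ l → 0 ≤ τ → ∀ j ≤ 1,
      |th3 ρ σ (coset L y) j (τ + 2 * u) (τ - u)| ≤ C * Real.exp (-R * τ) := by
  obtain ⟨μ, hμ, hlow⟩ := h3.low L y hL hy
  have hs := h3.sum L y 1 0 (Real.exp (-l)) hL one_ne_zero (Real.exp_pos _)
  set b : ℝ := π * Real.exp (-l) ^ 2 * μ with hb
  have hb0 : 0 < b := by positivity
  set D : ℝ := (1 + Real.exp (2 * l)) * Real.exp ((R + 1) ^ 2 / (4 * b)) with hD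
  have hD0 : 0 ≤ D := by positivity
  have hq : ∀ z : K, 0 ≤ (1 + |ρ z| + ‖σ z‖) * q3 ρ σ 1 0 (Real.exp (-l)) z := fun z => by
    rw [q3_one]
    positivity
  refine ⟨D * ∑' z : coset L y, (1 + |ρ z| + ‖σ z‖) * q3 ρ σ 1 0 (Real.exp (-l)) z,
    mul_nonneg hD0 (tsum_nonneg fun z => hq z), fun u τ hu hul hτ j hj => ?_⟩
  rw [mul_right_comm, ← tsum_mul_left, ← Real.norm_eq_abs]
  refine tsum_of_norm_bounded (hs.mul_left _).hasSum fun z => ?_
  rw [norm_term]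
  refine (term_le hj (m := τ - l) (M := τ + 2 * l) (by linarith) (by linarith) (by linarith)
    _).trans ?_
  have h1 := hlow z z.2
  have h2 : 1 + τ ^ 2 ≤ Real.exp τ ^ 2 := by
    have := Real.quadratic_le_exp_of_nonneg (x := 2 * τ) (by linarith)
    rw [← Real.exp_nat_mul]
    push_cast
    nlinarith
  have h4 : q3 ρ σ 1 0 (Real.exp (τ - l)) z ≤
      Real.exp (-(b * τ ^ 2)) * q3 ρ σ 1 0 (Real.exp (-l)) z := by
    rw [q3_one, q3_one, ← Real.exp_add, Real.exp_le_exp, sub_eq_add_neg, Real.exp_add, mul_pow, hb]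
    have h5 : 0 < π * Real.exp (-l) ^ 2 := by positivity
    have h6 : τ ^ 2 * μ + (ρ z ^ 2 + ‖σ z‖ ^ 2) ≤ Real.exp τ ^ 2 * (ρ z ^ 2 + ‖σ z‖ ^ 2) := by
      nlinarith [mul_le_mul_of_nonneg_left h1 (sq_nonneg τ),
        mul_le_mul_of_nonneg_right h2 (hμ.le.trans h1)]
    nlinarith [mul_le_mul_of_nonneg_left h6 h5.le]
  have h7 : (1 + Real.exp (τ + 2 * l)) * Real.exp (-(b * τ ^ 2)) ≤ D * Real.exp (-R * τ) := by
    have h8 : 1 + Real.exp (τ + 2 * l) ≤ (1 + Real.exp (2 * l)) * Real.exp τ := by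
      rw [Real.exp_add]
      nlinarith [Real.one_le_exp hτ]
    have h9 : Real.exp τ * Real.exp (-(b * τ ^ 2)) ≤
        Real.exp ((R + 1) ^ 2 / (4 * b)) * Real.exp (-R * τ) := by
      rw [← Real.exp_add, ← Real.exp_add, Real.exp_le_exp]
      have : (R + 1) * τ - b * τ ^ 2 ≤ (R + 1) ^ 2 / (4 * b) := by
        rw [le_div_iff₀ (by positivity)]
        nlinarith [sq_nonneg (R + 1 - 2 * b * τ)]
      linarith
    calc _ ≤ (1 + Real.exp (2 * l)) * Real.exp τ * Real.exp (-(b * τ ^ 2)) := by gcongr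
      _ = (1 + Real.exp (2 * l)) * (Real.exp τ * Real.exp (-(b * τ ^ 2))) := by ring
      _ ≤ (1 + Real.exp (2 * l)) * (Real.exp ((R + 1) ^ 2 / (4 * b)) * Real.exp (-R * τ)) := by
        gcongr
      _ = _ := by rw [hD]; ring
  calc _ ≤ (1 + Real.exp (τ + 2 * l)) * ((1 + |ρ z| + ‖σ z‖) *
        (Real.exp (-(b * τ ^ 2)) * q3 ρ σ 1 0 (Real.exp (-l)) z)) := by gcongr
    _ = (1 + Real.exp (τ + 2 * l)) * Real.exp (-(b * τ ^ 2)) *
        ((1 + |ρ z| + ‖σ z‖) * q3 ρ σ 1 0 (Real.exp (-l)) z) := by ring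
    _ ≤ _ := mul_le_mul_of_nonneg_right h7 (hq z)

theorem uniq {A C : ℝ} (h : ∀ t : ℝ, 0 < t → t ≤ 1 → |A / t ^ 3| ≤ C) : A = 0 := by
  by_contra hA
  have h0 : 0 < |A| := abs_pos.2 hA
  have h1 : |A| ≤ C := by simpa using h 1 one_pos le_rfl
  have hC : 0 < C := h0.trans_le h1
  have ht : 0 < |A| / (2 * C) := by positivity
  have ht1 : |A| / (2 * C) ≤ 1 := by
    rw [div_le_one (by positivity)]
    linarith
  have h2 := h _ ht ht1
  rw [abs_div, abs_of_pos (pow_pos ht 3), div_le_iff₀ (pow_pos ht 3)] at h2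
  have h3 : (|A| / (2 * C)) ^ 3 ≤ |A| / (2 * C) := pow_le_of_le_one ht.le ht1 (by norm_num)
  have h4 : C * (|A| / (2 * C)) = |A| / 2 := by field_simp
  nlinarith [mul_le_mul_of_nonneg_left h3 hC.le]

theorem small (h3 : T3St ρ σ) {L : Submodule ℤ K} (y : K) (hL : Lt L) (l : ℝ) :
    ∃ A : ℝ, ∀ R : ℝ, ∃ C : ℝ, 0 ≤ C ∧ ∀ u τ : ℝ, 0 ≤ u → u ≤ l → τ ≤ 0 →
      |th3 ρ σ (coset L y) 0 (τ + 2 * u) (τ - u) - A * Real.exp (-3 * τ)| ≤
          C * Real.exp (R * τ) ∧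
        |th3 ρ σ (coset L y) 1 (τ + 2 * u) (τ - u)| ≤ C * Real.exp (R * τ) := by
  have hM : 1 ≤ Real.exp (3 * |l|) := Real.one_le_exp (by positivity)
  obtain ⟨A, C₀, h0⟩ := h3.bd L y (Real.exp (3 * |l|)) 0 hL
  refine ⟨A, fun R => ?_⟩
  obtain ⟨A', C, h1⟩ := h3.bd L y (Real.exp (3 * |l|)) ⌈R⌉₊ hL
  have hz : ‖(0 : ℂ)‖ ≤ Real.exp (3 * |l|) := by
    rw [norm_zero]
    positivity
  have hA : A = A' := by
    refine sub_eq_zero.1 (uniq (C := |C₀| + |C|) fun t ht ht1 => ?_)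
    have h4 := (h0 1 0 t le_rfl hM hz ht ht1).1
    have h5 := (h1 1 0 t le_rfl hM hz ht ht1).1
    have h6 : C * t ^ ⌈R⌉₊ ≤ |C| := by
      have := pow_le_one₀ (n := ⌈R⌉₊) ht.le ht1
      have h7 := pow_pos ht ⌈R⌉₊
      nlinarith [le_abs_self C, abs_nonneg C]
    rw [one_mul] at h4 h5
    rw [pow_zero, mul_one] at h4
    have h8 := le_abs_self C₀
    rw [sub_div, abs_le]
    rw [abs_le] at h4 h5
    constructor <;> linarith [h4.1, h4.2, h5.1, h5.2]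
  subst hA
  refine ⟨Real.exp (2 * |l|) * |C|, by positivity, fun u τ hu hul hτ => ?_⟩
  have hl := le_abs_self l
  have e1 : τ + 2 * u - (τ - u) = 3 * u := by ring
  obtain ⟨h4, h5, -⟩ := h1 (Real.exp (τ + 2 * u - (τ - u))) 0 (Real.exp (τ - u))
    (Real.one_le_exp (by linarith)) (Real.exp_le_exp.2 (by linarith)) hz (Real.exp_pos _)
    (Real.exp_le_one_iff.2 (by linarith))
  simp only [q3_eq] at h4 h5
  have h6 : C * Real.exp (τ - u) ^ ⌈R⌉₊ ≤ |C| * Real.exp (R * τ) := by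
    refine mul_le_mul (le_abs_self C) ?_ (by positivity) (abs_nonneg C)
    rw [← Real.exp_nat_mul, Real.exp_le_exp]
    have h7 := Nat.le_ceil R
    have h8 : (0 : ℝ) ≤ ⌈R⌉₊ := Nat.cast_nonneg _
    nlinarith
  have h9 : 1 ≤ Real.exp (2 * |l|) := Real.one_le_exp (by positivity)
  have h10 : 0 ≤ |C| * Real.exp (R * τ) := by positivity
  constructor
  · have e2 : A / (Real.exp (τ + 2 * u - (τ - u)) * Real.exp (τ - u) ^ 3) =
        A * Real.exp (-3 * τ) := by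
      rw [← Real.exp_nat_mul, ← Real.exp_add, div_eq_mul_inv, ← Real.exp_neg]
      congr 2
      push_cast
      ring
    rw [e2] at h4
    simp only [th3, pow_zero, one_mul]
    nlinarith
  · simp only [th3, pow_one, mul_assoc (Real.exp (τ + 2 * u))]
    rw [tsum_mul_left, abs_mul, abs_of_pos (Real.exp_pos _), mul_assoc]
    exact mul_le_mul (Real.exp_le_exp.2 (by linarith)) (h5.trans h6) (abs_nonneg _)
      (Real.exp_pos _).le

end T3BAux

theorem t3B (h3 : T3St ρ σ) : T3B ρ σ := by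
  intro L y l hL hy
  refine ⟨fun j hj => T3BAux.cont h3 y hL hj, fun j hj => T3BAux.summ h3 y hL hj, ?_⟩
  obtain ⟨A, hA⟩ := T3BAux.small h3 y hL l
  refine ⟨A, fun R => ?_⟩
  obtain ⟨C, hC, h1⟩ := hA R
  obtain ⟨C', hC', h2⟩ := T3BAux.big h3 hL hy l R
  refine ⟨C + C', fun u τ hu hul => ⟨fun hτ j hj => (h2 u τ hu hul hτ j hj).trans ?_,
    fun hτ => ⟨(h1 u τ hu hul hτ).1.trans ?_, (h1 u τ hu hul hτ).2.trans ?_⟩⟩⟩ <;>
  exact mul_le_mul_of_nonneg_right (by linarith) (Real.exp_pos _).le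

end Pool.Agent.CU
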