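import Pool.Agent.Lib.MP_ca56d1_nt.CU.U.St

/-! Change of the half space in theta functions and in elliptic gamma functions. -/

namespace Pool.Agent.CU

open Complex Filter Topology MeasureTheory Pool.Agent.RM
open scoped Real Classical

variable {K : Type} [Field K] [CharZero K] {ρ : K →+* ℝ} {σ : K →+* ℂ}

namespace TL1Aux

theorem hs_inter {b : K →ₗ[ℚ] ℚ} {Y Y' : Set K} (h : HS b Y) (h' : HS b Y') : HS b (Y ∩ Y') := by
  obtain ⟨A₀, A₁, h1, h2⟩ := h.bd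
  obtain ⟨B₀, B₁, -, h4⟩ := h'.bd
  exact ⟨fun x y e hx => ⟨h.sat x y e hx.1, h'.sat x y e hx.2⟩, A₀, max A₁ B₁,
    fun x hx => h1 x hx.1, fun x hx => ⟨h2 x (max_lt_iff.1 hx).1, h4 x (max_lt_iff.1 hx).2⟩⟩

theorem nested (hE : EqvSt σ) (hP : LpSt σ) (hA : AdmSt σ) {L : Submodule ℤ K} {y γ : K}
    {a b : K →ₗ[ℚ] ℚ} {r : ℚ} {Y Y' : Set K} (hL : Lt L) (hγ : γ ∈ L) (h : Ori σ γ a b)
    (hY : HS b Y) (hY' : HS b Y') (hs : Y ⊆ Y') :
    Eqv σ 1 (th σ γ (plane (coset L y) a r) Y') (th σ γ (plane (coset L y) a r) Y) := by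
  obtain ⟨A₀, A₁, -, h2⟩ := hY.bd
  obtain ⟨B₀, B₁, h3, -⟩ := hY'.bd
  have e : ∀ Z, HS b Z → ∀ x, x + γ ∈ Z ↔ x ∈ Z := fun Z hZ x =>
    ⟨hZ.sat _ _ (by simp [h.kb]), hZ.sat _ _ (by simp [h.kb])⟩
  obtain ⟨f1, f2, -, -, f3, -⟩ := hP.fin γ (plane (coset L y) a r ∩ (Y' \ Y)) h.ne
    (fun x => and_congr (and_congr (by
      change x + γ - y ∈ L ↔ x - y ∈ L
      rw [add_sub_right_comm, L.add_mem_iff_left hγ]) (by simp [h.ka]))
      (and_congr (e _ hY' x) (not_congr (e _ hY x))))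
    ((hA.box L y γ a b r r B₀ A₁ hL hγ h).subset (Set.image_mono fun x hx =>
      ⟨hx.1.1, hx.1.2.ge, hx.1.2.le, (h3 x hx.2.1).le, not_lt.1 (mt (h2 x) hx.2.2)⟩))
  obtain ⟨-, g1, -⟩ := hP.union γ _ _ (hA.half L y γ a b r Y' hL hγ h hY').1 f1
    (Set.disjoint_left.2 fun x h1 h2 => h1.2 h2.2.1)
  obtain ⟨-, g2, -⟩ := hP.union (-γ) _ _ (hA.half L y γ a b r Y hL hγ h hY).2 f2
    (Set.disjoint_left.2 fun x h1 h2 => h2.2.2 h1.2)
  have e1 : ∀ E : Set K, E \ Y' ∪ E ∩ (Y' \ Y) = E \ Y := fun E => Set.ext fun x => by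
    have := @hs x
    simp only [Set.mem_union, Set.mem_inter_iff, Set.mem_sdiff]
    tauto
  have e2 : ∀ E : Set K, E ∩ Y ∪ E ∩ (Y' \ Y) = E ∩ Y' := fun E => Set.ext fun x => by
    have := @hs x
    simp only [Set.mem_union, Set.mem_inter_iff, Set.mem_sdiff]
    tauto
  rw [e1] at g1
  rw [e2] at g2
  convert hE.mul 1 _ _ _ _ (hE.refl 1 fun w => lp σ γ (plane (coset L y) a r \ Y') w *
    lp σ (-γ) (plane (coset L y) a r ∩ Y) w) f3 using 2 with w w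
  · rw [th, g2, mul_assoc]
  · rw [th, g1, mul_right_comm]

omit [CharZero K] in
theorem lp_union (hP : LpSt σ) {γ : K} {T : Set K} (hT : Adm σ γ T) {ι : Type} (s : Finset ι)
    (P : ι → Set K) (h1 : ∀ r, Adm σ γ (P r)) (h2 : ∀ r ∈ s, Disjoint T (P r))
    (h3 : ∀ r r', r ≠ r' → Disjoint (P r) (P r')) : Adm σ γ (T ∪ ⋃ r ∈ s, P r) ∧
      ∀ w, lp σ γ (T ∪ ⋃ r ∈ s, P r) w = lp σ γ T w * ∏ r ∈ s, lp σ γ (P r) w := by
  induction s using Finset.induction_on with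
  | empty => simpa using hT
  | insert r s hr ih =>
    obtain ⟨a1, a2⟩ := ih fun r' h => h2 r' (Finset.mem_insert_of_mem h)
    obtain ⟨b1, b2, -⟩ := hP.union γ _ _ a1 (h1 r) (Set.disjoint_union_left.2
      ⟨h2 r (Finset.mem_insert_self _ _), Set.disjoint_iUnion₂_left.2 fun r' h =>
        h3 r' r fun e => hr (e ▸ h)⟩)
    rw [Finset.set_biUnion_insert, Set.union_comm (P r), ← Set.union_assoc]
    exact ⟨b1, fun w => by rw [b2, a2, Finset.prod_insert hr]; ring⟩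

end TL1Aux

open TL1Aux in
theorem tl1St (_h2 : Bas2 ρ σ) (hE : EqvSt σ) (hP : LpSt σ) (hA : AdmSt σ) : TL1St σ :=
  fun _ _ _ _ _ _ _ _ hL hγ h hY hY' => hE.trans _ _ _ _
    (nested hE hP hA hL hγ h (hs_inter hY hY') hY Set.inter_subset_left)
    (hE.symm _ _ _ (nested hE hP hA hL hγ h (hs_inter hY hY') hY' Set.inter_subset_right))

open TL1Aux in
theorem stepSt (hP : LpSt σ) (hA : AdmSt σ) : StepSt σ := by
  intro L y γ a b X X' Y hL hγ h hX hX' hY hs s he w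
  have a1 := (lp_union hP (hA.wedge L y γ a b X Y hL hγ h hX hY).1 s
    (fun r => plane (coset L y) a r \ Y) (fun r => (hA.half L y γ a b r Y hL hγ h hY).1)
    (fun r hr => Set.disjoint_left.2 fun x h1 h2 =>
      ((he x h1.1).2 (h2.1.2 ▸ hr)).2 h1.2.1)
    fun r r' hr => Set.disjoint_left.2 fun x h1 h2 => hr (h1.1.2.symm.trans h2.1.2)).2 w
  have a2 := (lp_union hP (hA.wedge L y γ a b X' Y hL hγ h hX' hY).2 s
    (fun r => plane (coset L y) a r ∩ Y) (fun r => (hA.half L y γ a b r Y hL hγ h hY).2)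
    (fun r hr => Set.disjoint_left.2 fun x h1 h2 =>
      h1.2.2 ((he x h1.1).2 (h2.1.2 ▸ hr)).1)
    fun r r' hr => Set.disjoint_left.2 fun x h1 h2 => hr (h1.1.2.symm.trans h2.1.2)).2 w
  have e1 : coset L y ∩ (X \ Y) ∪ ⋃ r ∈ s, plane (coset L y) a r \ Y = coset L y ∩ (X' \ Y) :=
    Set.ext fun x => by
      have := @hs x
      have := he x
      simp only [Set.mem_union, Set.mem_inter_iff, Set.mem_sdiff, Set.mem_iUnion, plane,
        Set.mem_ofPred_eq, exists_prop]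
      grind
  have e2 : coset L y ∩ (Y \ X') ∪ ⋃ r ∈ s, plane (coset L y) a r ∩ Y = coset L y ∩ (Y \ X) :=
    Set.ext fun x => by
      have := @hs x
      have := he x
      simp only [Set.mem_union, Set.mem_inter_iff, Set.mem_sdiff, Set.mem_iUnion, plane,
        Set.mem_ofPred_eq, exists_prop]
      grind
  rw [e1] at a1
  rw [e2] at a2
  simp only [pN, pD, th, a1, a2, Finset.prod_mul_distrib]
  ring

end Pool.Agent.CU
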