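import Pool.Agent.Lib.MP_ca56d1_nt.CU.U.St

/-! The second transformation law of theta functions of planes. -/

namespace Pool.Agent.CU

open Complex Filter Topology MeasureTheory Pool.Agent.RM
open scoped Real Classical

variable {K : Type} [Field K] [CharZero K] {ρ : K →+* ℝ} {σ : K →+* ℂ}

namespace TL2Aux

theorem th_diff (hP : LpSt σ) {γ : K} {E Y : Set K} (h₁ : Adm σ γ (E \ Y))
    (h₂ : Adm σ (-γ) (E ∩ Y)) : Differentiable ℂ (th σ γ E Y) :=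
  (hP.diff _ _ h₁).mul (hP.diff _ _ h₂)

theorem th_ord (hP : LpSt σ) {γ : K} {E Y : Set K} (h₁ : Adm σ γ (E \ Y))
    (h₂ : Adm σ (-γ) (E ∩ Y)) (w : ℂ) :
    analyticOrderAt (th σ γ E Y) w = if w ∈ σ '' E then 1 else 0 := by
  have e : th σ γ E Y = lp σ γ (E \ Y) * lp σ (-γ) (E ∩ Y) := rfl
  rw [e, analyticOrderAt_mul ((hP.diff _ _ h₁).analyticAt w) ((hP.diff _ _ h₂).analyticAt w),
    hP.ord _ _ h₁, hP.ord _ _ h₂]
  by_cases hw : w ∈ σ '' E
  · obtain ⟨x, hx, rfl⟩ := hw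
    have hE : σ x ∈ σ '' E := ⟨x, hx, rfl⟩
    by_cases hY : x ∈ Y
    · have a1 : σ x ∉ σ '' (E \ Y) := by
        rintro ⟨z, hz, e'⟩
        have : z = x := σ.injective e'
        exact hz.2 (this ▸ hY)
      have a2 : σ x ∈ σ '' (E ∩ Y) := ⟨x, ⟨hx, hY⟩, rfl⟩
      rw [if_neg a1, if_pos a2, if_pos hE, zero_add]
    · have a1 : σ x ∈ σ '' (E \ Y) := ⟨x, ⟨hx, hY⟩, rfl⟩
      have a2 : σ x ∉ σ '' (E ∩ Y) := by
        rintro ⟨z, hz, e'⟩
        have : z = x := σ.injective e'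
        exact hY (this ▸ hz.2)
      rw [if_pos a1, if_neg a2, if_pos hE, add_zero]
  · have a1 : w ∉ σ '' (E \ Y) := fun ⟨z, hz, e'⟩ => hw ⟨z, hz.1, e'⟩
    have a2 : w ∉ σ '' (E ∩ Y) := fun ⟨z, hz, e'⟩ => hw ⟨z, hz.1, e'⟩
    rw [if_neg a1, if_neg a2, if_neg hw, add_zero]

theorem th_ord_ne (hP : LpSt σ) {γ : K} {E Y : Set K} (h₁ : Adm σ γ (E \ Y))
    (h₂ : Adm σ (-γ) (E ∩ Y)) (w : ℂ) : analyticOrderAt (th σ γ E Y) w ≠ ⊤ := by
  rw [th_ord hP h₁ h₂]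
  split_ifs <;> simp

theorem th_ne (hP : LpSt σ) {γ : K} {E Y : Set K} (h₁ : Adm σ γ (E \ Y))
    (h₂ : Adm σ (-γ) (E ∩ Y)) : ∃ w, th σ γ E Y w ≠ 0 := by
  by_contra h
  push Not at h
  exact th_ord_ne hP h₁ h₂ 0 (analyticOrderAt_eq_top.2 (Eventually.of_forall h))

theorem th_empty (hP : LpSt σ) {γ : K} (hγ : γ ≠ 0) (Y : Set K) (w : ℂ) :
    th σ γ ∅ Y w = 1 := by
  unfold th
  rw [Set.empty_diff, Set.empty_inter, (hP.empty γ hγ).2.1, (hP.empty (-γ) (neg_ne_zero.2 hγ)).2.1,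
    one_mul]

/-- Translation of a theta function. -/
theorem th_add (hP : LpSt σ) {γ : K} {E Y : Set K} (h₁ : Adm σ γ (E \ Y))
    (h₂ : Adm σ (-γ) (E ∩ Y)) (t : K) (w : ℂ) :
    th σ γ {x | x - t ∈ E} {x | x - t ∈ Y} (w + σ t) = th σ γ E Y w := by
  unfold th
  rw [← (hP.add _ _ t h₁).2.1 w, ← (hP.add _ _ t h₂).2.1 w]
  rfl

theorem plane_add (L : Submodule ℤ K) (a : K →ₗ[ℚ] ℚ) (y t : K) (r : ℚ) :
    {x | x - t ∈ plane (coset L y) a r} = plane (coset L (y + t)) a (r + a t) := by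
  ext x
  simp only [plane, coset, Set.mem_setOf_eq, map_sub]
  rw [show x - t - y = x - (y + t) by ring, sub_eq_iff_eq_add]

theorem plane_congr (L : Submodule ℤ K) (a : K →ₗ[ℚ] ℚ) {y y' : K} (h : y' - y ∈ L) (r : ℚ) :
    plane (coset L y') a r = plane (coset L y) a r := by
  ext x
  simp only [plane, coset, Set.mem_setOf_eq]
  constructor
  · rintro ⟨h1, h2⟩
    exact ⟨by have := L.add_mem h1 h; rwa [show x - y' + (y' - y) = x - y by ring] at this, h2⟩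
  · rintro ⟨h1, h2⟩
    exact ⟨by have := L.sub_mem h1 h; rwa [show x - y - (y' - y) = x - y' by ring] at this, h2⟩

/-- Quasi periodicity of a theta function. -/
theorem th_per (h2 : Bas2 ρ σ) (hE : EqvSt σ) (hP : LpSt σ) (hA : AdmSt σ) (h1 : TL1St σ)
    {L : Submodule ℤ K} {y γ : K} {a b : K →ₗ[ℚ] ℚ} {r : ℚ} {Y : Set K} (hL : Lt L) (hγ : γ ∈ L)
    (ho : Ori σ γ a b) (hY : HS b Y) {m : K} (hm : m ∈ L) (ham : a m = 0) :
    Eqv σ 1 (fun w => th σ γ (plane (coset L y) a r) Y (w + σ m))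
      (th σ γ (plane (coset L y) a r) Y) := by
  obtain ⟨a1, a2⟩ := hA.half L y γ a b r Y hL hγ ho hY
  have e1 : {x | x - m ∈ plane (coset L y) a r} = plane (coset L y) a r := by
    rw [plane_add, ham, add_zero]
    exact plane_congr L a (by simpa using hm) r
  have e2 := th_add hP a1 a2 m
  rw [e1] at e2
  have e3 := hE.comp 1 _ _ 1 m (h1 L y γ a b r Y _ hL hγ ho hY (h2.hs_add b Y m hY))
  simp only [map_one, one_mul, e2] at e3
  exact e3

/-- The extension lemma gives the law up to a constant. -/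
theorem ex_const (h2 : Bas2 ρ σ) (hE : EqvSt σ) (hX : EXSt σ) (hP : LpSt σ) (hA : AdmSt σ)
    (h1 : TL1St σ) {L : Submodule ℤ K} {y γ γ' : K} {a b b' : K →ₗ[ℚ] ℚ} {r : ℚ} {Y Y' : Set K}
    (hL : Lt L) (hγ : γ ∈ L) (hγ' : γ' ∈ L) (ho : Ori σ γ a b) (ho' : Ori σ γ' a b') (hY : HS b Y)
    (hY' : HS b' Y') : ∃ C : ℂ, C ≠ 0 ∧ Eqv σ 2 (th σ γ (plane (coset L y) a r) Y)
      fun w => C * th σ γ' (plane (coset L y) a r) Y' w := by
  obtain ⟨a1, a2⟩ := hA.half L y γ a b r Y hL hγ ho hY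
  obtain ⟨a1', a2'⟩ := hA.half L y γ' a b' r Y' hL hγ' ho' hY'
  obtain ⟨x, hax, hbx⟩ := h2.surj γ a b ho 0 1
  obtain ⟨n, hn, hnx⟩ := hL.full x
  have ecast : (n : K) * x = (n : ℚ) • x := by
    rw [Rat.smul_def]; simp
  have haβ : a ((n : K) * x) = 0 := by rw [ecast, map_smul, hax, smul_zero]
  have hbβ : b ((n : K) * x) = n := by rw [ecast, map_smul, hbx, smul_eq_mul, mul_one]
  have key : ∀ m : K, m ∈ L → a m = 0 → Eqv σ 1
      (fun w => th σ γ (plane (coset L y) a r) Y (w + σ m) * th σ γ' (plane (coset L y) a r) Y' w)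
      (fun w => th σ γ (plane (coset L y) a r) Y w *
        th σ γ' (plane (coset L y) a r) Y' (w + σ m)) := fun m hm ham =>
    hE.mul 1 _ _ _ _ (th_per h2 hE hP hA h1 hL hγ ho hY hm ham)
      (hE.symm 1 _ _ (th_per h2 hE hP hA h1 hL hγ' ho' hY' hm ham))
  refine hX 1 _ _ ((n : K) * x) γ (th_diff hP a1 a2) (th_diff hP a1' a2')
    (fun w => by rw [th_ord hP a1 a2, th_ord hP a1' a2']) (th_ord_ne hP a1' a2') ?_
    (key _ hnx haβ) (key _ hγ ho.ka)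
  obtain ⟨c₁, c₂, -, hc₂, him⟩ := ho.im
  rw [him, haβ, hbβ]
  have : (n : ℝ) ≠ 0 := by exact_mod_cast hn
  simp [hc₂.ne, this]

/-- The constant is invariant under translations. -/
theorem move (h2 : Bas2 ρ σ) (hE : EqvSt σ) (hP : LpSt σ) (hA : AdmSt σ)
    (h1 : TL1St σ) {L : Submodule ℤ K} {γ γ' : K} {a b b' : K →ₗ[ℚ] ℚ} {Z Z' : Set K}
    (hL : Lt L) (hγ : γ ∈ L) (hγ' : γ' ∈ L) (ho : Ori σ γ a b) (ho' : Ori σ γ' a b') (hZ : HS b Z)
    (hZ' : HS b' Z') {C : ℂ} (hC : Eqv σ 2 (th σ γ (plane (coset L 0) a 0) Z)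
      fun w => C * th σ γ' (plane (coset L 0) a 0) Z' w)
    {y : K} {r : ℚ} {Y Y' : Set K} (hY : HS b Y) (hY' : HS b' Y')
    (hne : (plane (coset L y) a r).Nonempty) :
    Eqv σ 2 (th σ γ (plane (coset L y) a r) Y)
      fun w => C * th σ γ' (plane (coset L y) a r) Y' w := by
  obtain ⟨t, ht1, ht2⟩ := hne
  have e1 : {x | x - t ∈ plane (coset L 0) a 0} = plane (coset L y) a r := by
    rw [plane_add, zero_add, zero_add, ht2]
    exact plane_congr L a ht1 r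
  obtain ⟨a1, a2⟩ := hA.half L 0 γ a b 0 Z hL hγ ho hZ
  obtain ⟨a1', a2'⟩ := hA.half L 0 γ' a b' 0 Z' hL hγ' ho' hZ'
  have e2 := th_add hP a1 a2 t
  have e2' := th_add hP a1' a2' t
  rw [e1] at e2 e2'
  have e3 := hE.comp 2 _ _ 1 (-t) hC
  simp only [map_one, one_mul, map_neg, ← e2, ← e2', neg_add_cancel_right] at e3
  have t1 := hE.mono 1 2 _ _ (by norm_num)
    (h1 L y γ a b r Y _ hL hγ ho hY (h2.hs_add b Z t hZ))
  have t2 := hE.mono 1 2 _ _ (by norm_num)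
    (h1 L y γ' a b' r _ Y' hL hγ' ho' (h2.hs_add b' Z' t hZ') hY')
  exact hE.trans 2 _ _ _ t1 (hE.trans 2 _ _ _ e3
    (hE.mul 2 (fun _ => C) (fun _ => C) _ _ (hE.refl 2 _) t2))

/-- Line products over finite disjoint unions. -/
theorem lp_biUnion (hP : LpSt σ) {γ : K} (hγ : γ ≠ 0) {ι : Type} (s : Finset ι) (S : ι → Set K)
    (hS : ∀ i ∈ s, Adm σ γ (S i)) (hd : ∀ i ∈ s, ∀ j ∈ s, i ≠ j → Disjoint (S i) (S j)) :
    Adm σ γ (⋃ i ∈ s, S i) ∧ ∀ w, lp σ γ (⋃ i ∈ s, S i) w = ∏ i ∈ s, lp σ γ (S i) w := by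
  induction s using Finset.induction_on with
  | empty =>
    simp only [Finset.notMem_empty, Set.iUnion_of_empty, Set.iUnion_empty, Finset.prod_empty]
    exact ⟨(hP.empty γ hγ).1, (hP.empty γ hγ).2.1⟩
  | insert i s hi ih =>
    obtain ⟨b1, b2⟩ := ih (fun j hj => hS j (Finset.mem_insert_of_mem hj))
      (fun j hj k hk => hd j (Finset.mem_insert_of_mem hj) k (Finset.mem_insert_of_mem hk))
    have hdis : Disjoint (S i) (⋃ j ∈ s, S j) := by
      rw [Set.disjoint_iUnion₂_right]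
      intro j hj
      exact hd i (Finset.mem_insert_self i s) j (Finset.mem_insert_of_mem hj)
        (fun e => hi (e ▸ hj))
    obtain ⟨c1, c2, -⟩ := hP.union γ _ _ (hS i (Finset.mem_insert_self i s)) b1 hdis
    rw [Finset.set_biUnion_insert]
    refine ⟨c1, fun w => ?_⟩
    rw [c2, b2, Finset.prod_insert hi]

/-- The theta function of a plane of a larger lattice is a product. -/
theorem th_prod (hP : LpSt σ) (hA : AdmSt σ) {L L' : Submodule ℤ K} {γ : K} {a b : K →ₗ[ℚ] ℚ}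
    {Y : Set K} (hL : Lt L) (hγ : γ ∈ L) (ho : Ori σ γ a b) (hY : HS b Y) (hle : L ≤ L')
    {s : Finset K} (hs1 : ∀ g ∈ s, g - 0 ∈ L') (hs2 : ∀ x, x - 0 ∈ L' → ∃! g, g ∈ s ∧ x - g ∈ L)
    (w : ℂ) :
    th σ γ (plane (coset L' 0) a 0) Y w = ∏ g ∈ s, th σ γ (plane (coset L g) a 0) Y w := by
  have hU : plane (coset L' 0) a 0 = ⋃ g ∈ s, plane (coset L g) a 0 := by
    ext x
    simp only [plane, coset, Set.mem_setOf_eq, Set.mem_iUnion]
    constructor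
    · rintro ⟨h1, h2⟩
      obtain ⟨g, ⟨hg1, hg2⟩, -⟩ := hs2 x h1
      exact ⟨g, hg1, hg2, h2⟩
    · rintro ⟨g, hg, h1, h2⟩
      refine ⟨?_, h2⟩
      have := L'.add_mem (hle h1) (hs1 g hg)
      rwa [show x - g + (g - 0) = x - 0 by ring] at this
  have hd : ∀ i ∈ s, ∀ j ∈ s, i ≠ j →
      Disjoint (plane (coset L i) a 0) (plane (coset L j) a 0) := by
    intro i hi j hj hij
    rw [Set.disjoint_left]
    rintro x ⟨h1, -⟩ ⟨h2, -⟩
    have hx : x - 0 ∈ L' := by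
      have := L'.add_mem (hle h1) (hs1 i hi)
      rwa [show x - i + (i - 0) = x - 0 by ring] at this
    obtain ⟨g, -, hg⟩ := hs2 x hx
    exact hij ((hg i ⟨hi, h1⟩).trans (hg j ⟨hj, h2⟩).symm)
  have e1 : plane (coset L' 0) a 0 \ Y = ⋃ g ∈ s, (plane (coset L g) a 0 \ Y) := by
    rw [hU]; ext x; simp only [Set.mem_diff, Set.mem_iUnion]; tauto
  have e2 : plane (coset L' 0) a 0 ∩ Y = ⋃ g ∈ s, (plane (coset L g) a 0 ∩ Y) := by
    rw [hU]; ext x; simp only [Set.mem_inter_iff, Set.mem_iUnion]; tauto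
  unfold th
  rw [e1, e2, (lp_biUnion hP ho.ne s _ (fun g _ => (hA.half L g γ a b 0 Y hL hγ ho hY).1)
      (fun i hi j hj hij => (hd i hi j hj hij).mono Set.diff_subset Set.diff_subset)).2,
    (lp_biUnion hP (neg_ne_zero.2 ho.ne) s _ (fun g _ => (hA.half L g γ a b 0 Y hL hγ ho hY).2)
      (fun i hi j hj hij => (hd i hi j hj hij).mono Set.inter_subset_left
        Set.inter_subset_left)).2, Finset.prod_mul_distrib]

/-- The homothety by one half. -/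
theorem th_half (hP : LpSt σ) (hA : AdmSt σ) {L L' : Submodule ℤ K} {γ : K} {a b : K →ₗ[ℚ] ℚ}
    (hL : Lt L) (hγ : γ ∈ L) (ho : Ori σ γ a b) (hY : HS b (hs b 0))
    (hL' : ∀ x, x ∈ L' ↔ (2⁻¹ : K)⁻¹ * x ∈ L) (w : ℂ) :
    th σ γ (plane (coset L' 0) a 0) (hs b 0) (σ 2⁻¹ * w) =
      th σ γ (plane (coset L 0) a 0) (hs b 0) w := by
  obtain ⟨a1, a2⟩ := hA.half L 0 γ a b 0 _ hL hγ ho hY
  have hu : (2⁻¹ : K) ≠ 0 := by norm_num
  have hlin : ∀ (f : K →ₗ[ℚ] ℚ) (x : K), f ((2⁻¹ : K)⁻¹ * x) = 2 * f x := by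
    intro f x
    rw [inv_inv, two_mul, map_add, two_mul]
  have hpl : ∀ x, (2⁻¹ : K)⁻¹ * x ∈ plane (coset L 0) a 0 ↔ x ∈ plane (coset L' 0) a 0 := by
    intro x
    simp only [plane, coset, Set.mem_setOf_eq, sub_zero, hL', hlin]
    simp
  have hhs : ∀ x, (2⁻¹ : K)⁻¹ * x ∈ hs b 0 ↔ x ∈ hs b 0 := by
    intro x
    simp only [hs, Set.mem_setOf_eq, hlin]
    simp
  have e1 : {x | (2⁻¹ : K)⁻¹ * x ∈ plane (coset L 0) a 0 \ hs b 0} =
      plane (coset L' 0) a 0 \ hs b 0 := by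
    ext x
    simp only [Set.mem_setOf_eq, Set.mem_diff, hpl, hhs]
  have e2 : {x | (2⁻¹ : K)⁻¹ * x ∈ plane (coset L 0) a 0 ∩ hs b 0} =
      plane (coset L' 0) a 0 ∩ hs b 0 := by
    ext x
    simp only [Set.mem_setOf_eq, Set.mem_inter_iff, hpl, hhs]
  obtain ⟨m1, m2, -⟩ := hP.mul γ _ 2⁻¹ hu a1
  obtain ⟨m1', m2', -⟩ := hP.mul (-γ) _ 2⁻¹ hu a2
  rw [e1] at m1 m2
  rw [e2] at m1' m2'
  obtain ⟨-, n2, -⟩ := hP.nsmul _ _ 2 (by norm_num) m1
  obtain ⟨-, n2', -⟩ := hP.nsmul _ _ 2 (by norm_num) m1'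
  have q1 : ((2 : ℕ) : K) * (2⁻¹ * γ) = γ := by push_cast; field_simp
  have q2 : ((2 : ℕ) : K) * (2⁻¹ * -γ) = -γ := by push_cast; field_simp
  rw [q1] at n2
  rw [q2] at n2'
  unfold th
  rw [n2, n2', m2, m2']

/-- A plane lattice has a point whose half is not in the lattice. -/
theorem ex_half (h2 : Bas2 ρ σ) {L : Submodule ℤ K} {γ : K} {a b : K →ₗ[ℚ] ℚ} (hL : Lt L)
    (ho : Ori σ γ a b) : ∃ x : K, (2⁻¹ : K)⁻¹ * x ∈ L ∧ x ∉ L ∧ a x = 0 := by
  have ha : a ≠ 0 := by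
    obtain ⟨x, hx, -⟩ := h2.surj γ a b ho 1 0
    rintro rfl
    simp at hx
  obtain ⟨β, δ, hδ, hh, hb⟩ := h2.pl_basis L a hL ha
  obtain ⟨hδL, hδa⟩ := (hb δ).2 ⟨0, 1, by simp⟩
  have hax : a (2⁻¹ * δ) = 0 := by
    have : a (2⁻¹ * δ) + a (2⁻¹ * δ) = 0 := by
      rw [← map_add, show (2⁻¹ : K) * δ + 2⁻¹ * δ = δ by ring, hδa]
    linarith
  refine ⟨2⁻¹ * δ, by rwa [show (2⁻¹ : K)⁻¹ * (2⁻¹ * δ) = δ by field_simp], fun hx => ?_, hax⟩
  obtain ⟨j, k, e⟩ := (hb _).1 ⟨hx, hax⟩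
  have hσ : σ δ ≠ 0 := (map_ne_zero σ).2 hδ
  have e1 : ((2⁻¹ : ℝ) : ℂ) = (j : ℂ) * (σ β / σ δ) + k := by
    have := congrArg σ e
    simp only [map_mul, map_add, map_inv₀, map_ofNat, map_intCast] at this
    push_cast
    field_simp
    linear_combination 2 * this
  have e2 := congrArg Complex.im e1
  simp only [Complex.ofReal_im, Complex.add_im, Complex.mul_im, Complex.intCast_re,
    Complex.intCast_im, zero_mul, add_zero] at e2
  have hj : (j : ℝ) = 0 := by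
    rcases mul_eq_zero.1 e2.symm with h | h
    · exact h
    · exact absurd h hh
  have hj' : j = 0 := by exact_mod_cast hj
  rw [hj'] at e1
  have e3 : (2⁻¹ : ℝ) = k := by
    have := congrArg Complex.re e1
    simpa using this
  have e4 : (1 : ℝ) = 2 * k := by rw [← e3]; norm_num
  have e5 : (1 : ℤ) = 2 * k := by exact_mod_cast e4
  omega

/-- The constant lies in `e(K)`. -/
theorem ek_const (h2 : Bas2 ρ σ) (hE : EqvSt σ) (hP : LpSt σ) (hA : AdmSt σ)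
    (h1 : TL1St σ) {L : Submodule ℤ K} {γ γ' : K} {a b b' : K →ₗ[ℚ] ℚ}
    (hL : Lt L) (hγ : γ ∈ L) (hγ' : γ' ∈ L) (ho : Ori σ γ a b) (ho' : Ori σ γ' a b')
    {C : ℂ} (hC0 : C ≠ 0) (hC : Eqv σ 2 (th σ γ (plane (coset L 0) a 0) (hs b 0))
      fun w => C * th σ γ' (plane (coset L 0) a 0) (hs b' 0) w) : EK σ C := by
  have hu : (2⁻¹ : K) ≠ 0 := by norm_num
  obtain ⟨L', hL', hmem⟩ := h2.lt_mul 2⁻¹ L hu hL
  have hle : L ≤ L' := by
    intro x hx
    rw [hmem, inv_inv, two_mul]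
    exact L.add_mem hx hx
  obtain ⟨s, hs1, hs2⟩ := h2.dec L' L 0 hL' hL hle
  have hY := h2.hs b 0
  have hY' := h2.hs b' 0
  -- the homothety
  have A1 : Eqv σ 2 (th σ γ (plane (coset L' 0) a 0) (hs b 0))
      fun w => C * th σ γ' (plane (coset L' 0) a 0) (hs b' 0) w := by
    have e3 := hE.comp 2 _ _ 2 0 hC
    have e4 : ∀ w : ℂ, σ 2⁻¹ * (σ 2 * w + σ 0) = w := by
      intro w
      rw [map_zero, add_zero, ← mul_assoc, ← map_mul, inv_mul_cancel₀ (by norm_num), map_one,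
        one_mul]
    simp only [← th_half hP hA hL hγ ho hY hmem, ← th_half hP hA hL hγ' ho' hY' hmem, e4] at e3
    exact e3
  -- the decomposition
  have A2 : Eqv σ 2 (th σ γ (plane (coset L' 0) a 0) (hs b 0))
      fun w => C ^ (s.filter fun g => (plane (coset L g) a 0).Nonempty).card *
        th σ γ' (plane (coset L' 0) a 0) (hs b' 0) w := by
    have e5 := hE.prod 2 s (fun g => th σ γ (plane (coset L g) a 0) (hs b 0))
      (fun g w => (if (plane (coset L g) a 0).Nonempty then C else 1) *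
        th σ γ' (plane (coset L g) a 0) (hs b' 0) w) (by
      intro g _
      by_cases hg : (plane (coset L g) a 0).Nonempty
      · simp only [if_pos hg]
        exact move h2 hE hP hA h1 hL hγ hγ' ho ho' hY hY' hC hY hY' hg
      · simp only [if_neg hg]
        rw [Set.not_nonempty_iff_eq_empty.1 hg]
        have : th σ γ ∅ (hs b 0) = fun w => 1 * th σ γ' ∅ (hs b' 0) w := by
          funext w
          rw [th_empty hP ho.ne, th_empty hP ho'.ne, one_mul]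
        rw [this]
        exact hE.refl 2 _)
    simp only [Finset.prod_mul_distrib, ← th_prod hP hA hL hγ ho hY hle hs1 hs2,
      ← th_prod hP hA hL hγ' ho' hY' hle hs1 hs2, Finset.prod_ite, Finset.prod_const, one_pow,
      mul_one] at e5
    exact e5
  -- at least two cosets meet the plane
  have hcard : 1 < (s.filter fun g => (plane (coset L g) a 0).Nonempty).card := by
    obtain ⟨x, hx1, hx2, hx3⟩ := ex_half h2 hL ho
    obtain ⟨g₀, ⟨hg₀, hg₀'⟩, -⟩ := hs2 0 (by simp)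
    obtain ⟨g₁, ⟨hg₁, hg₁'⟩, -⟩ := hs2 x (by rw [sub_zero, hmem]; exact hx1)
    refine Finset.one_lt_card.2 ⟨g₀, Finset.mem_filter.2 ⟨hg₀, 0, hg₀', map_zero a⟩, g₁,
      Finset.mem_filter.2 ⟨hg₁, x, hg₁', hx3⟩, ?_⟩
    rintro rfl
    apply hx2
    have := L.sub_mem hg₁' hg₀'
    rwa [show x - g₀ - (0 - g₀) = x by ring] at this
  obtain ⟨n, hn⟩ : ∃ n, (s.filter fun g => (plane (coset L g) a 0).Nonempty).card = n + 2 :=
    ⟨_, (Nat.sub_add_cancel hcard).symm⟩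
  rw [hn] at A2
  have A3 := hE.mul 2 (fun _ => C⁻¹) (fun _ => C⁻¹) _ _ (hE.refl 2 _)
    (hE.trans 2 _ _ _ (hE.symm 2 _ _ A2) A1)
  have e6 : ∀ z : ℂ, C⁻¹ * (C ^ (n + 2) * z) = C ^ (n + 1) * z := by
    intro z; field_simp; ring
  have e7 : ∀ z : ℂ, C⁻¹ * (C * z) = z := by
    intro z; field_simp
  simp only [e6, e7] at A3
  obtain ⟨a1, a2⟩ := hA.half L' 0 γ' a b' 0 _ hL' (hle hγ') ho' hY'
  exact hE.ek_root C (n + 1) (by omega)
    (hE.ek_of 2 _ _ (th_diff hP a1 a2) (th_ne hP a1 a2) A3)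

end TL2Aux

open TL2Aux in
/-- The second transformation law. -/
theorem tl2St (h2 : Bas2 ρ σ) (hE : EqvSt σ) (hX : EXSt σ) (hP : LpSt σ) (hA : AdmSt σ)
    (h1 : TL1St σ) : TL2St σ := by
  intro L y γ γ' a b b' r Y Y' hL hγ hγ' ho ho' hY hY'
  by_cases hne : (plane (coset L y) a r).Nonempty
  · obtain ⟨C, hC0, hC⟩ := ex_const h2 hE hX hP hA h1 (y := 0) (r := 0) hL hγ hγ' ho ho'
      (h2.hs b 0) (h2.hs b' 0)
    have hK := ek_const h2 hE hP hA h1 hL hγ hγ' ho ho' hC0 hC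
    exact hE.trans 2 _ _ _ (move h2 hE hP hA h1 hL hγ hγ' ho ho' (h2.hs b 0) (h2.hs b' 0) hC hY hY'
      hne) (hE.const 2 _ C hK)
  · rw [Set.not_nonempty_iff_eq_empty.1 hne]
    have : th σ γ ∅ Y = th σ γ' ∅ Y' := by
      funext w
      rw [th_empty hP ho.ne, th_empty hP ho'.ne]
    rw [this]
    exact hE.refl 2 _

end Pool.Agent.CU
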