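import Pool.Agent.Lib.MP_ca56d1_nt.CU.U.Tw

/-! Rules for the values at zero of the elliptic gamma function. -/

set_option linter.unusedSectionVars false

namespace Pool.Agent.CU

open Complex Filter Topology MeasureTheory Pool.Agent.RM
open scoped Real Classical

variable {K : Type} [Field K] [CharZero K] {ρ : K →+* ℝ} {σ : K →+* ℂ}

namespace ValAux

theorem lp_ne (hP : LpSt σ) {γ : K} {S : Set K} (h : Adm σ γ S) {w : ℂ} (hw : w ∉ σ '' S) :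
    lp σ γ S w ≠ 0 := by
  have h1 := hP.ord γ S h w
  rw [if_neg hw] at h1
  exact ((hP.diff γ S h).analyticAt w).analyticOrderAt_eq_zero.1 h1

theorem zero_not {L : Submodule ℤ K} {y : K} {X Y : Set K} (h : y ∈ L → 0 ∈ X → 0 ∈ Y) :
    (0 : ℂ) ∉ σ '' (coset L y ∩ (X \ Y)) := by
  rintro ⟨x, ⟨h1, h2, h3⟩, hx⟩
  obtain rfl : x = 0 := (map_eq_zero σ).1 hx
  have h4 : y ∈ L := by
    have : (0 : K) - y ∈ L := h1
    simpa using L.neg_mem this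
  exact h3 (h h4 h2)

theorem el_mul (hP : LpSt σ) {γ : K} {S : Set K} (h : Adm σ γ S) {u : K} (hu : u ≠ 0) (w : ℂ) :
    lp σ (u * γ) (sm u S) (σ u * w) = lp σ γ S w ∧ el σ (u * γ) (sm u S) (σ u * w) = el σ γ S w := by
  obtain ⟨-, h1, h2⟩ := hP.mul γ S u hu h
  have h3 : σ u * w / σ (u * γ) = w / σ γ := by
    rw [map_mul, mul_div_mul_left _ _ ((map_ne_zero σ).2 hu)]
  refine ⟨h1 w, ?_⟩
  unfold el nn sm
  rw [h1 w, h2, h3]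

theorem anti (γ : K) (Λ X Y : Set K) (w : ℂ) : ph σ (-γ) Λ Y X w = (ph σ γ Λ X Y w)⁻¹ ∧
    pl σ (-γ) Λ Y X w = -pl σ γ Λ X Y w := by
  unfold ph pl pN pD
  rw [neg_neg, inv_div, neg_sub]
  exact ⟨rfl, rfl⟩

theorem hom (hP : LpSt σ) (hA : AdmSt σ) {L : Submodule ℤ K} {y γ : K} {a b : K →ₗ[ℚ] ℚ}
    {X Y : Set K} {u : K} (w : ℂ) (hL : Lt L) (hγ : γ ∈ L) (ho : Ori σ γ a b) (hX : HS a X)
    (hY : HS b Y) (hu : u ≠ 0) :
    ph σ (u * γ) (sm u (coset L y)) (sm u X) (sm u Y) (σ u * w) = ph σ γ (coset L y) X Y w ∧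
    pl σ (u * γ) (sm u (coset L y)) (sm u X) (sm u Y) (σ u * w) = pl σ γ (coset L y) X Y w := by
  obtain ⟨a1, a2⟩ := hA.wedge L y γ a b X Y hL hγ ho hX hY
  obtain ⟨h1, h2⟩ := el_mul hP a1 hu w
  obtain ⟨h3, h4⟩ := el_mul hP a2 hu w
  unfold ph pl pN pD
  rw [← h1, ← h2, ← h3, ← h4, mul_neg]
  exact ⟨rfl, rfl⟩

theorem tri (hE : EqvSt σ) (hP : LpSt σ) (hA : AdmSt σ) (hR : RPSt σ) (hC : CocSt σ)
    {L : Submodule ℤ K} {y γ₁ γ₂ γ₃ : K} {a b c : K →ₗ[ℚ] ℚ} {X Y W : Set K} (hL : Lt L)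
    (m1 : γ₁ ∈ L) (m2 : γ₂ ∈ L) (m3 : γ₃ ∈ L) (o1 : Ori σ γ₁ a b) (o2 : Ori σ γ₂ b c)
    (o3 : Ori σ γ₃ c a) (hX : HS a X) (hY : HS b Y) (hW : HS c W)
    (h0 : y ∈ L → (0 ∈ X ↔ 0 ∈ Y) ∧ (0 ∈ Y ↔ 0 ∈ W)) :
    EK σ (ph σ γ₁ (coset L y) X Y 0 * ph σ γ₂ (coset L y) Y W 0 * ph σ γ₃ (coset L y) W X 0) ∧
    pl σ γ₁ (coset L y) X Y 0 + pl σ γ₂ (coset L y) Y W 0 + pl σ γ₃ (coset L y) W X 0 = 0 := by
  obtain ⟨a1, a2⟩ := hA.wedge L y γ₁ a b X Y hL m1 o1 hX hY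
  obtain ⟨a3, a4⟩ := hA.wedge L y γ₂ b c Y W hL m2 o2 hY hW
  obtain ⟨a5, a6⟩ := hA.wedge L y γ₃ c a W X hL m3 o3 hW hX
  have n1 := zero_not (σ := σ) (X := X) (Y := Y) fun h => (h0 h).1.1
  have n2 := zero_not (σ := σ) (X := Y) (Y := X) fun h => (h0 h).1.2
  have n3 := zero_not (σ := σ) (X := Y) (Y := W) fun h => (h0 h).2.1
  have n4 := zero_not (σ := σ) (X := W) (Y := Y) fun h => (h0 h).2.2
  have n5 := zero_not (σ := σ) (X := W) (Y := X) fun h h' => (h0 h).1.2 ((h0 h).2.2 h')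
  have n6 := zero_not (σ := σ) (X := X) (Y := W) fun h h' => (h0 h).2.1 ((h0 h).1.1 h')
  constructor
  · have h1 := hE.at_pt 3 _ _ 0 (hC L y γ₁ γ₂ γ₃ a b c X Y W hL m1 m2 m3 o1 o2 o3 hX hY hW) (by
      rw [map_zero]
      exact mul_ne_zero (mul_ne_zero (lp_ne hP a2 n2) (lp_ne hP a4 n4)) (lp_ne hP a6 n6))
    rw [map_zero] at h1
    unfold ph
    rwa [div_mul_div_comm, div_mul_div_comm]
  · have h1 := hR (ι := Fin 6) ![γ₁, -γ₁, γ₂, -γ₂, γ₃, -γ₃]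
      ![coset L y ∩ (X \ Y), coset L y ∩ (Y \ X), coset L y ∩ (Y \ W), coset L y ∩ (W \ Y),
        coset L y ∩ (W \ X), coset L y ∩ (X \ W)] ![1, -1, 1, -1, 1, -1]
      (fun i => by fin_cases i; exacts [a1, a2, a3, a4, a5, a6])
      (fun x => by
        rw [Fin.sum_univ_six]
        by_cases q0 : x ∈ coset L y <;> by_cases q1 : x ∈ X <;> by_cases q2 : x ∈ Y <;>
          by_cases q3 : x ∈ W <;> simp [q0, q1, q2, q3])
      0 (fun i => by fin_cases i; exacts [n1, n2, n3, n4, n5, n6])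
    rw [Fin.sum_univ_six] at h1
    simp at h1
    unfold pl
    linarith

theorem sm_coset {ε y : K} {L : Submodule ℤ K} (h0 : ε ≠ 0) (hL : ∀ y, ε * y ∈ L ↔ y ∈ L)
    (hy : (ε - 1) * y ∈ L) : sm ε (coset L y) = coset L y := by
  ext x
  change ε⁻¹ * x - y ∈ L ↔ x - y ∈ L
  rw [← hL]
  have : ε * (ε⁻¹ * x - y) = x - y - (ε - 1) * y := by field_simp; ring
  rw [this]
  exact ⟨fun h => by simpa using L.add_mem h hy, fun h => L.sub_mem h hy⟩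

theorem ind1 (hB : BasSt ρ σ) (h2 : Bas2 ρ σ) (hE : EqvSt σ) (hP : LpSt σ) (hA : AdmSt σ)
    (hR : RPSt σ) (hC : CocSt σ) {ε y γ δ : K} {L : Submodule ℤ K} {a c : K →ₗ[ℚ] ℚ}
    {X W : Set K} (hε : Eps ρ σ ε) (hL : ELat ε L) (hy : (ε - 1) * y ∈ L) (ha : Fn ρ σ a)
    (hc : Fn ρ σ c) (hγ : γ ∈ L) (hδ : δ ∈ L) (o1 : Ori σ γ a (tw a ε⁻¹))
    (o2 : Ori σ δ c (tw c ε⁻¹)) (hX : HS a X) (hW : HS c W) (h0 : y ∈ L → (0 ∈ X ↔ 0 ∈ W))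
    (i1 : ¬ ∃ q : ℚ, c = q • tw a ε⁻¹) (i2 : ¬ ∃ q : ℚ, a = q • c) :
    EK σ (ph σ γ (coset L y) X (sm ε X) 0 / ph σ δ (coset L y) W (sm ε W) 0) ∧
    pl σ γ (coset L y) X (sm ε X) 0 = pl σ δ (coset L y) W (sm ε W) 0 := by
  have hρ : 0 < ρ ε := lt_trans one_pos hε.one_lt
  have he : ε ≠ 0 := fun h => by simp [h] at hρ
  have hb : Fn ρ σ (tw a ε⁻¹) := hB.fn_tw a _ ha (by rw [map_inv₀]; exact inv_pos.2 hρ)
  have hl := h2.lt ε L hL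
  obtain ⟨γ₂, m2, p2⟩ := hB.ori _ c L hb hc i1 hl
  obtain ⟨γ₃, m3, p3⟩ := hB.ori c a L hc ha i2 hl
  have s0 : ∀ V : Set K, (0 : K) ∈ sm ε V ↔ 0 ∈ V := fun V => by simp [sm]
  obtain ⟨t1, t2⟩ := tri hE hP hA hR hC (y := y) hl hγ m2 m3 o1 p2 p3 hX (h2.hs_sm a X ε hX) hW
    fun h => ⟨(s0 X).symm, (s0 X).trans (h0 h)⟩
  obtain ⟨t3, t4⟩ := tri hE hP hA hR hC (y := y) hl hδ ((hL.stab _).2 m3) m2 o2
    (h2.mul γ₃ c a ε he p3) p2 hW (h2.hs_sm c W ε hW) (h2.hs_sm a X ε hX)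
    fun h => ⟨(s0 W).symm, (s0 W).trans ((h0 h).symm.trans (s0 X).symm)⟩
  obtain ⟨e1, e2⟩ := hom hP hA (y := y) 0 hl m3 p3 hW hX he
  rw [mul_zero, sm_coset he hL.stab hy] at e1 e2
  rw [e1] at t3
  rw [e2] at t4
  refine ⟨?_, by linarith⟩
  have h3 := hE.ek_ne _ t3
  have h4 := hE.ek_div _ _ t1 t3
  have h5 := left_ne_zero_of_mul (left_ne_zero_of_mul h3)
  have h6 := right_ne_zero_of_mul (left_ne_zero_of_mul h3)
  have h7 := right_ne_zero_of_mul h3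
  convert h4 using 1
  field_simp

end ValAux

open ValAux

theorem valSt (hB : BasSt ρ σ) (h2 : Bas2 ρ σ) (hE : EqvSt σ) (hP : LpSt σ) (hA : AdmSt σ)
    (hR : RPSt σ) (hC : CocSt σ) : ValSt ρ σ where
  ne L y γ a b X Y hL hγ ho hX hY h0 := by
    obtain ⟨a1, a2⟩ := hA.wedge L y γ a b X Y hL hγ ho hX hY
    exact div_ne_zero (lp_ne hP a1 (zero_not fun h => (h0 h).1))
      (lp_ne hP a2 (zero_not fun h => (h0 h).2))
  anti := anti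
  hom L y γ a b X Y u w hL hγ ho hX hY hu := hom hP hA w hL hγ ho hX hY hu
  refl L y γ a b X Y w hL hγ ho hX hY := by
    obtain ⟨h3, h4⟩ := hom hP hA (y := y) (u := -1) w hL (L.neg_mem hγ) (h2.neg γ a b ho) hY hX
      (by simp)
    obtain ⟨h5, h6⟩ := anti (σ := σ) γ (coset L y) X Y w
    rw [← h5, ← h6, ← h3, ← h4]
    have s1 : sm (-1) (coset L y) = coset L (-y) := by
      ext x
      change (-1 : K)⁻¹ * x - y ∈ L ↔ x - -y ∈ L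
      rw [← L.neg_mem_iff]
      have : -((-1 : K)⁻¹ * x - y) = x - -y := by rw [inv_neg_one]; ring
      rw [this]
    have s2 : ∀ U V : Set K, sm (-1) V \ sm (-1) U = rf U \ rf V := fun U V => by
      ext x
      simp [sm, rf, and_comm]
    unfold ph pl pN pD
    rw [s1, s2, s2]
    simp
  tri L y γ₁ γ₂ γ₃ a b c X Y W hL m1 m2 m3 o1 o2 o3 hX hY hW h0 :=
    tri hE hP hA hR hC hL m1 m2 m3 o1 o2 o3 hX hY hW h0
  ind ε L y a a' γ γ' X X' hε hL hy ha ha' hγ hγ' o1 o2 hX hX' h0 := by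
    have hρ : 0 < ρ ε⁻¹ := by rw [map_inv₀]; exact inv_pos.2 (lt_trans one_pos hε.one_lt)
    obtain ⟨c, hc, hg⟩ := h2.gen {a, tw a ε⁻¹, a', tw a' ε⁻¹} (by
      intro b hb
      simp only [Finset.mem_insert, Finset.mem_singleton] at hb
      rcases hb with rfl | rfl | rfl | rfl
      exacts [h2.fn_ne _ ha, h2.fn_ne _ (hB.fn_tw _ _ ha hρ), h2.fn_ne _ ha',
        h2.fn_ne _ (hB.fn_tw _ _ ha' hρ)])
    have hirr : ¬ ∃ q : ℚ, ε⁻¹ = q := by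
      rintro ⟨q, hq⟩
      exact hB.irr ε hε ⟨q⁻¹, by rw [Rat.cast_inv, ← hq, inv_inv]⟩
    obtain ⟨δ, hδ, o3⟩ := hB.ori c _ L hc (hB.fn_tw _ _ hc hρ)
      (tw_indep (h2.fn_ne c hc) hirr) (h2.lt ε L hL)
    obtain ⟨W, hW, hW0⟩ : ∃ W, HS c W ∧ (0 ∈ X ↔ 0 ∈ W) := by
      by_cases h : (0 : K) ∈ X
      · exact ⟨hs c (-1), h2.hs c _, by simp [h, hs]⟩
      · exact ⟨hs c 0, h2.hs c _, by simp [h, hs]⟩
    obtain ⟨t1, t2⟩ := ind1 hB h2 hE hP hA hR hC hε hL hy ha hc hγ hδ o1 o3 hX hW (fun _ => hW0)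
      (hg _ (by simp)).1 (hg _ (by simp)).2
    obtain ⟨t3, t4⟩ := ind1 hB h2 hE hP hA hR hC hε hL hy ha' hc hγ' hδ o2 o3 hX' hW
      (fun h => (h0 h).symm.trans hW0) (hg _ (by simp)).1 (hg _ (by simp)).2
    refine ⟨?_, t2.trans t4.symm⟩
    have h3 := hE.ek_ne _ t1
    have h4 := hE.ek_div _ _ t1 t3
    have h5 : ph σ δ (coset L y) W (sm ε W) 0 ≠ 0 := fun h => h3 (by rw [h, div_zero])
    rwa [div_div_div_cancel_right₀ h5] at h4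

end Pool.Agent.CU
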