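import Pool.Agent.Lib.MP_ca56d1_nt.CU.U.St

/-! The value of the lattice itself at level `ε ^ 2`. -/

namespace Pool.Agent.CU

open Complex Filter Topology MeasureTheory Pool.Agent.RM
open scoped Real Classical

variable {K : Type} [Field K] [CharZero K] {ρ : K →+* ℝ} {σ : K →+* ℂ}

namespace ZeroAux

theorem lp_ne (hP : LpSt σ) {γ : K} {S : Set K} (h : Adm σ γ S) {w : ℂ} (hw : w ∉ σ '' S) :
    lp σ γ S w ≠ 0 := by
  have h1 := hP.ord γ S h w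
  rw [if_neg hw] at h1
  have h2 : AnalyticAt ℂ (lp σ γ S) w := (hP.diff γ S h).analyticAt w
  exact h2.analyticOrderAt_eq_zero.1 h1

theorem lp_eq (hP : LpSt σ) {γ : K} {S : Set K} (h : Adm σ γ S) {w : ℂ} (hw : w ∈ σ '' S) :
    lp σ γ S w = 0 := by
  have h1 := hP.ord γ S h w
  rw [if_pos hw] at h1
  by_contra h3
  have h2 : AnalyticAt ℂ (lp σ γ S) w := (hP.diff γ S h).analyticAt w
  rw [h2.analyticOrderAt_eq_zero.2 h3] at h1
  exact zero_ne_one h1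

theorem ev_ne (hP : LpSt σ) {γ : K} {S : Set K} (h : Adm σ γ S) :
    ∀ᶠ w in 𝓝[≠] (0 : ℂ), lp σ γ S w ≠ 0 := by
  have h2 : AnalyticAt ℂ (lp σ γ S) 0 := (hP.diff γ S h).analyticAt 0
  rcases h2.eventually_eq_zero_or_eventually_ne_zero with h3 | h3
  · exfalso
    have h4 := analyticOrderAt_eq_top.2 h3
    rw [hP.ord γ S h] at h4
    split_ifs at h4 <;> simp at h4
  · exact h3

theorem ev_off (hP : LpSt σ) {γ : K} {S : Set K} (h : Adm σ γ S) :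
    ∀ᶠ w in 𝓝[≠] (0 : ℂ), w ∉ σ '' S :=
  (ev_ne hP h).mono fun _ hw h' => hw (lp_eq hP h h')

omit [CharZero K] in
theorem zero_off {S : Set K} (h : (0 : K) ∉ S) : (0 : ℂ) ∉ σ '' S := by
  rintro ⟨x, hx, h0⟩
  have : x = 0 := by simpa using h0
  exact h (this ▸ hx)

omit [CharZero K] in
theorem nn_cont (γ : K) (S : Set K) : Continuous (nn σ γ S) := by
  unfold nn
  fun_prop

theorem el_cont (hP : LpSt σ) {γ : K} {S : Set K} (h : Adm σ γ S) (h0 : (0 : K) ∉ S) :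
    ContinuousAt (el σ γ S) 0 := by
  have h1 := lp_ne hP h (zero_off h0)
  have h2 : Continuous (lp σ γ S) := (hP.diff γ S h).continuous
  have h3 : ContinuousAt (fun w => Real.log (‖lp σ γ S w‖ ^ 2)) 0 :=
    ContinuousAt.log (by fun_prop) (by simpa using h1)
  exact h3.sub (continuousAt_const.mul (nn_cont γ S).continuousAt)

theorem mul_tend {u : ℂ} : Tendsto (fun w : ℂ => u * w) (𝓝[≠] 0) (𝓝 0) := by
  have : Tendsto (fun w : ℂ => u * w) (𝓝 0) (𝓝 (u * 0)) :=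
    (continuous_const.mul continuous_id).tendsto 0
  rw [mul_zero] at this
  exact this.mono_left nhdsWithin_le_nhds

theorem mul_tend' {u : ℂ} (hu : u ≠ 0) : Tendsto (fun w : ℂ => u * w) (𝓝[≠] 0) (𝓝[≠] 0) :=
  tendsto_nhdsWithin_iff.2 ⟨mul_tend, eventually_mem_nhdsWithin.mono fun w hw => by
    simpa [hu] using hw⟩

theorem simple {G : ℂ → ℂ} (hG : AnalyticAt ℂ G 0) (h1 : analyticOrderAt G 0 = 1) (u : ℂ) :
    Tendsto (fun w => G (u * w) / G w) (𝓝[≠] 0) (𝓝 u) := by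
  obtain ⟨g, hg, hg0, hev⟩ := (hG.analyticOrderAt_eq_natCast (n := 1)).1 (by simpa using h1)
  have h2 : Tendsto g (𝓝[≠] 0) (𝓝 (g 0)) := hg.continuousAt.tendsto.mono_left nhdsWithin_le_nhds
  have h3 : Tendsto (fun w => g (u * w)) (𝓝[≠] 0) (𝓝 (g 0)) :=
    hg.continuousAt.tendsto.comp mul_tend
  have h4 : Tendsto (fun w => u * (g (u * w) / g w)) (𝓝[≠] 0) (𝓝 (u * (g 0 / g 0))) :=
    (h3.div h2 hg0).const_mul u
  rw [div_self hg0, mul_one] at h4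
  refine h4.congr' ?_
  filter_upwards [mul_tend.eventually hev, hev.filter_mono nhdsWithin_le_nhds,
    eventually_mem_nhdsWithin] with w e1 e2 hw
  have hw' : w ≠ 0 := hw
  rw [e1, e2]
  simp only [sub_zero, pow_one, smul_eq_mul]
  by_cases h5 : g w = 0
  · simp [h5]
  · field_simp

theorem lp_zero (hP : LpSt σ) {γ : K} {S : Set K} (h : Adm σ γ S) (h0 : (0 : K) ∈ S) (u : ℂ) :
    Tendsto (fun w => lp σ γ S (u * w) / lp σ γ S w) (𝓝[≠] 0) (𝓝 u) := by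
  refine simple ((hP.diff γ S h).analyticAt 0) ?_ u
  rw [hP.ord γ S h, if_pos ⟨0, h0, map_zero σ⟩]

theorem lp_one (hP : LpSt σ) {γ : K} {S : Set K} (h : Adm σ γ S) (h0 : (0 : K) ∉ S) (u : ℂ) :
    Tendsto (fun w => lp σ γ S (u * w) / lp σ γ S w) (𝓝[≠] 0) (𝓝 1) := by
  have h1 := lp_ne hP h (zero_off h0)
  have h2 : Continuous (lp σ γ S) := (hP.diff γ S h).continuous
  have h3 := ((h2.tendsto 0).comp (mul_tend (u := u))).div
    ((h2.tendsto 0).mono_left nhdsWithin_le_nhds) h1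
  rw [div_self h1] at h3
  exact h3

theorem el_zero (hP : LpSt σ) {γ : K} {S : Set K} (h : Adm σ γ S) (h0 : (0 : K) ∈ S) {u : ℂ}
    (hu : u ≠ 0) :
    Tendsto (fun w => el σ γ S (u * w) - el σ γ S w) (𝓝[≠] 0) (𝓝 (Real.log (‖u‖ ^ 2))) := by
  have h1 : Tendsto (fun w => Real.log (‖lp σ γ S (u * w) / lp σ γ S w‖ ^ 2)) (𝓝[≠] 0)
      (𝓝 (Real.log (‖u‖ ^ 2))) := ((lp_zero hP h h0 u).norm.pow 2).log (by simpa using hu)
  have h2 := (nn_cont (σ := σ) γ S).tendsto 0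
  have h3 := h1.sub (((h2.comp (mul_tend (u := u))).sub
    (h2.mono_left nhdsWithin_le_nhds)).const_mul (2 * π))
  rw [sub_self, mul_zero, sub_zero] at h3
  refine h3.congr' ?_
  filter_upwards [ev_ne hP h, (mul_tend' hu).eventually (ev_ne hP h)] with w e1 e2
  rw [norm_div, div_pow, Real.log_div (by simpa using e2) (by simpa using e1)]
  simp only [el, Function.comp]
  ring

theorem el_one (hP : LpSt σ) {γ : K} {S : Set K} (h : Adm σ γ S) (h0 : (0 : K) ∉ S) (u : ℂ) :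
    Tendsto (fun w => el σ γ S (u * w) - el σ γ S w) (𝓝[≠] 0) (𝓝 0) := by
  have h2 := (el_cont hP h h0).tendsto
  have h3 := (h2.comp (mul_tend (u := u))).sub (h2.mono_left nhdsWithin_le_nhds)
  rw [sub_self] at h3
  exact h3

theorem lp_sm (hP : LpSt σ) {γ : K} {S : Set K} (h : Adm σ γ S) {u : K} (hu : u ≠ 0) (w : ℂ) :
    lp σ (u * γ) (sm u S) (σ u * w) = lp σ γ S w := (hP.mul γ S u hu h).2.1 w

theorem el_sm (hP : LpSt σ) {γ : K} {S : Set K} (h : Adm σ γ S) {u : K} (hu : u ≠ 0) (w : ℂ) :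
    el σ (u * γ) (sm u S) (σ u * w) = el σ γ S w := by
  have h1 := lp_sm hP h hu w
  have h2 : co σ (u * γ) (sm u S) = co σ γ S := (hP.mul γ S u hu h).2.2
  have h3 : σ u * w / σ (u * γ) = w / σ γ := by
    rw [map_mul, mul_div_mul_left _ _ ((map_ne_zero σ).2 hu)]
  unfold el nn
  rw [h1, h2, h3]

theorem tri (p : ℚ) : ((0 ≤ p ↔ False) ∧ (0 < p ↔ False) ∧ (p = 0 ↔ False)) ∨
    ((0 ≤ p ↔ True) ∧ (0 < p ↔ False) ∧ (p = 0 ↔ True)) ∨
    ((0 ≤ p ↔ True) ∧ (0 < p ↔ True) ∧ (p = 0 ↔ False)) := by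
  rcases lt_trichotomy p 0 with h | h | h
  · left
    simp [h.ne, h.le, h]
  · right; left
    simp [h]
  · right; right
    simp [h.ne', h.le, h]

/-- The comparison of the two extreme values. -/
theorem key (h2 : Bas2 ρ σ) (hP : LpSt σ) (hA : AdmSt σ)
    (hR : RPSt σ) (hS : StepSt σ) (hT : TL2St σ) (E : K) (L : Submodule ℤ K) (a : K →ₗ[ℚ] ℚ)
    (γ : K) (hE0 : E ≠ 0) (hL : ELat E L) (hγ : γ ∈ L) (hO : Ori σ γ a (tw a E⁻¹)) :
    (∃ k : K, ph σ γ (coset L 0) (rf (hs a 0)) (sm E (rf (hs a 0))) 0 =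
      ee (σ k) * σ E * ph σ γ (coset L 0) (hs a 0) (sm E (hs a 0)) 0) ∧
    pl σ γ (coset L 0) (rf (hs a 0)) (sm E (rf (hs a 0))) 0 =
      Real.log (‖σ E‖ ^ 2) + pl σ γ (coset L 0) (hs a 0) (sm E (hs a 0)) 0 := by
  have hLt := h2.lt E L hL
  set b := tw a E⁻¹ with hb
  have hba : ∀ x, b x = a (E⁻¹ * x) := fun x => rfl
  set Λ := coset L 0 with hΛ
  have mΛ : ∀ x, x ∈ Λ ↔ x ∈ L := fun x => by simp [hΛ, coset]
  have sL : ∀ x, E⁻¹ * x ∈ L ↔ x ∈ L := fun x => by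
    rw [← hL.stab, mul_inv_cancel_left₀ hE0]
  set Xm := hs a 0 with hXm
  set Xp := rf Xm with hXp
  set Ym := sm E Xm with hYm
  set Yp := sm E Xp with hYp
  set Z := sm E Yp with hZ
  have mXm : ∀ x, x ∈ Xm ↔ 0 < a x := fun x => Iff.rfl
  have mXp : ∀ x, x ∈ Xp ↔ 0 ≤ a x := fun x => by
    change ¬ (0 < a (-x)) ↔ _
    rw [map_neg]; simp
  have mYm : ∀ x, x ∈ Ym ↔ 0 < b x := fun x => Iff.rfl
  have mYp : ∀ x, x ∈ Yp ↔ 0 ≤ b x := fun x => mXp _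
  have mZ : ∀ x, x ∈ Z ↔ 0 ≤ b (E⁻¹ * x) := fun x => mYp _
  have HXm : HS a Xm := h2.hs a 0
  have HXp : HS a Xp := h2.hs_rf a _ HXm
  have HYm : HS b Ym := h2.hs_sm a _ E HXm
  have HYp : HS b Yp := h2.hs_sm a _ E HXp
  have HZ : HS (tw b E⁻¹) Z := h2.hs_sm b _ E HYp
  have hO' : Ori σ (-γ) b a := h2.neg _ _ _ hO
  have hO'' : Ori σ (E * γ) b (tw b E⁻¹) := h2.mul _ _ _ E hE0 hO
  have hγ' : -γ ∈ L := L.neg_mem hγ
  have hγ'' : E * γ ∈ L := (hL.stab γ).2 hγ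
  set Pa := plane Λ a 0 with hPa
  set Pb := plane Λ b 0 with hPb
  have mPa : ∀ x, x ∈ Pa ↔ x ∈ L ∧ a x = 0 := fun x => by rw [← mΛ]; rfl
  have mPb : ∀ x, x ∈ Pb ↔ x ∈ L ∧ b x = 0 := fun x => by rw [← mΛ]; rfl
  -- admissible sets
  obtain ⟨A1, A2⟩ := hA.wedge L 0 γ a b Xp Yp hLt hγ hO HXp HYp
  obtain ⟨A3, A4⟩ := hA.wedge L 0 γ a b Xm Ym hLt hγ hO HXm HYm
  obtain ⟨A5, A6⟩ := hA.wedge L 0 γ a b Xm Yp hLt hγ hO HXm HYp
  obtain ⟨B1, B2⟩ := hA.half L 0 γ a b 0 Yp hLt hγ hO HYp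
  obtain ⟨C1, C2⟩ := hA.half L 0 (E * γ) b _ 0 Z hLt hγ'' hO'' HZ
  rw [← hΛ] at A1 A2 A3 A4 A5 A6 B1 B2 C1 C2
  rw [← hPa] at B1 B2
  rw [← hPb] at C1 C2
  have s1 : sm E (Pa \ Yp) = Pb \ Z := by
    ext x
    change (E⁻¹ * x ∈ Pa ∧ E⁻¹ * x ∉ Yp) ↔ (x ∈ Pb ∧ x ∉ Z)
    rw [mPa, mPb, sL, mZ, mYp, hba x]
  have s2 : sm E (Pa ∩ Yp) = Pb ∩ Z := by
    ext x
    change (E⁻¹ * x ∈ Pa ∧ E⁻¹ * x ∈ Yp) ↔ (x ∈ Pb ∧ x ∈ Z)
    rw [mPa, mPb, sL, mZ, mYp, hba x]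
  have z1 : (0 : K) ∉ Λ ∩ (Xp \ Yp) := fun h => h.2.2 ((mYp _).2 (by simp))
  have z2 : (0 : K) ∉ Λ ∩ (Yp \ Xp) := fun h => h.2.2 ((mXp _).2 (by simp))
  have z3 : (0 : K) ∉ Λ ∩ (Xm \ Ym) := fun h => by simpa using (mXm _).1 h.2.1
  have z4 : (0 : K) ∉ Λ ∩ (Ym \ Xm) := fun h => by simpa using (mYm _).1 h.2.1
  have z5 : (0 : K) ∉ Pb \ Z := fun h => h.2 ((mZ _).2 (by simp))
  have z6 : (0 : K) ∈ Pb ∩ Z := ⟨(mPb _).2 ⟨L.zero_mem, by simp⟩, (mZ _).2 (by simp)⟩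
  have hσE : σ E ≠ 0 := (map_ne_zero σ).2 hE0
  constructor
  · obtain ⟨P, -, hPe⟩ := hT L 0 (E * γ) (-γ) b _ a 0 Z Xm hLt hγ'' hγ' hO'' hO' HZ HXm
    have e1 := hS L 0 γ a b Xm Xp Yp hLt hγ hO HXm HXp HYp
      (fun x hx => (mXp x).2 ((mXm x).1 hx).le) {0} (fun x _ => by
        rw [mXp, mXm, Finset.mem_singleton]
        exact ⟨fun h => le_antisymm (not_lt.1 h.2) h.1, fun h => by simp [h]⟩)
    have e2 := hS L 0 (-γ) b a Ym Yp Xm hLt hγ' hO' HYm HYp HXm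
      (fun x hx => (mYp x).2 ((mYm x).1 hx).le) {0} (fun x _ => by
        rw [mYp, mYm, Finset.mem_singleton]
        exact ⟨fun h => le_antisymm (not_lt.1 h.2) h.1, fun h => by simp [h]⟩)
    rw [← hΛ] at e1 e2 hPe
    rw [← hPb] at hPe
    simp only [Finset.prod_singleton, pN, pD, neg_neg] at e1 e2
    rw [← hPa] at e1
    rw [← hPb] at e2
    have e3 : ∀ w, th σ γ Pa Yp w = th σ (E * γ) Pb Z (σ E * w) := fun w => by
      unfold th
      rw [← s1, ← s2, lp_sm hP B1 hE0, ← mul_neg, lp_sm hP B2 hE0]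
    have c1 := ((hP.diff _ _ A1).continuous.tendsto 0).mono_left
      (nhdsWithin_le_nhds (s := {0}ᶜ))
    have c2 := ((hP.diff _ _ A2).continuous.tendsto 0).mono_left
      (nhdsWithin_le_nhds (s := {0}ᶜ))
    have c3 := ((hP.diff _ _ A3).continuous.tendsto 0).mono_left
      (nhdsWithin_le_nhds (s := {0}ᶜ))
    have c4 := ((hP.diff _ _ A4).continuous.tendsto 0).mono_left
      (nhdsWithin_le_nhds (s := {0}ᶜ))
    have c5 : Continuous fun w => ee (P.eval₂ σ w) := by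
      have := Polynomial.continuous_eval₂ P σ
      unfold ee
      fun_prop
    have c6 := (c5.tendsto 0).mono_left (nhdsWithin_le_nhds (s := {0}ᶜ))
    have t1 := c1.mul c4
    have t2 := (c6.mul ((lp_one hP C1 z5 (σ E)).mul (lp_zero hP C2 z6 (σ E)))).mul (c2.mul c3)
    have t3 := tendsto_nhds_unique_of_eventuallyEq t1 t2 (by
      filter_upwards [ev_ne hP A5, ev_ne hP A6, ev_ne hP C1, ev_ne hP C2] with w n5 n6 n1 n2
      have f1 := e1 w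
      have f2 := e2 w
      have f3 := hPe w
      rw [e3 w] at f1
      simp only [th] at f1 f3
      have g : (lp σ γ (Λ ∩ (Xp \ Yp)) w * lp σ (-γ) (Λ ∩ (Ym \ Xm)) w *
          (lp σ (E * γ) (Pb \ Z) w * lp σ (-(E * γ)) (Pb ∩ Z) w)) *
          (lp σ γ (Λ ∩ (Xm \ Yp)) w * lp σ (-γ) (Λ ∩ (Yp \ Xm)) w) =
          (ee (P.eval₂ σ w) * (lp σ (E * γ) (Pb \ Z) (σ E * w) *
            lp σ (-(E * γ)) (Pb ∩ Z) (σ E * w)) *
            (lp σ (-γ) (Λ ∩ (Yp \ Xp)) w * lp σ γ (Λ ∩ (Xm \ Ym)) w)) *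
          (lp σ γ (Λ ∩ (Xm \ Yp)) w * lp σ (-γ) (Λ ∩ (Yp \ Xm)) w) := by
        rw [f3]
        simp only [th] at f2
        linear_combination (exp := 1)
          (ee (P.eval₂ σ w) * (lp σ (-γ) (Pb \ Xm) w * lp σ (- -γ) (Pb ∩ Xm) w) *
            lp σ (-γ) (Λ ∩ (Ym \ Xm)) w * lp σ γ (Λ ∩ (Xm \ Yp)) w) * f1 -
          (ee (P.eval₂ σ w) * (lp σ (E * γ) (Pb \ Z) (σ E * w) *
            lp σ (-(E * γ)) (Pb ∩ Z) (σ E * w)) * lp σ γ (Λ ∩ (Xm \ Yp)) w *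
            lp σ (-γ) (Λ ∩ (Yp \ Xp)) w) * f2
      have g' := mul_right_cancel₀ (mul_ne_zero n5 n6) g
      rw [div_mul_div_comm, ← mul_div_assoc, div_mul_eq_mul_div, eq_div_iff (mul_ne_zero n1 n2)]
      exact g')
    refine ⟨P.coeff 0, ?_⟩
    rw [Polynomial.eval₂_at_zero] at t3
    have n2 := lp_ne hP A2 (zero_off z2)
    have n4 := lp_ne hP A4 (zero_off z4)
    simp only [ph, pN, pD]
    field_simp
    linear_combination t3
  · have c1 := (el_cont hP A1 z1).tendsto.mono_left (nhdsWithin_le_nhds (s := {0}ᶜ))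
    have c2 := (el_cont hP A2 z2).tendsto.mono_left (nhdsWithin_le_nhds (s := {0}ᶜ))
    have c3 := (el_cont hP A3 z3).tendsto.mono_left (nhdsWithin_le_nhds (s := {0}ᶜ))
    have c4 := (el_cont hP A4 z4).tendsto.mono_left (nhdsWithin_le_nhds (s := {0}ᶜ))
    have t1 := (c1.sub c2).sub (c3.sub c4)
    have t2 := (el_one hP C1 z5 (σ E)).add (el_zero hP C2 z6 hσE)
    have t3 := tendsto_nhds_unique_of_eventuallyEq t1 t2 (by
      filter_upwards [ev_off hP A1, ev_off hP A2, ev_off hP A3, ev_off hP A4, ev_off hP B1,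
        ev_off hP B2, ev_off hP C1, ev_off hP C2] with w o1 o2 o3 o4 o5 o6 o7 o8
      have r := hR (ι := Fin 8) ![γ, -γ, γ, -γ, γ, -γ, E * γ, -(E * γ)]
        ![Λ ∩ (Xp \ Yp), Λ ∩ (Yp \ Xp), Λ ∩ (Xm \ Ym), Λ ∩ (Ym \ Xm), Pa \ Yp, Pa ∩ Yp, Pb \ Z,
          Pb ∩ Z] ![1, -1, -1, 1, -1, -1, 1, 1]
        (fun i => by fin_cases i <;> assumption)
        (fun x => by
          simp only [Fin.sum_univ_eight]
          simp only [Matrix.cons_val, Set.mem_inter_iff, Set.mem_sdiff, mΛ, mXp, mXm, mYp, mYm,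
            mPa, mPb]
          obtain ⟨q3, q4, q5⟩ | ⟨q3, q4, q5⟩ | ⟨q3, q4, q5⟩ := tri (a x) <;>
            obtain ⟨q6, q7, q8⟩ | ⟨q6, q7, q8⟩ | ⟨q6, q7, q8⟩ := tri (b x) <;>
            by_cases q1 : x ∈ L <;> by_cases q2 : x ∈ Z <;>
            simp only [q1, q2, q3, q4, q5, q6, q7, q8] <;> simp)
        w (fun i => by fin_cases i <;> assumption)
      simp only [Fin.sum_univ_eight] at r
      simp only [Matrix.cons_val] at r
      have g1 := el_sm hP B1 hE0 w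
      have g2 := el_sm hP B2 hE0 w
      rw [s1] at g1
      rw [s2, mul_neg] at g2
      rw [g1, g2]
      push_cast at r
      linarith)
    simp only [pl]
    linarith

end ZeroAux

theorem zeroSt (hB : BasSt ρ σ) (h2 : Bas2 ρ σ) (hE : EqvSt σ) (hP : LpSt σ) (hA : AdmSt σ)
    (hR : RPSt σ) (hS : StepSt σ) (hT : TL2St σ) (hV : ValSt ρ σ) : ZeroSt ρ σ := by
  intro ε L a γ X hε hL ha hγ hO hX
  have hε0 : ε ≠ 0 := fun h => by
    have := hε.one_lt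
    rw [h, map_zero] at this
    linarith
  have hE0 : ε ^ 2 ≠ 0 := pow_ne_zero 2 hε0
  have hL2 : ELat (ε ^ 2) L :=
    ⟨hL.fg, hL.full, fun y => by rw [sq, mul_assoc, hL.stab, hL.stab]⟩
  have hLt := h2.lt ε L hL
  have hε2 := hB.pow ε hε 2 two_ne_zero
  obtain ⟨⟨k, k1⟩, k2⟩ := ZeroAux.key h2 hP hA hR hS hT (ε ^ 2) L a γ hE0 hL2 hγ hO
  have HXm : HS a (hs a 0) := h2.hs a 0
  have HXp : HS a (rf (hs a 0)) := h2.hs_rf a _ HXm
  have hrf : rf (sm (ε ^ 2) (hs a 0)) = sm (ε ^ 2) (rf (hs a 0)) := by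
    ext x
    simp [rf, sm]
  obtain ⟨r1, r2⟩ := hV.refl L 0 γ a _ (hs a 0) (sm (ε ^ 2) (hs a 0)) 0 hLt hγ hO HXm
    (h2.hs_sm a _ _ HXm)
  rw [neg_zero, neg_zero, hrf] at r1 r2
  have n0 := hV.ne L 0 γ a _ (hs a 0) (sm (ε ^ 2) (hs a 0)) hLt hγ hO HXm (h2.hs_sm a _ _ HXm)
    (fun _ => by simp [sm])
  have nX := hV.ne L 0 γ a _ X (sm (ε ^ 2) X) hLt hγ hO hX (h2.hs_sm a _ _ hX)
    (fun _ => by simp [sm])
  set fm := ph σ γ (coset L 0) (hs a 0) (sm (ε ^ 2) (hs a 0)) 0 with hfm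
  set lm := pl σ γ (coset L 0) (hs a 0) (sm (ε ^ 2) (hs a 0)) 0 with hlm
  have hσ : σ ε ≠ 0 := (map_ne_zero σ).2 hε0
  have hk : EK σ (ee (σ k)) := ⟨k, rfl⟩
  have e1 : EK σ (σ ε * fm) := by
    refine hE.ek_root _ 2 two_ne_zero ?_
    have : (σ ε * fm) ^ 2 = (ee (σ k))⁻¹ := by
      have h0 := hE.ek_ne _ hk
      rw [r1, map_pow] at k1
      field_simp at k1 ⊢
      linear_combination -k1
    rw [this]
    exact hE.ek_inv _ hk
  have e2 : lm = -Real.log (‖σ ε‖ ^ 2) := by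
    rw [r2, map_pow, norm_pow, Real.log_pow] at k2
    push_cast at k2
    linarith
  have h0L : (ε ^ 2 - 1) * 0 ∈ L := by simp
  by_cases h0 : (0 : K) ∈ X
  · obtain ⟨i1, i2⟩ := hV.ind (ε ^ 2) L 0 a a γ γ X (rf (hs a 0)) hε2 hL2 h0L ha ha hγ hγ hO hO
      hX HXp (fun _ => by simp [h0, rf, hs])
    rw [r1] at i1
    rw [r2, e2, neg_neg] at i2
    refine ⟨1, nX, ?_, ?_⟩
    · have := hE.ek_div _ _ e1 i1
      convert this using 1
      field_simp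
    · rw [zpow_one, i2]
  · obtain ⟨i1, i2⟩ := hV.ind (ε ^ 2) L 0 a a γ γ X (hs a 0) hε2 hL2 h0L ha ha hγ hγ hO hO
      hX HXm (fun _ => by simp [h0, hs])
    rw [← hfm] at i1
    rw [← hlm, e2] at i2
    refine ⟨-1, nX, ?_, ?_⟩
    · have := hE.ek_inv _ (hE.ek_mul _ _ e1 i1)
      convert this using 1
      rw [zpow_neg_one]
      field_simp
    · rw [zpow_neg_one, i2, norm_inv, inv_pow, Real.log_inv]

end Pool.Agent.CU
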