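import Pool.Agent.Lib.MP_ca56d1_nt.CU.U.Bas
import Pool.Agent.Lib.MP_ca56d1_nt.CU.U.Bas2
import Pool.Agent.Lib.MP_ca56d1_nt.CU.U.Eqv
import Pool.Agent.Lib.MP_ca56d1_nt.CU.U.EX
import Pool.Agent.Lib.MP_ca56d1_nt.CU.U.LpA
import Pool.Agent.Lib.MP_ca56d1_nt.CU.U.LpB
import Pool.Agent.Lib.MP_ca56d1_nt.CU.U.Lp
import Pool.Agent.Lib.MP_ca56d1_nt.CU.U.Adm
import Pool.Agent.Lib.MP_ca56d1_nt.CU.U.Cone
import Pool.Agent.Lib.MP_ca56d1_nt.CU.U.CS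
import Pool.Agent.Lib.MP_ca56d1_nt.CU.U.Line
import Pool.Agent.Lib.MP_ca56d1_nt.CU.U.FP
import Pool.Agent.Lib.MP_ca56d1_nt.CU.U.RP
import Pool.Agent.Lib.MP_ca56d1_nt.CU.U.TL1
import Pool.Agent.Lib.MP_ca56d1_nt.CU.U.TL2
import Pool.Agent.Lib.MP_ca56d1_nt.CU.U.Coc
import Pool.Agent.Lib.MP_ca56d1_nt.CU.U.N3
import Pool.Agent.Lib.MP_ca56d1_nt.CU.U.Val
import Pool.Agent.Lib.MP_ca56d1_nt.CU.U.Zero
import Pool.Agent.Lib.MP_ca56d1_nt.CU.U.Hat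
import Pool.Agent.Lib.MP_ca56d1_nt.CU.U.Lin
import Pool.Agent.Lib.MP_ca56d1_nt.CU.U.PU
import Pool.Agent.Lib.MP_ca56d1_nt.CU.U.Gauss
import Pool.Agent.Lib.MP_ca56d1_nt.CU.U.T3
import Pool.Agent.Lib.MP_ca56d1_nt.CU.U.T1
import Pool.Agent.Lib.MP_ca56d1_nt.CU.U.PsiA
import Pool.Agent.Lib.MP_ca56d1_nt.CU.U.PsiB
import Pool.Agent.Lib.MP_ca56d1_nt.CU.U.T3B
import Pool.Agent.Lib.MP_ca56d1_nt.CU.U.HkA
import Pool.Agent.Lib.MP_ca56d1_nt.CU.U.HkB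
import Pool.Agent.Lib.MP_ca56d1_nt.CU.U.Lim
import Pool.Agent.Lib.MP_ca56d1_nt.CU.U.Klf

/-! Assembly of the analytic part over a complex cubic field. -/

namespace Pool.Agent.CU

variable {K : Type} [Field K] [CharZero K] {ρ : K →+* ℝ} {σ : K →+* ℂ}

theorem bas2S (hK : CC ρ σ) : Bas2 ρ σ := bas2 hK (basSt hK)

theorem lpSt (σ : K →+* ℂ) : LpSt σ := lpSt_of (lpA σ) (lpB σ)

theorem admSt (hK : CC ρ σ) : AdmSt σ := admS (bas2S hK) (lpB σ)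

theorem fpS (σ : K →+* ℂ) : FPSt σ := fpSt (lineSt csSt) (lpA σ) (lpB σ)

theorem rpSt (σ : K →+* ℂ) : RPSt σ := rpS (lpA σ) (fpS σ)

theorem stepS (hK : CC ρ σ) : StepSt σ := stepSt (lpSt σ) (admSt hK)

theorem tl1S (hK : CC ρ σ) : TL1St σ := tl1St (bas2S hK) (eqvSt σ) (lpSt σ) (admSt hK)

theorem tl2S (hK : CC ρ σ) : TL2St σ :=
  tl2St (bas2S hK) (eqvSt σ) (exSt σ) (lpSt σ) (admSt hK) (tl1S hK)

theorem cocS (hK : CC ρ σ) : CocSt σ :=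
  cocSt (bas2S hK) (eqvSt σ) (exSt σ) (lpSt σ) (admSt hK) (stepS hK) (tl2S hK)

theorem modSt (hK : CC ρ σ) : ModSt σ := ⟨tl1S hK, tl2S hK, cocS hK⟩

theorem valS (hK : CC ρ σ) : ValSt ρ σ :=
  valSt (basSt hK) (bas2S hK) (eqvSt σ) (lpSt σ) (admSt hK) (rpSt σ) (cocS hK)

theorem uvalS (hK : CC ρ σ) : UValSt ρ σ :=
  uvalSt (basSt hK) (bas2S hK) (eqvSt σ)
    (n3St (basSt hK) (bas2S hK) (lpSt σ) (coneSt (lpB σ))) (valS hK)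

theorem hatSt (hK : CC ρ σ) : HatSt ρ σ :=
  hatS (basSt hK) (bas2S hK) (eqvSt σ) (valS hK)
    (zeroSt (basSt hK) (bas2S hK) (eqvSt σ) (lpSt σ) (admSt hK) (rpSt σ) (stepS hK) (tl2S hK)
      (valS hK)) (uvalS hK)

theorem klfS (hK : CC ρ σ) : KlfSt ρ σ := by
  have h1 := t1St gaussSt
  have h3 := t3St (basSt hK) (bas2S hK) gaussSt
  have h4 := hkB h1 (t3B h3)
  exact klfSt (basSt hK) (bas2S hK) (uvalS hK) (hkA (bas2S hK) (t3B h3)) h4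
    (limSt (basSt hK) (bas2S hK) (admSt hK) (fpS σ) finSt (psiA h1 h3)
      (psiB (basSt hK) (bas2S hK) h1 h3 (psiA h1 h3)) h4)

theorem partU (hK : CC ρ σ) : PartU ρ σ :=
  partU_of (basSt hK) (bas2S hK) (eqvSt σ) (valS hK) (uvalS hK)
    (linSt (basSt hK) (bas2S hK) (eqvSt σ) (lpA σ) (admSt hK) (rpSt σ) (valS hK) (uvalS hK))
    (klfS hK)

end Pool.Agent.CU
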