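import Pool.Agent.Lib.MP_ca56d1_nt.CU.U.St

/-! Basic algebra of a complex cubic field. -/

namespace Pool.Agent.CU

open Complex Filter Topology MeasureTheory Pool.Agent.RM
open scoped Real Classical

variable {K : Type} [Field K] [CharZero K] {ρ : K →+* ℝ} {σ : K →+* ℂ}

namespace BasAux

theorem fin (hK : CC ρ σ) : Module.Finite ℚ K :=
  Module.finite_of_finrank_pos (by rw [hK.three]; norm_num)

theorem li (hK : CC ρ σ) {x : K} (hx : ¬ ∃ q : ℚ, x = q) :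
    LinearIndependent ℚ fun i : Fin 3 => x ^ (i : ℕ) := by
  have := fin hK
  have h1 := minpoly.degree_dvd (IsIntegral.of_finite ℚ x)
  rw [hK.three, Nat.dvd_prime Nat.prime_three, minpoly.natDegree_eq_one_iff] at h1
  have h2 := linearIndependent_pow (K := ℚ) x
  rwa [h1.resolve_left fun ⟨q, hq⟩ => hx ⟨q, hq.symm⟩] at h2

theorem ind (hK : CC ρ σ) (x : K) (hx : ¬ ∃ q : ℚ, x = q) (a b c : ℚ)
    (h : (a : K) + b * x + c * x ^ 2 = 0) : a = 0 ∧ b = 0 ∧ c = 0 := by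
  have h1 := Fintype.linearIndependent_iff.1 (li hK hx) ![a, b, c] (by
    simpa [Fin.sum_univ_three, Rat.smul_def] using h)
  exact ⟨h1 0, h1 1, h1 2⟩

theorem rat (hK : CC ρ σ) (x : K) (h : (σ x).im = 0) : ∃ q : ℚ, x = q := by
  by_contra hx
  obtain ⟨y, hy⟩ := hK.nonreal
  have h1 := (li hK hx).span_eq_top_of_card_eq_finrank (by simp [hK.three])
  obtain ⟨c, rfl⟩ := (Submodule.mem_span_range_iff_exists_fun ℚ).1 (h1 ▸ Submodule.mem_top (x := y))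
  exact hy (by simp [Fin.sum_univ_three, Rat.smul_def, sq, h])

theorem prod3 (hK : CC ρ σ) [Module.Finite ℚ K] {M : Type} [CommMonoid M] (f : (K →ₐ[ℚ] ℂ) → M) :
    ∏ ψ, f ψ = f (ofRealHom.comp ρ).toRatAlgHom *
      (f σ.toRatAlgHom * f ((starRingEnd ℂ).comp σ).toRatAlgHom) := by
  obtain ⟨x, hx⟩ := hK.nonreal
  have h1 : (ofRealHom.comp ρ).toRatAlgHom ≠ σ.toRatAlgHom := fun e => hx (by
    simpa using (congrArg im (AlgHom.congr_fun e x)).symm)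
  have h2 : (ofRealHom.comp ρ).toRatAlgHom ≠ ((starRingEnd ℂ).comp σ).toRatAlgHom :=
    fun e => hx (by simpa using congrArg im (AlgHom.congr_fun e x))
  have h3 : σ.toRatAlgHom ≠ ((starRingEnd ℂ).comp σ).toRatAlgHom := fun e => hx (by
    have := congrArg im (AlgHom.congr_fun e x)
    simp only [RingHom.toRatAlgHom_apply, RingHom.comp_apply, conj_im] at this
    linarith)
  have hu : ({(ofRealHom.comp ρ).toRatAlgHom, σ.toRatAlgHom,
      ((starRingEnd ℂ).comp σ).toRatAlgHom} : Finset (K →ₐ[ℚ] ℂ)) = Finset.univ :=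
    Finset.eq_univ_of_card _ (by
      rw [AlgHom.card ℚ K ℂ, hK.three]
      exact Finset.card_eq_three.2 ⟨_, _, _, h1, h2, h3, rfl⟩)
  rw [← hu, Finset.prod_insert (by simp [h1, h2]), Finset.prod_pair h3]

theorem norm (hK : CC ρ σ) (x : K) : ((Algebra.norm ℚ x : ℚ) : ℝ) = ρ x * ‖σ x‖ ^ 2 := by
  have := fin hK
  have h := Algebra.norm_eq_prod_embeddings ℚ ℂ x
  rw [prod3 hK] at h
  simp only [RingHom.toRatAlgHom_apply, RingHom.comp_apply, mul_conj', eq_ratCast,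
    ofRealHom_eq_coe] at h
  exact_mod_cast h

theorem trace (hK : CC ρ σ) (x : K) : ((Algebra.trace ℚ K x : ℚ) : ℝ) = ρ x + 2 * (σ x).re := by
  have := fin hK
  have h := trace_eq_sum_embeddings ℂ (K := ℚ) (x := x)
  have h1 := prod3 hK (M := Multiplicative ℂ) fun ψ => Multiplicative.ofAdd (ψ x)
  rw [← ofAdd_sum, ← h, ← ofAdd_add, ← ofAdd_add] at h1
  have h2 := Multiplicative.ofAdd.injective h1
  simp only [RingHom.toRatAlgHom_apply, RingHom.comp_apply, add_conj, eq_ratCast,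
    ofRealHom_eq_coe] at h2
  exact_mod_cast h2

theorem cub (hK : CC ρ σ) (x : K) :
    ∃ t t' : ℚ, x ^ 3 = t * x ^ 2 - t' * x + (Algebra.norm ℚ x : ℚ) := by
  have := fin hK
  let f := Algebra.lmul ℚ K x
  have h1 : Polynomial.aeval x f.charpoly = 0 := Algebra.lmul_injective (R := ℚ) (by
    rw [← Polynomial.aeval_algHom_apply, map_zero]
    exact f.aeval_self_charpoly)
  have h2 : f.charpoly.natDegree = 3 := f.charpoly_natDegree.trans hK.three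
  have h3 : f.charpoly.coeff 3 = 1 := h2 ▸ f.charpoly_monic.coeff_natDegree
  have h4 : Algebra.norm ℚ x = (-1) ^ 3 * f.charpoly.coeff 0 :=
    hK.three ▸ f.det_eq_sign_charpoly_coeff
  rw [Polynomial.aeval_eq_sum_range, h2] at h1
  simp only [Finset.sum_range_succ, Finset.sum_range_zero, h3, Rat.smul_def] at h1
  refine ⟨-f.charpoly.coeff 2, f.charpoly.coeff 1, ?_⟩
  rw [h4]
  push_cast at h1 ⊢
  linear_combination h1

theorem uniq (hK : CC ρ σ) (r : ℝ) (c : ℂ) (h : ∀ x, r * ρ x + (c * σ x).re = 0) :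
    r = 0 ∧ c = 0 := by
  obtain ⟨x, hx⟩ := hK.nonreal
  have h0 := h 1
  have h1 := h x
  have h2 := h (x * x)
  simp only [map_one, map_mul, mul_one, mul_re, mul_im] at h0 h1 h2
  have h3 : c.re * (((σ x).re - ρ x) ^ 2 + (σ x).im ^ 2) = 0 := by
    linear_combination (-1) * h2 + (2 * (σ x).re) * h1 +
      (ρ x * ρ x - 2 * (σ x).re * ρ x) * h0
  have h4 : c.re = 0 := (mul_eq_zero.1 h3).resolve_right (by positivity)
  have h5 : r = 0 := by linarith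
  have h6 : c.im * (σ x).im = 0 := by
    rw [h4, h5] at h1
    linarith
  exact ⟨h5, Complex.ext h4 ((mul_eq_zero.1 h6).resolve_right hx)⟩

theorem fn (hK : CC ρ σ) (a : K →ₗ[ℚ] ℚ) (ha : a ≠ 0) : Fn ρ σ a ∨ Fn ρ σ (-a) := by
  have := fin hK
  obtain ⟨l, rfl⟩ := ((Algebra.traceForm ℚ K).toDual (traceForm_nondegenerate ℚ K)).surjective a
  have hl : l ≠ 0 := fun h => ha (by rw [h, map_zero])
  have h1 : ∀ x, (((Algebra.traceForm ℚ K).toDual (traceForm_nondegenerate ℚ K) l x : ℚ) : ℝ) =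
      ρ l * ρ x + (2 * σ l * σ x).re := fun x => by
    rw [LinearMap.BilinForm.toDual_def, Algebra.traceForm_apply, trace hK]
    simp [mul_assoc, mul_sub]
  rcases lt_or_gt_of_ne ((map_ne_zero ρ).2 hl) with h | h
  · refine Or.inr ⟨-ρ l, -(2 * σ l), neg_pos.2 h, fun x => ?_⟩
    rw [LinearMap.neg_apply, Rat.cast_neg, h1, neg_mul, neg_mul, neg_re, neg_add]
  · exact Or.inl ⟨_, _, h, h1⟩

theorem cyc {M : Submodule ℤ K} (hM : M.FG) (f : K →ₗ[ℚ] ℚ) :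
    ∃ x ∈ M, 0 ≤ f x ∧ ∀ y ∈ M, ∃ n : ℤ, f y = n * f x := by
  obtain ⟨g, hg⟩ := (FractionalIdeal.isPrincipal (⟨M.map (f.restrictScalars ℤ),
    FractionalIdeal.isFractional_of_fg (hM.map _)⟩ :
      FractionalIdeal (nonZeroDivisors ℤ) ℚ)).principal
  replace hg : M.map (f.restrictScalars ℤ) = Submodule.span ℤ {g} := hg
  obtain ⟨x, hx, rfl⟩ : g ∈ M.map (f.restrictScalars ℤ) := hg ▸ Submodule.mem_span_singleton_self g
  have h : ∀ y ∈ M, ∃ n : ℤ, f y = n * f x := fun y hy => by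
    obtain ⟨n, hn⟩ := Submodule.mem_span_singleton.1 (hg ▸ Submodule.mem_map_of_mem hy)
    exact ⟨n, by simpa using hn.symm⟩
  rcases le_total 0 (f x) with h0 | h0
  · exact ⟨x, hx, h0, h⟩
  · refine ⟨-x, M.neg_mem hx, by simpa using h0, fun y hy => ?_⟩
    obtain ⟨n, hn⟩ := h y hy
    exact ⟨-n, by simpa using hn⟩

theorem fn_ne (hK : CC ρ σ) {a : K →ₗ[ℚ] ℚ} (ha : Fn ρ σ a) : a ≠ 0 := by
  rintro rfl
  obtain ⟨r, c, hr, h⟩ := ha
  exact hr.ne' (uniq hK r c fun x => by simpa using (h x).symm).1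

theorem frame (hK : CC ρ σ) {a b : K →ₗ[ℚ] ℚ} (ha : a ≠ 0) (hb : ¬ ∃ q : ℚ, b = q • a) :
    ∃ x₁ x₂ g : K, a x₁ = 1 ∧ b x₁ = 0 ∧ a x₂ = 0 ∧ b x₂ = 1 ∧ g ≠ 0 ∧ a g = 0 ∧ b g = 0 ∧
      ∀ x, a x = 0 → b x = 0 → ∃ q : ℚ, x = q * g := by
  have := fin hK
  obtain ⟨x, hx⟩ := LinearMap.surjective_iff_ne_zero.2 ha 1
  obtain ⟨y, hy⟩ : ∃ y, b y - b x * a y ≠ 0 := by
    by_contra h
    push Not at h
    exact hb ⟨b x, LinearMap.ext fun y => by simpa [sub_eq_zero] using h y⟩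
  obtain ⟨z, hz, hz'⟩ : ∃ z, a z = 0 ∧ b z = 1 :=
    ⟨(b y - b x * a y)⁻¹ • (y - a y • x), by simp [hx], by
      rw [map_smul, map_sub, map_smul, smul_eq_mul, smul_eq_mul, mul_comm (a y),
        inv_mul_cancel₀ hy]⟩
  have h1 : a (x - b x • z) = 1 := by simp [hx, hz]
  have h2 : b (x - b x • z) = 0 := by simp [hz']
  have h3 : LinearMap.range (a.prod b) = ⊤ := LinearMap.range_eq_top.2 fun p =>
    ⟨p.1 • (x - b x • z) + p.2 • z, by
      rw [map_add, map_smul, map_smul]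
      simp only [LinearMap.prod_apply, Function.prod_apply, h1, h2, hz, hz']
      simp⟩
  have h4 := (a.prod b).finrank_range_add_finrank_ker
  rw [h3, hK.three, finrank_top, Module.finrank_prod, Module.finrank_self] at h4
  obtain ⟨⟨g, hg⟩, h5, h6⟩ := finrank_eq_one_iff'.1
    (show Module.finrank ℚ (LinearMap.ker (a.prod b)) = 1 by omega)
  refine ⟨_, z, g, h1, h2, hz, hz', fun h => h5 (Subtype.ext h), congrArg Prod.fst hg,
    congrArg Prod.snd hg, fun w hw hw' => ?_⟩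
  obtain ⟨q, hq⟩ := h6 ⟨w, Prod.ext hw hw'⟩
  exact ⟨q, by simpa [Rat.smul_def] using (congrArg Subtype.val hq).symm⟩

theorem ori_of (hK : CC ρ σ) {a b : K →ₗ[ℚ] ℚ} (ha : Fn ρ σ a) (hb : Fn ρ σ b)
    (hab : ¬ ∃ q : ℚ, b = q • a) {γ : K} (h0 : γ ≠ 0) (h1 : a γ = 0) (h2 : b γ = 0) :
    Ori σ γ a b ∨ Ori σ (-γ) a b := by
  obtain ⟨x₁, x₂, g, a1, b1, a2, b2, -, -, -, hg⟩ := frame hK (fn_ne hK ha) hab
  have hs : σ γ ≠ 0 := (map_ne_zero σ).2 h0
  obtain ⟨q₀, hq₀⟩ := hg γ h1 h2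
  have hq : (q₀ : K) ≠ 0 := fun h => h0 (by rw [hq₀, h, zero_mul])
  have key : ∀ x, (σ x / σ γ).im = (σ x₁ / σ γ).im * a x + (σ x₂ / σ γ).im * b x := fun x => by
    obtain ⟨q, h⟩ := hg (x - a x • x₁ - b x • x₂) (by simp [a1, a2]) (by simp [b1, b2])
    have h3 : x = a x * x₁ + b x * x₂ + (q / q₀ : ℚ) * γ := by
      rw [Rat.smul_def, Rat.smul_def] at h
      rw [hq₀]
      push_cast
      field_simp
      linear_combination h
    have h4 : σ x / σ γ = ((a x : ℝ) : ℂ) * (σ x₁ / σ γ) + ((b x : ℝ) : ℂ) * (σ x₂ / σ γ) +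
        ((q / q₀ : ℚ) : ℝ) := by
      conv_lhs => rw [h3]
      simp only [map_add, map_mul, map_ratCast, ofReal_ratCast]
      field_simp
    rw [h4, add_im, add_im, im_ofReal_mul, im_ofReal_mul, ofReal_im]
    ring
  have hc : (σ x₁ / σ γ).im ≠ 0 := fun h => by
    obtain ⟨q, hq⟩ := rat hK (x₁ / γ) (by rwa [map_div₀])
    rw [div_eq_iff h0, ← Rat.smul_def] at hq
    rw [hq, map_smul, h1, smul_zero] at a1
    exact zero_ne_one a1
  obtain ⟨r, c, hr, ha⟩ := ha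
  obtain ⟨r', c', hr', hb⟩ := hb
  generalize (σ x₁ / σ γ).im = c₁ at key hc
  generalize (σ x₂ / σ γ).im = c₂ at key
  have h3 := (uniq hK (c₁ * r + c₂ * r') (c₁ * c + c₂ * c' + I / σ γ) fun x => by
    have h4 := key x
    rw [ha, hb] at h4
    rw [add_mul _ (I / σ γ), add_mul _ (_ * c'), mul_assoc _ c, mul_assoc _ c', add_re, add_re,
      re_ofReal_mul, re_ofReal_mul, div_mul_eq_mul_div, mul_div_assoc, I_mul_re, h4]
    ring).1
  rcases lt_or_gt_of_ne hc with h | h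
  · refine Or.inr ⟨neg_ne_zero.2 h0, by simp [h1], by simp [h2], -c₁, -c₂, neg_pos.2 h, ?_,
      fun x => ?_⟩
    · by_contra h4
      nlinarith [mul_neg_of_neg_of_pos h hr, mul_nonneg (not_lt.1 h4) hr'.le]
    · rw [map_neg, div_neg, neg_im, key]
      ring
  · refine Or.inl ⟨h0, h1, h2, c₁, c₂, h, ?_, key⟩
    by_contra h4
    nlinarith [mul_pos h hr, mul_nonneg (not_lt.1 h4) hr'.le]

theorem map_nat (a : K →ₗ[ℚ] ℚ) (n : ℕ) (x : K) : a (n * x) = n * a x := by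
  rw [← nsmul_eq_mul, map_nsmul, nsmul_eq_mul]

theorem map_int (a : K →ₗ[ℚ] ℚ) (n : ℤ) (x : K) : a (n * x) = n * a x := by
  rw [← zsmul_eq_mul, map_zsmul, zsmul_eq_mul]

theorem basis (hK : CC ρ σ) (a b : K →ₗ[ℚ] ℚ) (L : Submodule ℤ K) (ha : Fn ρ σ a) (hb : Fn ρ σ b)
    (hab : ¬ ∃ q : ℚ, b = q • a) (hL : Lt L) (h1 : ∀ x ∈ L, ∃ n : ℤ, a x = n)
    (h2 : ∀ x ∈ L, ∃ n : ℤ, b x = n) (h3 : ∃ x ∈ L, a x = 1) :
    ∃ (α β γ : K) (s : ℕ), s ≠ 0 ∧ Ori σ γ a b ∧ a α = 1 ∧ a β = 0 ∧ b β = s ∧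
      ∀ x, x ∈ L ↔ ∃ i j k : ℤ, x = i * α + j * β + k * γ := by
  obtain ⟨α, hα, aα⟩ := h3
  obtain ⟨-, x₂, g, -, -, a2, b2, g0, ag, bg, hg⟩ := frame hK (fn_ne hK ha) hab
  obtain ⟨f, hf⟩ : ∃ f : K →ₗ[ℚ] ℚ, f g ≠ 0 := by
    by_contra h
    push Not at h
    exact g0 ((Module.forall_dual_apply_eq_zero_iff ℚ g).1 h)
  obtain ⟨β, ⟨hβ, aβ⟩, bβ, hM⟩ := cyc (M := L ⊓ (LinearMap.ker a).restrictScalars ℤ)
    (hL.fg.of_le inf_le_left) b
  obtain ⟨γ, ⟨⟨hγ, aγ⟩, bγ⟩, -, hN⟩ := cyc (M := (L ⊓ (LinearMap.ker a).restrictScalars ℤ) ⊓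
    (LinearMap.ker b).restrictScalars ℤ) (hL.fg.of_le (inf_le_left.trans inf_le_left)) f
  replace aβ : a β = 0 := aβ
  replace aγ : a γ = 0 := aγ
  replace bγ : b γ = 0 := bγ
  have hN' : ∀ y ∈ L, a y = 0 → b y = 0 → ∃ n : ℤ, y = n * γ := fun y hy ay by' => by
    obtain ⟨n, hn⟩ := hN y ⟨⟨hy, ay⟩, by'⟩
    obtain ⟨q, rfl⟩ := hg y ay by'
    obtain ⟨q', rfl⟩ := hg γ aγ bγ
    rw [← Rat.smul_def, ← Rat.smul_def, map_smul, map_smul, smul_eq_mul, smul_eq_mul,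
      ← mul_assoc] at hn
    exact ⟨n, by rw [mul_right_cancel₀ hf hn]; push_cast; ring⟩
  have γ0 : γ ≠ 0 := fun h => by
    obtain ⟨n, hn, hn'⟩ := hL.full g
    obtain ⟨k, hk⟩ := hN' _ hn' (by rw [map_nat, ag, mul_zero]) (by rw [map_nat, bg, mul_zero])
    rw [h, mul_zero] at hk
    exact mul_ne_zero (Nat.cast_ne_zero.2 hn) g0 hk
  obtain ⟨s, hs⟩ := h2 β hβ
  lift s to ℕ using (by rw [hs] at bβ; exact_mod_cast bβ)
  have s0 : s ≠ 0 := fun h => by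
    obtain ⟨n, hn, hn'⟩ := hL.full x₂
    obtain ⟨k, hk⟩ := hM _ ⟨hn', show a _ = 0 by rw [map_nat, a2, mul_zero]⟩
    rw [map_nat, b2, hs, h] at hk
    exact hn (by simpa using hk)
  have mem : ∀ (n : ℤ), ∀ x ∈ L, (n : K) * x ∈ L := fun n x hx => by
    simpa using L.smul_mem n hx
  have main : ∀ x ∈ L, ∃ i j k : ℤ, x = i * α + j * β + k * γ := fun x hx => by
    obtain ⟨i, hi⟩ := h1 x hx
    have m1 := L.sub_mem hx (mem i α hα)
    have e1 : a (x - i * α) = 0 := by rw [map_sub, map_int, aα, hi, mul_one, sub_self]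
    obtain ⟨j, hj⟩ := hM _ ⟨m1, e1⟩
    obtain ⟨k, hk⟩ := hN' _ (L.sub_mem m1 (mem j β hβ))
      (by rw [map_sub, e1, map_int, aβ, mul_zero, sub_self]) (by rw [map_sub, hj, map_int, sub_self])
    exact ⟨i, j, k, by linear_combination hk⟩
  rcases ori_of hK ha hb hab γ0 aγ bγ with h | h
  · refine ⟨α, β, γ, s, s0, h, aα, aβ, by exact_mod_cast hs, fun x => ⟨main x, ?_⟩⟩
    rintro ⟨i, j, k, rfl⟩
    exact L.add_mem (L.add_mem (mem i α hα) (mem j β hβ)) (mem k γ hγ)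
  · refine ⟨α, β, -γ, s, s0, h, aα, aβ, by exact_mod_cast hs, fun x => ⟨fun hx => ?_, ?_⟩⟩
    · obtain ⟨i, j, k, e⟩ := main x hx
      exact ⟨i, j, -k, by rw [e]; push_cast; ring⟩
    · rintro ⟨i, j, k, rfl⟩
      exact L.add_mem (L.add_mem (mem i α hα) (mem j β hβ)) (mem k _ (L.neg_mem hγ))

theorem tw_ne (a : K →ₗ[ℚ] ℚ) (u : K) (ha : a ≠ 0) (hu : ¬ ∃ q : ℚ, u = q) :
    ¬ ∃ q : ℚ, tw a u = q • a := by
  rintro ⟨q, h⟩
  have h0 : u - q ≠ 0 := fun e => hu ⟨q, sub_eq_zero.1 e⟩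
  refine ha (LinearMap.ext fun y => ?_)
  have h1 : a (u * (y / (u - q))) = q • a (y / (u - q)) := LinearMap.congr_fun h _
  rw [← map_smul, ← sub_eq_zero, ← map_sub, Rat.smul_def, ← sub_mul, mul_div_cancel₀ _ h0] at h1
  exact h1

end BasAux

open BasAux

theorem basSt (hK : CC ρ σ) : BasSt ρ σ where
  rat := rat hK
  mu := by
    rintro _ ⟨k, rfl⟩ h
    rw [ee, norm_exp, Real.exp_eq_one_iff] at h
    obtain ⟨q, rfl⟩ := rat hK k (by simpa [Real.pi_ne_zero] using h)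
    refine ⟨q.den, q.den_nz, ?_⟩
    have h1 : (q.den : ℂ) * q = q.num := by exact_mod_cast Rat.den_mul_eq_num q
    rw [ee, ← exp_nat_mul, map_ratCast, ← exp_int_mul_two_pi_mul_I q.num, ← h1]
    congr 1
    ring
  norm := norm hK
  cub := cub hK
  ind := ind hK
  irr := by
    rintro _ ⟨h1, h2⟩ ⟨q, rfl⟩
    simp only [map_ratCast, norm_ratCast, sq_abs] at h1 h2
    nlinarith [mul_pos (sub_pos.2 h1) (show (0 : ℝ) < q ^ 2 + q + 1 by positivity)]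
  pow := fun ε h n hn => ⟨by rw [map_pow]; exact one_lt_pow₀ h.one_lt hn, by
    rw [map_pow, map_pow, norm_pow, ← pow_mul, mul_comm n, pow_mul, ← mul_pow, h.norm, one_pow]⟩
  uniq := uniq hK
  fn := fn hK
  fn_tw := by
    rintro a u ⟨r, c, hr, h⟩ hu
    refine ⟨r * ρ u, c * σ u, mul_pos hr hu, fun x => ?_⟩
    rw [mul_assoc, mul_assoc, ← map_mul, ← map_mul, ← h]
    rfl
  ori := fun a b L ha hb hab hL => by
    obtain ⟨-, -, g, -, -, -, -, g0, ag, bg, -⟩ := frame hK (fn_ne hK ha) hab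
    obtain ⟨n, hn, hn'⟩ := hL.full g
    rcases ori_of hK ha hb hab (mul_ne_zero (Nat.cast_ne_zero.2 hn) g0)
      (by rw [map_nat, ag, mul_zero]) (by rw [map_nat, bg, mul_zero]) with h | h
    exacts [⟨_, hn', h⟩, ⟨_, L.neg_mem hn', h⟩]
  tw_ne := tw_ne
  basis := basis hK
  prim := fun a L ha hL => by
    obtain ⟨x, hx, h0, h⟩ := cyc hL.fg a
    have h1 : a x ≠ 0 := fun e => ha (LinearMap.ext fun y => by
      obtain ⟨n, hn, hn'⟩ := hL.full y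
      obtain ⟨k, hk⟩ := h _ hn'
      rw [e, mul_zero, map_nat] at hk
      exact (mul_eq_zero.1 hk).resolve_left (Nat.cast_ne_zero.2 hn))
    refine ⟨(a x)⁻¹, inv_pos.2 (h0.lt_of_ne h1.symm), fun y hy => ?_, x, hx, ?_⟩
    · obtain ⟨n, hn⟩ := h y hy
      exact ⟨n, by rw [LinearMap.smul_apply, hn, smul_eq_mul]; field_simp⟩
    · rw [LinearMap.smul_apply, smul_eq_mul, inv_mul_cancel₀ h1]

end Pool.Agent.CU
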