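import Pool.Agent.Lib.MP_ca56d1_nt.CU.U.St

/-! A Bessel integral of half integral order. -/

namespace Pool.Agent.CU

open Filter Topology MeasureTheory Set
open scoped Real

namespace CSAux

variable {v c : ℝ}

/-- The substitution. -/
noncomputable def ps (v c T : ℝ) : ℝ := v * √T - c / √T

/-- The Gaussian after the substitution. -/
noncomputable def gs (v c T : ℝ) : ℝ := Real.exp (-π * ps v c T ^ 2)

theorem der {T : ℝ} (hT : 0 < T) :
    HasDerivAt (ps v c) (v / 2 * (1 / √T) + c / 2 * (1 / (T * √T))) T := by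
  have h0 : √T ≠ 0 := (Real.sqrt_pos.2 hT).ne'
  have h1 := Real.hasDerivAt_sqrt hT.ne'
  refine ((h1.const_mul v).sub ((hasDerivAt_const T c).div h1 h0)).congr_deriv ?_
  rw [Real.sq_sqrt hT.le]
  field_simp
  ring

theorem inj (hv : 0 < v) (hc : 0 < c) : InjOn (ps v c) (Ioi 0) := by
  refine StrictMonoOn.injOn fun x hx y _ h => ?_
  have h1 : √x < √y := Real.sqrt_lt_sqrt (le_of_lt hx) h
  have h2 : 0 < √x := Real.sqrt_pos.2 hx
  unfold ps
  gcongr

theorem img (hv : 0 < v) (hc : 0 < c) : ps v c '' Ioi 0 = univ := by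
  refine eq_univ_of_forall fun y => ?_
  have h1 : |y| < √(y ^ 2 + 4 * v * c) := Real.lt_sqrt_of_sq_lt (by
    rw [sq_abs]
    exact lt_add_of_pos_right _ (by positivity))
  have h2 := Real.sq_sqrt (show 0 ≤ y ^ 2 + 4 * v * c by positivity)
  set r := √(y ^ 2 + 4 * v * c)
  have h3 : 0 < y + r := by linarith [neg_abs_le y]
  have h4 : 0 < (y + r) / (2 * v) := by positivity
  refine ⟨((y + r) / (2 * v)) ^ 2, mem_Ioi.2 (by positivity), ?_⟩
  rw [ps, Real.sqrt_sq h4.le]
  field_simp
  linear_combination h2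

theorem meas : Measurable (gs v c) := by
  unfold gs ps
  fun_prop

theorem main (hv : 0 < v) (hc : 0 < c) :
    IntegrableOn (fun T => 1 / (T * √T) * gs v c T) (Ioi 0) ∧
      ∫ T in Ioi (0 : ℝ), 1 / (T * √T) * gs v c T = 1 / c := by
  have hm := meas (v := v) (c := c)
  have hd : ∀ T ∈ Ioi (0 : ℝ), HasDerivWithinAt (ps v c)
      (v / 2 * (1 / √T) + c / 2 * (1 / (T * √T))) (Ioi 0) T := fun T hT => (der hT).hasDerivWithinAt
  have he : EqOn (fun T => |v / 2 * (1 / √T) + c / 2 * (1 / (T * √T))| •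
      Real.exp (-π * ps v c T ^ 2)) (fun T => v / 2 * (1 / √T * gs v c T) +
        c / 2 * (1 / (T * √T) * gs v c T)) (Ioi 0) := fun T hT => by
    have : 0 < T := hT
    simp only [smul_eq_mul, gs]
    rw [abs_of_pos (by positivity)]
    ring
  have h1 := (integrableOn_image_iff_integrableOn_abs_deriv_smul measurableSet_Ioi hd (inj hv hc)
    fun y => Real.exp (-π * y ^ 2)).1 (integrable_exp_neg_mul_sq Real.pi_pos).integrableOn
  have h2 := integral_image_eq_integral_abs_deriv_smul measurableSet_Ioi hd (inj hv hc)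
    fun y => Real.exp (-π * y ^ 2)
  rw [img hv hc, Measure.restrict_univ, integral_gaussian, div_self Real.pi_pos.ne', Real.sqrt_one,
    setIntegral_congr_fun measurableSet_Ioi he] at h2
  have h3 := h1.congr_fun he measurableSet_Ioi
  have hA : IntegrableOn (fun T => c / 2 * (1 / (T * √T) * gs v c T)) (Ioi 0) := by
    refine h3.mono' (Measurable.aestronglyMeasurable (by fun_prop))
      (ae_restrict_of_forall_mem measurableSet_Ioi fun T hT => ?_)
    have : 0 < T := hT
    rw [Real.norm_of_nonneg (by unfold gs; positivity)]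
    exact le_add_of_nonneg_left (by unfold gs; positivity)
  have hB : IntegrableOn (fun T => v / 2 * (1 / √T * gs v c T)) (Ioi 0) :=
    (h3.sub hA).congr (ae_of_all _ fun T => add_sub_cancel_right _ _)
  have h4 := integral_image_eq_integral_abs_deriv_smul (s := Ioi (0 : ℝ))
    (f := fun U => (c / v) ^ 2 / U) (f' := fun U => -((c / v) ^ 2 / U ^ 2)) measurableSet_Ioi
    (fun U hU => by
      have := ((hasDerivAt_const U ((c / v) ^ 2)).div (hasDerivAt_id U) (ne_of_gt hU))
      exact (this.congr_deriv (by simp [neg_div])).hasDerivWithinAt)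
    (fun x _ y _ h => by
      simpa [div_eq_mul_inv, hv.ne', hc.ne'] using h) fun T => v / 2 * (1 / √T * gs v c T)
  have h5 : (fun U => (c / v) ^ 2 / U) '' Ioi (0 : ℝ) = Ioi 0 := by
    refine Subset.antisymm ?_ fun U hU => ?_
    · rintro _ ⟨U, hU, rfl⟩
      have : 0 < U := hU
      exact mem_Ioi.2 (by positivity)
    · have : 0 < U := hU
      exact ⟨(c / v) ^ 2 / U, mem_Ioi.2 (by positivity), by field_simp⟩
  rw [h5, setIntegral_congr_fun (g := fun T => c / 2 * (1 / (T * √T) * gs v c T))
    (f := fun U => |-((c / v) ^ 2 / U ^ 2)| • _) measurableSet_Ioi fun U hU => ?_] at h4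
  · rw [integral_add hB hA, h4, integral_const_mul] at h2
    refine ⟨(hA.const_mul (2 / c)).congr (ae_of_all _ fun T => ?_), ?_⟩
    · field_simp
    · rw [eq_div_iff hc.ne']
      linarith
  · have hU' : 0 < U := hU
    have h6 : 0 < √U := Real.sqrt_pos.2 hU'
    have h7 : √((c / v) ^ 2 / U) = c / v / √U := by
      rw [Real.sqrt_div (by positivity), Real.sqrt_sq (by positivity)]
    have h8 : gs v c ((c / v) ^ 2 / U) = gs v c U := by
      rw [gs, gs, ps, ps, h7]
      congr 2
      field_simp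
      ring
    simp only [smul_eq_mul]
    rw [abs_neg, abs_of_pos (by positivity), h7, h8]
    have h9 := Real.sq_sqrt hU'.le
    set s := √U
    rw [← h9]
    field_simp

end CSAux

theorem csSt : CSSt := by
  intro v c hv hc
  obtain ⟨h1, h2⟩ := CSAux.main hv hc
  have he : EqOn (fun T => Real.exp (-2 * π * v * c) * (1 / (T * √T) * CSAux.gs v c T))
      (fun T : ℝ => T ^ (-(3 / 2) : ℝ) * Real.exp (-π * T * v ^ 2 - π * c ^ 2 / T)) (Ioi 0) := by
    intro T hT
    have hT' : 0 < T := hT
    have h3 : T ^ (-(3 / 2) : ℝ) = 1 / (T * √T) := by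
      rw [Real.rpow_neg hT'.le, one_div, Real.sqrt_eq_rpow, ← Real.rpow_one_add' hT'.le (by norm_num)]
      norm_num
    simp only
    rw [h3, mul_left_comm, CSAux.gs, ← Real.exp_add, CSAux.ps]
    congr 2
    have h6 : 0 < √T := Real.sqrt_pos.2 hT'
    have h9 := Real.sq_sqrt hT'.le
    set s := √T
    rw [← h9]
    field_simp
    ring
  refine ⟨IntegrableOn.congr_fun (h1.const_mul _) he measurableSet_Ioi, ?_⟩
  rw [← setIntegral_congr_fun measurableSet_Ioi he, integral_const_mul, h2, mul_one_div]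

end Pool.Agent.CU
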