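import Pool.Agent.Lib.MP_ca56d1_nt.CU.U.Tw

/-! The normalised values with arbitrary thresholds. -/

set_option linter.unusedSectionVars false

namespace Pool.Agent.CU

open Complex Filter Topology MeasureTheory Pool.Agent.RM
open scoped Real Classical

variable {K : Type} [Field K] [CharZero K] {ρ : K →+* ℝ} {σ : K →+* ℂ}

namespace HatAux

theorem transfer (hE : EqvSt σ) {f f' z : ℂ} {l l' : ℝ} (h : Hat σ f l z) (h1 : EK σ (f' / f))
    (h2 : l' = l) : Hat σ f' l' z := by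
  obtain ⟨h3, h4, h5⟩ := h
  have h6 : f' ≠ 0 := fun h0 => hE.ek_ne _ h1 (by rw [h0, zero_div])
  refine ⟨h6, ?_, h5.trans h2.symm⟩
  have := hE.ek_div _ _ h4 h1
  rwa [div_div_div_cancel_right₀ h3] at this

theorem log_ee (w : ℂ) : Real.log (‖ee w‖ ^ 2) = -4 * π * w.im := by
  unfold ee
  rw [Complex.norm_exp, ← Real.exp_nat_mul, Real.log_exp]
  simp
  ring

theorem elat_sq {ε : K} {L : Submodule ℤ K} (hL : ELat ε L) : ELat (ε ^ 2) L :=
  ⟨hL.fg, hL.full, fun y => by rw [pow_two, mul_assoc, hL.stab, hL.stab]⟩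

end HatAux

open HatAux

theorem uvalSt (hB : BasSt ρ σ) (h2 : Bas2 ρ σ) (hE : EqvSt σ) (hN : N3St ρ σ) (hV : ValSt ρ σ) :
    UValSt ρ σ := by
  intro ε L y hε hL hy hy' a γ X ha hγ ho hX
  have hl := h2.lt ε L hL
  have hex : ∃ z, IsVal ρ σ ε L y z := by
    obtain ⟨a₀, γ₀, f0, m0, o0⟩ := exists_ori hB h2 hε hl
    obtain ⟨k, hk⟩ := hN ε L y a₀ γ₀ hε hL hy f0 m0 o0
    have h0 := hV.ne L y γ₀ a₀ _ _ _ hl m0 o0 (h2.hs a₀ 0) (h2.hs (tw a₀ ε⁻¹) 0)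
      fun h => absurd h hy'
    have h1 : Hat σ (ph σ γ₀ (coset L y) (hs a₀ 0) (hs (tw a₀ ε⁻¹) 0) 0)
        (pl σ γ₀ (coset L y) (hs a₀ 0) (hs (tw a₀ ε⁻¹) 0) 0)
        (ph σ γ₀ (coset L y) (hs a₀ 0) (hs (tw a₀ ε⁻¹) 0) 0 * ee (σ (k / 2))) := by
      refine ⟨h0, ⟨k / 2, mul_div_cancel_left₀ _ h0⟩, ?_⟩
      have h3 : ee (σ (k / 2)) ≠ 0 := Complex.exp_ne_zero _
      have h4 : (σ (k / 2)).im = (σ k).im / 2 := by
        rw [map_div₀, map_ofNat]; simp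
      rw [norm_mul, mul_pow, Real.log_mul (by simpa using h0) (by simpa using h3), log_ee, h4,
        ← hk]
      obtain ⟨h5, h6⟩ := div_ne_zero_iff.1 h0
      unfold ph pl el
      unfold pN at h5 ⊢
      unfold pD at h6 ⊢
      rw [norm_div, div_pow, Real.log_div (by simpa using h5) (by simpa using h6)]
      ring
    refine ⟨ph σ γ₀ (coset L y) (hs a₀ 0) (hs (tw a₀ ε⁻¹) 0) 0 * ee (σ (k / 2)),
      fun a' γ' f1 m1 o1 => ?_⟩
    obtain ⟨t1, t2⟩ := hV.ind ε L y a' a₀ γ' γ₀ (hs a' 0) (hs a₀ 0) hε hL hy f1 f0 m1 m0 o1 o0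
      (h2.hs _ _) (h2.hs _ _) fun h => absurd h hy'
    exact transfer hE h1 t1 t2
  have h1 : IsVal ρ σ ε L y (uu ρ σ ε L y) := by
    unfold uu
    rw [if_neg hy']
    exact Classical.epsilon_spec hex
  obtain ⟨t1, t2⟩ := hV.ind ε L y a a γ γ X (hs a 0) hε hL hy ha ha hγ hγ ho ho hX (h2.hs _ _)
    fun h => absurd h hy'
  exact transfer hE (h1 a γ ha hγ ho) t1 t2

theorem hatS (hB : BasSt ρ σ) (h2 : Bas2 ρ σ) (hE : EqvSt σ) (hV : ValSt ρ σ) (hZ : ZeroSt ρ σ)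
    (hU : UValSt ρ σ) : HatSt ρ σ where
  val ε L y hε hL hy hy' a γ ha hγ ho := hU ε L y hε hL hy hy' a γ _ ha hγ ho (h2.hs a 0)
  two ε L y a γ A B hε hL hy ha hγ ho h0 := by
    have hl := h2.lt ε L hL
    have hρ : 0 < ρ ε := one_pos.trans hε.one_lt
    have he : ε ≠ 0 := fun h => by simp [h] at hρ
    have hε2 := hB.pow ε hε 2 two_ne_zero
    obtain ⟨-, δ, hδ, oδ⟩ := exists_per hB h2 hε2 hl ha
    have htw : tw (tw a ε⁻¹) ε⁻¹ = tw a (ε ^ 2)⁻¹ := by rw [tw_tw, pow_two, mul_inv]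
    obtain ⟨e1, e2⟩ := hV.hom L (ε * y) γ a _ (hs a B) (hs (tw a ε⁻¹) A) ε 0 hl hγ ho (h2.hs _ _)
      (h2.hs _ _) he
    have s1 : sm ε (coset L (ε * y)) = coset L y := by
      ext x
      change ε⁻¹ * x - ε * y ∈ L ↔ x - y ∈ L
      rw [← hL.stab, show ε * (ε⁻¹ * x - ε * y) = x - y - (ε ^ 2 - 1) * y by field_simp; ring]
      exact ⟨fun h => by simpa using L.add_mem h hy, fun h => L.sub_mem h hy⟩
    have s2 : sm ε (hs a B) = hs (tw a ε⁻¹) B := rfl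
    have s3 : sm ε (hs (tw a ε⁻¹) A) = sm (ε ^ 2) (hs a A) := by
      ext x
      change A < a (ε⁻¹ * (ε⁻¹ * x)) ↔ A < a ((ε ^ 2)⁻¹ * x)
      rw [pow_two, mul_inv, mul_assoc]
    rw [mul_zero, s1, s2, s3] at e1 e2
    have o2 := h2.mul γ a _ ε he ho
    rw [htw] at o2
    obtain ⟨t1, t2⟩ := hV.tri L y γ (ε * γ) (-δ) a _ _ (hs a A) (hs (tw a ε⁻¹) B)
      (sm (ε ^ 2) (hs a A)) hl hγ ((hL.stab _).2 hγ) (L.neg_mem hδ) ho o2 (h2.neg δ _ _ oδ)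
      (h2.hs _ _) (h2.hs _ _) (h2.hs_sm a _ _ (h2.hs _ _)) fun h => by
        have := h0 h
        simpa [hs, sm, iff_comm] using this
    obtain ⟨a1, a2⟩ := hV.anti δ (coset L y) (hs a A) (sm (ε ^ 2) (hs a A)) 0
    rw [e1, a1, ← div_eq_mul_inv] at t1
    rw [e2, a2, ← sub_eq_add_neg, sub_eq_zero] at t2
    by_cases hy' : y ∈ L
    · obtain ⟨j, hj⟩ := hZ ε L a δ (hs a A) hε hL ha hδ oδ (h2.hs _ _)
      have s4 : coset L 0 = coset L y := by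
        ext x
        change x - 0 ∈ L ↔ x - y ∈ L
        rw [sub_zero]
        exact ⟨fun h => L.sub_mem h hy', fun h => by simpa using L.add_mem h hy'⟩
      rw [s4] at hj
      refine ⟨j, 1, ⟨1, one_ne_zero, by simp⟩, fun h => absurd hy' h, ?_⟩
      unfold uu
      rw [if_pos hy', one_mul, mul_one]
      exact transfer hE hj t1 t2
    · refine ⟨0, 1, ⟨1, one_ne_zero, by simp⟩, fun _ => rfl, ?_⟩
      rw [zpow_zero, one_mul, one_mul]
      exact transfer hE (hU _ L y hε2 (elat_sq hL) hy hy' a δ _ ha hδ oδ (h2.hs _ _)) t1 t2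

end Pool.Agent.CU
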