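import Pool.Agent.Lib.MP_ca56d1_nt.CU.U.St

/-! The value of the Hecke integral at zero as a single integral. -/

namespace Pool.Agent.CU

open Complex Filter Topology MeasureTheory Pool.Agent.RM
open scoped Real Classical

namespace HkBAux

theorem term (h1 : T1St) (a b τ l : ℝ) :
    ∫ u in (0 : ℝ)..l, (Real.exp (τ + 3 * u) * a) ^ 1 *
      Real.exp (-π * ((Real.exp (τ + 3 * u) * a) ^ 2 + (Real.exp τ * b) ^ 2)) =
    (gg (Real.exp τ * Real.exp (3 * l) * a) - gg (Real.exp τ * a)) *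
      Real.exp (-π * Real.exp τ ^ 2 * b ^ 2) / 6 := by
  rw [intervalIntegral.integral_eq_sub_of_hasDerivAt
    (f := fun u => gg (Real.exp (τ + 3 * u) * a) * Real.exp (-π * Real.exp τ ^ 2 * b ^ 2) / 6)
    (fun u _ => ?_) (Continuous.intervalIntegrable (by fun_prop) _ _)]
  · rw [mul_zero, add_zero, Real.exp_add]
    ring
  · have h2 : HasDerivAt (fun u => Real.exp (τ + 3 * u) * a)
        (Real.exp (τ + 3 * u) * (3 * 1) * a) u := (((hasDerivAt_id' u).const_mul 3).const_add τ).exp.mul_const a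
    refine ((((h1.deriv _).comp u h2).mul_const
      (Real.exp (-π * Real.exp τ ^ 2 * b ^ 2))).div_const 6).congr_deriv ?_
    rw [mul_add, Real.exp_add (-π * _), mul_pow (Real.exp τ), ← mul_assoc (-π) _ (b ^ 2)]
    ring

theorem bound {a b τ l u : ℝ} (h0 : 0 ≤ u) (hu : u ≤ l) :
    ‖(Real.exp (τ + 3 * u) * a) ^ 1 *
      Real.exp (-π * ((Real.exp (τ + 3 * u) * a) ^ 2 + b))‖ ≤
    Real.exp (3 * l) * (|Real.exp τ * a| ^ 1 * Real.exp (-π * ((Real.exp τ * a) ^ 2 + b))) := by
  rw [pow_one, pow_one, norm_mul, Real.norm_eq_abs, Real.norm_eq_abs, Real.abs_exp, ← mul_assoc,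
    Real.exp_add, mul_right_comm, abs_mul, Real.abs_exp, mul_comm (Real.exp (3 * l))]
  have h1 : 1 ≤ Real.exp (3 * u) := Real.one_le_exp (by linarith)
  have h2 : (Real.exp τ * a) ^ 2 ≤ (Real.exp τ * a * Real.exp (3 * u)) ^ 2 := by
    rw [mul_pow _ (Real.exp (3 * u))]
    exact le_mul_of_one_le_right (sq_nonneg _) (one_le_pow₀ h1)
  have h3 := Real.pi_pos
  gcongr ?_ * Real.exp ?_
  · gcongr
  · nlinarith

theorem integrable_exp : Integrable fun τ : ℝ => Real.exp (-|τ|) := by
  rw [← integrableOn_univ, ← Set.Iic_union_Ioi (a := (0 : ℝ))]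
  refine IntegrableOn.union ((integrableOn_exp_Iic 0).congr_fun (fun x hx => ?_) measurableSet_Iic)
    ((integrableOn_exp_neg_Ioi 0).congr_fun (fun x hx => ?_) measurableSet_Ioi)
  · simp only [abs_of_nonpos (Set.mem_Iic.1 hx), neg_neg]
  · simp only [abs_of_pos (Set.mem_Ioi.1 hx)]

theorem integrable_strip {F : ℝ × ℝ → ℝ} (hF : Continuous F) {l C : ℝ}
    (h : ∀ u τ, 0 ≤ u → u ≤ l → |F (u, τ)| ≤ C * Real.exp (-|τ|)) :
    Integrable F ((volume.restrict (Set.Ioc 0 l)).prod volume) := by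
  refine Integrable.mono' (Integrable.mul_prod (integrable_const C) integrable_exp)
    hF.aestronglyMeasurable ?_
  rw [← Measure.restrict_univ (μ := (volume : Measure ℝ)), Measure.restrict_univ,
    Measure.restrict_prod_eq_prod_univ]
  filter_upwards [ae_restrict_mem (measurableSet_Ioc.prod MeasurableSet.univ)] with p hp
  exact h p.1 p.2 hp.1.1.le hp.1.2

end HkBAux

variable {K : Type} [Field K] [CharZero K] {ρ : K →+* ℝ} {σ : K →+* ℂ}

theorem hkB (h1 : T1St) (h : T3B ρ σ) : HkB ρ σ := by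
  intro L y l hL hy hl
  obtain ⟨hc, hs, A, hb⟩ := h L y l hL hy
  obtain ⟨C, hC⟩ := hb 1
  have hcount : Countable (coset L y) := by
    have := (hs 0 zero_le_one 0 0).countable_support
    rwa [Function.support_eq_univ fun z => by positivity, Set.countable_univ_iff] at this
  have hF : ∀ u τ, 0 ≤ u → u ≤ l →
      |th3 ρ σ (coset L y) 1 (τ + 2 * u) (τ - u)| ≤ C * Real.exp (-|τ|) := fun u τ h0 hu => by
    rcases le_total 0 τ with h2 | h2
    · simpa [abs_of_nonneg h2] using (hC u τ h0 hu).1 h2 1 le_rfl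
    · simpa [abs_of_nonpos h2] using ((hC u τ h0 hu).2 h2).2
  have hC0 : 0 ≤ C := by simpa using (abs_nonneg _).trans (hF 0 0 le_rfl hl.le)
  have i1 := HkBAux.integrable_strip
    (F := fun p => th3 ρ σ (coset L y) 1 (p.2 + 2 * p.1) (p.2 - p.1))
    ((hc 1 le_rfl).comp (f := fun p : ℝ × ℝ => (p.2 + 2 * p.1, p.2 - p.1)) (by fun_prop)) hF
  have i2 := HkBAux.integrable_strip (F := fun p => th3 ρ σ (coset L y) 1 (p.2 + 3 * p.1) p.2)
    ((hc 1 le_rfl).comp (f := fun p : ℝ × ℝ => (p.2 + 3 * p.1, p.2)) (by fun_prop))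
    (C := C * Real.exp l) fun u τ h0 hu => by
      have h2 := hF u (τ + u) h0 hu
      rw [add_sub_cancel_right, show τ + u + 2 * u = τ + 3 * u by ring] at h2
      rw [mul_assoc, ← Real.exp_add]
      refine h2.trans (mul_le_mul_of_nonneg_left (Real.exp_le_exp.2 ?_) hC0)
      have h3 := abs_add_le (τ + u) (-u)
      rw [add_neg_cancel_right, abs_neg, abs_of_nonneg h0] at h3
      linarith
  have key : ∀ τ, ∫ u in Set.Ioc 0 l, th3 ρ σ (coset L y) 1 (τ + 3 * u) τ =
      fF ρ σ (coset L y) (Real.exp (3 * l)) (Real.exp τ) / 6 := fun τ => by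
    rw [← intervalIntegral.integral_of_le hl.le, fF, ← tsum_div_const]
    have h2 := intervalIntegral.hasSum_integral_of_dominated_convergence (μ := volume) (a := 0)
      (b := l) (f := fun u => th3 ρ σ (coset L y) 1 (τ + 3 * u) τ)
      (F := fun (z : coset L y) u => (Real.exp (τ + 3 * u) * ρ z) ^ 1 *
        Real.exp (-π * ((Real.exp (τ + 3 * u) * ρ z) ^ 2 + (Real.exp τ * ‖σ z‖) ^ 2)))
      (fun z _ => Real.exp (3 * l) * (|Real.exp τ * ρ z| ^ 1 *
        Real.exp (-π * ((Real.exp τ * ρ z) ^ 2 + (Real.exp τ * ‖σ z‖) ^ 2))))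
      (fun z => Continuous.aestronglyMeasurable (by fun_prop))
      (fun z => ae_of_all _ fun u hu => by
        rw [Set.uIoc_of_le hl.le] at hu
        exact HkBAux.bound hu.1.le hu.2)
      (ae_of_all _ fun u _ => (hs 1 le_rfl τ τ).mul_left _) intervalIntegrable_const
      (ae_of_all _ fun u _ => (Summable.of_norm (by
        simpa only [norm_mul, norm_pow, Real.norm_eq_abs, Real.abs_exp, abs_mul] using
          hs 1 le_rfl (τ + 3 * u) τ)).hasSum)
    simp only [HkBAux.term h1] at h2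
    exact h2.tsum_eq.symm
  have i3 := i2.integral_prod_right
  simp only [key] at i3
  refine ⟨by simpa using i3.mul_const 6, ?_⟩
  rw [Measure.volume_eq_prod, ← Measure.restrict_prod_eq_prod_univ, integral_prod _ i1,
    ← integral_div, ← funext key, ← integral_prod_symm _ i2, integral_prod _ i2]
  refine integral_congr_ae (ae_of_all _ fun u => ?_)
  beta_reduce
  rw [← integral_add_right_eq_self _ u]
  simp only [add_sub_cancel_right, show ∀ τ : ℝ, τ + u + 2 * u = τ + 3 * u from fun τ => by ring]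

end Pool.Agent.CU
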