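import Pool.Agent.Lib.MP_ca56d1_nt.CU.St
import Pool.Agent.Lib.MP_ca56d1_nt.Poisson

/-! Intermediate statements for line products and the Kronecker limit formula. -/

namespace Pool.Agent.CU

open Complex Filter Topology MeasureTheory Pool.Agent.RM
open scoped Real Classical

variable {K : Type} [Field K] [CharZero K]

/-- The image of `X` under multiplication by `u`. -/
def sm (u : K) (X : Set K) : Set K := {x | u⁻¹ * x ∈ X}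

/-- The reflected complement of `X`. -/
def rf (X : Set K) : Set K := {x | -x ∉ X}

/-- The height of a point in the direction `γ`. -/
noncomputable def ht (σ : K →+* ℂ) (γ x : K) : ℝ := (σ x / σ γ).im

/-! ### Algebra -/

/-- More facts on functionals, half spaces and lattices. -/
structure Bas2 (ρ : K →+* ℝ) (σ : K →+* ℂ) : Prop where
  ker : ∀ γ a b x, Ori σ γ a b → a x = 0 → b x = 0 → ∃ q : ℚ, x = q * γ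
  surj : ∀ γ a b, Ori σ γ a b → ∀ p q : ℚ, ∃ x, a x = p ∧ b x = q
  neg : ∀ γ a b, Ori σ γ a b → Ori σ (-γ) b a
  mul : ∀ γ a b u, u ≠ 0 → Ori σ γ a b → Ori σ (u * γ) (tw a u⁻¹) (tw b u⁻¹)
  pos : ∀ γ γ' a b, Ori σ γ a b → Ori σ γ' a b → ∃ q : ℚ, 0 < q ∧ γ' = q * γ
  scale : ∀ γ a b (p q : ℚ), 0 < p → 0 < q → Ori σ γ a b → Ori σ γ (p • a) (q • b)
  gen : ∀ s : Finset (K →ₗ[ℚ] ℚ), (∀ b ∈ s, b ≠ 0) → ∃ a, Fn ρ σ a ∧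
    ∀ b ∈ s, (¬ ∃ q : ℚ, a = q • b) ∧ ¬ ∃ q : ℚ, b = q • a
  fn_ne : ∀ a, Fn ρ σ a → a ≠ 0
  lt : ∀ (ε : K) L, ELat ε L → Lt L
  inf : ∀ {ι : Type} [Fintype ι] [Nonempty ι] (L : ι → Submodule ℤ K), (∀ i, Lt (L i)) →
    Lt (⨅ i, L i)
  lt_mul : ∀ (u : K) (L : Submodule ℤ K), u ≠ 0 → Lt L →
    ∃ L' : Submodule ℤ K, Lt L' ∧ ∀ x, x ∈ L' ↔ u⁻¹ * x ∈ L
  lt_span : ∀ α β γ : K, (∀ i j k : ℤ, (i : K) * α + j * β + k * γ = 0 → i = 0 ∧ j = 0 ∧ k = 0) →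
    ∃ L : Submodule ℤ K, Lt L ∧ ∀ x, x ∈ L ↔ ∃ i j k : ℤ, x = i * α + j * β + k * γ
  /-- a lattice has a basis -/
  lt_basis : ∀ L : Submodule ℤ K, Lt L → ∃ α β γ : K,
    (∀ i j k : ℤ, (i : K) * α + j * β + k * γ = 0 → i = 0 ∧ j = 0 ∧ k = 0) ∧
    ∀ x, x ∈ L ↔ ∃ i j k : ℤ, x = i * α + j * β + k * γ
  /-- a plane lattice has a basis -/
  pl_basis : ∀ (L : Submodule ℤ K) (b : K →ₗ[ℚ] ℚ), Lt L → b ≠ 0 → ∃ β γ : K, γ ≠ 0 ∧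
    ht σ γ β ≠ 0 ∧ ∀ x, (x ∈ L ∧ b x = 0) ↔ ∃ j k : ℤ, x = j * β + k * γ
  /-- coset decomposition -/
  dec : ∀ (L L' : Submodule ℤ K) (y : K), Lt L → Lt L' → L' ≤ L → ∃ s : Finset K,
    (∀ g ∈ s, g - y ∈ L) ∧ ∀ x, x - y ∈ L → ∃! g, g ∈ s ∧ x - g ∈ L'
  /-- a functional takes finitely many bounded values on a coset -/
  vals : ∀ (L : Submodule ℤ K) (y : K) (a : K →ₗ[ℚ] ℚ) (A₀ A₁ : ℚ), Lt L →
    {r | A₀ ≤ r ∧ r ≤ A₁ ∧ ∃ x ∈ coset L y, a x = r}.Finite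
  hs : ∀ (a : K →ₗ[ℚ] ℚ) A, HS a (hs a A)
  hs_add : ∀ (a : K →ₗ[ℚ] ℚ) X t, HS a X → HS a {x | x - t ∈ X}
  hs_sm : ∀ (a : K →ₗ[ℚ] ℚ) X u, HS a X → HS (tw a u⁻¹) (sm u X)
  hs_rf : ∀ (a : K →ₗ[ℚ] ℚ) X, HS a X → HS a (rf X)

/-- Formal properties of `EK` and `Eqv`. -/
structure EqvSt (σ : K →+* ℂ) : Prop where
  ek_ne : ∀ z, EK σ z → z ≠ 0
  ek_one : EK σ 1
  ek_mul : ∀ z w, EK σ z → EK σ w → EK σ (z * w)
  ek_inv : ∀ z, EK σ z → EK σ z⁻¹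
  ek_div : ∀ z w, EK σ z → EK σ w → EK σ (z / w)
  ek_zpow : ∀ z (n : ℤ), EK σ z → EK σ (z ^ n)
  ek_prod : ∀ {ι : Type} (s : Finset ι) (z : ι → ℂ), (∀ i ∈ s, EK σ (z i)) → EK σ (∏ i ∈ s, z i)
  ek_mu : ∀ z, Mu z → EK σ z
  ek_root : ∀ z (n : ℕ), n ≠ 0 → EK σ (z ^ n) → EK σ z
  refl : ∀ d f, Eqv σ d f f
  symm : ∀ d f g, Eqv σ d f g → Eqv σ d g f
  trans : ∀ d f g h, Eqv σ d f g → Eqv σ d g h → Eqv σ d f h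
  mono : ∀ d d' f g, d ≤ d' → Eqv σ d f g → Eqv σ d' f g
  mul : ∀ d f g f' g', Eqv σ d f g → Eqv σ d f' g' →
    Eqv σ d (fun w => f w * f' w) fun w => g w * g' w
  prod : ∀ d {ι : Type} (s : Finset ι) (f g : ι → ℂ → ℂ), (∀ i ∈ s, Eqv σ d (f i) (g i)) →
    Eqv σ d (fun w => ∏ i ∈ s, f i w) fun w => ∏ i ∈ s, g i w
  /-- affine substitution over `K` -/
  comp : ∀ d f g (u t : K), Eqv σ d f g →
    Eqv σ d (fun w => f (σ u * w + σ t)) fun w => g (σ u * w + σ t)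
  const : ∀ d f C, EK σ C → Eqv σ d (fun w => C * f w) f
  cancel : ∀ d f g h, Continuous f → Continuous g → Differentiable ℂ h → (∃ w, h w ≠ 0) →
    Eqv σ d (fun w => f w * h w) (fun w => g w * h w) → Eqv σ d f g
  /-- a constant that relates an entire function to itself lies in `e(K)` -/
  ek_of : ∀ d f C, Differentiable ℂ f → (∃ w, f w ≠ 0) →
    Eqv σ d (fun w => C * f w) f → EK σ C
  at_pt : ∀ d f g (x : K), Eqv σ d f g → g (σ x) ≠ 0 → EK σ (f (σ x) / g (σ x))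

/-- The extension lemma. -/
def EXSt (σ : K →+* ℂ) : Prop :=
  ∀ (d : ℕ) (N D : ℂ → ℂ) (m₁ m₂ : K), Differentiable ℂ N → Differentiable ℂ D →
    (∀ w, analyticOrderAt N w = analyticOrderAt D w) → (∀ w, analyticOrderAt D w ≠ ⊤) →
    (σ m₁ / σ m₂).im ≠ 0 →
    Eqv σ d (fun w => N (w + σ m₁) * D w) (fun w => N w * D (w + σ m₁)) →
    Eqv σ d (fun w => N (w + σ m₂) * D w) (fun w => N w * D (w + σ m₂)) →
    ∃ C : ℂ, C ≠ 0 ∧ Eqv σ (d + 1) N fun w => C * D w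

/-! ### Line products -/

/-- The generating function half of `LpSt`. -/
structure LpB (σ : K →+* ℂ) : Prop where
  xp : ∀ γ S, Adm σ γ S → Xp (gf σ γ S) (co σ γ S)
  xp_uniq : ∀ G c c', Xp G c → Xp G c' → c = c'
  empty : ∀ γ, γ ≠ 0 → Adm σ γ ∅ ∧ co σ γ ∅ = 0
  union : ∀ γ S T, Adm σ γ S → Adm σ γ T → Disjoint S T → Adm σ γ (S ∪ T) ∧
    co σ γ (S ∪ T) = co σ γ S + co σ γ T
  sdiff : ∀ γ S T, Adm σ γ S → Adm σ γ T → T ⊆ S → Adm σ γ (S \ T)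
  add : ∀ γ S t, Adm σ γ S → Adm σ γ {x | x - t ∈ S} ∧
    ∀ w, nn σ γ {x | x - t ∈ S} (w + σ t) = nn σ γ S w
  mul : ∀ γ S u, u ≠ 0 → Adm σ γ S → Adm σ (u * γ) {x | u⁻¹ * x ∈ S} ∧
    co σ (u * γ) {x | u⁻¹ * x ∈ S} = co σ γ S
  nsmul : ∀ γ S (N : ℕ), N ≠ 0 → Adm σ γ S → Adm σ (N * γ) S ∧
    ∀ w, nn σ (N * γ) S w = nn σ γ S w
  fin : ∀ γ S, γ ≠ 0 → (∀ x, x + γ ∈ S ↔ x ∈ S) → ∀ h : (lines γ S).Finite, Adm σ γ S ∧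
    Adm σ (-γ) S ∧ co σ γ S 0 = 0 ∧ co σ γ S 1 = 0 ∧
    (∀ w, nn σ γ S w = ∑ d ∈ h.toFinset, ((w / σ γ).im - lv σ γ d)) ∧
    ∀ w, nn σ (-γ) S w = -nn σ γ S w
  /-- the expansion seen from the point `w` -/
  shift : ∀ γ S w, Adm σ γ S → ∃ c : Fin 4 → ℝ, c 3 = nn σ γ S w ∧
    Xp (fun t => Real.exp (t * (w / σ γ).im) * gf σ γ S t) c

/-- The product half of `LpSt`. -/
structure LpA (σ : K →+* ℂ) : Prop where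
  diff : ∀ γ S, Adm σ γ S → Differentiable ℂ (lp σ γ S)
  ord : ∀ γ S, Adm σ γ S → ∀ w, analyticOrderAt (lp σ γ S) w = if w ∈ σ '' S then 1 else 0
  ne : ∀ γ S, Adm σ γ S → ∀ w, w ∉ σ '' S → lp σ γ S w ≠ 0
  empty : ∀ γ w, lp σ γ ∅ w = 1
  union : ∀ γ S T, Adm σ γ S → Adm σ γ T → Disjoint S T →
    ∀ w, lp σ γ (S ∪ T) w = lp σ γ S w * lp σ γ T w
  add : ∀ γ S t, Adm σ γ S → ∀ w, lp σ γ {x | x - t ∈ S} (w + σ t) = lp σ γ S w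
  mul : ∀ γ S u, u ≠ 0 → Adm σ γ S → ∀ w, lp σ (u * γ) {x | u⁻¹ * x ∈ S} (σ u * w) = lp σ γ S w
  nsmul : ∀ γ S (N : ℕ), N ≠ 0 → Adm σ γ S → Adm σ (N * γ) S →
    ∀ w, lp σ (N * γ) S w = lp σ γ S w
  fin : ∀ γ S, γ ≠ 0 → (∀ x, x + γ ∈ S ↔ x ∈ S) → ∀ h : (lines γ S).Finite,
    Eqv σ 1 (lp σ (-γ) S) (lp σ γ S) ∧ ∀ w, ‖lp σ (-γ) S w‖ =
      Real.exp (2 * π * ∑ d ∈ h.toFinset, (lv σ γ d - (w / σ γ).im)) * ‖lp σ γ S w‖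
  /-- the logarithm of the absolute value as a sum over lines -/
  log : ∀ γ S, Adm σ γ S → ∀ w, w ∉ σ '' S →
    HasSum (fun d : lines γ S => Real.log (‖1 - ee ((σ d.1.out - w) / σ γ)‖ ^ 2))
      (Real.log (‖lp σ γ S w‖ ^ 2))
  /-- linear relations between sets with a common period -/
  same : ∀ {ι : Type} [Fintype ι] (γ : K) (S : ι → Set K) (n : ι → ℤ), (∀ i, Adm σ γ (S i)) →
    (∀ x, ∑ i, (if x ∈ S i then n i else 0) = 0) → ∀ w, (∀ i, w ∉ σ '' S i) →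
    ∏ i, lp σ γ (S i) w ^ n i = 1

/-- The coefficient of `t` in `exp (-t v) / ((1 - exp (-t P)) (1 - exp (-t Q)))`. -/
noncomputable def b23 (v P Q : ℝ) : ℝ :=
  (P * Q * (P + Q) / 24 - (P ^ 2 + 3 * P * Q + Q ^ 2) * v / 12 + (P + Q) * v ^ 2 / 4 - v ^ 3 / 6) /
    (P * Q)

/-- The expansion for a simplicial cone of lines. -/
def ConeSt (σ : K →+* ℂ) : Prop :=
  ∀ γ α β x₀ : K, γ ≠ 0 → 0 < ht σ γ α → 0 < ht σ γ β →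
    (∀ i j k : ℤ, (i : K) * α + j * β + k * γ = 0 → i = 0 ∧ j = 0 ∧ k = 0) →
    Adm σ γ {x | ∃ (i j : ℕ) (k : ℤ), x = x₀ + i * α + j * β + k * γ} ∧
      co σ γ {x | ∃ (i j : ℕ) (k : ℤ), x = x₀ + i * α + j * β + k * γ} 3 =
        b23 (ht σ γ x₀) (ht σ γ α) (ht σ γ β)

/-- The normalising exponent of the elliptic gamma value lies in `Im σ K`. -/
def N3St (ρ : K →+* ℝ) (σ : K →+* ℂ) : Prop :=
  ∀ ε L y a γ, Eps ρ σ ε → ELat ε L → (ε - 1) * y ∈ L → Fn ρ σ a → γ ∈ L →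
    Ori σ γ a (tw a ε⁻¹) → ∃ k : K,
      nn σ γ (coset L y ∩ (hs a 0 \ hs (tw a ε⁻¹) 0)) 0 -
        nn σ (-γ) (coset L y ∩ (hs (tw a ε⁻¹) 0 \ hs a 0)) 0 = (σ k).im

/-- First transformation law of theta functions. -/
def TL1St (σ : K →+* ℂ) : Prop :=
  ∀ L y γ a b r Y Y', Lt L → γ ∈ L → Ori σ γ a b → HS b Y → HS b Y' →
    Eqv σ 1 (th σ γ (plane (coset L y) a r) Y) (th σ γ (plane (coset L y) a r) Y')

/-- Second transformation law of theta functions. -/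
def TL2St (σ : K →+* ℂ) : Prop :=
  ∀ L y γ γ' a b b' r Y Y', Lt L → γ ∈ L → γ' ∈ L → Ori σ γ a b → Ori σ γ' a b' → HS b Y →
    HS b' Y' → Eqv σ 2 (th σ γ (plane (coset L y) a r) Y) (th σ γ' (plane (coset L y) a r) Y')

/-- Change of the first half space by finitely many planes. -/
def StepSt (σ : K →+* ℂ) : Prop :=
  ∀ L y γ a b X X' Y, Lt L → γ ∈ L → Ori σ γ a b → HS a X → HS a X' → HS b Y → X ⊆ X' →
    ∀ s : Finset ℚ, (∀ x ∈ coset L y, (x ∈ X' ∧ x ∉ X ↔ a x ∈ s)) → ∀ w,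
      pN σ γ (coset L y) X' Y w * pD σ γ (coset L y) X Y w =
        (∏ r ∈ s, th σ γ (plane (coset L y) a r) Y w) *
          (pN σ γ (coset L y) X Y w * pD σ γ (coset L y) X' Y w)

/-- The cocycle relation. -/
def CocSt (σ : K →+* ℂ) : Prop :=
  ∀ L y γ₁ γ₂ γ₃ a b c X Y W, Lt L → γ₁ ∈ L → γ₂ ∈ L → γ₃ ∈ L → Ori σ γ₁ a b →
    Ori σ γ₂ b c → Ori σ γ₃ c a → HS a X → HS b Y → HS c W →
    Eqv σ 3
      (fun w => pN σ γ₁ (coset L y) X Y w * pN σ γ₂ (coset L y) Y W w * pN σ γ₃ (coset L y) W X w)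
      (fun w => pD σ γ₁ (coset L y) X Y w * pD σ γ₂ (coset L y) Y W w * pD σ γ₃ (coset L y) W X w)

/-- Rules for the values at zero. -/
structure ValSt (ρ : K →+* ℝ) (σ : K →+* ℂ) : Prop where
  ne : ∀ L y γ a b X Y, Lt L → γ ∈ L → Ori σ γ a b → HS a X → HS b Y →
    (y ∈ L → (0 ∈ X ↔ 0 ∈ Y)) → ph σ γ (coset L y) X Y 0 ≠ 0
  anti : ∀ (γ : K) Λ X Y w, ph σ (-γ) Λ Y X w = (ph σ γ Λ X Y w)⁻¹ ∧
    pl σ (-γ) Λ Y X w = -pl σ γ Λ X Y w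
  hom : ∀ L y γ a b X Y u w, Lt L → γ ∈ L → Ori σ γ a b → HS a X → HS b Y → u ≠ 0 →
    ph σ (u * γ) (sm u (coset L y)) (sm u X) (sm u Y) (σ u * w) = ph σ γ (coset L y) X Y w ∧
    pl σ (u * γ) (sm u (coset L y)) (sm u X) (sm u Y) (σ u * w) = pl σ γ (coset L y) X Y w
  refl : ∀ L y γ a b X Y w, Lt L → γ ∈ L → Ori σ γ a b → HS a X → HS b Y →
    ph σ γ (coset L (-y)) (rf X) (rf Y) (-w) = (ph σ γ (coset L y) X Y w)⁻¹ ∧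
    pl σ γ (coset L (-y)) (rf X) (rf Y) (-w) = -pl σ γ (coset L y) X Y w
  tri : ∀ L y γ₁ γ₂ γ₃ a b c X Y W, Lt L → γ₁ ∈ L → γ₂ ∈ L → γ₃ ∈ L → Ori σ γ₁ a b →
    Ori σ γ₂ b c → Ori σ γ₃ c a → HS a X → HS b Y → HS c W →
    (y ∈ L → (0 ∈ X ↔ 0 ∈ Y) ∧ (0 ∈ Y ↔ 0 ∈ W)) →
    EK σ (ph σ γ₁ (coset L y) X Y 0 * ph σ γ₂ (coset L y) Y W 0 * ph σ γ₃ (coset L y) W X 0) ∧
    pl σ γ₁ (coset L y) X Y 0 + pl σ γ₂ (coset L y) Y W 0 + pl σ γ₃ (coset L y) W X 0 = 0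
  /-- independence of the functional, the period and the threshold -/
  ind : ∀ ε L y a a' γ γ' X X', Eps ρ σ ε → ELat ε L → (ε - 1) * y ∈ L → Fn ρ σ a → Fn ρ σ a' →
    γ ∈ L → γ' ∈ L → Ori σ γ a (tw a ε⁻¹) → Ori σ γ' a' (tw a' ε⁻¹) → HS a X → HS a' X' →
    (y ∈ L → (0 ∈ X ↔ 0 ∈ X')) →
    EK σ (ph σ γ (coset L y) X (sm ε X) 0 / ph σ γ' (coset L y) X' (sm ε X') 0) ∧
    pl σ γ (coset L y) X (sm ε X) 0 = pl σ γ' (coset L y) X' (sm ε X') 0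

/-- The value of the lattice itself at level `ε ^ 2`. -/
def ZeroSt (ρ : K →+* ℝ) (σ : K →+* ℂ) : Prop :=
  ∀ ε L a γ X, Eps ρ σ ε → ELat ε L → Fn ρ σ a → γ ∈ L → Ori σ γ a (tw a (ε ^ 2)⁻¹) → HS a X →
    ∃ j : ℤ, Hat σ (ph σ γ (coset L 0) X (sm (ε ^ 2) X) 0) (pl σ γ (coset L 0) X (sm (ε ^ 2) X) 0)
      (σ ε ^ j)

/-- The first half of `HatSt`. -/
def UValSt (ρ : K →+* ℝ) (σ : K →+* ℂ) : Prop :=
  ∀ ε L y, Eps ρ σ ε → ELat ε L → (ε - 1) * y ∈ L → y ∉ L → ∀ a γ X, Fn ρ σ a → γ ∈ L →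
    Ori σ γ a (tw a ε⁻¹) → HS a X →
    Hat σ (ph σ γ (coset L y) X (sm ε X) 0) (pl σ γ (coset L y) X (sm ε X) 0) (uu ρ σ ε L y)

/-- The distribution relation of `PartU`. -/
def LinSt (ρ : K →+* ℝ) (σ : K →+* ℂ) : Prop :=
  ∀ ε, Eps ρ σ ε → ∀ {ι : Type} [Fintype ι] (L : ι → Submodule ℤ K) (y : ι → K) (k : ι → ℕ)
    (n : ι → ℤ), (∀ i, ELat ε (L i)) → (∀ i, k i ≠ 0) → (∀ i, (ε ^ k i - 1) * y i ∈ L i) →
    (∀ i, y i ∉ L i) →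
    (∀ x, ∑ i, ∑ j ∈ Finset.range (k i), (if x - ε ^ j * y i ∈ L i then n i else 0) = 0) →
    Mu (∏ i, uu ρ σ (ε ^ k i) (L i) (y i) ^ n i)

/-! ### Finite parts -/

/-- The cut off kernel. -/
noncomputable def cut (r T : ℝ) : ℝ := Real.exp (-π * r ^ 2 / T) / T

/-- A Bessel integral of half integral order. -/
def CSSt : Prop := ∀ v c : ℝ, 0 < v → 0 < c →
  IntegrableOn (fun T : ℝ => T ^ (-(3 / 2) : ℝ) * Real.exp (-π * T * v ^ 2 - π * c ^ 2 / T))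
    (Set.Ioi 0) ∧
  ∫ T in Set.Ioi (0 : ℝ), T ^ (-(3 / 2) : ℝ) * Real.exp (-π * T * v ^ 2 - π * c ^ 2 / T) =
    Real.exp (-2 * π * v * c) / c

/-- The finite part for one line. -/
def LineSt : Prop := ∀ τ : ℂ, (∀ T : ℝ, 0 < T → Summable fun n : ℤ =>
    Real.exp (-π * T * ‖τ + n‖ ^ 2)) ∧ (τ.im ≠ 0 → ∃ R : ℝ → ℝ, (∀ r, 0 < r →
    IntegrableOn (fun T => (∑' n : ℤ, Real.exp (-π * T * ‖τ + n‖ ^ 2)) * cut r T) (Set.Ioi 0) ∧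
    ∫ T in Set.Ioi (0 : ℝ), (∑' n : ℤ, Real.exp (-π * T * ‖τ + n‖ ^ 2)) * cut r T =
      Real.exp (-2 * π * |τ.im| * r) / r + R r ∧
    |R r| ≤ 2 * Real.exp (-2 * π * |τ.im|) / (1 - Real.exp (-2 * π * |τ.im|))) ∧
    Tendsto R (𝓝[>] 0) (𝓝 (-Real.log (‖1 - ee τ‖ ^ 2) + 2 * π * (|τ.im| - τ.im))))

/-- The theta series of `S` seen from `w`. -/
noncomputable def Th (σ : K →+* ℂ) (S : Set K) (w : ℂ) (T : ℝ) : ℝ :=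
  ∑' x : S, Real.exp (-π * T * ‖σ x - w‖ ^ 2)

/-- The finite part of the theta integral is `-el`. -/
def FPSt (σ : K →+* ℂ) : Prop :=
  ∀ γ S w, Adm σ γ S → (∀ x ∈ S, ((σ x - w) / σ γ).im ≠ 0) →
    (∀ T : ℝ, 0 < T → Summable fun x : S => Real.exp (-π * T * ‖σ x - w‖ ^ 2)) ∧
    (∀ r : ℝ, 0 < r → IntegrableOn (fun T => Th σ S w T * cut r T) (Set.Ioi 0)) ∧
    ∃ A : Fin 3 → ℝ, Tendsto (fun r : ℝ => (∫ T in Set.Ioi (0 : ℝ), Th σ S w T * cut r T) -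
      (A 0 / r ^ 3 + A 1 / r ^ 2 + A 2 / r)) (𝓝[>] 0) (𝓝 (-el σ γ S w))

/-- Uniqueness of finite parts. -/
def FinSt : Prop := ∀ (A B C l : ℝ),
  Tendsto (fun r : ℝ => A / r ^ 3 + B / r ^ 2 + C / r) (𝓝[>] 0) (𝓝 l) → l = 0

/-! ### Theta series -/

/-- A Gaussian on a shifted lattice. -/
noncomputable def gq {ι : Type} [Fintype ι] (B : Matrix ι ι ℝ) (c : ι → ℝ) (t : ℝ) (k : ι → ℤ) :
    ℝ := Real.exp (-π * t ^ 2 * ∑ i, (Stark.lpt B k i + c i) ^ 2)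

/-- Uniform bounds for shifted theta series. -/
structure GaussSt : Prop where
  sum : ∀ {ι : Type} [Fintype ι] [DecidableEq ι] (B : Matrix ι ι ℝ) (c : ι → ℝ) (t : ℝ),
    B.det ≠ 0 → 0 < t → Summable (gq B c t) ∧
      ∀ j, Summable fun k => |Stark.lpt B k j + c j| * gq B c t k
  bd : ∀ (ι : Type) [Fintype ι] [DecidableEq ι] (M : ℝ) (N : ℕ), ∃ C : ℝ, 0 ≤ C ∧
    ∀ (B : Matrix ι ι ℝ) (c : ι → ℝ) (t : ℝ), B.det ≠ 0 → (∀ i j, |B i j| ≤ M) → 0 < t → t ≤ 1 →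
      |∑' k, gq B c t k - 1 / (|B.det| * t ^ Fintype.card ι)| ≤ C * t ^ N / |B.det| ∧
      ∀ j, |∑' k, (Stark.lpt B k j + c j) * gq B c t k| ≤ C * t ^ N / |B.det|

/-- A sheared Gaussian on `K`. -/
noncomputable def q3 (ρ : K →+* ℝ) (σ : K →+* ℂ) (p : ℝ) (c : ℂ) (t : ℝ) (x : K) : ℝ :=
  Real.exp (-π * t ^ 2 * ((p * ρ x + (c * σ x).re) ^ 2 + ‖σ x‖ ^ 2))

/-- Theta series of cosets and of planes. -/
structure T3St (ρ : K →+* ℝ) (σ : K →+* ℂ) : Prop where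
  sum : ∀ (L : Submodule ℤ K) (y : K) p c t, Lt L → p ≠ 0 → 0 < t →
    Summable fun x : coset L y => (1 + |ρ x| + ‖σ x‖) * q3 ρ σ p c t x
  bd : ∀ (L : Submodule ℤ K) (y : K) (M : ℝ) (N : ℕ), Lt L → ∃ A C : ℝ, ∀ p c t, 1 ≤ p → p ≤ M →
    ‖c‖ ≤ M → 0 < t → t ≤ 1 →
    |∑' x : coset L y, q3 ρ σ p c t x - A / (p * t ^ 3)| ≤ C * t ^ N ∧
    |∑' x : coset L y, ρ x * q3 ρ σ p c t x| ≤ C * t ^ N ∧
    ∀ c' : ℂ, ‖c'‖ ≤ M → |∑' x : coset L y, (c' * σ x).re * q3 ρ σ p c t x| ≤ C * t ^ N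
  low : ∀ L y, Lt L → y ∉ L → ∃ μ : ℝ, 0 < μ ∧ ∀ x ∈ coset L y, μ ≤ ρ x ^ 2 + ‖σ x‖ ^ 2
  plane : ∀ L (b : K →ₗ[ℚ] ℚ) (N : ℕ), Lt L → b ≠ 0 → ∃ A C : ℝ, ∀ y r (t : ℝ), 0 < t →
    (Summable fun x : plane (coset L y) b r => Real.exp (-π * t ^ 2 * ‖σ x‖ ^ 2)) ∧
    ((plane (coset L y) b r).Nonempty → t ≤ 1 →
      |∑' x : plane (coset L y) b r, Real.exp (-π * t ^ 2 * ‖σ x‖ ^ 2) - A / t ^ 2| ≤ C * t ^ N)

/-- The error function. -/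
noncomputable def gg (x : ℝ) : ℝ := 2 * ∫ u in (0 : ℝ)..x, Real.exp (-π * u ^ 2)

/-- The sign function with value `-1` at zero. -/
noncomputable def sg (x : ℝ) : ℝ := if 0 < x then 1 else -1

/-- The error function on a progression. -/
structure T1St : Prop where
  deriv : ∀ x, HasDerivAt gg (2 * Real.exp (-π * x ^ 2)) x
  tail : ∀ x, |gg x - sg x| ≤ Real.exp (-π * x ^ 2)
  sum : ∀ s θ : ℝ, 0 < s → ∃ c C : ℝ, ∀ t, 0 < t → t ≤ 1 →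
    (Summable fun n : ℤ => |gg (t * (s * n + θ)) - sg (s * n + θ)|) ∧
    |∑' n : ℤ, (gg (t * (s * n + θ)) - sg (s * n + θ)) - c| ≤ C * t ^ 3 ∧
    ∑' n : ℤ, |gg (t * (s * n + θ)) - sg (s * n + θ)| ≤ C / t

/-- The non holomorphic theta series of the functional `b`. -/
noncomputable def psi (ρ : K →+* ℝ) (σ : K →+* ℂ) (Λ : Set K) (b : K →ₗ[ℚ] ℚ) (t₁ t : ℝ) : ℝ :=
  ∑' x : Λ, (gg (t₁ * ρ x) - sg (b x : ℚ)) * Real.exp (-π * t ^ 2 * ‖σ x‖ ^ 2)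

/-- Convergence, continuity and decay of `psi`. -/
structure PsiA (ρ : K →+* ℝ) (σ : K →+* ℂ) : Prop where
  sum : ∀ (L : Submodule ℤ K) (y : K) (b : K →ₗ[ℚ] ℚ) (t₁ t : ℝ), Lt L → Fn ρ σ b → 0 < t₁ →
    0 < t → Summable fun x : coset L y =>
    (gg (t₁ * ρ x) - sg (b x : ℚ)) * Real.exp (-π * t ^ 2 * ‖σ x‖ ^ 2)
  cont : ∀ L y b, Lt L → Fn ρ σ b →
    Continuous fun τ : ℝ => psi ρ σ (coset L y) b (Real.exp τ) (Real.exp τ)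
  big : ∀ L y b, Lt L → y ∉ L → Fn ρ σ b → ∃ C : ℝ, ∀ t, 1 ≤ t →
    |psi ρ σ (coset L y) b t t| ≤ C / t

/-- The behaviour of `psi` at zero. -/
def PsiB (ρ : K →+* ℝ) (σ : K →+* ℂ) : Prop :=
  ∀ L y b, Lt L → Fn ρ σ b → ∃ c C : ℝ, ∀ t, 0 < t → t ≤ 1 →
    |psi ρ σ (coset L y) b t t - c / t ^ 2| ≤ C * t

/-- The Hecke theta series (`j = 0`: even, `j = 1`: odd at the real place). -/
noncomputable def th3 (ρ : K →+* ℝ) (σ : K →+* ℂ) (Λ : Set K) (j : ℕ) (x y : ℝ) : ℝ :=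
  ∑' z : Λ, (Real.exp x * ρ z) ^ j *
    Real.exp (-π * ((Real.exp x * ρ z) ^ 2 + (Real.exp y * ‖σ z‖) ^ 2))

/-- Bounds for the Hecke theta series on a strip. -/
def T3B (ρ : K →+* ℝ) (σ : K →+* ℂ) : Prop :=
  ∀ L y (l : ℝ), Lt L → y ∉ L →
    (∀ j ≤ 1, Continuous fun v : ℝ × ℝ => th3 ρ σ (coset L y) j v.1 v.2) ∧
    (∀ j ≤ 1, ∀ x x' : ℝ, Summable fun z : coset L y => |Real.exp x * ρ z| ^ j *
      Real.exp (-π * ((Real.exp x * ρ z) ^ 2 + (Real.exp x' * ‖σ z‖) ^ 2))) ∧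
    ∃ A : ℝ, ∀ R : ℝ, ∃ C : ℝ, ∀ u τ : ℝ, 0 ≤ u → u ≤ l →
      (0 ≤ τ → ∀ j ≤ 1, |th3 ρ σ (coset L y) j (τ + 2 * u) (τ - u)| ≤ C * Real.exp (-R * τ)) ∧
      (τ ≤ 0 → |th3 ρ σ (coset L y) 0 (τ + 2 * u) (τ - u) - A * Real.exp (-3 * τ)| ≤
          C * Real.exp (R * τ) ∧
        |th3 ρ σ (coset L y) 1 (τ + 2 * u) (τ - u)| ≤ C * Real.exp (R * τ))

/-- Hecke's continuation of the even and of the odd zeta function. -/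
def HkA (ρ : K →+* ℝ) (σ : K →+* ℂ) : Prop :=
  ∀ ε L y, Eps ρ σ ε → ELat ε L → (ε - 1) * y ∈ L → y ∉ L → ∀ {ι : Type} (a : ι → K),
    IsFD ε (coset L y) a →
    (∀ x : ℝ, 1 < x → Summable fun i => (|ρ (a i)| * ‖σ (a i)‖ ^ 2) ^ (-x)) ∧
    (∃ Z : ℂ → ℂ, StarkStmt.IsCont (zfam ρ σ a) Z ∧ Z 0 = 0 ∧ deriv Z 0 = 0) ∧
    ∃ Z : ℂ → ℂ, Differentiable ℂ Z ∧ (∀ s : ℂ, 1 < s.re →
      Z s = ∑' i, (sg (ρ (a i)) : ℂ) * ((|ρ (a i)| * ‖σ (a i)‖ ^ 2 : ℝ) : ℂ) ^ (-s)) ∧ Z 0 = 0 ∧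
      deriv Z 0 = ((12 * ∫ p in Set.Ioc 0 (Real.log (ρ ε) / 2) ×ˢ (Set.univ : Set ℝ),
        th3 ρ σ (coset L y) 1 (p.2 + 2 * p.1) (p.2 - p.1) : ℝ) : ℂ)

/-- The odd theta series integrated over the unit orbit. -/
noncomputable def fF (ρ : K →+* ℝ) (σ : K →+* ℂ) (Λ : Set K) (κ t : ℝ) : ℝ :=
  ∑' x : Λ, (gg (t * κ * ρ x) - gg (t * ρ x)) * Real.exp (-π * t ^ 2 * ‖σ x‖ ^ 2)

/-- The value of the Hecke integral at zero as a single integral. -/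
def HkB (ρ : K →+* ℝ) (σ : K →+* ℂ) : Prop :=
  ∀ L y (l : ℝ), Lt L → y ∉ L → 0 < l →
    Integrable (fun τ : ℝ => fF ρ σ (coset L y) (Real.exp (3 * l)) (Real.exp τ)) ∧
    ∫ p in Set.Ioc 0 l ×ˢ (Set.univ : Set ℝ), th3 ρ σ (coset L y) 1 (p.2 + 2 * p.1) (p.2 - p.1) =
      (∫ τ : ℝ, fF ρ σ (coset L y) (Real.exp (3 * l)) (Real.exp τ)) / 6

/-- The limit formula for the single integral. -/
def LimSt (ρ : K →+* ℝ) (σ : K →+* ℂ) : Prop :=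
  ∀ ε L y a γ, Eps ρ σ ε → ELat ε L → (ε - 1) * y ∈ L → y ∉ L → Fn ρ σ a → γ ∈ L →
    Ori σ γ a (tw a ε⁻¹) →
    ∫ τ : ℝ, fF ρ σ (coset L y) (Real.exp (3 * (Real.log (ρ ε) / 2))) (Real.exp τ) =
      -pl σ γ (coset L y) (hs a 0) (hs (tw a ε⁻¹) 0) 0

/-- The Kronecker limit formula of `PartU`. -/
def KlfSt (ρ : K →+* ℝ) (σ : K →+* ℂ) : Prop :=
  ∀ ε L y, Eps ρ σ ε → ELat ε L → (ε - 1) * y ∈ L → y ∉ L → ∀ {ι : Type} (a : ι → K),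
    IsFD ε {x | x ∈ coset L y ∧ 0 < ρ x} a → ∃ Z : ℂ → ℂ, StarkStmt.IsCont (zfam ρ σ a) Z ∧
      Z 0 = 0 ∧ deriv Z 0 = ((-Real.log (‖uu ρ σ ε L y‖ ^ 2) : ℝ) : ℂ)

end Pool.Agent.CU
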