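import Pool.Agent.Lib.MP_ca56d1_nt.CU.U.St

/-! Twisting a functional by an irrational element gives an independent functional. -/

namespace Pool.Agent.CU

open Pool.Agent.RM

variable {K : Type} [Field K] [CharZero K] {ρ : K →+* ℝ} {σ : K →+* ℂ}

theorem tw_apply (a : K →ₗ[ℚ] ℚ) (u x : K) : tw a u x = a (u * x) := rfl

theorem tw_tw (a : K →ₗ[ℚ] ℚ) (u v : K) : tw (tw a u) v = tw a (u * v) :=
  LinearMap.ext fun x => by rw [tw_apply, tw_apply, tw_apply, mul_assoc]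

theorem tw_one (a : K →ₗ[ℚ] ℚ) : tw a 1 = a := LinearMap.ext fun x => by rw [tw_apply, one_mul]

theorem tw_indep {a : K →ₗ[ℚ] ℚ} {u : K} (ha : a ≠ 0) (hu : ¬ ∃ q : ℚ, u = q) :
    ¬ ∃ q : ℚ, tw a u = q • a := by
  rintro ⟨q, hq⟩
  refine ha (LinearMap.ext fun x => ?_)
  have h0 : u - q ≠ 0 := fun h => hu ⟨q, sub_eq_zero.1 h⟩
  have h1 := LinearMap.congr_fun hq ((u - q)⁻¹ * x)
  rw [tw_apply, LinearMap.smul_apply, ← map_smul, ← sub_eq_zero, ← map_sub, Rat.smul_def,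
    ← sub_mul, mul_inv_cancel_left₀ h0] at h1
  exact h1

/-- An oriented period for a given positive functional and its twist by `ε⁻¹`. -/
theorem exists_per (hB : BasSt ρ σ) (h2 : Bas2 ρ σ) {ε : K} {L : Submodule ℤ K}
    {a : K →ₗ[ℚ] ℚ} (hε : Eps ρ σ ε) (hL : Lt L) (ha : Fn ρ σ a) :
    Fn ρ σ (tw a ε⁻¹) ∧ ∃ γ ∈ L, Ori σ γ a (tw a ε⁻¹) := by
  have h1 := hB.fn_tw a ε⁻¹ ha (by rw [map_inv₀]; exact inv_pos.2 (one_pos.trans hε.one_lt))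
  exact ⟨h1, hB.ori a _ L ha h1 (tw_indep (h2.fn_ne a ha) fun ⟨q, hq⟩ => hB.irr ε hε ⟨q⁻¹, by
    rw [Rat.cast_inv, ← hq, inv_inv]⟩) hL⟩

theorem exists_ori (hB : BasSt ρ σ) (h2 : Bas2 ρ σ) {ε : K} {L : Submodule ℤ K} (hε : Eps ρ σ ε)
    (hL : Lt L) : ∃ a γ, Fn ρ σ a ∧ γ ∈ L ∧ Ori σ γ a (tw a ε⁻¹) := by
  obtain ⟨a, ha, -⟩ := h2.gen ∅ (by simp)
  obtain ⟨γ, h1, h3⟩ := (exists_per hB h2 hε hL ha).2
  exact ⟨a, γ, ha, h1, h3⟩

omit [CharZero K] in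
theorem stab_coset {ε y : K} {L : Submodule ℤ K} (hL : ELat ε L) (hy : (ε - 1) * y ∈ L) :
    Stab ε (coset L y) := fun x => by
  change ε * x - y ∈ L ↔ x - y ∈ L
  rw [show ε * x - y = ε * (x - y) + (ε - 1) * y by ring, L.add_mem_iff_left hy, hL.stab]

end Pool.Agent.CU
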